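import Mathlib

/-!
# The Faltings height of an elliptic curve given by a Weierstrass equation with unit discriminant
-/

open MeasureTheory NumberField

namespace FreyHt

/-- The area integral `∫_ℂ d²x / |4x³ + b₂ x² + 2 b₄ x + b₆|` of a complex Weierstrass curve.
Twice this number is `(i/2) ∫_{E(ℂ)} ω ∧ ω̄` for `ω = dx / (2y + a₁x + a₃)`, because
`(2y + a₁x + a₃)² = 4x³ + b₂x² + 2b₄x + b₆` and `x : E(ℂ) → ℙ¹(ℂ)` has degree two. -/
noncomputable def areaIntegral (W : WeierstrassCurve ℂ) : ℝ :=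
  ∫ x : ℂ, ‖4 * x ^ 3 + W.b₂ * x ^ 2 + 2 * W.b₄ * x + W.b₆‖⁻¹

/-- The Faltings height of the elliptic curve over the number field `K` given by a Weierstrass
equation `W` over `𝓞 K` with unit discriminant (so with good reduction at every finite place).
For such an equation `W` is the Néron model, `ω = dx / (2y + a₁x + a₃)` generates the Hodge
bundle over `𝓞 K`, and so the Arakelov degree divided by `[K : ℚ]` is
`- (1 / [K : ℚ]) ∑_σ log ‖ω‖_σ` with `‖ω‖_σ² = (i/2) ∫ ω ∧ ω̄ = 2 areaIntegral (σ W)`, the sum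
running over all embeddings `σ : K → ℂ`. -/
noncomputable def faltingsHeight (K : Type*) [Field K] [NumberField K]
    (W : WeierstrassCurve (𝓞 K)) : ℝ :=
  -(1 / (2 * (Module.finrank ℚ K : ℝ))) *
    ∑ σ : K →+* ℂ, Real.log (2 * areaIntegral (W.map (σ.comp (algebraMap (𝓞 K) K))))

end FreyHt
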