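import Mathlib

/-!
# A sharp upper bound for the area integral of a Weierstrass cubic

For pairwise distinct `e₁ e₂ e₃ : ℂ` with `‖e₁ - e₂‖` the smallest distance and
`R ≤ ‖e₁ - e₃‖, ‖e₂ - e₃‖`, the integral of `‖(x - e₁)(x - e₂)(x - e₃)‖⁻¹` is
`O((1 + log (R / ‖e₁ - e₂‖)) / R)`.
-/

set_option autoImplicit false

open MeasureTheory Set

namespace FreySharp

/-- The radial comparison kernel. -/
noncomputable def gk (δ R r : ℝ) : ℝ := (r * max r δ * max r R)⁻¹

lemma gk_nonneg {δ R r : ℝ} (hδ : 0 < δ) (hR : 0 < R) (hr : 0 ≤ r) : 0 ≤ gk δ R r := by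
  unfold gk
  have h1 : 0 ≤ max r δ := le_trans hδ.le (le_max_right _ _)
  have h2 : 0 ≤ max r R := le_trans hR.le (le_max_right _ _)
  positivity

/-- The three pieces of the radial integral. -/
lemma gk_radial {δ R : ℝ} (hδ : 0 < δ) (hδR : δ ≤ R) :
    IntegrableOn (fun y : ℝ => y * gk δ R y) (Ioi 0) ∧
    ∫ y in Ioi (0 : ℝ), y * gk δ R y = (2 + Real.log (R / δ)) / R := by
  have hR : 0 < R := lt_of_lt_of_le hδ hδR
  have hs1 : Ioi (0 : ℝ) = Ioc 0 δ ∪ Ioi δ := (Ioc_union_Ioi_eq_Ioi hδ.le).symm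
  have hs2 : Ioi δ = Ioc δ R ∪ Ioi R := (Ioc_union_Ioi_eq_Ioi hδR).symm
  -- piece 1
  have e1 : ∀ y ∈ Ioc (0 : ℝ) δ, y * gk δ R y = (δ * R)⁻¹ := by
    intro y hy
    unfold gk
    rw [max_eq_right hy.2, max_eq_right (hy.2.trans hδR)]
    have hy0 : y ≠ 0 := hy.1.ne'
    field_simp
  have e2 : ∀ y ∈ Ioc δ R, y * gk δ R y = y⁻¹ * R⁻¹ := by
    intro y hy
    have hy0 : 0 < y := lt_trans hδ hy.1
    unfold gk
    rw [max_eq_left hy.1.le, max_eq_right hy.2]
    field_simp
  have e3 : ∀ y ∈ Ioi R, y * gk δ R y = y ^ (-2 : ℝ) := by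
    intro y hy
    have hy0 : 0 < y := lt_trans hR hy
    have hyδ : δ ≤ y := hδR.trans (le_of_lt hy)
    unfold gk
    rw [max_eq_left hyδ, max_eq_left (le_of_lt hy), Real.rpow_neg hy0.le, Real.rpow_two]
    field_simp
  have i1 : IntegrableOn (fun y : ℝ => y * gk δ R y) (Ioc 0 δ) := by
    refine IntegrableOn.congr_fun (f := fun _ => (δ * R)⁻¹) ?_ (fun y hy => (e1 y hy).symm)
      measurableSet_Ioc
    exact integrableOn_const (by simp) enorm_ne_top
  have i2 : IntegrableOn (fun y : ℝ => y * gk δ R y) (Ioc δ R) := by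
    refine IntegrableOn.congr_fun (f := fun y => y⁻¹ * R⁻¹) ?_ (fun y hy => (e2 y hy).symm)
      measurableSet_Ioc
    have : IntervalIntegrable (fun y : ℝ => y⁻¹) volume δ R := by
      apply intervalIntegral.intervalIntegrable_inv
      · intro x hx
        rw [uIcc_of_le hδR] at hx
        exact (lt_of_lt_of_le hδ hx.1).ne'
      · exact continuousOn_id
    rw [intervalIntegrable_iff_integrableOn_Ioc_of_le hδR] at this
    exact this.mul_const _
  have i3 : IntegrableOn (fun y : ℝ => y * gk δ R y) (Ioi R) := by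
    refine IntegrableOn.congr_fun (f := fun y => y ^ (-2 : ℝ)) ?_ (fun y hy => (e3 y hy).symm)
      measurableSet_Ioi
    exact integrableOn_Ioi_rpow_of_lt (by norm_num) hR
  have v1 : ∫ y in Ioc 0 δ, y * gk δ R y = 1 / R := by
    rw [setIntegral_congr_fun measurableSet_Ioc e1]
    rw [← intervalIntegral.integral_of_le hδ.le, intervalIntegral.integral_const]
    simp only [sub_zero, smul_eq_mul]
    field_simp
  have v2 : ∫ y in Ioc δ R, y * gk δ R y = Real.log (R / δ) / R := by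
    rw [setIntegral_congr_fun measurableSet_Ioc e2]
    rw [← intervalIntegral.integral_of_le hδR, intervalIntegral.integral_mul_const,
      integral_inv_of_pos hδ hR]
    rw [div_eq_mul_inv (Real.log (R / δ))]
  have v3 : ∫ y in Ioi R, y * gk δ R y = 1 / R := by
    rw [setIntegral_congr_fun measurableSet_Ioi e3, integral_Ioi_rpow_of_lt (by norm_num) hR]
    rw [show (-2 + 1 : ℝ) = -1 by norm_num, Real.rpow_neg_one]
    field_simp
  have i23 : IntegrableOn (fun y : ℝ => y * gk δ R y) (Ioi δ) := by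
    rw [hs2]; exact i2.union i3
  refine ⟨by rw [hs1]; exact i1.union i23, ?_⟩
  rw [hs1, setIntegral_union (Ioc_disjoint_Ioi le_rfl) measurableSet_Ioi i1 i23, hs2,
    setIntegral_union (Ioc_disjoint_Ioi le_rfl) measurableSet_Ioi i2 i3, v1, v2, v3]
  ring

/-- The kernel on `ℂ`. -/
lemma gk_complex {δ R : ℝ} (hδ : 0 < δ) (hδR : δ ≤ R) (e : ℂ) :
    Integrable (fun x : ℂ => gk δ R ‖x - e‖) ∧
    ∫ x : ℂ, gk δ R ‖x - e‖ = 2 * Real.pi * ((2 + Real.log (R / δ)) / R) := by
  obtain ⟨hi, hv⟩ := gk_radial hδ hδR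
  have h1 : Integrable (fun x : ℂ => gk δ R ‖x‖) := by
    refine (integrable_fun_norm_addHaar (volume : Measure ℂ) (f := gk δ R)).2 ?_
    rw [Complex.finrank_real_complex]
    simpa using hi
  have h2 : ∫ x : ℂ, gk δ R ‖x‖ = 2 * Real.pi * ((2 + Real.log (R / δ)) / R) := by
    rw [integral_fun_norm_addHaar (volume : Measure ℂ) (gk δ R), Complex.finrank_real_complex]
    have : (volume : Measure ℂ).real (Metric.ball 0 1) = Real.pi := by
      rw [Measure.real, Complex.volume_ball]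
      simp
    rw [this]
    simp only [Nat.add_one_sub_one, pow_one, smul_eq_mul, nsmul_eq_mul, Nat.cast_ofNat]
    rw [hv]
    ring
  refine ⟨h1.comp_sub_right e, ?_⟩
  rw [integral_sub_right_eq_self (fun x : ℂ => gk δ R ‖x‖) e, h2]

/-- Pointwise comparison for nonnegative reals (distances to the three points). -/
lemma pointwise_real {δ R : ℝ} (hδ : 0 < δ) (hδR : δ ≤ R) {u v w : ℝ}
    (hu : 0 ≤ u) (hv : 0 ≤ v) (hw : 0 ≤ w)
    (huv : 2 * δ ≤ u + v) (huw : 2 * R ≤ u + w) (hvw : 2 * R ≤ v + w) :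
    (u * v * w)⁻¹ ≤ gk δ R u + gk δ R v + gk δ R w := by
  have hR : 0 < R := lt_of_lt_of_le hδ hδR
  have gu := gk_nonneg hδ hR hu
  have gv := gk_nonneg hδ hR hv
  have gw := gk_nonneg hδ hR hw
  rcases hu.eq_or_lt with rfl | hu0
  · simp only [zero_mul, inv_zero]; positivity
  rcases hv.eq_or_lt with rfl | hv0
  · simp only [mul_zero, zero_mul, inv_zero]; positivity
  rcases hw.eq_or_lt with rfl | hw0
  · simp only [mul_zero, inv_zero]; positivity
  by_cases h1 : w ≤ u ∧ w ≤ v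
  · have a1 : max w R ≤ u := max_le h1.1 (by linarith [h1.1])
    have a2 : max w R ≤ v := max_le h1.2 (by linarith [h1.2])
    have : (u * v * w)⁻¹ ≤ gk δ R w := by
      unfold gk
      apply inv_anti₀
      · have : 0 < max w δ := lt_of_lt_of_le hδ (le_max_right _ _)
        have : 0 < max w R := lt_of_lt_of_le hR (le_max_right _ _)
        positivity
      · have b1 : max w δ ≤ max w R := max_le_max le_rfl hδR
        have b2 : 0 ≤ max w R := le_trans hR.le (le_max_right _ _)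
        have b3 : 0 ≤ max w δ := le_trans hδ.le (le_max_right _ _)
        calc w * max w δ * max w R ≤ w * u * v := by
              gcongr
              exact b1.trans a1
          _ = u * v * w := by ring
    linarith
  · rcases le_total u v with h2 | h2
    · -- u smallest
      have h3 : u ≤ w := by
        by_contra hc
        push Not at hc
        exact h1 ⟨hc.le, hc.le.trans h2⟩
      have a1 : max u δ ≤ v := max_le h2 (by linarith)
      have a2 : max u R ≤ w := max_le h3 (by linarith)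
      have : (u * v * w)⁻¹ ≤ gk δ R u := by
        unfold gk
        have b1 : 0 < max u δ := lt_of_lt_of_le hδ (le_max_right _ _)
        have b2 : 0 < max u R := lt_of_lt_of_le hR (le_max_right _ _)
        apply inv_anti₀ (by positivity)
        gcongr
      linarith
    · have h3 : v ≤ w := by
        by_contra hc
        push Not at hc
        exact h1 ⟨hc.le.trans h2, hc.le⟩
      have a1 : max v δ ≤ u := max_le h2 (by linarith)
      have a2 : max v R ≤ w := max_le h3 (by linarith)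
      have : (u * v * w)⁻¹ ≤ gk δ R v := by
        unfold gk
        have b1 : 0 < max v δ := lt_of_lt_of_le hδ (le_max_right _ _)
        have b2 : 0 < max v R := lt_of_lt_of_le hR (le_max_right _ _)
        apply inv_anti₀ (by positivity)
        calc v * max v δ * max v R ≤ v * u * w := by gcongr
          _ = u * v * w := by ring
      linarith

/-- Upper bound for the cubic integral. -/
theorem integral_cubic_le {e₁ e₂ e₃ : ℂ} {δ R : ℝ} (hδ : 0 < δ) (hδR : δ ≤ R)
    (h12 : 2 * δ ≤ ‖e₁ - e₂‖) (h13 : 2 * R ≤ ‖e₁ - e₃‖) (h23 : 2 * R ≤ ‖e₂ - e₃‖) :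
    Integrable (fun x : ℂ => ‖(x - e₁) * (x - e₂) * (x - e₃)‖⁻¹) ∧
    ∫ x : ℂ, ‖(x - e₁) * (x - e₂) * (x - e₃)‖⁻¹ ≤
      6 * Real.pi * ((2 + Real.log (R / δ)) / R) := by
  obtain ⟨i1, v1⟩ := gk_complex hδ hδR e₁
  obtain ⟨i2, v2⟩ := gk_complex hδ hδR e₂
  obtain ⟨i3, v3⟩ := gk_complex hδ hδR e₃
  have hp : ∀ x : ℂ, ‖(x - e₁) * (x - e₂) * (x - e₃)‖⁻¹ ≤
      gk δ R ‖x - e₁‖ + gk δ R ‖x - e₂‖ + gk δ R ‖x - e₃‖ := by
    intro x
    rw [norm_mul, norm_mul]
    refine pointwise_real hδ hδR (norm_nonneg _) (norm_nonneg _) (norm_nonneg _) ?_ ?_ ?_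
    · calc 2 * δ ≤ ‖e₁ - e₂‖ := h12
        _ = ‖(x - e₂) - (x - e₁)‖ := by congr 1; ring
        _ ≤ ‖x - e₂‖ + ‖x - e₁‖ := norm_sub_le _ _
        _ = _ := add_comm _ _
    · calc 2 * R ≤ ‖e₁ - e₃‖ := h13
        _ = ‖(x - e₃) - (x - e₁)‖ := by congr 1; ring
        _ ≤ ‖x - e₃‖ + ‖x - e₁‖ := norm_sub_le _ _
        _ = _ := add_comm _ _
    · calc 2 * R ≤ ‖e₂ - e₃‖ := h23
        _ = ‖(x - e₃) - (x - e₂)‖ := by congr 1; ring
        _ ≤ ‖x - e₃‖ + ‖x - e₂‖ := norm_sub_le _ _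
        _ = _ := add_comm _ _
  have hsum : Integrable (fun x : ℂ => gk δ R ‖x - e₁‖ + gk δ R ‖x - e₂‖ + gk δ R ‖x - e₃‖) :=
    (i1.add i2).add i3
  have hint : Integrable (fun x : ℂ => ‖(x - e₁) * (x - e₂) * (x - e₃)‖⁻¹) := by
    refine Integrable.mono' hsum ?_ (Filter.Eventually.of_forall fun x => ?_)
    · exact (by fun_prop : Measurable fun x : ℂ =>
        ‖(x - e₁) * (x - e₂) * (x - e₃)‖⁻¹).aestronglyMeasurable
    · rw [Real.norm_of_nonneg (by positivity)]
      exact hp x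
  refine ⟨hint, ?_⟩
  calc ∫ x : ℂ, ‖(x - e₁) * (x - e₂) * (x - e₃)‖⁻¹
      ≤ ∫ x : ℂ, (gk δ R ‖x - e₁‖ + gk δ R ‖x - e₂‖ + gk δ R ‖x - e₃‖) :=
        integral_mono hint hsum hp
    _ = _ := by
        rw [integral_add (f := fun x => gk δ R ‖x - e₁‖ + gk δ R ‖x - e₂‖) (i1.add i2) i3,
          integral_add i1 i2, v1, v2, v3]
        ring

end FreySharp
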