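import Mathlib
import Pool.Agent.Lib.MP_6babc4_nt.SharpIntegral
import Pool.Agent.Lib.MP_6babc4_nt.Defs

/-!
# A sharp upper bound for the area integral in terms of `c₄` and `Δ`
-/

set_option autoImplicit false

open MeasureTheory Set

namespace FreySharp

open FreyHt

/-- `areaIntegral` in terms of the roots, smallest distance first. -/
lemma area_of_roots_sharp {W : WeierstrassCurve ℂ} {e₁ e₂ e₃ : ℂ}
    (hf : ∀ x : ℂ, 4 * x ^ 3 + W.b₂ * x ^ 2 + 2 * W.b₄ * x + W.b₆ =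
      4 * ((x - e₁) * (x - e₂) * (x - e₃)))
    (h0 : 0 < ‖e₁ - e₂‖) (h13 : ‖e₁ - e₂‖ ≤ ‖e₁ - e₃‖) (h23 : ‖e₁ - e₂‖ ≤ ‖e₂ - e₃‖) :
    ∃ R : ℝ, 0 < R ∧
      ‖e₁ - e₂‖ ≤ R ∧ R ≤ ‖e₁ - e₃‖ ∧ R ≤ ‖e₂ - e₃‖ ∧ ‖e₁ - e₃‖ ≤ 2 * R ∧ ‖e₂ - e₃‖ ≤ 2 * R ∧
      0 < areaIntegral W ∧
      areaIntegral W ≤ 3 * Real.pi * ((2 + Real.log (R / ‖e₁ - e₂‖)) / R) := by
  set R : ℝ := min ‖e₁ - e₃‖ ‖e₂ - e₃‖ with hR
  have r1 : ‖e₁ - e₂‖ ≤ R := le_min h13 h23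
  have r2 : R ≤ ‖e₁ - e₃‖ := min_le_left _ _
  have r3 : R ≤ ‖e₂ - e₃‖ := min_le_right _ _
  have hR0 : 0 < R := lt_of_lt_of_le h0 r1
  have t1 : ‖e₁ - e₃‖ ≤ ‖e₁ - e₂‖ + ‖e₂ - e₃‖ := by
    calc ‖e₁ - e₃‖ = ‖(e₁ - e₂) + (e₂ - e₃)‖ := by congr 1; ring
      _ ≤ _ := norm_add_le _ _
  have t2 : ‖e₂ - e₃‖ ≤ ‖e₁ - e₂‖ + ‖e₁ - e₃‖ := by
    calc ‖e₂ - e₃‖ = ‖(e₁ - e₃) - (e₁ - e₂)‖ := by congr 1; ring
      _ ≤ _ := norm_sub_le _ _
      _ = _ := add_comm _ _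
  have r4 : ‖e₁ - e₃‖ ≤ 2 * R ∧ ‖e₂ - e₃‖ ≤ 2 * R := by
    rcases min_choice ‖e₁ - e₃‖ ‖e₂ - e₃‖ with h | h
    · rw [← hR] at h
      constructor <;> linarith
    · rw [← hR] at h
      constructor <;> linarith
  obtain ⟨hi, hle⟩ := integral_cubic_le (e₁ := e₁) (e₂ := e₂) (e₃ := e₃)
    (δ := ‖e₁ - e₂‖ / 2) (R := R / 2) (by positivity) (by linarith)
    (by linarith) (by linarith) (by linarith)
  have e : areaIntegral W = 4⁻¹ * ∫ x : ℂ, ‖(x - e₁) * (x - e₂) * (x - e₃)‖⁻¹ := by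
    unfold areaIntegral
    rw [← integral_const_mul]
    congr 1
    funext x
    rw [hf x, norm_mul, mul_inv]
    norm_num
  have hpos : 0 < ∫ x : ℂ, ‖(x - e₁) * (x - e₂) * (x - e₃)‖⁻¹ := by
    rw [integral_pos_iff_support_of_nonneg (fun x => by positivity) hi]
    have hs : Function.support (fun x : ℂ => ‖(x - e₁) * (x - e₂) * (x - e₃)‖⁻¹) =
        ({e₁, e₂, e₃} : Set ℂ)ᶜ := by
      ext x
      simp only [Function.mem_support, ne_eq, inv_eq_zero, norm_eq_zero, mul_eq_zero, sub_eq_zero,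
        mem_compl_iff, mem_insert_iff, mem_singleton_iff, or_assoc]
    rw [hs]
    have hfin : ({e₁, e₂, e₃} : Set ℂ).Finite := by simp
    exact hfin.isClosed.isOpen_compl.measure_pos volume hfin.infinite_compl.nonempty
  refine ⟨R, hR0, r1, r2, r3, r4.1, r4.2, by rw [e]; positivity, ?_⟩
  rw [e]
  have e2 : R / 2 / (‖e₁ - e₂‖ / 2) = R / ‖e₁ - e₂‖ := by
    field_simp
  rw [e2] at hle
  calc 4⁻¹ * ∫ x : ℂ, ‖(x - e₁) * (x - e₂) * (x - e₃)‖⁻¹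
      ≤ 4⁻¹ * (6 * Real.pi * ((2 + Real.log (R / ‖e₁ - e₂‖)) / (R / 2))) := by gcongr
    _ = _ := by
      field_simp
      ring

/-- Auxiliary: the ordered case of the main bound. -/
lemma area_ordered {W : WeierstrassCurve ℂ} {e₁ e₂ e₃ : ℂ}
    (hf : ∀ x : ℂ, 4 * x ^ 3 + W.b₂ * x ^ 2 + 2 * W.b₄ * x + W.b₆ =
      4 * ((x - e₁) * (x - e₂) * (x - e₃)))
    (hdisc : W.Δ = 16 * ((e₁ - e₂) * (e₂ - e₃) * (e₁ - e₃)) ^ 2)
    (hc4 : W.c₄ = 8 * ((e₁ - e₂) ^ 2 + (e₂ - e₃) ^ 2 + (e₁ - e₃) ^ 2))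
    {A : ℝ} (hA : 18 ≤ A) (hΔ : ‖W.Δ‖ = 64) (hc : ‖W.c₄‖ = 4 * A)
    (h13 : ‖e₁ - e₂‖ ≤ ‖e₁ - e₃‖) (h23 : ‖e₁ - e₂‖ ≤ ‖e₂ - e₃‖) :
    0 < areaIntegral W ∧ areaIntegral W ≤ 300 * (1 + Real.log A) / Real.sqrt A := by
  have h0 : 0 < ‖e₁ - e₂‖ := by
    rw [norm_pos_iff]
    intro h
    rw [hdisc, h] at hΔ
    norm_num at hΔ
  obtain ⟨R, hR0, r1, r2, r3, r4, r5, hpos, hle⟩ := area_of_roots_sharp hf h0 h13 h23
  refine ⟨hpos, ?_⟩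
  set d : ℝ := ‖e₁ - e₂‖ with hd
  -- the product of the distances
  have hP : (d * ‖e₂ - e₃‖ * ‖e₁ - e₃‖) ^ 2 = 4 := by
    rw [hdisc, norm_mul, norm_pow, norm_mul, norm_mul] at hΔ
    norm_num at hΔ
    linarith
  have hP1 : d * ‖e₂ - e₃‖ * ‖e₁ - e₃‖ = 2 := by
    have h1 : 0 ≤ d * ‖e₂ - e₃‖ * ‖e₁ - e₃‖ := by positivity
    nlinarith
  have hdl : 1 / (2 * R ^ 2) ≤ d := by
    rw [div_le_iff₀ (by positivity)]
    have : d * ‖e₂ - e₃‖ * ‖e₁ - e₃‖ ≤ d * (2 * R) * (2 * R) := by gcongr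
    nlinarith
  have hc4le : 4 * A ≤ 72 * R ^ 2 := by
    rw [← hc, hc4, norm_mul]
    have h8 : ‖(8 : ℂ)‖ = 8 := by norm_num
    rw [h8]
    have h1 : ‖(e₁ - e₂) ^ 2 + (e₂ - e₃) ^ 2 + (e₁ - e₃) ^ 2‖ ≤
        ‖e₁ - e₂‖ ^ 2 + ‖e₂ - e₃‖ ^ 2 + ‖e₁ - e₃‖ ^ 2 := by
      calc ‖(e₁ - e₂) ^ 2 + (e₂ - e₃) ^ 2 + (e₁ - e₃) ^ 2‖
          ≤ ‖(e₁ - e₂) ^ 2 + (e₂ - e₃) ^ 2‖ + ‖(e₁ - e₃) ^ 2‖ := norm_add_le _ _
        _ ≤ ‖(e₁ - e₂) ^ 2‖ + ‖(e₂ - e₃) ^ 2‖ + ‖(e₁ - e₃) ^ 2‖ := by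
            gcongr; exact norm_add_le _ _
        _ = _ := by simp only [norm_pow]
    have h2 : ‖e₁ - e₂‖ ^ 2 ≤ R ^ 2 := by gcongr
    have h3 : ‖e₂ - e₃‖ ^ 2 ≤ (2 * R) ^ 2 := by gcongr
    have h4 : ‖e₁ - e₃‖ ^ 2 ≤ (2 * R) ^ 2 := by gcongr
    nlinarith
  -- R₁
  set R₁ : ℝ := Real.sqrt (A / 18) with hR1
  have hA18 : 1 ≤ A / 18 := by rw [le_div_iff₀ (by norm_num)]; linarith
  have hR1sq : R₁ ^ 2 = A / 18 := Real.sq_sqrt (by linarith)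
  have hR1one : 1 ≤ R₁ := by rw [hR1]; exact Real.one_le_sqrt.2 hA18
  have hR1R : R₁ ≤ R := by
    rw [hR1]
    apply Real.sqrt_le_iff.2 ⟨hR0.le, ?_⟩
    rw [div_le_iff₀ (by norm_num)]
    linarith
  have hRd : R / d ≤ 2 * R ^ 3 := by
    rw [div_le_iff₀ h0]
    calc R = 2 * R ^ 3 * (1 / (2 * R ^ 2)) := by field_simp
      _ ≤ 2 * R ^ 3 * d := by gcongr
  have hlog1 : Real.log (R / d) ≤ Real.log 2 + 3 * Real.log R := by
    calc Real.log (R / d) ≤ Real.log (2 * R ^ 3) := Real.log_le_log (by positivity) hRd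
      _ = _ := by
        rw [Real.log_mul (by norm_num) (by positivity), Real.log_pow]
        push_cast; ring
  have hlog2 : Real.log R ≤ Real.log R₁ + (R / R₁ - 1) := by
    have h1 : Real.log (R / R₁) ≤ R / R₁ - 1 := Real.log_le_sub_one_of_pos (by positivity)
    rw [Real.log_div hR0.ne' (by positivity)] at h1
    linarith
  have hlogR1 : 0 ≤ Real.log R₁ := Real.log_nonneg hR1one
  have hlog2' : Real.log 2 ≤ 1 := by
    have := Real.log_two_lt_d9; linarith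
  have hlog2'' : 0 ≤ Real.log 2 := Real.log_nonneg (by norm_num)
  have hmain : (2 + Real.log (R / d)) / R ≤ (6 + 3 * Real.log R₁) / R₁ := by
    rw [div_le_div_iff₀ hR0 (by linarith)]
    have h1 : 2 + Real.log (R / d) ≤ 3 + 3 * Real.log R₁ + 3 * (R / R₁ - 1) := by linarith
    have h2 : (2 + Real.log (R / d)) * R₁ ≤
        (3 + 3 * Real.log R₁ + 3 * (R / R₁ - 1)) * R₁ := by
      apply mul_le_mul_of_nonneg_right h1 (by linarith)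
    have h3 : (3 + 3 * Real.log R₁ + 3 * (R / R₁ - 1)) * R₁ =
        3 * Real.log R₁ * R₁ + 3 * R := by
      field_simp; ring
    have h4 : 3 * Real.log R₁ * R₁ ≤ 3 * Real.log R₁ * R := by gcongr
    nlinarith
  have hlogR1A : Real.log R₁ ≤ (1 / 2) * Real.log A := by
    have h1 : Real.log (R₁ ^ 2) ≤ Real.log A := by
      rw [hR1sq]
      apply Real.log_le_log (by positivity)
      linarith
    rw [Real.log_pow] at h1
    push_cast at h1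
    linarith
  have hlogA : 0 ≤ Real.log A := Real.log_nonneg (by linarith)
  have hsA : 0 < Real.sqrt A := Real.sqrt_pos.2 (by linarith)
  have hR1A : Real.sqrt A ≤ (17 / 4) * R₁ := by
    rw [Real.sqrt_le_left (by linarith)]
    have : ((17 / 4) * R₁) ^ 2 = (289 / 16) * (A / 18) := by rw [mul_pow, hR1sq]; norm_num
    rw [this]; nlinarith
  have hpi : Real.pi ≤ 3.1416 := Real.pi_lt_d4.le
  have hpi0 := Real.pi_pos
  calc areaIntegral W ≤ 3 * Real.pi * ((2 + Real.log (R / d)) / R) := hle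
    _ ≤ 3 * Real.pi * ((6 + 3 * Real.log R₁) / R₁) := by gcongr
    _ ≤ 3 * 3.1416 * ((6 + 3 * ((1 / 2) * Real.log A)) / R₁) := by gcongr
    _ ≤ 3 * 3.1416 * ((6 + 3 * ((1 / 2) * Real.log A)) / (Real.sqrt A / (17 / 4))) := by
        gcongr
        rw [div_le_iff₀ (by norm_num)]
        linarith
    _ = (3 * 3.1416 * (17 / 4) * (6 + 3 * ((1 / 2) * Real.log A))) / Real.sqrt A := by
        field_simp
    _ ≤ _ := div_le_div_of_nonneg_right (by nlinarith) hsA.le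

/-- The area integral of a complex Weierstrass curve with `|Δ| = 64`, `|c₄| = 4A`, `A ≥ 18`. -/
theorem area_sharp {W : WeierstrassCurve ℂ} {A : ℝ} (hA : 18 ≤ A) (hΔ : ‖W.Δ‖ = 64)
    (hc : ‖W.c₄‖ = 4 * A) :
    0 < areaIntegral W ∧ areaIntegral W ≤ 300 * (1 + Real.log A) / Real.sqrt A := by
  have ha : W.twoTorsionPolynomial.a ≠ 0 := by
    simp [WeierstrassCurve.twoTorsionPolynomial]
  have hsp : (W.twoTorsionPolynomial.toPoly.map (RingHom.id ℂ)).Splits := IsAlgClosed.splits _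
  obtain ⟨e₁, e₂, e₃, h3⟩ := (Cubic.splits_iff_roots_eq_three ha).1 hsp
  have hb := Cubic.b_eq_three_roots ha h3
  have hc' := Cubic.c_eq_three_roots ha h3
  have hd := Cubic.d_eq_three_roots ha h3
  simp only [RingHom.id_apply, WeierstrassCurve.twoTorsionPolynomial] at hb hc' hd
  have hf : ∀ x : ℂ, 4 * x ^ 3 + W.b₂ * x ^ 2 + 2 * W.b₄ * x + W.b₆ =
      4 * ((x - e₁) * (x - e₂) * (x - e₃)) := by
    intro x
    rw [hb, hc', hd]; ring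
  have hdisc : W.Δ = 16 * ((e₁ - e₂) * (e₂ - e₃) * (e₁ - e₃)) ^ 2 := by
    have h1 := Cubic.discr_eq_prod_three_roots ha h3
    rw [W.twoTorsionPolynomial_discr] at h1
    simp only [RingHom.id_apply, WeierstrassCurve.twoTorsionPolynomial] at h1
    have : (16 : ℂ) * W.Δ = 16 * (16 * ((e₁ - e₂) * (e₂ - e₃) * (e₁ - e₃)) ^ 2) := by
      rw [h1]; ring
    exact mul_left_cancel₀ (by norm_num) this
  have hc4 : W.c₄ = 8 * ((e₁ - e₂) ^ 2 + (e₂ - e₃) ^ 2 + (e₁ - e₃) ^ 2) := by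
    have h1 : W.c₄ = W.b₂ ^ 2 - 12 * (2 * W.b₄) := by
      rw [WeierstrassCurve.c₄]; ring
    rw [h1, hb, hc']; ring
  rcases le_total ‖e₁ - e₂‖ ‖e₂ - e₃‖ with h12 | h12
  · rcases le_total ‖e₁ - e₂‖ ‖e₁ - e₃‖ with h13 | h13
    · exact area_ordered hf hdisc hc4 hA hΔ hc h13 h12
    · -- 13 smallest: order (e₁, e₃, e₂)
      refine area_ordered (e₁ := e₁) (e₂ := e₃) (e₃ := e₂) (fun x => ?_) ?_ ?_ hA hΔ hc h13 ?_
      · rw [hf x]; ring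
      · rw [hdisc]; ring
      · rw [hc4]; ring
      · rw [norm_sub_rev e₃ e₂]; exact h13.trans h12
  · rcases le_total ‖e₂ - e₃‖ ‖e₁ - e₃‖ with h13 | h13
    · -- 23 smallest: order (e₂, e₃, e₁)
      refine area_ordered (e₁ := e₂) (e₂ := e₃) (e₃ := e₁) (fun x => ?_) ?_ ?_ hA hΔ hc ?_ ?_
      · rw [hf x]; ring
      · rw [hdisc]; ring
      · rw [hc4]; ring
      · rw [norm_sub_rev e₂ e₁]; exact h12
      · rw [norm_sub_rev e₃ e₁]; exact h13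
    · refine area_ordered (e₁ := e₁) (e₂ := e₃) (e₃ := e₂) (fun x => ?_) ?_ ?_ hA hΔ hc ?_ ?_
      · rw [hf x]; ring
      · rw [hdisc]; ring
      · rw [hc4]; ring
      · exact h13.trans h12
      · rw [norm_sub_rev e₃ e₂]; exact h13

end FreySharp
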