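import Mathlib
import Pool.Agent.Lib.MP_6babc4_nt.SharpArch
import Pool.Agent.Lib.MP_6babc4_nt.Defs

/-!
# The area integral of the family `y² + xy - b y = x³ - b x²`
-/

set_option autoImplicit false

open MeasureTheory Set

namespace FreyAll

open FreyHt

/-- The ordered case. -/
lemma area_ordered' {W : WeierstrassCurve ℂ} {e₁ e₂ e₃ : ℂ}
    (hf : ∀ x : ℂ, 4 * x ^ 3 + W.b₂ * x ^ 2 + 2 * W.b₄ * x + W.b₆ =
      4 * ((x - e₁) * (x - e₂) * (x - e₃)))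
    {M δ U : ℝ} (hδ : 0 < δ) (hM : 0 < M)
    (hM' : M ≤ ‖e₁ - e₂‖ ∨ M ≤ ‖e₁ - e₃‖ ∨ M ≤ ‖e₂ - e₃‖)
    (h1 : δ ≤ ‖e₁ - e₂‖) (u2 : ‖e₁ - e₃‖ ≤ U)
    (h13 : ‖e₁ - e₂‖ ≤ ‖e₁ - e₃‖) (h23 : ‖e₁ - e₂‖ ≤ ‖e₂ - e₃‖) :
    0 < areaIntegral W ∧
      areaIntegral W ≤ 6 * Real.pi * ((2 + Real.log (U / δ)) / M) := by
  obtain ⟨R, hR0, r1, r2, r3, r4, r5, hpos, hle⟩ :=
    FreySharp.area_of_roots_sharp hf (lt_of_lt_of_le hδ h1) h13 h23
  refine ⟨hpos, hle.trans ?_⟩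
  have hMR : M ≤ 2 * R := by
    rcases hM' with h | h | h <;> linarith
  have hd : 0 < ‖e₁ - e₂‖ := lt_of_lt_of_le hδ h1
  have hlog : Real.log (R / ‖e₁ - e₂‖) ≤ Real.log (U / δ) := by
    apply Real.log_le_log (by positivity)
    have hRU : R ≤ U := r2.trans u2
    have hU0 : 0 ≤ U := hR0.le.trans hRU
    gcongr
  have hU : 0 ≤ Real.log (U / δ) := by
    apply Real.log_nonneg
    rw [le_div_iff₀ hδ, one_mul]
    exact h1.trans (h13.trans u2)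
  have hpi := Real.pi_pos
  calc 3 * Real.pi * ((2 + Real.log (R / ‖e₁ - e₂‖)) / R)
      ≤ 3 * Real.pi * ((2 + Real.log (U / δ)) / (M / 2)) := by
        gcongr
        linarith
    _ = _ := by
        field_simp
        ring

/-- The unordered case. -/
lemma area_unordered {W : WeierstrassCurve ℂ} {e₁ e₂ e₃ : ℂ}
    (hf : ∀ x : ℂ, 4 * x ^ 3 + W.b₂ * x ^ 2 + 2 * W.b₄ * x + W.b₆ =
      4 * ((x - e₁) * (x - e₂) * (x - e₃)))
    {M δ U : ℝ} (hδ : 0 < δ) (hM : 0 < M)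
    (hM' : M ≤ ‖e₁ - e₂‖ ∨ M ≤ ‖e₁ - e₃‖ ∨ M ≤ ‖e₂ - e₃‖)
    (h1 : δ ≤ ‖e₁ - e₂‖) (h2 : δ ≤ ‖e₁ - e₃‖) (h3 : δ ≤ ‖e₂ - e₃‖)
    (u1 : ‖e₁ - e₂‖ ≤ U) (u2 : ‖e₁ - e₃‖ ≤ U) :
    0 < areaIntegral W ∧
      areaIntegral W ≤ 6 * Real.pi * ((2 + Real.log (U / δ)) / M) := by
  rcases le_total ‖e₁ - e₂‖ ‖e₂ - e₃‖ with h12 | h12
  · rcases le_total ‖e₁ - e₂‖ ‖e₁ - e₃‖ with h13 | h13
    · exact area_ordered' hf hδ hM hM' h1 u2 h13 h12
    · -- order (e₁, e₃, e₂)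
      refine area_ordered' (e₁ := e₁) (e₂ := e₃) (e₃ := e₂) (fun x => ?_) hδ hM ?_ h2 u1 h13 ?_
      · rw [hf x]; ring
      · rw [norm_sub_rev e₃ e₂]; tauto
      · rw [norm_sub_rev e₃ e₂]; exact h13.trans h12
  · rcases le_total ‖e₂ - e₃‖ ‖e₁ - e₃‖ with h13 | h13
    · -- order (e₂, e₃, e₁)
      refine area_ordered' (e₁ := e₂) (e₂ := e₃) (e₃ := e₁) (fun x => ?_) hδ hM ?_ h3 ?_ ?_ ?_
      · rw [hf x]; ring
      · rw [norm_sub_rev e₃ e₁, norm_sub_rev e₂ e₁]; tauto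
      · rw [norm_sub_rev e₂ e₁]; exact u1
      · rw [norm_sub_rev e₂ e₁]; exact h12
      · rw [norm_sub_rev e₃ e₁]; exact h13
    · refine area_ordered' (e₁ := e₁) (e₂ := e₃) (e₃ := e₂) (fun x => ?_) hδ hM ?_ h2 u1 ?_ ?_
      · rw [hf x]; ring
      · rw [norm_sub_rev e₃ e₂]; tauto
      · exact h13.trans h12
      · rw [norm_sub_rev e₃ e₂]; exact h13

/-- The bound for the family. -/
theorem area_family {W : WeierstrassCurve ℂ} {β : ℂ} (hβ : β ≠ 0) (hβ' : 1 + 16 * β ≠ 0)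
    (h2 : W.b₂ = 1 - 4 * β) (h4 : W.b₄ = -β) (h6 : W.b₆ = β ^ 2) :
    0 < areaIntegral W ∧
    areaIntegral W ≤ 3400 * (1 + |Real.log ‖β‖| + |Real.log ‖1 + 16 * β‖|) / max 1 ‖β‖ := by
  obtain ⟨s, hs⟩ : ∃ s : ℂ, s ^ 2 = 1 + 16 * β := IsAlgClosed.exists_pow_nat_eq _ (by norm_num)
  have hs0 : s ≠ 0 := by
    rintro rfl
    apply hβ'
    rw [← hs]; norm_num
  set r₁ : ℂ := (-1 + s) / 8 with hr₁
  set r₂ : ℂ := (-1 - s) / 8 with hr₂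
  have hβe : β = (s ^ 2 - 1) / 16 := by rw [hs]; ring
  have hf : ∀ x : ℂ, 4 * x ^ 3 + W.b₂ * x ^ 2 + 2 * W.b₄ * x + W.b₆ =
      4 * ((x - β) * (x - r₁) * (x - r₂)) := by
    intro x
    rw [h2, h4, h6, hr₁, hr₂, hβe]
    ring
  have hprod : (β - r₁) * (β - r₂) = β ^ 2 := by
    rw [hr₁, hr₂, hβe]; ring
  have hsum : (β - r₁) + (β - r₂) = 2 * β + 1 / 4 := by
    rw [hr₁, hr₂]; ring
  have hdiff : r₁ - r₂ = s / 4 := by
    rw [hr₁, hr₂]; ring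
  have hβn : 0 < ‖β‖ := norm_pos_iff.2 hβ
  have hsn : 0 < ‖s‖ := norm_pos_iff.2 hs0
  set R : ℝ := (1 + ‖β‖) / 30 with hRdef
  have hR : R ≤ ‖β - r₁‖ ∨ R ≤ ‖β - r₂‖ ∨ R ≤ ‖r₁ - r₂‖ := by
    by_contra hcon
    push Not at hcon
    obtain ⟨c1, c3, c2⟩ := hcon
    have d1 : ‖2 * β + 1 / 4‖ < 2 * R := by
      rw [← hsum]
      calc ‖(β - r₁) + (β - r₂)‖ ≤ ‖β - r₁‖ + ‖β - r₂‖ := norm_add_le _ _
        _ < 2 * R := by linarith
    have d2 : ‖1 + 16 * β‖ < 16 * R ^ 2 := by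
      have : ‖1 + 16 * β‖ = 16 * ‖r₁ - r₂‖ ^ 2 := by
        rw [← hs, hdiff, norm_pow, norm_div]
        norm_num
        ring
      rw [this]
      have : ‖r₁ - r₂‖ ^ 2 < R ^ 2 := pow_lt_pow_left₀ c2 (norm_nonneg _) (by norm_num)
      linarith
    have d3 : 2 * ‖β‖ ≤ ‖2 * β + 1 / 4‖ + 1 / 4 := by
      have h1 : ‖(2 * β + 1 / 4) - 1 / 4‖ ≤ ‖2 * β + 1 / 4‖ + ‖(1 / 4 : ℂ)‖ := norm_sub_le _ _
      have h2 : ‖(2 * β + 1 / 4) - 1 / 4‖ = 2 * ‖β‖ := by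
        rw [add_sub_cancel_right, norm_mul]; norm_num
      have h3 : ‖(1 / 4 : ℂ)‖ = 1 / 4 := by norm_num
      rw [h2, h3] at h1
      exact h1
    have d4 : (1 : ℝ) ≤ 8 * ‖2 * β + 1 / 4‖ + ‖1 + 16 * β‖ := by
      have h1 : ‖8 * (2 * β + 1 / 4) - (1 + 16 * β)‖ ≤ ‖8 * (2 * β + 1 / 4)‖ + ‖1 + 16 * β‖ :=
        norm_sub_le _ _
      have h2 : 8 * (2 * β + 1 / 4) - (1 + 16 * β) = 1 := by ring
      rw [h2, norm_mul] at h1
      norm_num at h1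
      norm_num
      linarith
    have d5 : ‖β‖ < R + 1 / 8 := by linarith
    have d6 : R < 1 / 25 := by rw [hRdef] at d5 ⊢; linarith
    have d7 : R ^ 2 < 1 / 625 := by
      have h0 : 0 ≤ R := by positivity
      nlinarith
    linarith
  have hR0 : 0 < R := by rw [hRdef]; positivity
  -- upper bounds for the distances
  have hsle : ‖s‖ ≤ 1 + 16 * ‖β‖ := by
    have h1 : ‖s‖ ^ 2 ≤ 1 + 16 * ‖β‖ := by
      rw [← norm_pow, hs]
      calc ‖1 + 16 * β‖ ≤ ‖(1 : ℂ)‖ + ‖16 * β‖ := norm_add_le _ _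
        _ = _ := by rw [norm_mul]; norm_num
    by_contra hcon
    push Not at hcon
    nlinarith
  set mx : ℝ := max 1 ‖β‖ with hmx
  have mx1 : 1 ≤ mx := le_max_left _ _
  have mxβ : ‖β‖ ≤ mx := le_max_right _ _
  have hr1 : ‖r₁‖ ≤ 1 / 4 + 2 * ‖β‖ := by
    rw [hr₁, norm_div]
    have : ‖-1 + s‖ ≤ 1 + ‖s‖ := by
      calc ‖-1 + s‖ ≤ ‖(-1 : ℂ)‖ + ‖s‖ := norm_add_le _ _
        _ = _ := by norm_num
    norm_num
    linarith
  have hr2 : ‖r₂‖ ≤ 1 / 4 + 2 * ‖β‖ := by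
    rw [hr₂, norm_div]
    have : ‖-1 - s‖ ≤ 1 + ‖s‖ := by
      calc ‖-1 - s‖ ≤ ‖(-1 : ℂ)‖ + ‖s‖ := norm_sub_le _ _
        _ = _ := by norm_num
    norm_num
    linarith
  have hU1 : ‖β - r₁‖ ≤ 5 * mx := by
    have := norm_sub_le β r₁
    linarith
  have hU2 : ‖β - r₂‖ ≤ 5 * mx := by
    have := norm_sub_le β r₂
    linarith
  -- lower bounds
  have hpn : ‖β - r₁‖ * ‖β - r₂‖ = ‖β‖ ^ 2 := by rw [← norm_mul, hprod, norm_pow]
  set δ : ℝ := min (‖s‖ / 4) (‖β‖ ^ 2 / (5 * mx)) with hδ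
  have hδ0 : 0 < δ := by rw [hδ]; positivity
  have hδ1 : δ ≤ ‖β - r₁‖ := by
    refine (min_le_right _ _).trans ?_
    rw [div_le_iff₀ (by positivity), ← hpn]
    gcongr
  have hδ2 : δ ≤ ‖β - r₂‖ := by
    refine (min_le_right _ _).trans ?_
    rw [div_le_iff₀ (by positivity), ← hpn, mul_comm ‖β - r₁‖]
    gcongr
  have hδ3 : δ ≤ ‖r₁ - r₂‖ := by
    refine (min_le_left _ _).trans ?_
    rw [hdiff, norm_div]
    norm_num
  obtain ⟨hpos, hle⟩ := area_unordered (e₁ := β) (e₂ := r₁) (e₃ := r₂) hf hδ0 hR0 hR hδ1 hδ2 hδ3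
    hU1 hU2
  refine ⟨hpos, hle.trans ?_⟩
  have hlmx : Real.log mx ≤ |Real.log ‖β‖| := by
    rcases le_total 1 ‖β‖ with h | h
    · rw [hmx, max_eq_right h]; exact le_abs_self _
    · rw [hmx, max_eq_left h, Real.log_one]; exact abs_nonneg _
  have hls : Real.log ‖s‖ = (1 / 2) * Real.log ‖1 + 16 * β‖ := by
    rw [← hs, norm_pow, Real.log_pow]; push_cast; ring
  have hlog5 : Real.log 5 ≤ 2 := by
    rw [Real.log_le_iff_le_exp (by norm_num)]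
    have h1 := Real.add_one_le_exp (1 : ℝ)
    have h2 := Real.exp_one_gt_d9
    have : Real.exp 2 = Real.exp 1 * Real.exp 1 := by rw [← Real.exp_add]; norm_num
    rw [this]; nlinarith
  have hlog4 : Real.log 4 ≤ 2 := (Real.log_le_log (by norm_num) (by norm_num)).trans hlog5
  have hlogδ : -Real.log δ ≤ 2 + 3 * |Real.log ‖β‖| + |Real.log ‖1 + 16 * β‖| := by
    have a1 := neg_abs_le (Real.log ‖β‖)
    have a2 := neg_abs_le (Real.log ‖1 + 16 * β‖)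
    have a3 := abs_nonneg (Real.log ‖β‖)
    have a4 := abs_nonneg (Real.log ‖1 + 16 * β‖)
    rcases min_choice (‖s‖ / 4) (‖β‖ ^ 2 / (5 * mx)) with h | h
    · rw [hδ, h, Real.log_div hsn.ne' (by norm_num), hls]
      linarith
    · rw [hδ, h, Real.log_div (by positivity) (by positivity), Real.log_pow,
        Real.log_mul (by norm_num) (by positivity)]
      push_cast
      linarith
  have hlogU : Real.log (5 * mx / δ) ≤ 4 + 4 * |Real.log ‖β‖| + |Real.log ‖1 + 16 * β‖| := by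
    rw [Real.log_div (by positivity) hδ0.ne', Real.log_mul (by norm_num) (by positivity)]
    linarith
  have hmxR : mx ≤ 30 * R := by
    rw [hRdef, hmx]
    apply max_le <;> linarith
  have hpi : Real.pi ≤ 3.1416 := Real.pi_lt_d4.le
  have hpi0 := Real.pi_pos
  have a3 := abs_nonneg (Real.log ‖β‖)
  have a4 := abs_nonneg (Real.log ‖1 + 16 * β‖)
  calc 6 * Real.pi * ((2 + Real.log (5 * mx / δ)) / R)
      ≤ 6 * Real.pi * ((2 + (4 + 4 * |Real.log ‖β‖| + |Real.log ‖1 + 16 * β‖|)) / (mx / 30)) := by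
        gcongr
        linarith
    _ ≤ 6 * 3.1416 * ((2 + (4 + 4 * |Real.log ‖β‖| + |Real.log ‖1 + 16 * β‖|)) / (mx / 30)) := by
        gcongr
    _ = (6 * 3.1416 * 30 * (6 + 4 * |Real.log ‖β‖| + |Real.log ‖1 + 16 * β‖|)) / mx := by
        field_simp
        ring
    _ ≤ _ := by
        apply div_le_div_of_nonneg_right _ (by positivity)
        nlinarith

end FreyAll
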