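import Mathlib

/-!
# An upper bound for the area integral of a Weierstrass cubic

The main result is `FreyHt.integral_inv_cubic_le`: there is an absolute constant `C` such that for
pairwise distinct `e₁ e₂ e₃ : ℂ`
`∫ ‖(x - e₁)(x - e₂)(x - e₃)‖⁻¹ ≤ C / t` as soon as `t ^ 4 ≤ ‖e₁ - e₂‖‖e₂ - e₃‖‖e₁ - e₃‖ R`
with `R` at most the largest of the three distances.
-/

open MeasureTheory Set

namespace FreyHt

/-- The radial comparison kernel. -/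
noncomputable def hk (M : ℝ) (y : ℂ) : ℝ := ‖y‖ ^ (-(7 / 4) : ℝ) / (M + ‖y‖)

lemma hk_nonneg {M : ℝ} (hM : 0 ≤ M) (y : ℂ) : 0 ≤ hk M y := by
  unfold hk
  positivity

lemma hk_one_integrable : Integrable (hk 1) := by
  have h := (integrable_fun_norm_addHaar (volume : Measure ℂ)
    (f := fun r : ℝ => r ^ (-(7 / 4) : ℝ) / (1 + r))).2 ?_
  · exact h
  rw [Complex.finrank_real_complex]
  have hsplit : (Ioi (0 : ℝ)) = Ioc 0 1 ∪ Ioi 1 := (Ioc_union_Ioi_eq_Ioi zero_le_one).symm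
  rw [hsplit]
  have hmeas : Measurable (fun y : ℝ => y ^ (2 - 1) • (y ^ (-(7 / 4) : ℝ) / (1 + y))) := by
    fun_prop
  refine IntegrableOn.union ?_ ?_
  · have h1 : IntegrableOn (fun y : ℝ => y ^ (-(3 / 4) : ℝ)) (Ioc 0 1) := by
      have := intervalIntegral.intervalIntegrable_rpow' (a := 0) (b := 1) (r := -(3 / 4))
        (by norm_num)
      rwa [intervalIntegrable_iff_integrableOn_Ioc_of_le zero_le_one] at this
    refine Integrable.mono' h1 hmeas.aestronglyMeasurable ?_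
    refine (ae_restrict_iff' measurableSet_Ioc).2 (Filter.Eventually.of_forall ?_)
    intro y hy
    have hy0 : 0 < y := hy.1
    rw [Real.norm_of_nonneg (by positivity)]
    simp only [smul_eq_mul]
    have e1 : y ^ (2 - 1) * (y ^ (-(7 / 4) : ℝ) / (1 + y)) = y ^ (-(3 / 4) : ℝ) / (1 + y) := by
      have : y ^ (-(3 / 4) : ℝ) = y ^ (1 : ℝ) * y ^ (-(7 / 4) : ℝ) := by
        rw [← Real.rpow_add hy0]; norm_num
      rw [this, Real.rpow_one]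
      norm_num
      ring
    rw [e1]
    apply div_le_self (by positivity)
    linarith
  · have h1 : IntegrableOn (fun y : ℝ => y ^ (-(7 / 4) : ℝ)) (Ioi 1) :=
      integrableOn_Ioi_rpow_of_lt (by norm_num) one_pos
    refine Integrable.mono' h1 hmeas.aestronglyMeasurable ?_
    refine (ae_restrict_iff' measurableSet_Ioi).2 (Filter.Eventually.of_forall ?_)
    intro y hy
    have hy1 : 1 < y := hy
    have hy0 : 0 < y := by linarith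
    rw [Real.norm_of_nonneg (by positivity)]
    simp only [smul_eq_mul]
    have e1 : y ^ (2 - 1) * (y ^ (-(7 / 4) : ℝ) / (1 + y)) = y ^ (-(7 / 4) : ℝ) * (y / (1 + y)) := by
      norm_num
      ring
    rw [e1]
    apply mul_le_of_le_one_right (by positivity)
    rw [div_le_one (by linarith)]
    linarith

/-- The integral of the kernel `hk 1`. -/
noncomputable def Jk : ℝ := ∫ y : ℂ, hk 1 y

lemma Jk_nonneg : 0 ≤ Jk := integral_nonneg (fun y => hk_nonneg zero_le_one y)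

lemma hk_scale {m : ℝ} (hm : 0 < m) (y : ℂ) :
    hk (m ^ 4) ((m ^ 4 : ℝ) • y) = (m ^ 11)⁻¹ * hk 1 y := by
  unfold hk
  have h4 : (0 : ℝ) < m ^ 4 := by positivity
  rw [norm_smul, Real.norm_of_nonneg h4.le, Real.mul_rpow h4.le (norm_nonneg _)]
  have e1 : (m ^ 4 : ℝ) ^ (-(7 / 4) : ℝ) = (m ^ 7)⁻¹ := by
    rw [← Real.rpow_natCast m 4, ← Real.rpow_mul hm.le, ← Real.rpow_natCast m 7,
      ← Real.rpow_neg hm.le]
    norm_num
  rw [e1]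
  have h5 : (0 : ℝ) < 1 + ‖y‖ := by positivity
  field_simp

lemma hk_integrable {m : ℝ} (hm : 0 < m) : Integrable (hk (m ^ 4)) := by
  have h4 : (m ^ 4 : ℝ) ≠ 0 := by positivity
  rw [← integrable_comp_smul_iff volume (hk (m ^ 4)) h4]
  simp_rw [hk_scale hm]
  exact hk_one_integrable.const_mul _

lemma hk_integral {m : ℝ} (hm : 0 < m) : ∫ y : ℂ, hk (m ^ 4) y = (m ^ 3)⁻¹ * Jk := by
  have h4 : (0 : ℝ) < m ^ 4 := by positivity
  have h := Measure.integral_comp_smul (volume : Measure ℂ) (hk (m ^ 4)) (m ^ 4)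
  simp_rw [hk_scale hm] at h
  rw [integral_const_mul, Complex.finrank_real_complex, smul_eq_mul, abs_of_pos (by positivity)] at h
  have h' : ∫ y : ℂ, hk (m ^ 4) y = (m ^ 4) ^ 2 * ((m ^ 11)⁻¹ * Jk) := by
    have h8 : ((m ^ 4) ^ 2 : ℝ) ≠ 0 := by positivity
    rw [Jk, h]
    field_simp
  rw [h']
  field_simp

/-- Pointwise comparison, ordered case. -/
lemma pointwise_ordered {m δ : ℝ} (hm : 0 < m) (hδ : 0 < δ) (hδm : δ ≤ m) {u v w : ℝ}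
    (hu : 0 ≤ u) (hv : 0 ≤ v) (hw : 0 ≤ w)
    (huv : δ ^ 4 ≤ u + v) (huw : m ^ 4 ≤ u + w) (hvw : m ^ 4 ≤ 2 * (v + w))
    (huw' : u ≤ w + m ^ 4) (hvw' : v ≤ w + m ^ 4) :
    (u * v * w)⁻¹ ≤ 32 * δ⁻¹ * (u ^ (-(7 / 4) : ℝ) / (m ^ 4 + u) + v ^ (-(7 / 4) : ℝ) / (m ^ 4 + v)
      + w ^ (-(7 / 4) : ℝ) / (m ^ 4 + w)) := by
  have hM : (0 : ℝ) < m ^ 4 := by positivity
  have hA : 0 ≤ u ^ (-(7 / 4) : ℝ) / (m ^ 4 + u) := by positivity
  have hB : 0 ≤ v ^ (-(7 / 4) : ℝ) / (m ^ 4 + v) := by positivity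
  have hC : 0 ≤ w ^ (-(7 / 4) : ℝ) / (m ^ 4 + w) := by positivity
  have hD : (0 : ℝ) < 32 * δ⁻¹ := by positivity
  have hrhs : 0 ≤ 32 * δ⁻¹ * (u ^ (-(7 / 4) : ℝ) / (m ^ 4 + u) + v ^ (-(7 / 4) : ℝ) / (m ^ 4 + v)
      + w ^ (-(7 / 4) : ℝ) / (m ^ 4 + w)) := by positivity
  rcases hu.eq_or_lt with rfl | hu
  · simpa using hrhs
  rcases hv.eq_or_lt with rfl | hv
  · simpa using hrhs
  rcases hw.eq_or_lt with rfl | hw
  · simpa using hrhs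
  -- a general auxiliary inequality
  have key : ∀ a b : ℝ, 0 < a → 0 < b → a ≤ b → δ ^ 4 ≤ a + b → m ^ 4 ≤ 4 * w → a ≤ w + m ^ 4 →
      (a * b * w)⁻¹ ≤ 32 * δ⁻¹ * (a ^ (-(7 / 4) : ℝ) / (m ^ 4 + a)) := by
    intro a b ha hb hab hd hmw haw
    -- b ≥ δ^4/2 ≥ (δ/2)^4
    set β : ℝ := b ^ (1 / 4 : ℝ) with hβ
    set α : ℝ := a ^ (1 / 4 : ℝ) with hα
    have hβ0 : 0 < β := by positivity
    have hα0 : 0 < α := by positivity
    have hb4 : β ^ 4 = b := by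
      rw [hβ, ← Real.rpow_natCast, ← Real.rpow_mul hb.le]; norm_num
    have ha4 : α ^ 4 = a := by
      rw [hα, ← Real.rpow_natCast, ← Real.rpow_mul ha.le]; norm_num
    have ha7 : a ^ (-(7 / 4) : ℝ) = (α ^ 7)⁻¹ := by
      rw [hα, ← Real.rpow_natCast, ← Real.rpow_mul ha.le, ← Real.rpow_neg ha.le]; norm_num
    have hαβ : α ≤ β := Real.rpow_le_rpow ha.le hab (by norm_num)
    have hδβ : δ ≤ 2 * β := by
      by_contra hcon
      push Not at hcon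
      have h1 : (2 * β) ^ 4 < δ ^ 4 := pow_lt_pow_left₀ hcon (by positivity) (by norm_num)
      have h2 : (2 * β) ^ 4 = 16 * b := by rw [mul_pow, hb4]; norm_num
      linarith
    have hw9 : m ^ 4 + a ≤ 9 * w := by linarith
    rw [ha7]
    have e1 : (a * b * w)⁻¹ = (α ^ 4)⁻¹ * (β ^ 4)⁻¹ * w⁻¹ := by
      rw [ha4, hb4, mul_inv, mul_inv]
    rw [e1]
    have h3 : (β ^ 4)⁻¹ ≤ 2 * δ⁻¹ * (α ^ 3)⁻¹ := by
      rw [inv_le_comm₀ (by positivity) (by positivity)]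
      have : (2 * δ⁻¹ * (α ^ 3)⁻¹)⁻¹ = δ / 2 * α ^ 3 := by field_simp
      rw [this]
      calc δ / 2 * α ^ 3 ≤ β * β ^ 3 := by gcongr; linarith
        _ = β ^ 4 := by ring
    have h4 : w⁻¹ ≤ 9 * (m ^ 4 + a)⁻¹ := by
      rw [inv_le_comm₀ (by positivity) (by positivity)]
      have : (9 * (m ^ 4 + a)⁻¹)⁻¹ = (m ^ 4 + a) / 9 := by field_simp
      rw [this]
      linarith
    calc (α ^ 4)⁻¹ * (β ^ 4)⁻¹ * w⁻¹
        ≤ (α ^ 4)⁻¹ * (2 * δ⁻¹ * (α ^ 3)⁻¹) * (9 * (m ^ 4 + a)⁻¹) := by gcongr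
      _ = 18 * δ⁻¹ * ((α ^ 7)⁻¹ / (m ^ 4 + a)) := by
          field_simp
          norm_num
      _ ≤ 32 * δ⁻¹ * ((α ^ 7)⁻¹ / (m ^ 4 + a)) := by gcongr; norm_num
  by_cases hcase : m ^ 4 ≤ 4 * w
  · rcases le_total u v with h | h
    · have := key u v hu hv h huv hcase huw'
      refine this.trans ?_
      gcongr
      linarith
    · have := key v u hv hu h (by linarith) hcase hvw'
      rw [mul_comm u v]
      refine this.trans ?_
      gcongr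
      linarith
  · push Not at hcase
    -- w < M/4
    have hu4 : m ^ 4 / 4 ≤ u := by linarith
    have hv4 : m ^ 4 / 4 ≤ v := by linarith
    set ω : ℝ := w ^ (1 / 4 : ℝ) with hω
    have hω0 : 0 < ω := by positivity
    have hw4 : ω ^ 4 = w := by
      rw [hω, ← Real.rpow_natCast, ← Real.rpow_mul hw.le]; norm_num
    have hw7 : w ^ (-(7 / 4) : ℝ) = (ω ^ 7)⁻¹ := by
      rw [hω, ← Real.rpow_natCast, ← Real.rpow_mul hw.le, ← Real.rpow_neg hw.le]; norm_num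
    have hωm : ω ≤ m := by
      by_contra hcon
      push Not at hcon
      have h1 : m ^ 4 < ω ^ 4 := pow_lt_pow_left₀ hcon hm.le (by norm_num)
      rw [hw4] at h1
      linarith
    have e2 : (u * v * w)⁻¹ ≤ 32 * δ⁻¹ * (w ^ (-(7 / 4) : ℝ) / (m ^ 4 + w)) := by
      rw [hw7, mul_inv, mul_inv]
      have h1 : u⁻¹ ≤ 4 * (m ^ 4)⁻¹ := by
        rw [inv_le_comm₀ (by positivity) (by positivity)]
        have : (4 * (m ^ 4)⁻¹)⁻¹ = m ^ 4 / 4 := by field_simp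
        rw [this]; exact hu4
      have h2 : v⁻¹ ≤ 4 * (m ^ 4)⁻¹ := by
        rw [inv_le_comm₀ (by positivity) (by positivity)]
        have : (4 * (m ^ 4)⁻¹)⁻¹ = m ^ 4 / 4 := by field_simp
        rw [this]; exact hv4
      have h3 : w⁻¹ ≤ m ^ 3 * (ω ^ 7)⁻¹ := by
        rw [← hw4, inv_le_comm₀ (by positivity) (by positivity)]
        have : (m ^ 3 * (ω ^ 7)⁻¹)⁻¹ = ω ^ 7 / m ^ 3 := by field_simp
        rw [this, div_le_iff₀ (by positivity)]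
        calc ω ^ 7 = ω ^ 4 * ω ^ 3 := by ring
          _ ≤ ω ^ 4 * m ^ 3 := by gcongr
      have h5 : (m ^ 4)⁻¹ ≤ 2 * (m ^ 4 + w)⁻¹ := by
        rw [inv_le_comm₀ (by positivity) (by positivity)]
        have : (2 * (m ^ 4 + w)⁻¹)⁻¹ = (m ^ 4 + w) / 2 := by field_simp
        rw [this]; linarith
      have h6 : m⁻¹ ≤ δ⁻¹ := by
        gcongr
      calc u⁻¹ * v⁻¹ * w⁻¹ ≤ (4 * (m ^ 4)⁻¹) * (4 * (m ^ 4)⁻¹) * (m ^ 3 * (ω ^ 7)⁻¹) := by gcongr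
        _ = 16 * m⁻¹ * ((ω ^ 7)⁻¹ * (m ^ 4)⁻¹) := by field_simp; norm_num
        _ ≤ 16 * δ⁻¹ * ((ω ^ 7)⁻¹ * (2 * (m ^ 4 + w)⁻¹)) := by gcongr
        _ = 32 * δ⁻¹ * ((ω ^ 7)⁻¹ / (m ^ 4 + w)) := by field_simp; norm_num
    refine e2.trans ?_
    gcongr
    linarith

/-- Ordered case of the integral bound. -/
lemma integral_ordered {m δ : ℝ} (hm : 0 < m) (hδ : 0 < δ) {e₁ e₂ e₃ : ℂ}
    (h12 : ‖e₁ - e₂‖ = δ ^ 4) (h13 : ‖e₁ - e₃‖ = m ^ 4) (h23 : ‖e₂ - e₃‖ ≤ m ^ 4)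
    (h123 : ‖e₁ - e₂‖ ≤ ‖e₂ - e₃‖) :
    Integrable (fun x : ℂ => ‖(x - e₁) * (x - e₂) * (x - e₃)‖⁻¹) ∧
    ∫ x : ℂ, ‖(x - e₁) * (x - e₂) * (x - e₃)‖⁻¹ ≤ 96 * Jk * (δ * m ^ 3)⁻¹ := by
  have hδm : δ ≤ m := by
    by_contra hcon
    push Not at hcon
    have h1 : m ^ 4 < δ ^ 4 := pow_lt_pow_left₀ hcon hm.le (by norm_num)
    linarith
  have h23' : m ^ 4 ≤ 2 * ‖e₂ - e₃‖ := by
    have : ‖e₁ - e₃‖ ≤ ‖e₁ - e₂‖ + ‖e₂ - e₃‖ := by
      have := norm_add_le (e₁ - e₂) (e₂ - e₃)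
      simpa using this
    linarith
  set G : ℂ → ℝ := fun x => 32 * δ⁻¹ * (hk (m ^ 4) (x - e₁) + hk (m ^ 4) (x - e₂)
    + hk (m ^ 4) (x - e₃)) with hG
  have hi : Integrable (hk (m ^ 4)) := hk_integrable hm
  have hGi : Integrable G := by
    rw [hG]
    exact (((hi.comp_sub_right e₁).add (hi.comp_sub_right e₂)).add
      (hi.comp_sub_right e₃)).const_mul _
  have hpt : ∀ x : ℂ, ‖(x - e₁) * (x - e₂) * (x - e₃)‖⁻¹ ≤ G x := by
    intro x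
    rw [norm_mul, norm_mul]
    have t1 : ‖e₁ - e₂‖ ≤ ‖x - e₁‖ + ‖x - e₂‖ := by
      have := norm_sub_le (x - e₂) (x - e₁)
      have e : (x - e₂) - (x - e₁) = e₁ - e₂ := by ring
      rw [e] at this; linarith
    have t2 : ‖e₁ - e₃‖ ≤ ‖x - e₁‖ + ‖x - e₃‖ := by
      have := norm_sub_le (x - e₃) (x - e₁)
      have e : (x - e₃) - (x - e₁) = e₁ - e₃ := by ring
      rw [e] at this; linarith
    have t3 : ‖e₂ - e₃‖ ≤ ‖x - e₂‖ + ‖x - e₃‖ := by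
      have := norm_sub_le (x - e₃) (x - e₂)
      have e : (x - e₃) - (x - e₂) = e₂ - e₃ := by ring
      rw [e] at this; linarith
    have t4 : ‖x - e₁‖ ≤ ‖x - e₃‖ + ‖e₁ - e₃‖ := by
      have := norm_sub_le (x - e₃) (e₁ - e₃)
      have e : (x - e₃) - (e₁ - e₃) = x - e₁ := by ring
      rw [e] at this; linarith
    have t5 : ‖x - e₂‖ ≤ ‖x - e₃‖ + ‖e₂ - e₃‖ := by
      have := norm_sub_le (x - e₃) (e₂ - e₃)
      have e : (x - e₃) - (e₂ - e₃) = x - e₂ := by ring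
      rw [e] at this; linarith
    exact pointwise_ordered hm hδ hδm (norm_nonneg _) (norm_nonneg _) (norm_nonneg _)
      (by linarith) (by linarith) (by linarith) (by linarith) (by linarith)
  have hmeas : AEStronglyMeasurable (fun x : ℂ => ‖(x - e₁) * (x - e₂) * (x - e₃)‖⁻¹) := by
    have : Measurable (fun x : ℂ => ‖(x - e₁) * (x - e₂) * (x - e₃)‖⁻¹) := by fun_prop
    exact this.aestronglyMeasurable
  have hint : Integrable (fun x : ℂ => ‖(x - e₁) * (x - e₂) * (x - e₃)‖⁻¹) := by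
    refine hGi.mono' hmeas (Filter.Eventually.of_forall fun x => ?_)
    rw [Real.norm_of_nonneg (by positivity)]
    exact hpt x
  refine ⟨hint, ?_⟩
  calc ∫ x : ℂ, ‖(x - e₁) * (x - e₂) * (x - e₃)‖⁻¹ ≤ ∫ x : ℂ, G x := integral_mono hint hGi hpt
    _ = 32 * δ⁻¹ * ((m ^ 3)⁻¹ * Jk + (m ^ 3)⁻¹ * Jk + (m ^ 3)⁻¹ * Jk) := by
        have i12 : Integrable (fun x => hk (m ^ 4) (x - e₁) + hk (m ^ 4) (x - e₂)) :=
          (hi.comp_sub_right e₁).add (hi.comp_sub_right e₂)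
        rw [hG, integral_const_mul, integral_add i12 (hi.comp_sub_right e₃),
          integral_add (hi.comp_sub_right e₁) (hi.comp_sub_right e₂),
          integral_sub_right_eq_self (hk (m ^ 4)), integral_sub_right_eq_self (hk (m ^ 4)),
          integral_sub_right_eq_self (hk (m ^ 4)), hk_integral hm]
    _ = 96 * Jk * (δ * m ^ 3)⁻¹ := by
        rw [mul_inv]; ring

/-- Version with `t`, ordered. -/
lemma integral_ordered' {e₁ e₂ e₃ : ℂ} (h12 : e₁ ≠ e₂)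
    (h123 : ‖e₁ - e₂‖ ≤ ‖e₂ - e₃‖) (h132 : ‖e₂ - e₃‖ ≤ ‖e₁ - e₃‖) {R t : ℝ} (ht : 0 < t)
    (hR : R ≤ ‖e₁ - e₃‖) (htR : t ^ 4 ≤ ‖e₁ - e₂‖ * ‖e₂ - e₃‖ * ‖e₁ - e₃‖ * R) :
    Integrable (fun x : ℂ => ‖(x - e₁) * (x - e₂) * (x - e₃)‖⁻¹) ∧
    ∫ x : ℂ, ‖(x - e₁) * (x - e₂) * (x - e₃)‖⁻¹ ≤ 96 * Jk / t := by
  have hd : 0 < ‖e₁ - e₂‖ := by
    rw [norm_pos_iff]; exact sub_ne_zero.2 h12
  have hM : 0 < ‖e₁ - e₃‖ := by linarith
  set δ : ℝ := ‖e₁ - e₂‖ ^ (1 / 4 : ℝ) with hδ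
  set m : ℝ := ‖e₁ - e₃‖ ^ (1 / 4 : ℝ) with hm
  have hδ0 : 0 < δ := by positivity
  have hm0 : 0 < m := by positivity
  have hδ4 : ‖e₁ - e₂‖ = δ ^ 4 := by
    rw [hδ, ← Real.rpow_natCast, ← Real.rpow_mul hd.le]; norm_num
  have hm4 : ‖e₁ - e₃‖ = m ^ 4 := by
    rw [hm, ← Real.rpow_natCast, ← Real.rpow_mul hM.le]; norm_num
  obtain ⟨hi, hle⟩ := integral_ordered hm0 hδ0 hδ4 hm4 (by rw [← hm4]; exact h132) h123
  refine ⟨hi, hle.trans ?_⟩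
  have hJ := Jk_nonneg
  have htle : t ≤ δ * m ^ 3 := by
    by_contra hcon
    push Not at hcon
    have h1 : (δ * m ^ 3) ^ 4 < t ^ 4 := pow_lt_pow_left₀ hcon (by positivity) (by norm_num)
    have h2 : ‖e₁ - e₂‖ * ‖e₂ - e₃‖ * ‖e₁ - e₃‖ * R ≤
        ‖e₁ - e₂‖ * ‖e₁ - e₃‖ * ‖e₁ - e₃‖ * ‖e₁ - e₃‖ := by
      have h23 : 0 < ‖e₂ - e₃‖ := by linarith
      have hR0 : 0 ≤ R := by
        by_contra hR0
        push Not at hR0
        have : ‖e₁ - e₂‖ * ‖e₂ - e₃‖ * ‖e₁ - e₃‖ * R < 0 :=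
          mul_neg_of_pos_of_neg (by positivity) hR0
        have ht4 : 0 < t ^ 4 := by positivity
        linarith
      gcongr
    have h3 : ‖e₁ - e₂‖ * ‖e₁ - e₃‖ * ‖e₁ - e₃‖ * ‖e₁ - e₃‖ = (δ * m ^ 3) ^ 4 := by
      rw [hδ4, hm4]; ring
    linarith
  rw [div_eq_mul_inv]
  gcongr

/-- **Upper bound for the area integral.** -/
theorem integral_inv_cubic_le {e₁ e₂ e₃ : ℂ} (h12 : e₁ ≠ e₂) (h23 : e₂ ≠ e₃) (h13 : e₁ ≠ e₃)
    {R t : ℝ} (ht : 0 < t)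
    (hR : R ≤ ‖e₁ - e₂‖ ∨ R ≤ ‖e₂ - e₃‖ ∨ R ≤ ‖e₁ - e₃‖)
    (htR : t ^ 4 ≤ ‖e₁ - e₂‖ * ‖e₂ - e₃‖ * ‖e₁ - e₃‖ * R) :
    Integrable (fun x : ℂ => ‖(x - e₁) * (x - e₂) * (x - e₃)‖⁻¹) ∧
    ∫ x : ℂ, ‖(x - e₁) * (x - e₂) * (x - e₃)‖⁻¹ ≤ 96 * Jk / t := by
  have c12 : ‖e₂ - e₁‖ = ‖e₁ - e₂‖ := norm_sub_rev _ _
  have c23 : ‖e₃ - e₂‖ = ‖e₂ - e₃‖ := norm_sub_rev _ _
  have c13 : ‖e₃ - e₁‖ = ‖e₁ - e₃‖ := norm_sub_rev _ _
  -- permutations of the integrand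
  have p213 : (fun x : ℂ => ‖(x - e₁) * (x - e₂) * (x - e₃)‖⁻¹) =
      fun x : ℂ => ‖(x - e₂) * (x - e₁) * (x - e₃)‖⁻¹ := by
    funext x; congr 2; ring
  have p132 : (fun x : ℂ => ‖(x - e₁) * (x - e₂) * (x - e₃)‖⁻¹) =
      fun x : ℂ => ‖(x - e₁) * (x - e₃) * (x - e₂)‖⁻¹ := by
    funext x; congr 2; ring
  have p321 : (fun x : ℂ => ‖(x - e₁) * (x - e₂) * (x - e₃)‖⁻¹) =
      fun x : ℂ => ‖(x - e₃) * (x - e₂) * (x - e₁)‖⁻¹ := by
    funext x; congr 2; ring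
  have p231 : (fun x : ℂ => ‖(x - e₁) * (x - e₂) * (x - e₃)‖⁻¹) =
      fun x : ℂ => ‖(x - e₂) * (x - e₃) * (x - e₁)‖⁻¹ := by
    funext x; congr 2; ring
  have p312 : (fun x : ℂ => ‖(x - e₁) * (x - e₂) * (x - e₃)‖⁻¹) =
      fun x : ℂ => ‖(x - e₃) * (x - e₁) * (x - e₂)‖⁻¹ := by
    funext x; congr 2; ring
  rcases le_total ‖e₁ - e₂‖ ‖e₂ - e₃‖ with hA | hA <;>
  rcases le_total ‖e₂ - e₃‖ ‖e₁ - e₃‖ with hB | hB <;>
  rcases le_total ‖e₁ - e₂‖ ‖e₁ - e₃‖ with hC | hC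
  · -- 12 ≤ 23 ≤ 13
    have hR' : R ≤ ‖e₁ - e₃‖ := by rcases hR with h | h | h <;> linarith
    exact integral_ordered' h12 hA hB ht hR' htR
  · have hR' : R ≤ ‖e₁ - e₃‖ := by rcases hR with h | h | h <;> linarith
    exact integral_ordered' h12 hA hB ht hR' htR
  · -- 12 ≤ 13 ≤ 23 : order (e₂, e₁, e₃)
    have hR' : R ≤ ‖e₂ - e₃‖ := by rcases hR with h | h | h <;> linarith
    rw [p213]
    refine integral_ordered' h12.symm (by rw [c12]; exact hC) hB ht hR' ?_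
    rw [c12]
    calc t ^ 4 ≤ _ := htR
      _ = _ := by ring
  · -- 12 ≤ 23, 13 ≤ 23, 13 ≤ 12 : order 13 ≤ 12 ≤ 23 : (e₃, e₁, e₂)
    have hR' : R ≤ ‖e₃ - e₂‖ := by rw [c23]; rcases hR with h | h | h <;> linarith
    rw [p312]
    refine integral_ordered' h13.symm (by rw [c13]; exact hC) (by rw [c23]; exact hA) ht hR' ?_
    rw [c13, c23]
    calc t ^ 4 ≤ _ := htR
      _ = _ := by ring
  · -- 23 ≤ 12 ≤ 13 : order (e₃, e₂, e₁)
    have hR' : R ≤ ‖e₃ - e₁‖ := by rw [c13]; rcases hR with h | h | h <;> linarith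
    rw [p321]
    refine integral_ordered' h23.symm (by rw [c23, c12]; exact hA) (by rw [c12, c13]; exact hC)
      ht hR' ?_
    rw [c23, c12, c13]
    calc t ^ 4 ≤ _ := htR
      _ = _ := by ring
  · -- 23 ≤ 12, 23 ≤ 13, 13 ≤ 12 : 23 ≤ 13 ≤ 12 : order (e₂, e₃, e₁)
    have hR' : R ≤ ‖e₂ - e₁‖ := by rw [c12]; rcases hR with h | h | h <;> linarith
    rw [p231]
    refine integral_ordered' h23 (by rw [c13]; exact hB) (by rw [c13, c12]; exact hC) ht hR' ?_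
    rw [c13, c12]
    calc t ^ 4 ≤ _ := htR
      _ = _ := by ring
  · -- 23 ≤ 12, 13 ≤ 23, 12 ≤ 13 : all equal
    have hR' : R ≤ ‖e₃ - e₂‖ := by rw [c23]; rcases hR with h | h | h <;> linarith
    rw [p312]
    refine integral_ordered' h13.symm (by rw [c13]; linarith) (by rw [c23]; linarith) ht hR' ?_
    rw [c13, c23]
    calc t ^ 4 ≤ _ := htR
      _ = _ := by ring
  · -- 13 ≤ 23 ≤ 12 : order (e₁, e₃, e₂)
    have hR' : R ≤ ‖e₁ - e₂‖ := by rcases hR with h | h | h <;> linarith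
    rw [p132]
    refine integral_ordered' h13 (by rw [c23]; exact hB) (by rw [c23]; exact hA) ht hR' ?_
    rw [c23]
    calc t ^ 4 ≤ _ := htR
      _ = _ := by ring

/-- The area integral of a cubic with distinct roots is positive. -/
theorem integral_inv_cubic_pos {e₁ e₂ e₃ : ℂ}
    (hi : Integrable (fun x : ℂ => ‖(x - e₁) * (x - e₂) * (x - e₃)‖⁻¹)) :
    0 < ∫ x : ℂ, ‖(x - e₁) * (x - e₂) * (x - e₃)‖⁻¹ := by
  rw [integral_pos_iff_support_of_nonneg (fun x => by positivity) hi]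
  have hs : Function.support (fun x : ℂ => ‖(x - e₁) * (x - e₂) * (x - e₃)‖⁻¹) =
      ({e₁, e₂, e₃} : Set ℂ)ᶜ := by
    ext x
    simp only [Function.mem_support, ne_eq, inv_eq_zero, norm_eq_zero, mul_eq_zero, sub_eq_zero,
      mem_compl_iff, mem_insert_iff, mem_singleton_iff, or_assoc]
  rw [hs]
  have hopen : IsOpen (({e₁, e₂, e₃} : Set ℂ)ᶜ) := by
    have : ({e₁, e₂, e₃} : Set ℂ).Finite := by simp
    exact this.isClosed.isOpen_compl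
  refine hopen.measure_pos volume ?_
  have hinf : (({e₁, e₂, e₃} : Set ℂ)ᶜ).Infinite := by
    have : ({e₁, e₂, e₃} : Set ℂ).Finite := by simp
    exact this.infinite_compl
  exact hinf.nonempty

end FreyHt
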