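import Mathlib
import Pool.Agent.Lib.MP_6babc4_nt.Integral
import Pool.Agent.Lib.MP_6babc4_nt.Defs

/-!
# The archimedean part of the Faltings height of a Weierstrass curve
-/

open MeasureTheory Set

namespace FreyHt

lemma area_of_roots {W : WeierstrassCurve ℂ} {e₁ e₂ e₃ : ℂ}
    (hf : ∀ x : ℂ, 4 * x ^ 3 + W.b₂ * x ^ 2 + 2 * W.b₄ * x + W.b₆ =
      4 * ((x - e₁) * (x - e₂) * (x - e₃)))
    (h12 : e₁ ≠ e₂) (h23 : e₂ ≠ e₃) (h13 : e₁ ≠ e₃)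
    {R t : ℝ} (ht : 0 < t)
    (hR : R ≤ ‖e₁ - e₂‖ ∨ R ≤ ‖e₂ - e₃‖ ∨ R ≤ ‖e₁ - e₃‖)
    (htR : t ^ 4 ≤ ‖e₁ - e₂‖ * ‖e₂ - e₃‖ * ‖e₁ - e₃‖ * R) :
    0 < areaIntegral W ∧ areaIntegral W ≤ 24 * Jk / t := by
  obtain ⟨hi, hle⟩ := integral_inv_cubic_le h12 h23 h13 ht hR htR
  have hpos := integral_inv_cubic_pos hi
  have e : areaIntegral W = 4⁻¹ * ∫ x : ℂ, ‖(x - e₁) * (x - e₂) * (x - e₃)‖⁻¹ := by
    unfold areaIntegral
    rw [← integral_const_mul]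
    congr 1
    funext x
    rw [hf x, norm_mul, mul_inv]
    norm_num
  rw [e]
  refine ⟨by positivity, ?_⟩
  calc 4⁻¹ * ∫ x : ℂ, ‖(x - e₁) * (x - e₂) * (x - e₃)‖⁻¹ ≤ 4⁻¹ * (96 * Jk / t) := by gcongr
    _ = 24 * Jk / t := by ring

lemma log_of_bounds {a A t : ℝ} (ha : 0 < a) (h : a ≤ A / t) (ht : 0 < t) :
    0 < A ∧ Real.log (2 * a) ≤ Real.log (2 * A) - Real.log t := by
  have hA : 0 < A := by
    have h1 : 0 < A / t := lt_of_lt_of_le ha h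
    have := mul_pos h1 ht
    rwa [div_mul_cancel₀ _ ht.ne'] at this
  refine ⟨hA, ?_⟩
  rw [← Real.log_div (by positivity) ht.ne']
  apply Real.log_le_log (by positivity)
  calc 2 * a ≤ 2 * (A / t) := by gcongr
    _ = 2 * A / t := by ring

/-- First family. -/
lemma family_one_area {W : WeierstrassCurve ℂ} {β : ℂ} (hβ : β ≠ 0) (hβ' : 1 + 16 * β ≠ 0)
    (h2 : W.b₂ = 1 - 4 * β) (h4 : W.b₄ = -β) (h6 : W.b₆ = β ^ 2) :
    0 < areaIntegral W ∧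
    Real.log (2 * areaIntegral W) ≤ Real.log (48 * Jk) + (1 / 4) * Real.log 120
      - (1 / 4) * (2 * Real.log ‖β‖ + (1 / 2) * Real.log ‖1 + 16 * β‖ + Real.log (1 + ‖β‖)) := by
  obtain ⟨s, hs⟩ : ∃ s : ℂ, s ^ 2 = 1 + 16 * β := IsAlgClosed.exists_pow_nat_eq _ (by norm_num)
  have hs0 : s ≠ 0 := by
    rintro rfl
    apply hβ'
    rw [← hs]; norm_num
  set r₁ : ℂ := (-1 + s) / 8 with hr₁
  set r₂ : ℂ := (-1 - s) / 8 with hr₂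
  have hβe : β = (s ^ 2 - 1) / 16 := by rw [hs]; ring
  have hf : ∀ x : ℂ, 4 * x ^ 3 + W.b₂ * x ^ 2 + 2 * W.b₄ * x + W.b₆ =
      4 * ((x - β) * (x - r₁) * (x - r₂)) := by
    intro x
    rw [h2, h4, h6, hr₁, hr₂, hβe]
    ring
  have hprod : (β - r₁) * (β - r₂) = β ^ 2 := by
    rw [hr₁, hr₂, hβe]; ring
  have hsum : (β - r₁) + (β - r₂) = 2 * β + 1 / 4 := by
    rw [hr₁, hr₂]; ring
  have hdiff : r₁ - r₂ = s / 4 := by
    rw [hr₁, hr₂]; ring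
  have hne1 : β - r₁ ≠ 0 := by
    intro h; rw [h, zero_mul] at hprod; exact hβ (pow_eq_zero_iff (two_ne_zero) |>.1 hprod.symm)
  have hne2 : β - r₂ ≠ 0 := by
    intro h; rw [h, mul_zero] at hprod; exact hβ (pow_eq_zero_iff (two_ne_zero) |>.1 hprod.symm)
  have hne3 : r₁ - r₂ ≠ 0 := by
    rw [hdiff]; exact div_ne_zero hs0 (by norm_num)
  set R : ℝ := (1 + ‖β‖) / 30 with hRdef
  have hR : R ≤ ‖β - r₁‖ ∨ R ≤ ‖r₁ - r₂‖ ∨ R ≤ ‖β - r₂‖ := by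
    by_contra hcon
    push Not at hcon
    obtain ⟨c1, c2, c3⟩ := hcon
    have d1 : ‖2 * β + 1 / 4‖ < 2 * R := by
      rw [← hsum]
      calc ‖(β - r₁) + (β - r₂)‖ ≤ ‖β - r₁‖ + ‖β - r₂‖ := norm_add_le _ _
        _ < 2 * R := by linarith
    have d2 : ‖1 + 16 * β‖ < 16 * R ^ 2 := by
      have : ‖1 + 16 * β‖ = 16 * ‖r₁ - r₂‖ ^ 2 := by
        rw [← hs, hdiff, norm_pow, norm_div]
        norm_num
        ring
      rw [this]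
      have : ‖r₁ - r₂‖ ^ 2 < R ^ 2 := pow_lt_pow_left₀ c2 (norm_nonneg _) (by norm_num)
      linarith
    have d3 : 2 * ‖β‖ ≤ ‖2 * β + 1 / 4‖ + 1 / 4 := by
      have h1 : ‖(2 * β + 1 / 4) - 1 / 4‖ ≤ ‖2 * β + 1 / 4‖ + ‖(1 / 4 : ℂ)‖ := norm_sub_le _ _
      have h2 : ‖(2 * β + 1 / 4) - 1 / 4‖ = 2 * ‖β‖ := by
        rw [add_sub_cancel_right, norm_mul]; norm_num
      have h3 : ‖(1 / 4 : ℂ)‖ = 1 / 4 := by norm_num
      rw [h2, h3] at h1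
      exact h1
    have d4 : (1 : ℝ) ≤ 8 * ‖2 * β + 1 / 4‖ + ‖1 + 16 * β‖ := by
      have h1 : ‖8 * (2 * β + 1 / 4) - (1 + 16 * β)‖ ≤ ‖8 * (2 * β + 1 / 4)‖ + ‖1 + 16 * β‖ :=
        norm_sub_le _ _
      have h2 : 8 * (2 * β + 1 / 4) - (1 + 16 * β) = 1 := by ring
      rw [h2, norm_mul] at h1
      norm_num at h1
      norm_num
      linarith
    have d5 : ‖β‖ < R + 1 / 8 := by linarith
    have d6 : R < 1 / 25 := by rw [hRdef] at d5 ⊢; linarith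
    have d7 : R ^ 2 < 1 / 625 := by
      have h0 : 0 ≤ R := by positivity
      nlinarith
    linarith
  set P : ℝ := ‖β - r₁‖ * ‖r₁ - r₂‖ * ‖β - r₂‖ * R with hP
  have hP0 : 0 < P := by
    have := norm_pos_iff.2 hne1
    have := norm_pos_iff.2 hne2
    have := norm_pos_iff.2 hne3
    positivity
  set t : ℝ := P ^ (1 / 4 : ℝ) with ht
  have ht0 : 0 < t := by positivity
  have ht4 : t ^ 4 ≤ P := by
    rw [ht, ← Real.rpow_natCast, ← Real.rpow_mul hP0.le]; norm_num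
  obtain ⟨hpos, hle⟩ := area_of_roots hf (sub_ne_zero.1 hne1) (sub_ne_zero.1 hne3)
    (sub_ne_zero.1 hne2) ht0 hR ht4
  refine ⟨hpos, ?_⟩
  obtain ⟨hA, hlog⟩ := log_of_bounds hpos hle ht0
  have hPval : P = ‖β‖ ^ 2 * ‖s‖ * (1 + ‖β‖) / 120 := by
    have e1 : ‖β - r₁‖ * ‖β - r₂‖ = ‖β‖ ^ 2 := by rw [← norm_mul, hprod, norm_pow]
    have e2 : ‖r₁ - r₂‖ = ‖s‖ / 4 := by rw [hdiff, norm_div]; norm_num
    calc P = (‖β - r₁‖ * ‖β - r₂‖) * ‖r₁ - r₂‖ * R := by rw [hP]; ring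
      _ = _ := by rw [e1, e2, hRdef]; ring
  have hs' : Real.log ‖s‖ = (1 / 2) * Real.log ‖1 + 16 * β‖ := by
    rw [← hs, norm_pow, Real.log_pow]; push_cast; ring
  have hβn : 0 < ‖β‖ := norm_pos_iff.2 hβ
  have hsn : 0 < ‖s‖ := norm_pos_iff.2 hs0
  have hlogt : Real.log t = (1 / 4) * (2 * Real.log ‖β‖ + (1 / 2) * Real.log ‖1 + 16 * β‖ +
      Real.log (1 + ‖β‖)) - (1 / 4) * Real.log 120 := by
    rw [ht, Real.log_rpow hP0, hPval, Real.log_div (by positivity) (by norm_num),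
      Real.log_mul (by positivity) (by positivity), Real.log_mul (by positivity) (by positivity),
      Real.log_pow, hs']
    push_cast
    ring
  have e3 : 2 * (24 * Jk) = 48 * Jk := by ring
  rw [e3, hlogt] at hlog
  linarith

/-- General Weierstrass curve with `c₄ ≠ 0`. -/
lemma area_c4 {W : WeierstrassCurve ℂ} (hΔ : W.Δ ≠ 0) (hc : W.c₄ ≠ 0) :
    0 < areaIntegral W ∧
    Real.log (2 * areaIntegral W) ≤ Real.log (48 * Jk) + (1 / 8) * Real.log 384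
      - (1 / 8) * (Real.log ‖W.Δ‖ + Real.log ‖W.c₄‖) := by
  have ha : W.twoTorsionPolynomial.a ≠ 0 := by
    simp [WeierstrassCurve.twoTorsionPolynomial]
  have hsp : (W.twoTorsionPolynomial.toPoly.map (RingHom.id ℂ)).Splits := IsAlgClosed.splits _
  obtain ⟨e₁, e₂, e₃, h3⟩ := (Cubic.splits_iff_roots_eq_three ha).1 hsp
  have hb := Cubic.b_eq_three_roots ha h3
  have hc' := Cubic.c_eq_three_roots ha h3
  have hd := Cubic.d_eq_three_roots ha h3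
  simp only [RingHom.id_apply, WeierstrassCurve.twoTorsionPolynomial] at hb hc' hd
  have hf : ∀ x : ℂ, 4 * x ^ 3 + W.b₂ * x ^ 2 + 2 * W.b₄ * x + W.b₆ =
      4 * ((x - e₁) * (x - e₂) * (x - e₃)) := by
    intro x
    rw [hb, hc', hd]; ring
  have hdisc : W.Δ = 16 * ((e₁ - e₂) * (e₂ - e₃) * (e₁ - e₃)) ^ 2 := by
    have h1 := Cubic.discr_eq_prod_three_roots ha h3
    rw [W.twoTorsionPolynomial_discr] at h1
    simp only [RingHom.id_apply, WeierstrassCurve.twoTorsionPolynomial] at h1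
    have : (16 : ℂ) * W.Δ = 16 * (16 * ((e₁ - e₂) * (e₂ - e₃) * (e₁ - e₃)) ^ 2) := by
      rw [h1]; ring
    exact mul_left_cancel₀ (by norm_num) this
  have hc4 : W.c₄ = 8 * ((e₁ - e₂) ^ 2 + (e₂ - e₃) ^ 2 + (e₁ - e₃) ^ 2) := by
    have h1 : W.c₄ = W.b₂ ^ 2 - 12 * (2 * W.b₄) := by
      rw [WeierstrassCurve.c₄]; ring
    rw [h1, hb, hc']; ring
  have hne : (e₁ - e₂) * (e₂ - e₃) * (e₁ - e₃) ≠ 0 := by
    intro h
    rw [h] at hdisc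
    apply hΔ
    rw [hdisc]; ring
  have hne1 : e₁ - e₂ ≠ 0 := left_ne_zero_of_mul (left_ne_zero_of_mul hne)
  have hne2 : e₂ - e₃ ≠ 0 := right_ne_zero_of_mul (left_ne_zero_of_mul hne)
  have hne3 : e₁ - e₃ ≠ 0 := right_ne_zero_of_mul hne
  have hc4n : 0 < ‖W.c₄‖ := norm_pos_iff.2 hc
  have hΔn : 0 < ‖W.Δ‖ := norm_pos_iff.2 hΔ
  set R : ℝ := Real.sqrt (‖W.c₄‖ / 24) with hRdef
  have hR0 : 0 < R := Real.sqrt_pos.2 (by positivity)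
  have hRsq : R ^ 2 = ‖W.c₄‖ / 24 := Real.sq_sqrt (by positivity)
  have hR : R ≤ ‖e₁ - e₂‖ ∨ R ≤ ‖e₂ - e₃‖ ∨ R ≤ ‖e₁ - e₃‖ := by
    by_contra hcon
    push Not at hcon
    obtain ⟨c1, c2, c3⟩ := hcon
    have q1 : ‖e₁ - e₂‖ ^ 2 < R ^ 2 := pow_lt_pow_left₀ c1 (norm_nonneg _) (by norm_num)
    have q2 : ‖e₂ - e₃‖ ^ 2 < R ^ 2 := pow_lt_pow_left₀ c2 (norm_nonneg _) (by norm_num)
    have q3 : ‖e₁ - e₃‖ ^ 2 < R ^ 2 := pow_lt_pow_left₀ c3 (norm_nonneg _) (by norm_num)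
    have h1 : ‖W.c₄‖ ≤ 8 * (‖e₁ - e₂‖ ^ 2 + ‖e₂ - e₃‖ ^ 2 + ‖e₁ - e₃‖ ^ 2) := by
      rw [hc4, norm_mul]
      have : ‖(8 : ℂ)‖ = 8 := by norm_num
      rw [this]
      gcongr
      calc ‖(e₁ - e₂) ^ 2 + (e₂ - e₃) ^ 2 + (e₁ - e₃) ^ 2‖
          ≤ ‖(e₁ - e₂) ^ 2 + (e₂ - e₃) ^ 2‖ + ‖(e₁ - e₃) ^ 2‖ := norm_add_le _ _
        _ ≤ ‖(e₁ - e₂) ^ 2‖ + ‖(e₂ - e₃) ^ 2‖ + ‖(e₁ - e₃) ^ 2‖ := by
            gcongr; exact norm_add_le _ _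
        _ = _ := by simp only [norm_pow]
    have h2 : ‖W.c₄‖ = 24 * R ^ 2 := by rw [hRsq]; ring
    linarith
  set P : ℝ := ‖e₁ - e₂‖ * ‖e₂ - e₃‖ * ‖e₁ - e₃‖ * R with hP
  have hP0 : 0 < P := by
    have := norm_pos_iff.2 hne1
    have := norm_pos_iff.2 hne2
    have := norm_pos_iff.2 hne3
    positivity
  set t : ℝ := P ^ (1 / 4 : ℝ) with ht
  have ht0 : 0 < t := by positivity
  have ht4 : t ^ 4 ≤ P := by
    rw [ht, ← Real.rpow_natCast, ← Real.rpow_mul hP0.le]; norm_num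
  obtain ⟨hpos, hle⟩ := area_of_roots hf (sub_ne_zero.1 hne1) (sub_ne_zero.1 hne2)
    (sub_ne_zero.1 hne3) ht0 hR ht4
  refine ⟨hpos, ?_⟩
  obtain ⟨hA, hlog⟩ := log_of_bounds hpos hle ht0
  have hP2 : P ^ 2 = ‖W.Δ‖ * ‖W.c₄‖ / 384 := by
    have e1 : (‖e₁ - e₂‖ * ‖e₂ - e₃‖ * ‖e₁ - e₃‖) ^ 2 = ‖W.Δ‖ / 16 := by
      rw [hdisc, norm_mul, norm_pow, norm_mul, norm_mul]
      norm_num
    rw [hP, mul_pow, e1, hRsq]; ring
  have hlogP : Real.log P = (1 / 2) * (Real.log ‖W.Δ‖ + Real.log ‖W.c₄‖ - Real.log 384) := by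
    have h1 : Real.log (P ^ 2) = Real.log ‖W.Δ‖ + Real.log ‖W.c₄‖ - Real.log 384 := by
      rw [hP2, Real.log_div (by positivity) (by norm_num), Real.log_mul hΔn.ne' hc4n.ne']
    rw [Real.log_pow] at h1
    push_cast at h1
    linarith
  have hlogt : Real.log t = (1 / 8) * (Real.log ‖W.Δ‖ + Real.log ‖W.c₄‖) -
      (1 / 8) * Real.log 384 := by
    rw [ht, Real.log_rpow hP0, hlogP]; ring
  have e3 : 2 * (24 * Jk) = 48 * Jk := by ring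
  rw [e3, hlogt] at hlog
  linarith

end FreyHt
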