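import Mathlib

/-!
# The polynomials `X^(n+3) + (16 X + 1)(q X^(n+1) + 1)`
-/

open Polynomial

namespace FreyHt

/-- The polynomial `X^(n+3) + (16 X + 1)(q X^(n+1) + 1)`. -/
noncomputable def famPoly (n q : ℕ) : ℤ[X] :=
  X ^ (n + 3) + (C 16 * X + 1) * (C (q : ℤ) * X ^ (n + 1) + 1)

lemma famPoly_eq (n q : ℕ) : famPoly n q =
    X ^ (n + 3) + (C (16 * (q : ℤ)) * X ^ (n + 2) + C (q : ℤ) * X ^ (n + 1) + C 16 * X + 1) := by
  unfold famPoly
  rw [C_mul]
  ring

lemma famPoly_low_degree (n q : ℕ) :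
    (C (16 * (q : ℤ)) * X ^ (n + 2) + C (q : ℤ) * X ^ (n + 1) + C 16 * X + 1 : ℤ[X]).degree
      < ((n + 3 : ℕ) : WithBot ℕ) := by
  have h1 : (C (16 * (q : ℤ)) * X ^ (n + 2) : ℤ[X]).degree < ((n + 3 : ℕ) : WithBot ℕ) :=
    lt_of_le_of_lt (degree_C_mul_X_pow_le _ _) (by exact_mod_cast Nat.lt_succ_self _)
  have h2 : (C (q : ℤ) * X ^ (n + 1) : ℤ[X]).degree < ((n + 3 : ℕ) : WithBot ℕ) :=
    lt_of_le_of_lt (degree_C_mul_X_pow_le _ _) (by exact_mod_cast (by omega : n + 1 < n + 3))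
  have h3 : (C 16 * X : ℤ[X]).degree < ((n + 3 : ℕ) : WithBot ℕ) :=
    lt_of_le_of_lt (degree_C_mul_X_le _) (by exact_mod_cast (by omega : 1 < n + 3))
  have h4 : (1 : ℤ[X]).degree < ((n + 3 : ℕ) : WithBot ℕ) :=
    lt_of_le_of_lt degree_one_le (by exact_mod_cast (by omega : 0 < n + 3))
  refine lt_of_le_of_lt (degree_add_le _ _) (max_lt ?_ h4)
  refine lt_of_le_of_lt (degree_add_le _ _) (max_lt ?_ h3)
  exact lt_of_le_of_lt (degree_add_le _ _) (max_lt h1 h2)

lemma famPoly_monic (n q : ℕ) : (famPoly n q).Monic := by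
  rw [famPoly_eq]
  exact monic_X_pow_add (famPoly_low_degree n q)

lemma famPoly_natDegree (n q : ℕ) : (famPoly n q).natDegree = n + 3 := by
  have h : (famPoly n q).degree = ((n + 3 : ℕ) : WithBot ℕ) := by
    rw [famPoly_eq, degree_add_eq_left_of_degree_lt]
    · exact degree_X_pow _
    · rw [degree_X_pow]; exact famPoly_low_degree n q
  exact natDegree_eq_of_degree_eq_some h

lemma famPoly_coeff_zero (n q : ℕ) : (famPoly n q).coeff 0 = 1 := by
  rw [coeff_zero_eq_eval_zero, famPoly]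
  simp

lemma famPoly_nextCoeff (n q : ℕ) : (famPoly n q).nextCoeff = 16 * q := by
  rw [nextCoeff_of_natDegree_pos (by rw [famPoly_natDegree]; omega), famPoly_natDegree, famPoly_eq]
  have e : n + 3 - 1 = n + 2 := by omega
  rw [e]
  simp only [coeff_add, coeff_X_pow, coeff_C_mul, coeff_X, coeff_one]
  have h1 : ¬ (n + 2 = n + 3) := by omega
  have h2 : ¬ (n + 2 = n + 1) := by omega
  have h3 : ¬ (1 = n + 2) := by omega
  have h4 : ¬ (n + 2 = 0) := by omega
  simp [h1, h2, h3, h4]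

/-- Location of the roots of absolute value at least `1`. -/
lemma famPoly_root {n q : ℕ} {z : ℂ}
    (hz : z ^ (n + 3) + (16 * z + 1) * (q * z ^ (n + 1) + 1) = 0) (h1 : 1 ≤ ‖z‖) :
    ‖z + 16 * q‖ ≤ q + 17 := by
  have e : z ^ (n + 2) * (z + 16 * q) = -(q * z ^ (n + 1) + 16 * z + 1) := by
    linear_combination hz
  have h2 : ‖z‖ ^ (n + 2) * ‖z + 16 * q‖ ≤ ‖z‖ ^ (n + 2) * (q + 17) := by
    calc ‖z‖ ^ (n + 2) * ‖z + 16 * q‖ = ‖q * z ^ (n + 1) + 16 * z + 1‖ := by
          rw [← norm_pow, ← norm_mul, e, norm_neg]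
      _ ≤ ‖q * z ^ (n + 1) + 16 * z‖ + ‖(1 : ℂ)‖ := norm_add_le _ _
      _ ≤ ‖q * z ^ (n + 1)‖ + ‖16 * z‖ + ‖(1 : ℂ)‖ := by gcongr; exact norm_add_le _ _
      _ = q * ‖z‖ ^ (n + 1) + 16 * ‖z‖ + 1 := by
          rw [norm_mul, norm_mul, norm_pow, Complex.norm_natCast, norm_one]
          norm_num
      _ ≤ q * ‖z‖ ^ (n + 2) + 16 * ‖z‖ ^ (n + 2) + ‖z‖ ^ (n + 2) := by
          have a1 : ‖z‖ ^ (n + 1) ≤ ‖z‖ ^ (n + 2) := pow_le_pow_right₀ h1 (by omega)
          have a2 : ‖z‖ ≤ ‖z‖ ^ (n + 2) := le_self_pow₀ h1 (by omega)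
          have a3 : 1 ≤ ‖z‖ ^ (n + 2) := one_le_pow₀ h1
          gcongr
      _ = ‖z‖ ^ (n + 2) * (q + 17) := by ring
  exact le_of_mul_le_mul_left h2 (by positivity)

lemma famPoly_root_re {n q : ℕ} {z : ℂ}
    (hz : z ^ (n + 3) + (16 * z + 1) * (q * z ^ (n + 1) + 1) = 0) (h1 : 1 ≤ ‖z‖) :
    z.re ≤ -(15 * q) + 17 := by
  have h := famPoly_root hz h1
  have h2 : (z + 16 * q).re ≤ ‖z + 16 * q‖ := Complex.re_le_norm _
  have h3 : (z + 16 * (q : ℂ)).re = z.re + 16 * q := by simp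
  rw [h3] at h2
  linarith

lemma famPoly_root_norm {n q : ℕ} {z : ℂ}
    (hz : z ^ (n + 3) + (16 * z + 1) * (q * z ^ (n + 1) + 1) = 0) (h1 : 1 ≤ ‖z‖) :
    15 * (q : ℝ) - 17 ≤ ‖z‖ ∧ ‖z‖ ≤ 17 * q + 17 := by
  have h := famPoly_root hz h1
  have e1 : ‖(16 * (q : ℂ))‖ = 16 * q := by rw [norm_mul, Complex.norm_natCast]; norm_num
  constructor
  · have h2 : ‖(16 * (q : ℂ))‖ ≤ ‖z + 16 * q‖ + ‖z‖ := by
      have := norm_sub_le (z + 16 * (q : ℂ)) z
      rwa [add_sub_cancel_left] at this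
    rw [e1] at h2
    linarith
  · have h2 : ‖z‖ ≤ ‖z + 16 * q‖ + ‖(16 * (q : ℂ))‖ := by
      have := norm_sub_le (z + 16 * (q : ℂ)) (16 * (q : ℂ))
      rwa [add_sub_cancel_right] at this
    rw [e1] at h2
    linarith

lemma multiset_prod_norm (s : Multiset ℂ) (h : ∀ z ∈ s, ‖z‖ < 1) :
    ‖s.prod‖ ≤ 1 ∧ (s ≠ 0 → ‖s.prod‖ < 1) := by
  induction s using Multiset.induction_on with
  | empty => simp
  | cons a s ih =>
    have ha : ‖a‖ < 1 := h a (Multiset.mem_cons_self a s)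
    obtain ⟨h1, _⟩ := ih (fun z hz => h z (Multiset.mem_cons_of_mem hz))
    have h2 : ‖(a ::ₘ s).prod‖ < 1 := by
      rw [Multiset.prod_cons, norm_mul]
      calc ‖a‖ * ‖s.prod‖ ≤ ‖a‖ * 1 := by gcongr
        _ < 1 := by linarith
    exact ⟨h2.le, fun _ => h2⟩

/-- A monic integer polynomial of positive degree with constant coefficient `±1` has a root of
absolute value at least `1`. -/
lemma exists_root_ge_one {f : ℤ[X]} (hf : f.Monic) (hdeg : 0 < f.natDegree)
    (h0 : |f.coeff 0| = 1) :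
    ∃ z ∈ (f.map (Int.castRingHom ℂ)).roots, 1 ≤ ‖z‖ := by
  by_contra hcon
  push Not at hcon
  have hm : (f.map (Int.castRingHom ℂ)).Monic := hf.map _
  have hs : (f.map (Int.castRingHom ℂ)).Splits := IsAlgClosed.splits _
  have h1 := hs.coeff_zero_eq_prod_roots_of_monic hm
  have hcard : (f.map (Int.castRingHom ℂ)).roots ≠ 0 := by
    intro h
    have h2 := hs.natDegree_eq_card_roots
    rw [h, Multiset.card_zero, hf.natDegree_map] at h2
    omega
  have h3 := (multiset_prod_norm _ hcon).2 hcard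
  have h4 : ‖(f.map (Int.castRingHom ℂ)).coeff 0‖ = 1 := by
    rw [coeff_map, eq_intCast]
    have : ‖((f.coeff 0 : ℤ) : ℂ)‖ = |((f.coeff 0 : ℤ) : ℝ)| := Complex.norm_intCast _
    rw [this, ← Int.cast_abs, h0, Int.cast_one]
  rw [h1, norm_mul, norm_pow, norm_neg, norm_one, one_pow, one_mul] at h4
  linarith

lemma famPoly_mem_roots {n q : ℕ} {z : ℂ}
    (hz : z ∈ ((famPoly n q).map (Int.castRingHom ℂ)).roots) :
    z ^ (n + 3) + (16 * z + 1) * (q * z ^ (n + 1) + 1) = 0 := by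
  have h := (mem_roots'.1 hz).2
  rw [IsRoot.def, famPoly] at h
  simpa using h

lemma multiset_re_sum_le (s : Multiset ℂ) (h : ∀ z ∈ s, z.re ≤ 1) :
    s.sum.re ≤ Multiset.card s := by
  induction s using Multiset.induction_on with
  | empty => simp
  | cons a s ih =>
    have ha : a.re ≤ 1 := h a (Multiset.mem_cons_self a s)
    have h1 := ih (fun z hz => h z (Multiset.mem_cons_of_mem hz))
    rw [Multiset.sum_cons, Complex.add_re, Multiset.card_cons]
    push_cast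
    linarith

/-- The polynomials are irreducible for `q` large in terms of the degree. -/
theorem famPoly_irreducible {n q : ℕ} (hq : n + 35 < 14 * q) : Irreducible (famPoly n q) := by
  have hmon := famPoly_monic n q
  rw [hmon.irreducible_iff_natDegree]
  refine ⟨?_, ?_⟩
  · intro h
    have := famPoly_natDegree n q
    rw [h, natDegree_one] at this
    omega
  intro f g hf hg hfg
  by_contra hcon
  push Not at hcon
  obtain ⟨hf0, hg0⟩ := hcon
  have hc : f.coeff 0 * g.coeff 0 = 1 := by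
    rw [← mul_coeff_zero, hfg, famPoly_coeff_zero]
  have hfu : |f.coeff 0| = 1 := Int.isUnit_iff_abs_eq.1 (IsUnit.of_mul_eq_one _ hc)
  have hgu : |g.coeff 0| = 1 := by
    refine Int.isUnit_iff_abs_eq.1 (IsUnit.of_mul_eq_one (f.coeff 0) ?_)
    rw [mul_comm]; exact hc
  obtain ⟨z₁, hz₁, hz₁n⟩ := exists_root_ge_one hf (Nat.pos_of_ne_zero hf0) hfu
  obtain ⟨z₂, hz₂, hz₂n⟩ := exists_root_ge_one hg (Nat.pos_of_ne_zero hg0) hgu
  obtain ⟨s, hs⟩ := Multiset.exists_cons_of_mem hz₁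
  obtain ⟨t, ht⟩ := Multiset.exists_cons_of_mem hz₂
  have hmul : (famPoly n q).map (Int.castRingHom ℂ) =
      f.map (Int.castRingHom ℂ) * g.map (Int.castRingHom ℂ) := by
    rw [← Polynomial.map_mul, hfg]
  have hne : f.map (Int.castRingHom ℂ) * g.map (Int.castRingHom ℂ) ≠ 0 := by
    rw [← hmul]; exact (hmon.map _).ne_zero
  have hroots : ((famPoly n q).map (Int.castRingHom ℂ)).roots = z₁ ::ₘ z₂ ::ₘ (s + t) := by
    rw [hmul, roots_mul hne, hs, ht]
    rw [Multiset.cons_add, Multiset.add_cons]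
  have hsp : ((famPoly n q).map (Int.castRingHom ℂ)).Splits := IsAlgClosed.splits _
  have hcard : Multiset.card (s + t) + 2 = n + 3 := by
    have h2 := hsp.natDegree_eq_card_roots
    rw [hmon.natDegree_map, famPoly_natDegree, hroots, Multiset.card_cons, Multiset.card_cons] at h2
    omega
  have hre : ∀ z ∈ ((famPoly n q).map (Int.castRingHom ℂ)).roots, z.re ≤ 1 := by
    intro z hz
    have h1 := famPoly_mem_roots hz
    by_cases h2 : 1 ≤ ‖z‖
    · have h3 := famPoly_root_re h1 h2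
      have h4 : (35 : ℝ) < 14 * q := by
        have : 35 < 14 * q := by omega
        exact_mod_cast this
      linarith
    · push Not at h2
      exact (Complex.re_le_norm z).trans h2.le
  have hm₁ : z₁ ∈ ((famPoly n q).map (Int.castRingHom ℂ)).roots := by
    rw [hroots]; exact Multiset.mem_cons_self _ _
  have hm₂ : z₂ ∈ ((famPoly n q).map (Int.castRingHom ℂ)).roots := by
    rw [hroots]; exact Multiset.mem_cons_of_mem (Multiset.mem_cons_self _ _)
  have hr₁ := famPoly_root_re (famPoly_mem_roots hm₁) hz₁n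
  have hr₂ := famPoly_root_re (famPoly_mem_roots hm₂) hz₂n
  have hst : (s + t).sum.re ≤ Multiset.card (s + t) := by
    refine multiset_re_sum_le _ fun z hz => hre z ?_
    rw [hroots]
    exact Multiset.mem_cons_of_mem (Multiset.mem_cons_of_mem hz)
  have hsum : ((famPoly n q).map (Int.castRingHom ℂ)).roots.sum.re = -(16 * q) := by
    have h1 := hsp.nextCoeff_eq_neg_sum_roots_of_monic (hmon.map _)
    rw [nextCoeff_map (RingHom.injective_int _), famPoly_nextCoeff] at h1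
    have h2 : ((famPoly n q).map (Int.castRingHom ℂ)).roots.sum = -(16 * q) := by
      have : ((Int.castRingHom ℂ) (16 * (q : ℤ))) = 16 * (q : ℂ) := by simp
      rw [this] at h1
      rw [h1, neg_neg]
    rw [h2]
    simp
  rw [hroots, Multiset.sum_cons, Multiset.sum_cons, Complex.add_re, Complex.add_re] at hsum
  have hcard' : ((Multiset.card (s + t) : ℕ) : ℝ) + 2 = n + 3 := by exact_mod_cast hcard
  have hq' : (n : ℝ) + 35 < 14 * q := by exact_mod_cast hq
  linarith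

end FreyHt
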