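import Mathlib
import Pool.Agent.Lib.MP_6babc4_nt.Arch
import Pool.Agent.Lib.MP_6babc4_nt.Poly

/-!
# Number field lemmas
-/

open NumberField Module

namespace FreyHt

section

variable {K : Type*} [Field K] [NumberField K]

lemma prod_norm_embeddings (x : K) : ∏ σ : K →+* ℂ, ‖σ x‖ = |((Algebra.norm ℚ x : ℚ) : ℝ)| := by
  have h := congr_arg (‖·‖) (Algebra.norm_eq_prod_embeddings ℚ ℂ x)
  beta_reduce at h
  rw [norm_prod, ← Fintype.prod_equiv (RingHom.equivRatAlgHom K ℂ) (fun f => ‖f x‖)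
      (fun φ => ‖φ x‖) fun _ => by simp [RingHom.equivRatAlgHom_apply]] at h
  rw [← h, eq_ratCast, ← Real.norm_eq_abs, ← Complex.norm_real, Complex.ofReal_ratCast]

lemma sum_log_unit {u : 𝓞 K} (hu : IsUnit u) : ∑ σ : K →+* ℂ, Real.log ‖σ (u : K)‖ = 0 := by
  have hu0 : (u : K) ≠ 0 := by
    intro h
    exact hu.ne_zero (RingOfIntegers.coe_eq_zero_iff.1 h)
  rw [← Real.log_prod (fun σ _ => norm_ne_zero_iff.2 ((map_ne_zero σ).2 hu0)),
    prod_norm_embeddings]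
  have h := NumberField.isUnit_iff_norm.1 hu
  rw [RingOfIntegers.coe_norm] at h
  rw [← Rat.cast_abs, h]
  simp

lemma card_embeddings : (Fintype.card (K →+* ℂ) : ℝ) = finrank ℚ K := by
  rw [NumberField.Embeddings.card]

lemma finrank_pos' : (0 : ℝ) < finrank ℚ K := by
  exact_mod_cast (finrank_pos : 0 < finrank ℚ K)

/-- Lower bound for the height from archimedean bounds. -/
lemma height_ge {W : WeierstrassCurve (𝓞 K)} {A : ℝ} {g : (K →+* ℂ) → ℝ}
    (h : ∀ σ : K →+* ℂ,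
      Real.log (2 * areaIntegral (W.map (σ.comp (algebraMap (𝓞 K) K)))) ≤ A - g σ) :
    (1 / (2 * (finrank ℚ K : ℝ))) * (∑ σ, g σ) - A / 2 ≤ faltingsHeight K W := by
  have hd := finrank_pos' (K := K)
  have h1 : ∑ σ : K →+* ℂ, Real.log (2 * areaIntegral (W.map (σ.comp (algebraMap (𝓞 K) K))))
      ≤ (finrank ℚ K : ℝ) * A - ∑ σ, g σ := by
    calc _ ≤ ∑ σ : K →+* ℂ, (A - g σ) := Finset.sum_le_sum fun σ _ => h σ
      _ = _ := by
        rw [Finset.sum_sub_distrib, Finset.sum_const, Finset.card_univ, nsmul_eq_mul,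
          card_embeddings]
  unfold faltingsHeight
  have h2 : (1 / (2 * (finrank ℚ K : ℝ))) *
      (∑ σ : K →+* ℂ, Real.log (2 * areaIntegral (W.map (σ.comp (algebraMap (𝓞 K) K))))) ≤
      (1 / (2 * (finrank ℚ K : ℝ))) * ((finrank ℚ K : ℝ) * A - ∑ σ, g σ) := by
    gcongr
  have h3 : (1 / (2 * (finrank ℚ K : ℝ))) * ((finrank ℚ K : ℝ) * A - ∑ σ, g σ) =
      A / 2 - (1 / (2 * (finrank ℚ K : ℝ))) * ∑ σ, g σ := by
    field_simp
  rw [h3] at h2
  linarith

/-- Upper bound for the discriminant of a number field with a small primitive integer. -/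
lemma discr_le (pb : PowerBasis ℚ K) (hint : IsIntegral ℤ pb.gen) {B : ℝ} (hB : 1 ≤ B)
    (h : ∀ σ : K →+* ℂ, ‖σ pb.gen‖ ≤ B) :
    ((|discr K| : ℤ) : ℝ) ≤ (4 * B ^ 2) ^ (pb.dim * pb.dim) := by
  classical
  -- index change
  have hcard : Fintype.card (Free.ChooseBasisIndex ℤ (𝓞 K)) = Fintype.card (Fin pb.dim) := by
    rw [Fintype.card_fin, ← PowerBasis.finrank pb, ← RingOfIntegers.rank K,
      finrank_eq_card_chooseBasisIndex]
  let e : Free.ChooseBasisIndex ℤ (𝓞 K) ≃ Fin pb.dim := Fintype.equivOfCardEq hcard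
  let v : Basis (Free.ChooseBasisIndex ℤ (𝓞 K)) ℚ K := pb.basis.reindex e.symm
  have hvint : ∀ i, IsIntegral ℤ (v i) := by
    intro i
    simp only [v, Basis.reindex_apply, PowerBasis.coe_basis]
    exact hint.pow _
  let ω := integralBasis K
  let P : Matrix (Free.ChooseBasisIndex ℤ (𝓞 K)) (Free.ChooseBasisIndex ℤ (𝓞 K)) ℚ :=
    ω.toMatrix v
  have hP : ∃ Z : Matrix (Free.ChooseBasisIndex ℤ (𝓞 K)) (Free.ChooseBasisIndex ℤ (𝓞 K)) ℤ,
      P = Z.map (Int.cast : ℤ → ℚ) := by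
    refine ⟨Matrix.of fun i j =>
      (RingOfIntegers.basis K).repr (⟨v j, hvint j⟩ : 𝓞 K) i, ?_⟩
    ext i j
    simp only [P, Basis.toMatrix_apply, Matrix.map_apply, Matrix.of_apply]
    have h0 : ω.repr (v j) i =
        algebraMap ℤ ℚ ((RingOfIntegers.basis K).repr (⟨v j, hvint j⟩ : 𝓞 K) i) :=
      integralBasis_repr_apply K (⟨v j, hvint j⟩ : 𝓞 K) i
    rw [h0, eq_intCast]
  obtain ⟨Z, hZ⟩ := hP
  have hdet : P.det = ((Z.det : ℤ) : ℚ) := by
    rw [hZ]
    have := (RingHom.map_det (Int.castRingHom ℚ) Z)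
    simpa using this.symm
  have h1 : Algebra.discr ℚ v = P.det ^ 2 * Algebra.discr ℚ ω := by
    rw [← Algebra.discr_of_matrix_vecMul, Basis.toMatrix_map_vecMul]
  have h2 : Algebra.discr ℚ v = Algebra.discr ℚ pb.basis := by
    simp only [v, Basis.coe_reindex]
    exact Algebra.discr_reindex ℚ pb.basis e.symm
  have h3 : Algebra.discr ℚ pb.basis ≠ 0 := Algebra.discr_not_zero_of_basis ℚ pb.basis
  have h4 : Algebra.discr ℚ pb.basis = (((Z.det) ^ 2 * discr K : ℤ) : ℚ) := by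
    rw [← h2, h1, hdet, ← coe_discr, Int.cast_mul, Int.cast_pow]
  have h5 : Z.det ≠ 0 := by
    intro h0
    rw [h0] at h4
    apply h3
    rw [h4]; simp
  -- bound of the discriminant of the power basis
  have hcard2 : Fintype.card (Fin pb.dim) = Fintype.card (K →ₐ[ℚ] ℂ) := by
    rw [Fintype.card_fin, AlgHom.card ℚ K ℂ, PowerBasis.finrank pb]
  let e' : Fin pb.dim ≃ (K →ₐ[ℚ] ℂ) := Fintype.equivOfCardEq hcard2
  have h6 := Algebra.discr_powerBasis_eq_prod ℚ ℂ pb e'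
  have hB4 : (1 : ℝ) ≤ 4 * B ^ 2 := by nlinarith
  have hpair : ∀ i j : Fin pb.dim, ‖(e' j pb.gen - e' i pb.gen) ^ 2‖ ≤ 4 * B ^ 2 := by
    intro i j
    rw [norm_pow]
    have b1 : ‖e' j pb.gen‖ ≤ B := h (e' j).toRingHom
    have b2 : ‖e' i pb.gen‖ ≤ B := h (e' i).toRingHom
    have b3 : ‖e' j pb.gen - e' i pb.gen‖ ≤ 2 * B := by
      calc _ ≤ ‖e' j pb.gen‖ + ‖e' i pb.gen‖ := norm_sub_le _ _
        _ ≤ 2 * B := by linarith
    calc ‖e' j pb.gen - e' i pb.gen‖ ^ 2 ≤ (2 * B) ^ 2 := by gcongr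
      _ = 4 * B ^ 2 := by ring
  have h7 : ‖((Algebra.discr ℚ pb.basis : ℚ) : ℂ)‖ ≤ (4 * B ^ 2) ^ (pb.dim * pb.dim) := by
    have h8 : ((Algebra.discr ℚ pb.basis : ℚ) : ℂ) =
        algebraMap ℚ ℂ (Algebra.discr ℚ pb.basis) := by simp
    rw [h8, h6, norm_prod]
    calc ∏ i : Fin pb.dim, ‖∏ j ∈ Finset.Ioi i, (e' j pb.gen - e' i pb.gen) ^ 2‖
        ≤ ∏ _i : Fin pb.dim, (4 * B ^ 2) ^ pb.dim := by
          refine Finset.prod_le_prod (fun _ _ => norm_nonneg _) fun i _ => ?_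
          rw [norm_prod]
          calc ∏ j ∈ Finset.Ioi i, ‖(e' j pb.gen - e' i pb.gen) ^ 2‖
              ≤ ∏ _j ∈ Finset.Ioi i, (4 * B ^ 2) :=
                Finset.prod_le_prod (fun _ _ => norm_nonneg _) fun j _ => hpair i j
            _ = (4 * B ^ 2) ^ (Finset.Ioi i).card := Finset.prod_const _
            _ ≤ (4 * B ^ 2) ^ pb.dim := by
                apply pow_le_pow_right₀ hB4
                calc (Finset.Ioi i).card ≤ (Finset.univ : Finset (Fin pb.dim)).card :=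
                      Finset.card_le_card (Finset.subset_univ _)
                  _ = pb.dim := by simp
      _ = (4 * B ^ 2) ^ (pb.dim * pb.dim) := by
          rw [Finset.prod_const, Finset.card_univ, Fintype.card_fin, ← pow_mul]
  have h9 : ‖((Algebra.discr ℚ pb.basis : ℚ) : ℂ)‖ = ((|Z.det ^ 2 * discr K| : ℤ) : ℝ) := by
    rw [h4]
    rw [Rat.cast_intCast, Complex.norm_intCast, Int.cast_abs]
  rw [h9] at h7
  refine le_trans ?_ h7
  have h10 : |discr K| ≤ |Z.det ^ 2 * discr K| := by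
    rw [abs_mul]
    have : 1 ≤ |Z.det ^ 2| := Int.one_le_abs (pow_ne_zero 2 h5)
    nlinarith [abs_nonneg (discr K)]
  exact_mod_cast h10

end

end FreyHt
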