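import Mathlib
import Pool.Agent.Lib.MP_6babc4_nt.Field

/-!
# Sums over the embeddings of a relative extension
-/

set_option autoImplicit false

open NumberField Module

namespace FreyAll

variable {F K : Type*} [Field F] [NumberField F] [Field K] [NumberField K] [Algebra F K]

open Classical in
/-- the embeddings of `K` above an embedding of `F` -/
noncomputable def fib (K : Type*) [Field K] [NumberField K] [Algebra F K] (σ : F →+* ℂ) :
    Finset (K →+* ℂ) :=
  Finset.univ.filter (fun τ : K →+* ℂ => τ.comp (algebraMap F K) = σ)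

lemma mem_fib {σ : F →+* ℂ} {τ : K →+* ℂ} : τ ∈ fib K σ ↔ τ.comp (algebraMap F K) = σ := by
  classical
  simp [fib]

lemma sum_fib (g : (K →+* ℂ) → ℝ) : ∑ σ : F →+* ℂ, ∑ τ ∈ fib K σ, g τ = ∑ τ, g τ := by
  classical
  unfold fib
  have := Finset.sum_fiberwise (Finset.univ : Finset (K →+* ℂ))
    (fun τ => τ.comp (algebraMap F K)) g
  rw [← this]

lemma sum_fib_eq (σ : F →+* ℂ) (g : (K →+* ℂ) → ℝ) :
    letI := σ.toAlgebra
    ∑ τ ∈ fib K σ, g τ = ∑ φ : K →ₐ[F] ℂ, g φ.toRingHom := by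
  letI := σ.toAlgebra
  symm
  refine Finset.sum_bij (fun φ _ => φ.toRingHom) ?_ ?_ ?_ ?_
  · intro φ _
    rw [mem_fib]
    ext x
    exact φ.commutes x
  · intro φ _ ψ _ h
    ext x
    exact congrArg (fun f : K →+* ℂ => f x) h
  · intro τ hτ
    rw [mem_fib] at hτ
    refine ⟨{ τ with commutes' := fun x => ?_ }, Finset.mem_univ _, ?_⟩
    · have := congrArg (fun f : F →+* ℂ => f x) hτ
      exact this
    · ext x; rfl
  · intro φ _; rfl

lemma card_fib (σ : F →+* ℂ) : ((fib K σ).card : ℝ) = finrank F K := by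
  letI := σ.toAlgebra
  have h := sum_fib_eq (K := K) σ (fun _ => 1)
  simp only [Finset.sum_const, nsmul_eq_mul, mul_one, Finset.card_univ] at h
  rw [h, AlgHom.card F K ℂ]

lemma sum_log_fib (σ : F →+* ℂ) {x : K} (hx : x ≠ 0) :
    ∑ τ ∈ fib K σ, Real.log ‖τ x‖ = Real.log ‖σ (Algebra.norm F x)‖ := by
  letI := σ.toAlgebra
  rw [sum_fib_eq σ (fun τ => Real.log ‖τ x‖)]
  have h := congrArg (fun z => Real.log ‖z‖) (Algebra.norm_eq_prod_embeddings F ℂ x)
  simp only [norm_prod] at h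
  rw [Real.log_prod (fun φ _ => norm_ne_zero_iff.2 ((map_ne_zero φ).2 hx))] at h
  exact h.symm

/-- a function of the restriction -/
lemma sum_restrict (g : (F →+* ℂ) → ℝ) :
    ∑ τ : K →+* ℂ, g (τ.comp (algebraMap F K)) = (finrank F K : ℝ) * ∑ σ, g σ := by
  rw [← sum_fib (F := F), Finset.mul_sum]
  refine Finset.sum_congr rfl fun σ _ => ?_
  rw [← card_fib (K := K) σ, ← nsmul_eq_mul, ← Finset.sum_const]
  refine Finset.sum_congr rfl fun τ hτ => ?_
  rw [mem_fib.1 hτ]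

/-- Bound for the logarithms of the conjugates of a nonzero algebraic integer. -/
lemma abs_log_le {x : 𝓞 K} (hx : x ≠ 0) {M : ℝ} (hM : 1 ≤ M)
    (h : ∀ τ : K →+* ℂ, ‖τ (x : K)‖ ≤ M) (τ : K →+* ℂ) :
    |Real.log ‖τ (x : K)‖| ≤ finrank ℚ K * Real.log M := by
  classical
  have hx0 : (x : K) ≠ 0 := by
    intro h0
    exact hx (RingOfIntegers.coe_eq_zero_iff.1 h0)
  have hpos : ∀ τ : K →+* ℂ, 0 < ‖τ (x : K)‖ := fun τ => norm_pos_iff.2 ((map_ne_zero τ).2 hx0)
  have hlM : 0 ≤ Real.log M := Real.log_nonneg hM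
  have hle : ∀ τ : K →+* ℂ, Real.log ‖τ (x : K)‖ ≤ Real.log M := fun τ =>
    Real.log_le_log (hpos τ) (h τ)
  have hn : (1 : ℝ) ≤ finrank ℚ K := by exact_mod_cast (finrank_pos : 0 < finrank ℚ K)
  have hsum : 0 ≤ ∑ τ : K →+* ℂ, Real.log ‖τ (x : K)‖ := by
    rw [← Real.log_prod (fun σ _ => (hpos σ).ne'), FreyHt.prod_norm_embeddings]
    apply Real.log_nonneg
    have h1 : (Algebra.norm ℚ (x : K) : ℚ) = ((Algebra.norm ℤ x : ℤ) : ℚ) := by
      rw [Algebra.coe_norm_int]
    rw [h1]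
    have h2 : Algebra.norm ℤ x ≠ 0 := by
      rw [Ne, Algebra.norm_eq_zero_iff]
      exact hx
    have h3 := Int.one_le_abs h2
    push_cast
    exact_mod_cast h3
  have hother : ∑ τ' ∈ Finset.univ.erase τ, Real.log ‖τ' (x : K)‖ ≤
      finrank ℚ K * Real.log M := by
    calc ∑ τ' ∈ Finset.univ.erase τ, Real.log ‖τ' (x : K)‖
        ≤ ∑ τ' ∈ Finset.univ.erase τ, Real.log M := Finset.sum_le_sum fun τ' _ => hle τ'
      _ ≤ ∑ τ' : K →+* ℂ, Real.log M := by
          apply Finset.sum_le_sum_of_subset_of_nonneg (Finset.subset_univ _)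
          intro _ _ _; exact hlM
      _ = _ := by
          rw [Finset.sum_const, Finset.card_univ, Embeddings.card, nsmul_eq_mul]
  rw [abs_le]
  constructor
  · rw [← Finset.sum_erase_add _ _ (Finset.mem_univ τ)] at hsum
    linarith
  · calc Real.log ‖τ (x : K)‖ ≤ 1 * Real.log M := by rw [one_mul]; exact hle τ
      _ ≤ _ := by gcongr

end FreyAll
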