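import Mathlib
import Pool.Agent.Lib.MP_6babc4_nt.AllArea
import Pool.Agent.Lib.MP_6babc4_nt.AllEmb

/-!
# The height of the curves of the family over the field of `c ^ d = a (1 + 16 P c)`
-/

set_option autoImplicit false

open NumberField Module

namespace FreyAll

/-- the Weierstrass equation `y² + xy - b y = x³ - b x²` -/
def curve {R : Type*} [CommRing R] (b : R) : WeierstrassCurve R := ⟨1, -b, -b, 0, 0⟩

lemma curve_Δ {R : Type*} [CommRing R] (b : R) : (curve b).Δ = b ^ 4 * (1 + 16 * b) := by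
  simp only [curve, WeierstrassCurve.Δ, WeierstrassCurve.b₂, WeierstrassCurve.b₄,
    WeierstrassCurve.b₆, WeierstrassCurve.b₈]
  ring

lemma curve_c₄ {R : Type*} [CommRing R] (b : R) : (curve b).c₄ = 1 + 16 * b + 16 * b ^ 2 := by
  simp only [curve, WeierstrassCurve.c₄, WeierstrassCurve.b₂, WeierstrassCurve.b₄]
  ring

lemma curve_coprime {R : Type*} [CommRing R] (b : R) : IsCoprime (curve b).c₄ (curve b).Δ := by
  rw [curve_c₄, curve_Δ]
  have h1 : IsCoprime (1 + 16 * b + 16 * b ^ 2) b := ⟨1, -16 - 16 * b, by ring⟩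
  have h2 : IsCoprime (1 + 16 * b + 16 * b ^ 2) (1 + 16 * b) := ⟨16, -(15 + 16 * b), by ring⟩
  exact (h1.pow_right).mul_right h2

lemma root_bound {z α p : ℂ} {d : ℕ} (hd : 2 ≤ d) (hz : z ^ d = α * (1 + 16 * p * z)) {A : ℝ}
    (hA1 : 1 ≤ A) (hα : ‖α‖ ≤ A) :
    ‖z‖ ^ (d - 1) ≤ 17 * A * max 1 ‖p‖ ∧ ‖z‖ ≤ 17 * A * max 1 ‖p‖ := by
  have hm1 : 1 ≤ max 1 ‖p‖ := le_max_left _ _
  have hmp : ‖p‖ ≤ max 1 ‖p‖ := le_max_right _ _
  have hbig : 1 ≤ 17 * A * max 1 ‖p‖ := by nlinarith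
  rcases le_total ‖z‖ 1 with h | h
  · exact ⟨(pow_le_one₀ (norm_nonneg _) h).trans hbig, h.trans hbig⟩
  · have h1 : ‖z‖ ^ (d - 1) * ‖z‖ ≤ 17 * A * max 1 ‖p‖ * ‖z‖ := by
      rw [← pow_succ, Nat.sub_add_cancel (by omega), ← norm_pow, hz, norm_mul]
      have h2 : ‖1 + 16 * p * z‖ ≤ 1 + 16 * ‖p‖ * ‖z‖ := by
        calc ‖1 + 16 * p * z‖ ≤ ‖(1 : ℂ)‖ + ‖16 * p * z‖ := norm_add_le _ _
          _ = _ := by rw [norm_mul, norm_mul]; norm_num
      have h3 : 1 + 16 * ‖p‖ * ‖z‖ ≤ 17 * max 1 ‖p‖ * ‖z‖ := by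
        have h4 : ‖p‖ * ‖z‖ ≤ max 1 ‖p‖ * ‖z‖ := by gcongr
        have h5 : 1 ≤ max 1 ‖p‖ * ‖z‖ := by nlinarith
        linarith
      calc ‖α‖ * ‖1 + 16 * p * z‖ ≤ A * (17 * max 1 ‖p‖ * ‖z‖) := by
            gcongr
            exact h2.trans h3
        _ = _ := by ring
    have h6 : ‖z‖ ^ (d - 1) ≤ 17 * A * max 1 ‖p‖ := le_of_mul_le_mul_right h1 (by linarith)
    exact ⟨h6, (le_self_pow₀ h (by omega)).trans h6⟩

variable {F K : Type*} [Field F] [NumberField F] [Field K] [NumberField K] [Algebra F K]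

/-- the sum of the logarithms of the large absolute values -/
noncomputable def lsum (P : F) : ℝ := ∑ σ : F →+* ℂ, Real.log (max 1 ‖σ P‖)

omit [NumberField F] in
lemma lterm_nonneg (P : F) (σ : F →+* ℂ) : 0 ≤ Real.log (max 1 ‖σ P‖) :=
  Real.log_nonneg (le_max_left _ _)

lemma lsum_nonneg (P : F) : 0 ≤ lsum P := Finset.sum_nonneg fun σ _ => lterm_nonneg P σ

lemma max_le_exp_lsum (P : F) (σ : F →+* ℂ) : max 1 ‖σ P‖ ≤ Real.exp (lsum P) := by
  rw [← Real.log_le_iff_le_exp (by positivity)]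
  exact Finset.single_le_sum (f := fun σ : F →+* ℂ => Real.log (max 1 ‖σ P‖))
    (fun σ _ => lterm_nonneg P σ) (Finset.mem_univ σ)

/-- the main data -/
structure Data (a P : 𝓞 F) (c : 𝓞 K) : Prop where
  deg : 2 ≤ finrank F K
  ha : a ≠ 0
  hP : P ≠ 0
  eq : c ^ finrank F K = algebraMap (𝓞 F) (𝓞 K) a * (1 + 16 * (algebraMap (𝓞 F) (𝓞 K) P * c))
  norm : Algebra.norm F (c : K) = (a : F) ∨ Algebra.norm F (c : K) = -(a : F)

/-- `b = P c` -/
noncomputable def bb (P : 𝓞 F) (c : 𝓞 K) : 𝓞 K := algebraMap (𝓞 F) (𝓞 K) P * c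

lemma coe_bb (P : 𝓞 F) (c : 𝓞 K) : ((bb P c : 𝓞 K) : K) = algebraMap F K P * (c : K) := by
  change algebraMap (𝓞 K) K (algebraMap (𝓞 F) (𝓞 K) P * c) = _
  rw [map_mul]
  rfl

namespace Data

variable {a P : 𝓞 F} {c : 𝓞 K}

lemma ha' (h : Data a P c) : (a : F) ≠ 0 := fun h0 => h.ha (RingOfIntegers.coe_eq_zero_iff.1 h0)

lemma hP' (h : Data a P c) : (P : F) ≠ 0 := fun h0 => h.hP (RingOfIntegers.coe_eq_zero_iff.1 h0)

lemma c_ne (h : Data a P c) : (c : K) ≠ 0 := by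
  intro h0
  have := h.norm
  rw [h0, Algebra.norm_zero] at this
  rcases this with h1 | h1
  · exact h.ha' h1.symm
  · exact h.ha' (neg_eq_zero.1 h1.symm)

lemma c_ne' (h : Data a P c) : c ≠ 0 := fun h0 => h.c_ne (by rw [h0]; rfl)

lemma u_ne (h : Data a P c) : 1 + 16 * bb P c ≠ 0 := by
  intro h0
  have := h.eq
  unfold bb at h0
  rw [h0, mul_zero] at this
  exact h.c_ne' (pow_eq_zero_iff (by have := h.deg; omega) |>.1 this)

lemma b_ne' (h : Data a P c) : algebraMap F K P * (c : K) ≠ 0 :=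
  mul_ne_zero ((map_ne_zero _).2 h.hP') h.c_ne

lemma b_ne (h : Data a P c) : bb P c ≠ 0 := by
  intro h0
  apply h.b_ne'
  rw [← coe_bb, h0]
  rfl

lemma eqτ (h : Data a P c) (τ : K →+* ℂ) :
    τ (c : K) ^ finrank F K = (τ.comp (algebraMap F K)) a *
      (1 + 16 * (τ.comp (algebraMap F K)) P * τ (c : K)) := by
  have h1 := congrArg (fun x : 𝓞 K => τ (x : K)) h.eq
  simp only [map_pow, map_mul, map_add, map_one, map_ofNat] at h1
  rw [h1, mul_assoc 16]
  rfl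

lemma c_le (h : Data a P c) {A : ℝ} (hA1 : 1 ≤ A) (hA : ∀ σ : F →+* ℂ, ‖σ a‖ ≤ A)
    (τ : K →+* ℂ) :
    ‖τ (c : K)‖ ^ (finrank F K - 1) ≤ 17 * A * max 1 ‖(τ.comp (algebraMap F K)) P‖ ∧
      ‖τ (c : K)‖ ≤ 17 * A * max 1 ‖(τ.comp (algebraMap F K)) P‖ :=
  root_bound h.deg (h.eqτ τ) hA1 (hA _)

/-- lower bound for the main term -/
lemma main_term (h : Data a P c) :
    (finrank F K : ℝ) * lsum (P : F) - ∑ σ : F →+* ℂ, |Real.log ‖σ a‖| ≤
      ∑ τ : K →+* ℂ, Real.log (max 1 ‖τ (bb P c : K)‖) := by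
  have hsf := sum_fib (F := F) (K := K) (fun τ => Real.log (max 1 ‖τ (bb P c : K)‖))
  rw [← hsf, lsum, Finset.mul_sum, ← Finset.sum_sub_distrib]
  apply Finset.sum_le_sum
  intro σ _
  have hnonneg : (0 : ℝ) ≤ ∑ τ ∈ fib K σ, Real.log (max 1 ‖τ (bb P c : K)‖) := by
    apply Finset.sum_nonneg
    intro τ _
    exact Real.log_nonneg (le_max_left _ _)
  rcases le_total ‖σ P‖ 1 with hs | hs
  · rw [max_eq_left hs, Real.log_one, mul_zero]
    have := abs_nonneg (Real.log ‖σ a‖)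
    linarith
  · have hb0 : (bb P c : K) ≠ 0 := by rw [coe_bb]; exact h.b_ne'
    have h1 : ∑ τ ∈ fib K σ, Real.log ‖τ (bb P c : K)‖ ≤
        ∑ τ ∈ fib K σ, Real.log (max 1 ‖τ (bb P c : K)‖) := by
      refine Finset.sum_le_sum fun τ _ => ?_
      apply Real.log_le_log (norm_pos_iff.2 ((map_ne_zero τ).2 hb0)) (le_max_right _ _)
    refine le_trans ?_ h1
    rw [sum_log_fib σ hb0, coe_bb, map_mul, Algebra.norm_algebraMap, map_mul, map_pow, norm_mul,
      norm_pow, max_eq_right hs]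
    have h2 : ‖σ (Algebra.norm F (c : K))‖ = ‖σ a‖ := by
      rcases h.norm with h3 | h3 <;> rw [h3]
      rw [map_neg, norm_neg]
    have hσa : 0 < ‖σ a‖ := norm_pos_iff.2 ((map_ne_zero σ).2 h.ha')
    have hσP : 0 < ‖σ P‖ := by linarith
    rw [h2, Real.log_mul (by positivity) hσa.ne', Real.log_pow]
    have := neg_abs_le (Real.log ‖σ a‖)
    linarith

/-- The lower bound for the height. -/
theorem height_lower (h : Data a P c) {A : ℝ} (hA1 : 1 ≤ A) (hA : ∀ σ : F →+* ℂ, ‖σ a‖ ≤ A) :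
    (1 / (2 * (finrank ℚ K : ℝ))) *
      ((finrank F K : ℝ) * lsum (P : F) - ∑ σ : F →+* ℂ, |Real.log ‖σ a‖|) -
      (Real.log (6800 * (1 + 4 * finrank ℚ K + 2 * finrank ℚ K * Real.log (289 * A))) +
        Real.log (1 + lsum (P : F))) / 2 ≤
      FreyHt.faltingsHeight K (curve (bb P c)) := by
  set n : ℝ := (finrank ℚ K : ℝ) with hn
  have hn1 : (1 : ℝ) ≤ n := by rw [hn]; exact_mod_cast (finrank_pos : 0 < finrank ℚ K)
  set S := lsum (P : F) with hS
  have hS0 : 0 ≤ S := lsum_nonneg (F := F) P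
  set E := Real.log (289 * A) with hE
  have hE0 : 0 ≤ E := Real.log_nonneg (by linarith)
  set M : ℝ := 289 * A * Real.exp (2 * S) with hM
  have hexp1 : 1 ≤ Real.exp S := Real.one_le_exp hS0
  have hexp2 : Real.exp (2 * S) = Real.exp S * Real.exp S := by rw [← Real.exp_add]; ring_nf
  have hexp3 : 1 ≤ Real.exp (2 * S) := Real.one_le_exp (by linarith)
  have hM1 : 1 ≤ M := by rw [hM]; nlinarith
  have hlogM : Real.log M = E + 2 * S := by
    rw [hM, Real.log_mul (by positivity) (by positivity), Real.log_exp]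
  have hbτ : ∀ τ : K →+* ℂ, ‖τ (bb P c : K)‖ ≤ 17 * A * Real.exp (2 * S) := by
    intro τ
    rw [coe_bb, map_mul, norm_mul]
    have h1 := (h.c_le hA1 hA τ).2
    have h2 := max_le_exp_lsum (F := F) P (τ.comp (algebraMap F K))
    have h3 : ‖τ (algebraMap F K P)‖ ≤ Real.exp S := (le_max_right _ _).trans h2
    calc ‖τ (algebraMap F K P)‖ * ‖τ (c : K)‖ ≤ Real.exp S * (17 * A * Real.exp S) := by
          gcongr
          refine h1.trans ?_
          gcongr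
      _ = _ := by rw [hexp2]; ring
  have hcu : ∀ τ : K →+* ℂ, τ ((1 + 16 * bb P c : 𝓞 K) : K) = 1 + 16 * τ (bb P c : K) := by
    intro τ
    change τ (algebraMap (𝓞 K) K (1 + 16 * bb P c)) = _
    rw [map_add, map_mul, map_one, map_add, map_mul, map_one, map_ofNat, map_ofNat]
  have huτ : ∀ τ : K →+* ℂ, ‖τ ((1 + 16 * bb P c : 𝓞 K) : K)‖ ≤ M := by
    intro τ
    have h1 := hbτ τ
    rw [hcu]
    calc ‖1 + 16 * τ (bb P c : K)‖
        ≤ ‖(1 : ℂ)‖ + ‖16 * τ (bb P c : K)‖ := norm_add_le _ _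
      _ = 1 + 16 * ‖τ (bb P c : K)‖ := by rw [norm_mul]; norm_num
      _ ≤ M := by
          rw [hM]
          nlinarith
  have hlb : ∀ τ : K →+* ℂ, |Real.log ‖τ (bb P c : K)‖| ≤ n * Real.log M :=
    fun τ => abs_log_le h.b_ne hM1 (fun τ' => by
      refine (hbτ τ').trans ?_
      rw [hM]
      nlinarith) τ
  have hlu : ∀ τ : K →+* ℂ, |Real.log ‖τ ((1 + 16 * bb P c : 𝓞 K) : K)‖| ≤ n * Real.log M :=
    fun τ => abs_log_le h.u_ne hM1 huτ τ
  have key := FreyHt.height_ge (K := K) (W := curve (bb P c))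
    (A := Real.log (6800 * (1 + 4 * n + 2 * n * E)) + Real.log (1 + S))
    (g := fun τ => Real.log (max 1 ‖τ (bb P c : K)‖)) ?_
  · refine le_trans ?_ key
    have := h.main_term
    have h2 : (1 / (2 * n)) * ((finrank F K : ℝ) * S - ∑ σ : F →+* ℂ, |Real.log ‖σ a‖|) ≤
        (1 / (2 * n)) * ∑ τ : K →+* ℂ, Real.log (max 1 ‖τ (bb P c : K)‖) := by
      gcongr
    linarith
  · intro τ
    set W : WeierstrassCurve ℂ := (curve (bb P c)).map (τ.comp (algebraMap (𝓞 K) K)) with hW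
    set β : ℂ := τ (bb P c : K) with hβ
    have hβ0 : β ≠ 0 := by
      refine (map_ne_zero τ).2 fun h0 => h.b_ne ?_
      exact RingOfIntegers.coe_eq_zero_iff.1 h0
    have hu : τ ((1 + 16 * bb P c : 𝓞 K) : K) = 1 + 16 * β := hcu τ
    have hβ1 : 1 + 16 * β ≠ 0 := by
      rw [← hu]
      refine (map_ne_zero τ).2 fun h0 => h.u_ne ?_
      exact RingOfIntegers.coe_eq_zero_iff.1 h0
    have hWb : W = curve β := by
      rw [hW, hβ]
      ext <;> simp [curve]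
    have hb2 : W.b₂ = 1 - 4 * β := by
      rw [hWb]; simp only [curve, WeierstrassCurve.b₂]; ring
    have hb4 : W.b₄ = -β := by
      rw [hWb]; simp only [curve, WeierstrassCurve.b₄]; ring
    have hb6 : W.b₆ = β ^ 2 := by
      rw [hWb]; simp only [curve, WeierstrassCurve.b₆]; ring
    obtain ⟨hpos, hle⟩ := area_family hβ0 hβ1 hb2 hb4 hb6
    have h1 : |Real.log ‖β‖| ≤ n * (E + 2 * S) := by rw [← hlogM]; exact hlb τ
    have h2 : |Real.log ‖1 + 16 * β‖| ≤ n * (E + 2 * S) := by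
      rw [← hlogM, ← hu]; exact hlu τ
    have h3 : 1 + |Real.log ‖β‖| + |Real.log ‖1 + 16 * β‖| ≤
        (1 + 4 * n + 2 * n * E) * (1 + S) := by
      have : 0 ≤ n * E * S := by positivity
      have : 0 ≤ n * S := by positivity
      nlinarith
    have hmx : 0 < max 1 ‖β‖ := by positivity
    have h4 : 2 * FreyHt.areaIntegral W ≤
        6800 * (1 + 4 * n + 2 * n * E) * (1 + S) / max 1 ‖β‖ := by
      calc 2 * FreyHt.areaIntegral W
          ≤ 2 * (3400 * (1 + |Real.log ‖β‖| + |Real.log ‖1 + 16 * β‖|) / max 1 ‖β‖) := by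
            gcongr
        _ = 6800 * (1 + |Real.log ‖β‖| + |Real.log ‖1 + 16 * β‖|) / max 1 ‖β‖ := by ring
        _ ≤ _ := by
            rw [mul_assoc 6800]
            gcongr
    calc Real.log (2 * FreyHt.areaIntegral W)
        ≤ Real.log (6800 * (1 + 4 * n + 2 * n * E) * (1 + S) / max 1 ‖β‖) :=
          Real.log_le_log (by positivity) h4
      _ = _ := by
          rw [Real.log_div (by positivity) hmx.ne', Real.log_mul (by positivity) (by positivity)]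

end Data

end FreyAll
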