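import Mathlib
import Pool.Agent.Lib.MP_6babc4_nt.AllHeight

/-!
# The field of `c ^ d = a (1 + 16 P c)` and its discriminant
-/

set_option autoImplicit false

open NumberField Module Polynomial

namespace FreyAll

section

variable {F : Type} [Field F] [NumberField F]

/-- the polynomial -/
noncomputable def pol (d : ℕ) (a P : 𝓞 F) : (𝓞 F)[X] := X ^ d - C (16 * a * P) * X - C a

lemma pol_eq (d : ℕ) (a P : 𝓞 F) : pol d a P = X ^ d - (C (16 * a * P) * X + C a) := by
  unfold pol; ring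

lemma pol_monic {d : ℕ} (hd : 2 ≤ d) (a P : 𝓞 F) : (pol d a P).Monic := by
  rw [pol_eq]
  apply monic_X_pow_sub
  refine (degree_linear_le).trans_lt ?_
  exact_mod_cast (by omega : 1 < d)

lemma pol_natDegree {d : ℕ} (hd : 2 ≤ d) (a P : 𝓞 F) : (pol d a P).natDegree = d := by
  rw [pol_eq, natDegree_sub_eq_left_of_natDegree_lt, natDegree_X_pow]
  rw [natDegree_X_pow]
  exact natDegree_linear_le.trans_lt (by omega)

lemma pol_coeff_zero {d : ℕ} (hd : 2 ≤ d) (a P : 𝓞 F) : (pol d a P).coeff 0 = -a := by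
  unfold pol
  simp [coeff_X_pow]
  omega

/-- The field. -/
theorem exists_field {d : ℕ} (hd : 2 ≤ d) {a P : 𝓞 F} (ha : a ≠ 0) (hP : P ≠ 0)
    (hirr : Irreducible (pol d a P)) :
    ∃ (K : Type) (_ : Field K) (_ : NumberField K) (_ : Algebra F K) (c : 𝓞 K),
      finrank F K = d ∧ Data a P c ∧
      (d : 𝓞 K) * c ^ (d - 1) - 16 * algebraMap (𝓞 F) (𝓞 K) a * algebraMap (𝓞 F) (𝓞 K) P ≠ 0 ∧
      (discr K).natAbs ≤ (Algebra.norm ℤ ((d : 𝓞 K) * c ^ (d - 1) -
        16 * algebraMap (𝓞 F) (𝓞 K) a * algebraMap (𝓞 F) (𝓞 K) P)).natAbs *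
          (discr F).natAbs ^ d := by
  have hmon := pol_monic hd a P
  set f : (𝓞 F)[X] := pol d a P with hf
  set g : F[X] := f.map (algebraMap (𝓞 F) F) with hg
  have hgmon : g.Monic := hmon.map _
  have hgirr : Irreducible g := (hmon.irreducible_iff_irreducible_map_fraction_map).1 hirr
  have hgdeg : g.natDegree = d := by
    rw [hg, hmon.natDegree_map, hf, pol_natDegree hd]
  have : Fact (Irreducible g) := ⟨hgirr⟩
  have hg0 : g ≠ 0 := hgirr.ne_zero
  let K := AdjoinRoot g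
  have i1 : FiniteDimensional F K := (AdjoinRoot.powerBasis hg0).finite
  have i2 : NumberField K := NumberField.of_module_finite F K
  have hfin : finrank F K = d := by
    rw [(AdjoinRoot.powerBasis hg0).finrank, AdjoinRoot.powerBasis_dim, hgdeg]
  have hrootF : aeval (AdjoinRoot.root g : K) g = 0 := by
    rw [AdjoinRoot.aeval_eq, AdjoinRoot.mk_self]
  have hroot : aeval (AdjoinRoot.root g : K) f = 0 :=
    (aeval_map_algebraMap F (AdjoinRoot.root g : K) f).symm.trans hrootF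
  have hint' : IsIntegral (𝓞 F) (AdjoinRoot.root g : K) := ⟨f, hmon, by
    rw [← hroot]; rfl⟩
  have hint : IsIntegral ℤ (AdjoinRoot.root g : K) := isIntegral_trans _ hint'
  let c : 𝓞 K := ⟨AdjoinRoot.root g, hint⟩
  have hcK : (c : K) = AdjoinRoot.root g := rfl
  have hcf : aeval c f = 0 := by
    apply RingOfIntegers.coe_injective
    change algebraMap (𝓞 K) K (aeval c f) = algebraMap (𝓞 K) K 0
    rw [map_zero, ← hroot]
    exact (aeval_algebraMap_apply K c f).symm
  have hminF : minpoly F (AdjoinRoot.root g : K) = g :=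
    (minpoly.eq_of_irreducible_of_monic hgirr hrootF hgmon).symm
  have heq : c ^ d = algebraMap (𝓞 F) (𝓞 K) a * (1 + 16 * (algebraMap (𝓞 F) (𝓞 K) P * c)) := by
    have h1 : aeval c f = c ^ d - algebraMap (𝓞 F) (𝓞 K) (16 * a * P) * c -
        algebraMap (𝓞 F) (𝓞 K) a := by
      rw [hf, pol]
      simp
    rw [hcf] at h1
    rw [map_mul, map_mul, map_ofNat] at h1
    linear_combination (-1 : 𝓞 K) * h1
  have hnorm : Algebra.norm F (c : K) = (a : F) ∨ Algebra.norm F (c : K) = -(a : F) := by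
    have h1 := Algebra.PowerBasis.norm_gen_eq_coeff_zero_minpoly (AdjoinRoot.powerBasis hg0)
    rw [AdjoinRoot.powerBasis_gen, hminF] at h1
    have h2 : g.coeff 0 = -(a : F) := by
      rw [hg, coeff_map, hf, pol_coeff_zero hd, map_neg]
    rw [h2] at h1
    rw [hcK, h1]
    rcases neg_one_pow_eq_or F (AdjoinRoot.powerBasis hg0).dim with h3 | h3 <;> rw [h3]
    · right; ring
    · left; ring
  have hData : Data a P c := ⟨by rw [hfin]; exact hd, ha, hP, by rw [hfin]; exact heq, hnorm⟩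
  have hder : aeval c (derivative f) = (d : 𝓞 K) * c ^ (d - 1) -
      16 * algebraMap (𝓞 F) (𝓞 K) a * algebraMap (𝓞 F) (𝓞 K) P := by
    rw [hf, pol, derivative_sub, derivative_sub, derivative_X_pow, derivative_C, sub_zero,
      derivative_mul, derivative_C, derivative_X, zero_mul, zero_add, mul_one]
    simp only [map_sub, map_mul, map_pow, map_natCast, aeval_X, aeval_C, map_ofNat]
  have hmin : minpoly (𝓞 F) c = f := by
    have h4 : minpoly F (algebraMap (𝓞 K) K c) = (minpoly (𝓞 F) c).map (algebraMap (𝓞 F) F) :=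
      minpoly.isIntegrallyClosed_eq_field_fractions F K (Algebra.IsIntegral.isIntegral c)
    apply Polynomial.map_injective (algebraMap (𝓞 F) F) RingOfIntegers.coe_injective
    rw [← h4, ← hg]
    exact hminF
  have hadj : Algebra.adjoin F {algebraMap (𝓞 K) K c} = ⊤ := AdjoinRoot.adjoinRoot_eq_top
  have hmem := aeval_derivative_mem_differentIdeal (𝓞 F) F K c hadj
  rw [hmin, hder] at hmem
  have hne : (d : 𝓞 K) * c ^ (d - 1) -
      16 * algebraMap (𝓞 F) (𝓞 K) a * algebraMap (𝓞 F) (𝓞 K) P ≠ 0 := by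
    rw [← hder]
    intro h0
    have h1 : aeval (AdjoinRoot.root g : K) (derivative g) = 0 := by
      have h2 := congrArg (algebraMap (𝓞 K) K) h0
      rw [map_zero] at h2
      have h3 : derivative g = (derivative f).map (algebraMap (𝓞 F) F) := derivative_map f _
      calc aeval (AdjoinRoot.root g : K) (derivative g)
          = aeval (AdjoinRoot.root g : K) ((derivative f).map (algebraMap (𝓞 F) F)) :=
            congrArg (aeval (AdjoinRoot.root g : K)) h3
        _ = aeval (AdjoinRoot.root g : K) (derivative f) := aeval_map_algebraMap F _ _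
        _ = algebraMap (𝓞 K) K (aeval c (derivative f)) :=
            aeval_algebraMap_apply K c (derivative f)
        _ = 0 := h2
    exact hgirr.separable.aeval_derivative_ne_zero hrootF h1
  refine ⟨K, inferInstance, i2, inferInstance, c, hfin, hData, hne, ?_⟩
  have hdvd : (Ideal.absNorm (differentIdeal (𝓞 F) (𝓞 K)) : ℤ) ∣ Algebra.norm ℤ
      ((d : 𝓞 K) * c ^ (d - 1) -
      16 * algebraMap (𝓞 F) (𝓞 K) a * algebraMap (𝓞 F) (𝓞 K) P) :=
    Ideal.absNorm_dvd_norm_of_mem hmem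
  have hle : Ideal.absNorm (differentIdeal (𝓞 F) (𝓞 K)) ≤ (Algebra.norm ℤ
      ((d : 𝓞 K) * c ^ (d - 1) -
      16 * algebraMap (𝓞 F) (𝓞 K) a * algebraMap (𝓞 F) (𝓞 K) P)).natAbs := by
    apply Nat.le_of_dvd
    · rw [Int.natAbs_pos, Ne, Algebra.norm_eq_zero_iff]
      exact hne
    · exact Int.natCast_dvd.1 hdvd
  rw [natAbs_discr_eq_absNorm_differentIdeal_mul_natAbs_discr_pow F (𝓞 F) K (𝓞 K), hfin]
  gcongr

end

section

variable {F K : Type*} [Field F] [NumberField F] [Field K] [NumberField K] [Algebra F K]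

/-- The bound for the discriminant. -/
theorem Data.discr_upper {a P : 𝓞 F} {c : 𝓞 K} (h : Data a P c) {A : ℝ} (hA1 : 1 ≤ A)
    (hA : ∀ σ : F →+* ℂ, ‖σ a‖ ≤ A)
    (hne : (finrank F K : 𝓞 K) * c ^ (finrank F K - 1) -
      16 * algebraMap (𝓞 F) (𝓞 K) a * algebraMap (𝓞 F) (𝓞 K) P ≠ 0)
    (hle : (discr K).natAbs ≤ (Algebra.norm ℤ ((finrank F K : 𝓞 K) * c ^ (finrank F K - 1) -
        16 * algebraMap (𝓞 F) (𝓞 K) a * algebraMap (𝓞 F) (𝓞 K) P)).natAbs *
          (discr F).natAbs ^ finrank F K) :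
    Real.log |((discr K : ℤ) : ℝ)| ≤ (finrank F K : ℝ) * lsum (P : F) +
      (finrank ℚ K * Real.log (33 * finrank F K * A) +
        finrank F K * Real.log |((discr F : ℤ) : ℝ)|) := by
  set d := finrank F K with hd
  have hd2 : 2 ≤ d := h.deg
  have hdr : (2 : ℝ) ≤ d := by exact_mod_cast hd2
  set y : 𝓞 K := (d : 𝓞 K) * c ^ (d - 1) -
      16 * algebraMap (𝓞 F) (𝓞 K) a * algebraMap (𝓞 F) (𝓞 K) P with hy
  have hDK : (discr K : ℤ) ≠ 0 := discr_ne_zero K
  have hDF : (discr F : ℤ) ≠ 0 := discr_ne_zero F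
  have hDK' : 0 < |((discr K : ℤ) : ℝ)| := by
    rw [abs_pos]; exact_mod_cast hDK
  have hDF' : 0 < |((discr F : ℤ) : ℝ)| := by
    rw [abs_pos]; exact_mod_cast hDF
  have hy0 : (y : K) ≠ 0 := fun h0 => hne (RingOfIntegers.coe_eq_zero_iff.1 h0)
  have hN0 : Algebra.norm ℤ y ≠ 0 := by
    rw [Ne, Algebra.norm_eq_zero_iff]; exact hne
  have hN1 : (0 : ℝ) < |((Algebra.norm ℤ y : ℤ) : ℝ)| := by
    rw [abs_pos]; exact_mod_cast hN0
  have h1 : |((discr K : ℤ) : ℝ)| ≤ |((Algebra.norm ℤ y : ℤ) : ℝ)| *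
      |((discr F : ℤ) : ℝ)| ^ d := by
    have h2 : ((discr K).natAbs : ℝ) ≤ ((Algebra.norm ℤ y).natAbs : ℝ) *
        ((discr F).natAbs : ℝ) ^ d := by exact_mod_cast hle
    rw [Nat.cast_natAbs, Nat.cast_natAbs, Nat.cast_natAbs, Int.cast_abs, Int.cast_abs,
          Int.cast_abs] at h2
    exact h2
  have h3 : Real.log |((discr K : ℤ) : ℝ)| ≤ Real.log |((Algebra.norm ℤ y : ℤ) : ℝ)| +
      d * Real.log |((discr F : ℤ) : ℝ)| := by
    refine (Real.log_le_log hDK' h1).trans (le_of_eq ?_)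
    rw [Real.log_mul hN1.ne' (by positivity), Real.log_pow]
  have h4 : Real.log |((Algebra.norm ℤ y : ℤ) : ℝ)| = ∑ τ : K →+* ℂ, Real.log ‖τ (y : K)‖ := by
    rw [← Real.log_prod (fun τ _ => norm_ne_zero_iff.2 ((map_ne_zero τ).2 hy0)),
      FreyHt.prod_norm_embeddings, ← Algebra.coe_norm_int]
    norm_cast
  have h5 : ∀ τ : K →+* ℂ, Real.log ‖τ (y : K)‖ ≤ Real.log (33 * d * A) +
      Real.log (max 1 ‖(τ.comp (algebraMap F K)) P‖) := by
    intro τ
    set σ := τ.comp (algebraMap F K) with hσ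
    have hmx : 1 ≤ max 1 ‖σ P‖ := le_max_left _ _
    have hmP : ‖σ P‖ ≤ max 1 ‖σ P‖ := le_max_right _ _
    rw [← Real.log_mul (by positivity) (by positivity)]
    apply Real.log_le_log (norm_pos_iff.2 ((map_ne_zero τ).2 hy0))
    have e1 : τ (y : K) = d * τ (c : K) ^ (d - 1) - 16 * σ a * σ P := by
      change τ (algebraMap (𝓞 K) K y) = _
      rw [hy]
      simp only [map_sub, map_mul, map_pow, map_natCast, map_ofNat]
      rfl
    rw [e1]
    have h6 := (h.c_le hA1 hA τ).1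
    rw [← hd, ← hσ] at h6
    calc ‖(d : ℂ) * τ (c : K) ^ (d - 1) - 16 * σ a * σ P‖
        ≤ ‖(d : ℂ) * τ (c : K) ^ (d - 1)‖ + ‖16 * σ a * σ P‖ := norm_sub_le _ _
      _ = d * ‖τ (c : K)‖ ^ (d - 1) + 16 * ‖σ a‖ * ‖σ P‖ := by
          rw [norm_mul, norm_mul, norm_mul, norm_pow, Complex.norm_natCast]
          norm_num
      _ ≤ d * (17 * A * max 1 ‖σ P‖) + 16 * A * max 1 ‖σ P‖ := by
          gcongr
          exact hA σ
      _ ≤ 33 * d * A * max 1 ‖σ P‖ := by
          have : 0 ≤ A * max 1 ‖σ P‖ := by positivity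
          nlinarith
  have h7 : ∑ τ : K →+* ℂ, Real.log ‖τ (y : K)‖ ≤
      finrank ℚ K * Real.log (33 * d * A) + d * lsum (P : F) := by
    calc ∑ τ : K →+* ℂ, Real.log ‖τ (y : K)‖
        ≤ ∑ τ : K →+* ℂ, (Real.log (33 * d * A) +
            Real.log (max 1 ‖(τ.comp (algebraMap F K)) P‖)) :=
          Finset.sum_le_sum fun τ _ => h5 τ
      _ = _ := by
          rw [Finset.sum_add_distrib, Finset.sum_const, Finset.card_univ, Embeddings.card,
            nsmul_eq_mul, sum_restrict (F := F) (K := K) (fun σ => Real.log (max 1 ‖σ P‖))]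
          rfl
  rw [h4] at h3
  linarith

end

end FreyAll
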