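import Mathlib
import Pool.Agent.Lib.MP_6babc4_nt.AllField

/-!
# Irreducibility of `X ^ d - 16 a P X - a`
-/

set_option autoImplicit false

open NumberField Module Polynomial

namespace FreyAll

variable {F : Type} [Field F] [NumberField F]

/-- The Eisenstein criterion. -/
theorem irr_eisenstein {a P : 𝓞 F} {p : Ideal (𝓞 F)} (hp : p.IsPrime) (ha1 : a ∈ p)
    (ha2 : a ∉ p ^ 2) {d : ℕ} (hd : 2 ≤ d) : Irreducible (pol d a P) := by
  have hE : (pol d a P).IsEisensteinAt p := by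
    refine ⟨?_, ?_, ?_⟩
    · rw [(pol_monic hd a _).leadingCoeff]
      exact fun h => hp.ne_top ((Ideal.eq_top_iff_one p).2 h)
    · intro n hn
      rw [pol_natDegree hd] at hn
      unfold pol
      rw [coeff_sub, coeff_sub, coeff_X_pow, coeff_C_mul, coeff_C, if_neg (by omega), zero_sub]
      apply Ideal.sub_mem
      · apply (Ideal.neg_mem_iff _).2
        apply Ideal.mul_mem_right
        apply Ideal.mul_mem_right
        exact Ideal.mul_mem_left _ _ ha1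
      · split_ifs
        · exact ha1
        · exact Ideal.zero_mem _
    · rw [pol_coeff_zero hd]
      intro h
      exact ha2 ((Ideal.neg_mem_iff _).1 h)
  exact hE.irreducible hp (pol_monic hd a _).isPrimitive (by rw [pol_natDegree hd]; omega)

/-- The rational field. -/
theorem exists_data_rat (F : Type) [Field F] [NumberField F] (hF : finrank ℚ F = 1) :
    (Algebra.norm ℤ (2 : 𝓞 F)).natAbs = 2 ∧ ∀ d : ℕ, 2 ≤ d → ∀ k : ℕ,
      Irreducible (pol d (2 : 𝓞 F) (2 ^ k)) := by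
  have h1 : Algebra.norm ℤ (2 : 𝓞 F) = 2 := by
    have h2 : (2 : 𝓞 F) = algebraMap ℤ (𝓞 F) 2 := by rw [map_ofNat]
    rw [h2, Algebra.norm_algebraMap_of_basis (Free.chooseBasis ℤ (𝓞 F)),
      ← finrank_eq_card_chooseBasisIndex, RingOfIntegers.rank, hF, pow_one]
  refine ⟨by rw [h1]; rfl, fun d hd k => ?_⟩
  have hnorm : Ideal.absNorm (Ideal.span {(2 : 𝓞 F)}) = 2 := by
    rw [Ideal.absNorm_span_singleton, h1]; rfl
  have hprime : (Ideal.span {(2 : 𝓞 F)}).IsPrime := by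
    apply Ideal.isPrime_of_irreducible_absNorm
    rw [hnorm]
    exact Nat.prime_two
  refine irr_eisenstein hprime (Ideal.mem_span_singleton_self _) ?_ hd
  intro h2
  rw [Ideal.span_singleton_pow, Ideal.mem_span_singleton] at h2
  obtain ⟨r, hr⟩ := h2
  have h3 : (2 : 𝓞 F) * 1 = 2 * (2 * r) := by
    rw [mul_one]
    linear_combination hr
  have h4 : (1 : 𝓞 F) = 2 * r := mul_left_cancel₀ two_ne_zero h3
  apply hprime.ne_top
  rw [Ideal.eq_top_iff_one, Ideal.mem_span_singleton]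
  exact ⟨r, h4⟩

/-- First case: Eisenstein. -/
theorem exists_data_one (F : Type) [Field F] [NumberField F] :
    ∃ a m : 𝓞 F, a ≠ 0 ∧ m ≠ 0 ∧ ∀ d : ℕ, 2 ≤ d → ∀ k : ℕ,
      Irreducible (pol d a (2 ^ k)) ∧ a * 2 ^ k ∣ m ^ (k + 1) := by
  have h2u : ¬ IsUnit (2 : 𝓞 F) := by
    intro hu
    have h3 := (NumberField.isUnit_iff_norm.1 hu)
    rw [RingOfIntegers.coe_norm] at h3
    have h4 : Algebra.norm ℚ ((2 : 𝓞 F) : F) = (2 : ℚ) ^ (finrank ℚ F) := by
      have : ((2 : 𝓞 F) : F) = algebraMap ℚ F 2 := by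
        change algebraMap (𝓞 F) F 2 = algebraMap ℚ F 2
        rw [map_ofNat, map_ofNat]
      rw [this, Algebra.norm_algebraMap]
    rw [h4] at h3
    have h5 : (1 : ℚ) < (2 : ℚ) ^ (finrank ℚ F) :=
      one_lt_pow₀ (by norm_num) (finrank_pos).ne'
    rw [abs_of_pos (by linarith)] at h3
    linarith
  have hne : Ideal.span {(2 : 𝓞 F)} ≠ ⊤ := by
    rwa [Ne, Ideal.span_singleton_eq_top]
  obtain ⟨p, hp, hp2⟩ := Ideal.exists_le_maximal _ hne
  have h2p : (2 : 𝓞 F) ∈ p := hp2 (Ideal.mem_span_singleton_self _)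
  have hp0 : p ≠ ⊥ := by
    rintro rfl
    rw [Ideal.mem_bot] at h2p
    exact two_ne_zero h2p
  obtain ⟨a, ha1, ha2⟩ := Ideal.exists_mem_pow_notMem_pow_succ p hp0 hp.ne_top 1
  rw [pow_one] at ha1
  have ha0 : a ≠ 0 := by
    rintro rfl
    exact ha2 (Submodule.zero_mem _)
  refine ⟨a, 2 * a, ha0, mul_ne_zero two_ne_zero ha0, fun d hd k => ⟨?_, ?_⟩⟩
  · exact irr_eisenstein hp.isPrime ha1 ha2 hd
  · refine ⟨2 * a ^ k, ?_⟩
    ring

lemma prod_low (s : Multiset ℂ) {r : ℝ} (hr : 0 ≤ r) (h : ∀ z ∈ s, r ≤ ‖z‖) :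
    r ^ (Multiset.card s) ≤ ‖s.prod‖ := by
  induction s using Multiset.induction_on with
  | empty => simp
  | cons z s ih =>
    rw [Multiset.card_cons, Multiset.prod_cons, norm_mul, pow_succ, mul_comm]
    have h1 := ih (fun w hw => h w (Multiset.mem_cons_of_mem hw))
    have h2 := h z (Multiset.mem_cons_self z s)
    have h3 : 0 ≤ r ^ (Multiset.card s) := by positivity
    gcongr

lemma low_coeff {g : ℂ[X]} (hg : g.Monic) {r : ℝ} (hr : 0 ≤ r)
    (h : ∀ z, g.IsRoot z → r ≤ ‖z‖) : r ^ g.natDegree ≤ ‖g.coeff 0‖ := by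
  have hs : g.Splits := IsAlgClosed.splits g
  have h1 : g.coeff 0 = (-1) ^ g.natDegree * g.roots.prod :=
    hs.coeff_zero_eq_prod_roots_of_monic hg
  rw [h1, norm_mul, norm_pow, norm_neg, norm_one, one_pow, one_mul]
  have h2 : g.natDegree = Multiset.card g.roots := hs.natDegree_eq_card_roots
  rw [h2]
  apply prod_low _ hr
  intro z hz
  exact h z (isRoot_of_mem_roots hz)

/-- small parameter: the roots are not small -/
lemma root_low {z p : ℂ} {d : ℕ} (hd : 2 ≤ d) (hz : z ^ d = 1 + 16 * p * z) (hp : ‖p‖ ≤ 1) :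
    1 / 32 ≤ ‖z‖ := by
  by_contra hcon
  push Not at hcon
  have h1 : ‖z‖ ^ d ≤ ‖z‖ := by
    calc ‖z‖ ^ d ≤ ‖z‖ ^ 1 := pow_le_pow_of_le_one (norm_nonneg _) (by linarith) (by omega)
      _ = ‖z‖ := pow_one _
  have h2 : ‖16 * p * z‖ < 1 / 2 := by
    rw [norm_mul, norm_mul]
    have : ‖p‖ * ‖z‖ ≤ 1 * ‖z‖ := by gcongr
    norm_num
    nlinarith
  have h3 : 1 - ‖16 * p * z‖ ≤ ‖1 + 16 * p * z‖ := by
    have h4 := norm_sub_norm_le (1 : ℂ) (-(16 * p * z))
    rw [norm_neg, sub_neg_eq_add, norm_one] at h4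
    exact h4
  rw [← hz, norm_pow] at h3
  linarith

/-- large parameter: the roots that are not small are large -/
lemma root_high {z p : ℂ} {d : ℕ} (hd : 2 ≤ d) (hz : z ^ d = 1 + 16 * p * z) (hp : 1 ≤ ‖p‖)
    (h1 : 1 ≤ ‖z‖) : 15 * ‖p‖ ≤ ‖z‖ ^ (d - 1) := by
  have h3 : ‖16 * p * z‖ - 1 ≤ ‖1 + 16 * p * z‖ := by
    have h4 := norm_sub_norm_le (16 * p * z) (-1 : ℂ)
    rw [norm_neg, sub_neg_eq_add, norm_one, add_comm (16 * p * z)] at h4
    exact h4
  rw [← hz, norm_pow] at h3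
  have h5 : ‖16 * p * z‖ = 16 * (‖p‖ * ‖z‖) := by
    rw [norm_mul, norm_mul]; norm_num; ring
  rw [h5] at h3
  have h6 : 1 ≤ ‖p‖ * ‖z‖ := by nlinarith
  have h7 : ‖z‖ ^ d = ‖z‖ ^ (d - 1) * ‖z‖ := by
    rw [← pow_succ, Nat.sub_add_cancel (by omega)]
  rw [h7] at h3
  have h8 : 15 * ‖p‖ * ‖z‖ ≤ ‖z‖ ^ (d - 1) * ‖z‖ := by linarith
  exact le_of_mul_le_mul_right h8 (by linarith)

lemma two_small {z w p : ℂ} {d : ℕ} (hz : z ^ d = 1 + 16 * p * z) (hw : w ^ d = 1 + 16 * p * w)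
    (hzw : z ≠ w) (h1 : ‖z‖ ≤ 1) (h2 : ‖w‖ ≤ 1) : 16 * ‖p‖ ≤ d := by
  have h3 := geom_sum₂_mul z w d
  rw [hz, hw] at h3
  have h4 : (∑ i ∈ Finset.range d, z ^ i * w ^ (d - 1 - i)) = 16 * p := by
    apply mul_right_cancel₀ (sub_ne_zero.2 hzw)
    rw [h3]; ring
  have h5 : 16 * ‖p‖ = ‖∑ i ∈ Finset.range d, z ^ i * w ^ (d - 1 - i)‖ := by
    rw [h4, norm_mul]; norm_num
  rw [h5]
  calc ‖∑ i ∈ Finset.range d, z ^ i * w ^ (d - 1 - i)‖
      ≤ ∑ i ∈ Finset.range d, ‖z ^ i * w ^ (d - 1 - i)‖ := norm_sum_le _ _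
    _ ≤ ∑ i ∈ Finset.range d, 1 := by
        refine Finset.sum_le_sum fun i _ => ?_
        rw [norm_mul, norm_pow, norm_pow]
        exact mul_le_one₀ (pow_le_one₀ (norm_nonneg _) h1) (by positivity)
          (pow_le_one₀ (norm_nonneg _) h2)
    _ = d := by simp

/-- the polynomial at an embedding -/
lemma pol_map_eval (d : ℕ) (P : 𝓞 F) (ψ : 𝓞 F →+* ℂ) (z : ℂ) :
    ((pol d 1 P).map ψ).eval z = z ^ d - 16 * ψ P * z - 1 := by
  unfold pol
  simp only [Polynomial.map_sub, Polynomial.map_mul, Polynomial.map_pow, map_X, map_C, eval_sub,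
    eval_mul, eval_pow, eval_X, eval_C, map_mul, map_one, map_ofNat, Polynomial.map_one,
    Polynomial.map_ofNat, eval_one, eval_ofNat]
  ring

lemma no_factor {d : ℕ} (hd : 2 ≤ d) {P : 𝓞 F} {G H : (𝓞 F)[X]} (hG : G.Monic) (hH : H.Monic)
    (hG1 : G ≠ 1) (hGH : G * H = pol d 1 P) (σ₁ : F →+* ℂ)
    (hdich : ∀ σ : F →+* ℂ, ‖σ P‖ ≤ 1 ∨ InfinitePlace.mk σ = InfinitePlace.mk σ₁)
    {R : ℝ} (hR : (32 : ℝ) ^ (d * finrank ℚ F) < R) (hbig : R ^ (d - 1) ≤ 15 * ‖σ₁ P‖)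
    (hP1 : 1 ≤ ‖σ₁ P‖)
    (hno : ∀ z, (G.map (σ₁.comp (algebraMap (𝓞 F) F))).IsRoot z → 1 ≤ ‖z‖) : False := by
  classical
  have hR1 : 1 ≤ R := by
    have : (1 : ℝ) ≤ 32 ^ (d * finrank ℚ F) := one_le_pow₀ (by norm_num)
    linarith
  have hGdeg : 1 ≤ G.natDegree := by
    by_contra h0
    exact hG1 (eq_one_of_monic_natDegree_zero hG (by omega))
  have hGd : G.natDegree ≤ d := by
    have h1 : (G * H).natDegree = G.natDegree + H.natDegree := hG.natDegree_mul hH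
    rw [hGH, pol_natDegree hd] at h1
    omega
  have hunit : IsUnit (G.coeff 0) := by
    have h1 : G.coeff 0 * H.coeff 0 = -1 := by
      rw [← mul_coeff_zero, hGH, pol_coeff_zero hd]
    exact IsUnit.of_mul_eq_one (-(H.coeff 0)) (by rw [mul_neg, h1, neg_neg])
  have hroot : ∀ (σ : F →+* ℂ) (z : ℂ), (G.map (σ.comp (algebraMap (𝓞 F) F))).IsRoot z →
      z ^ d = 1 + 16 * σ P * z := by
    intro σ z hz
    have h1 := pol_map_eval d P (σ.comp (algebraMap (𝓞 F) F)) z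
    rw [← hGH, Polynomial.map_mul, eval_mul] at h1
    rw [IsRoot.def] at hz
    rw [hz, zero_mul] at h1
    have h2 : (σ.comp (algebraMap (𝓞 F) F)) P = σ P := rfl
    rw [h2] at h1
    linear_combination (-1 : ℂ) * h1
  have hcoef : ∀ σ : F →+* ℂ, (G.map (σ.comp (algebraMap (𝓞 F) F))).coeff 0 =
      σ (G.coeff 0 : F) := by
    intro σ
    rw [coeff_map]; rfl
  have hdeg : ∀ σ : F →+* ℂ, (G.map (σ.comp (algebraMap (𝓞 F) F))).natDegree = G.natDegree :=
    fun σ => hG.natDegree_map _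
  have hσ1 : R ≤ ‖σ₁ (G.coeff 0 : F)‖ := by
    have h1 := low_coeff (hG.map (σ₁.comp (algebraMap (𝓞 F) F))) (r := R) (by linarith)
      (fun z hz => by
        have h2 := root_high hd (hroot σ₁ z hz) hP1 (hno z hz)
        have h3 : R ^ (d - 1) ≤ ‖z‖ ^ (d - 1) := hbig.trans h2
        exact (pow_le_pow_iff_left₀ (by linarith) (norm_nonneg _) (by omega)).1 h3)
    rw [hcoef, hdeg] at h1
    exact (le_self_pow₀ hR1 (by omega)).trans h1
  have hall : ∀ σ : F →+* ℂ, ((1 : ℝ) / 32) ^ d ≤ ‖σ (G.coeff 0 : F)‖ := by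
    intro σ
    have hle1 : ((1 : ℝ) / 32) ^ d ≤ 1 := pow_le_one₀ (by norm_num) (by norm_num)
    rcases hdich σ with h | h
    · have h1 := low_coeff (hG.map (σ.comp (algebraMap (𝓞 F) F))) (r := 1 / 32) (by norm_num)
        (fun z hz => root_low hd (hroot σ z hz) h)
      rw [hcoef, hdeg] at h1
      exact (pow_le_pow_of_le_one (by norm_num) (by norm_num) hGd).trans h1
    · have h1 : ‖σ (G.coeff 0 : F)‖ = ‖σ₁ (G.coeff 0 : F)‖ := by
        have := congrArg (fun w : InfinitePlace F => w (G.coeff 0 : F)) h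
        exact this
      rw [h1]
      linarith
  have hprod : ∏ σ : F →+* ℂ, ‖σ (G.coeff 0 : F)‖ = 1 := by
    rw [FreyHt.prod_norm_embeddings]
    have h := NumberField.isUnit_iff_norm.1 hunit
    rw [RingOfIntegers.coe_norm] at h
    rw [← Rat.cast_abs, h]
    simp
  rw [← Finset.mul_prod_erase _ _ (Finset.mem_univ σ₁)] at hprod
  have hrest : ((1 : ℝ) / 32) ^ (d * finrank ℚ F) ≤
      ∏ σ ∈ Finset.univ.erase σ₁, ‖σ (G.coeff 0 : F)‖ := by
    calc ((1 : ℝ) / 32) ^ (d * finrank ℚ F)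
        = (((1 : ℝ) / 32) ^ d) ^ (Fintype.card (F →+* ℂ)) := by
          rw [← pow_mul, Embeddings.card]
      _ ≤ (((1 : ℝ) / 32) ^ d) ^ ((Finset.univ.erase σ₁).card) := by
          apply pow_le_pow_of_le_one (by positivity) (pow_le_one₀ (by norm_num) (by norm_num))
          exact Finset.card_le_card (Finset.erase_subset _ _)
      _ = ∏ σ ∈ Finset.univ.erase σ₁, ((1 : ℝ) / 32) ^ d := by rw [Finset.prod_const]
      _ ≤ _ := Finset.prod_le_prod (fun _ _ => by positivity) (fun σ _ => hall σ)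
  have h32 : (32 : ℝ) ^ (d * finrank ℚ F) * ((1 : ℝ) / 32) ^ (d * finrank ℚ F) = 1 := by
    rw [← mul_pow]; norm_num
  have hpos : 0 < ((1 : ℝ) / 32) ^ (d * finrank ℚ F) := by positivity
  have hfin : 1 < ‖σ₁ (G.coeff 0 : F)‖ *
      ∏ σ ∈ Finset.univ.erase σ₁, ‖σ (G.coeff 0 : F)‖ := by
    calc (1 : ℝ) = (32 : ℝ) ^ (d * finrank ℚ F) * ((1 : ℝ) / 32) ^ (d * finrank ℚ F) := h32.symm
      _ < R * ((1 : ℝ) / 32) ^ (d * finrank ℚ F) := by gcongr
      _ ≤ _ := by gcongr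
  linarith

/-- irreducibility in the second case -/
theorem irr_unit {d : ℕ} (hd : 2 ≤ d) {P : 𝓞 F} (σ₁ : F →+* ℂ)
    (hdich : ∀ σ : F →+* ℂ, ‖σ P‖ ≤ 1 ∨ InfinitePlace.mk σ = InfinitePlace.mk σ₁)
    {R : ℝ} (hR : (32 : ℝ) ^ (d * finrank ℚ F) < R) (hbig : R ^ (d - 1) ≤ 15 * ‖σ₁ P‖)
    (hP1 : 1 ≤ ‖σ₁ P‖) (hPd : (d : ℝ) < 16 * ‖σ₁ P‖) : Irreducible (pol d 1 P) := by
  rw [irreducible_of_monic (pol_monic hd 1 P) (by
    intro h0
    have h1 := pol_natDegree hd 1 P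
    rw [h0, natDegree_one] at h1
    omega)]
  intro G H hG hH hGH
  by_contra hcon
  push Not at hcon
  obtain ⟨hG1, hH1⟩ := hcon
  set ψ : 𝓞 F →+* ℂ := σ₁.comp (algebraMap (𝓞 F) F) with hψ
  by_cases hGno : ∀ z, (G.map ψ).IsRoot z → 1 ≤ ‖z‖
  · exact no_factor hd hG hH hG1 hGH σ₁ hdich hR hbig hP1 hGno
  by_cases hHno : ∀ z, (H.map ψ).IsRoot z → 1 ≤ ‖z‖
  · exact no_factor hd hH hG hH1 (by rw [mul_comm]; exact hGH) σ₁ hdich hR hbig hP1 hHno
  push Not at hGno hHno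
  obtain ⟨z, hz, hz1⟩ := hGno
  obtain ⟨w, hw, hw1⟩ := hHno
  have hev : ∀ x : ℂ, (G.map ψ).eval x * (H.map ψ).eval x = x ^ d - 16 * σ₁ P * x - 1 := by
    intro x
    rw [← eval_mul, ← Polynomial.map_mul, hGH]
    exact pol_map_eval d P ψ x
  have hz' : z ^ d = 1 + 16 * σ₁ P * z := by
    have := hev z
    rw [IsRoot.def.1 hz, zero_mul] at this
    linear_combination (-1 : ℂ) * this
  have hw' : w ^ d = 1 + 16 * σ₁ P * w := by
    have := hev w
    rw [IsRoot.def.1 hw, mul_zero] at this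
    linear_combination (-1 : ℂ) * this
  by_cases hzw : z = w
  · subst hzw
    have h1 : (derivative ((pol d 1 P).map ψ)).eval z = 0 := by
      rw [← hGH, Polynomial.map_mul, derivative_mul, eval_add, eval_mul, eval_mul,
        IsRoot.def.1 hz, IsRoot.def.1 hw]
      ring
    have h2 : (derivative ((pol d 1 P).map ψ)).eval z = d * z ^ (d - 1) - 16 * σ₁ P := by
      unfold pol
      simp only [Polynomial.map_sub, Polynomial.map_mul, Polynomial.map_pow, map_X, map_C,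
        derivative_sub, derivative_X_pow, derivative_mul, derivative_C, derivative_X, zero_mul,
        zero_add, mul_one, sub_zero, eval_sub, eval_mul, eval_C, eval_pow, eval_X, map_natCast,
        eval_natCast]
      rw [map_mul, map_ofNat]
      rfl
    rw [h2] at h1
    have h3 : (d : ℂ) * z ^ (d - 1) = 16 * σ₁ P := by linear_combination h1
    have h4 : (d : ℝ) * ‖z‖ ^ (d - 1) = 16 * ‖σ₁ P‖ := by
      have := congrArg (‖·‖) h3
      simp only [norm_mul, norm_pow, Complex.norm_natCast] at this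
      rw [this]; norm_num
    have h5 : ‖z‖ ^ (d - 1) ≤ 1 := pow_le_one₀ (norm_nonneg _) hz1.le
    have h6 : (d : ℝ) * ‖z‖ ^ (d - 1) ≤ d * 1 := by gcongr
    linarith
  · have := two_small hz' hw' hzw hz1.le hw1.le
    linarith

/-- Second case: a field with infinitely many units. -/
theorem exists_data_two (F : Type) [Field F] [NumberField F] (hr : 0 < Units.rank F) {d : ℕ}
    (hd : 2 ≤ d) :
    ∃ p : 𝓞 F, IsUnit p ∧ (∃ σ : F →+* ℂ, 1 < ‖σ p‖) ∧
      ∃ k₀ : ℕ, ∀ k, k₀ ≤ k → Irreducible (pol d 1 (p ^ k)) := by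
  classical
  obtain ⟨w₁⟩ : Nonempty (InfinitePlace F) := inferInstance
  obtain ⟨u, hu⟩ := Units.dirichletUnitTheorem.exists_unit F w₁
  obtain ⟨w₂, hw₂⟩ : ∃ w₂ : InfinitePlace F, w₂ ≠ w₁ := by
    have h1 : 1 < Fintype.card (InfinitePlace F) := by
      unfold Units.rank at hr
      omega
    exact Fintype.exists_ne_of_one_lt_card h1 w₁
  set x : F := ((u : 𝓞 F) : F) with hx
  have hx0 : x ≠ 0 := by
    intro h0
    exact u.ne_zero (RingOfIntegers.coe_eq_zero_iff.1 h0)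
  have hw1 : 1 < w₁ x := by
    have h1 := Units.sum_mult_mul_log u
    rw [← Finset.add_sum_erase _ _ (Finset.mem_univ w₁)] at h1
    have h2 : ∑ w ∈ Finset.univ.erase w₁, (w.mult : ℝ) * Real.log (w x) < 0 := by
      apply Finset.sum_neg
      · intro w hw
        have h3 := hu w (Finset.ne_of_mem_erase hw)
        exact mul_neg_of_pos_of_neg (by exact_mod_cast w.mult_pos) h3
      · exact ⟨w₂, Finset.mem_erase.2 ⟨hw₂, Finset.mem_univ _⟩⟩
    have h4 : 0 < (w₁.mult : ℝ) * Real.log (w₁ x) := by linarith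
    have h5 : 0 < Real.log (w₁ x) :=
      (mul_pos_iff_of_pos_left (by exact_mod_cast w₁.mult_pos)).1 h4
    exact (Real.log_pos_iff (by positivity)).1 h5
  set σ₁ : F →+* ℂ := w₁.embedding with hσ₁
  have hmk : InfinitePlace.mk σ₁ = w₁ := InfinitePlace.mk_embedding w₁
  have hσx : ‖σ₁ x‖ = w₁ x := by
    conv_rhs => rw [← hmk]
    rfl
  refine ⟨(u : 𝓞 F), u.isUnit, ⟨σ₁, by rw [hσx]; exact hw1⟩, ?_⟩
  set R : ℝ := 32 ^ (d * finrank ℚ F) + 1 with hRdef
  have htend := tendsto_pow_atTop_atTop_of_one_lt (r := ‖σ₁ x‖) (by rw [hσx]; exact hw1)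
  obtain ⟨k₀, hk₀⟩ := Filter.eventually_atTop.1
    (htend.eventually_ge_atTop (max (R ^ (d - 1)) (d + 1)))
  refine ⟨k₀, fun k hk => ?_⟩
  have hk1 := hk₀ k hk
  have hPk : ∀ σ : F →+* ℂ, ‖σ (((u : 𝓞 F) ^ k : 𝓞 F) : F)‖ = ‖σ x‖ ^ k := by
    intro σ
    have : (((u : 𝓞 F) ^ k : 𝓞 F) : F) = x ^ k := by
      change algebraMap (𝓞 F) F ((u : 𝓞 F) ^ k) = _
      rw [map_pow]
    rw [this, map_pow, norm_pow]
  have hd0 : (0 : ℝ) ≤ d := by positivity
  have hm1 := le_max_left (R ^ (d - 1)) ((d : ℝ) + 1)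
  have hm2 := le_max_right (R ^ (d - 1)) ((d : ℝ) + 1)
  refine irr_unit hd σ₁ ?_ (R := R) (by rw [hRdef]; linarith) ?_ ?_ ?_
  · intro σ
    rw [hPk]
    by_cases hσ : InfinitePlace.mk σ = w₁
    · right; rw [hmk]; exact hσ
    · left
      have h3 := hu _ hσ
      have h4 : (InfinitePlace.mk σ) x = ‖σ x‖ := rfl
      have h5 : ‖σ x‖ ≤ 1 := by
        by_contra hcon
        push Not at hcon
        have h6 : 0 < Real.log (InfinitePlace.mk σ x) := by
          rw [h4]; exact Real.log_pos hcon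
        linarith
      exact pow_le_one₀ (norm_nonneg _) h5
  · rw [hPk]
    have : 0 ≤ ‖σ₁ x‖ ^ k := by positivity
    linarith
  · rw [hPk]; linarith
  · rw [hPk]; linarith

end FreyAll
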