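import Mathlib
import Pool.Agent.Lib.MP_6babc4_nt.AllIrred

/-!
# The bad primes of the curves of the family, and the final comparison
-/

set_option autoImplicit false

open NumberField Module IsDedekindDomain

namespace FreyAll

/-- The product of the norms of the primes containing the discriminant. -/
noncomputable def badNorm (K : Type*) [Field K] [NumberField K] (W : WeierstrassCurve (𝓞 K)) : ℕ :=
  ∏ᶠ v ∈ {v : HeightOneSpectrum (𝓞 K) | W.Δ ∈ v.asIdeal}, Ideal.absNorm v.asIdeal

lemma badNorm_le {K : Type*} [Field K] [NumberField K] {W : WeierstrassCurve (𝓞 K)} {m : 𝓞 K}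
    (hm : m ≠ 0) (h : ∀ v : HeightOneSpectrum (𝓞 K), W.Δ ∈ v.asIdeal → m ∈ v.asIdeal) :
    badNorm K W ≤ (Algebra.norm ℤ m).natAbs := by
  classical
  have hspan : Ideal.span {m} ≠ 0 := by
    rw [Ne, Ideal.zero_eq_bot, Ideal.span_singleton_eq_bot]; exact hm
  have hfin : {v : HeightOneSpectrum (𝓞 K) | v.asIdeal ∣ Ideal.span {m}}.Finite :=
    Ideal.finite_factors hspan
  have hsub : {v : HeightOneSpectrum (𝓞 K) | W.Δ ∈ v.asIdeal} ⊆
      {v : HeightOneSpectrum (𝓞 K) | v.asIdeal ∣ Ideal.span {m}} := by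
    intro v hv
    exact Ideal.dvd_span_singleton.2 (h v hv)
  have hfin2 := hfin.subset hsub
  unfold badNorm
  rw [finprod_mem_eq_finite_toFinset_prod _ hfin2, ← map_prod, ← Ideal.absNorm_span_singleton]
  apply Nat.le_of_dvd
  · rw [Nat.pos_iff_ne_zero, Ne, Ideal.absNorm_eq_zero_iff, Ideal.span_singleton_eq_bot]
    exact hm
  apply map_dvd
  have hinj : Function.Injective (fun v : HeightOneSpectrum (𝓞 K) => v.asIdeal) :=
    fun v w hvw => HeightOneSpectrum.ext hvw
  have himg : ∏ v ∈ hfin2.toFinset, v.asIdeal =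
      ∏ I ∈ hfin2.toFinset.image (fun v : HeightOneSpectrum (𝓞 K) => v.asIdeal), I := by
    rw [Finset.prod_image (fun v _ w _ hvw => hinj hvw)]
  rw [himg]
  apply Finset.prod_primes_dvd
  · intro I hI
    obtain ⟨v, hv, rfl⟩ := Finset.mem_image.1 hI
    exact v.prime
  · intro I hI
    obtain ⟨v, hv, rfl⟩ := Finset.mem_image.1 hI
    exact hsub (hfin2.mem_toFinset.1 hv)

section

variable {F K : Type*} [Field F] [NumberField F] [Field K] [NumberField K] [Algebra F K]

lemma norm_algebraMap_natAbs (m : 𝓞 F) :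
    (Algebra.norm ℤ (algebraMap (𝓞 F) (𝓞 K) m)).natAbs =
      (Algebra.norm ℤ m).natAbs ^ finrank F K := by
  have h1 : (Algebra.norm ℤ (algebraMap (𝓞 F) (𝓞 K) m)) = (Algebra.norm ℤ m) ^ finrank F K := by
    have h2 : ((Algebra.norm ℤ (algebraMap (𝓞 F) (𝓞 K) m) : ℤ) : ℚ) =
        ((Algebra.norm ℤ m : ℤ) : ℚ) ^ finrank F K := by
      rw [Algebra.coe_norm_int, Algebra.coe_norm_int]
      have h3 : ((algebraMap (𝓞 F) (𝓞 K) m : 𝓞 K) : K) = algebraMap F K (m : F) := rfl
      have h4 : Algebra.norm ℚ (Algebra.norm F (algebraMap F K (m : F))) =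
          Algebra.norm ℚ (algebraMap F K (m : F)) := Algebra.norm_norm
      rw [h3, ← h4, Algebra.norm_algebraMap, map_pow]
    exact_mod_cast h2
  rw [h1, Int.natAbs_pow]

namespace Data

variable {a P : 𝓞 F} {c : 𝓞 K}

lemma u_unit (h : Data a P c) : IsUnit (1 + 16 * bb P c) := by
  have h1 : IsCoprime (1 + 16 * bb P c) c := ⟨1, -(16 * algebraMap (𝓞 F) (𝓞 K) P), by
    unfold bb; ring⟩
  have h2 : IsCoprime (1 + 16 * bb P c) (c ^ finrank F K) := h1.pow_right
  have h3 : (1 + 16 * bb P c) ∣ c ^ finrank F K := by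
    rw [h.eq]
    exact Dvd.intro_left _ rfl
  exact h2.isUnit_of_dvd' dvd_rfl h3

lemma Δ_ne (h : Data a P c) : (curve (bb P c)).Δ ≠ 0 := by
  rw [curve_Δ]
  exact mul_ne_zero (pow_ne_zero _ h.b_ne) h.u_ne

lemma bad_mem (h : Data a P c) {m : 𝓞 F} {j : ℕ} (hm : a * P ∣ m ^ j)
    (v : HeightOneSpectrum (𝓞 K)) (hv : (curve (bb P c)).Δ ∈ v.asIdeal) :
    algebraMap (𝓞 F) (𝓞 K) m ∈ v.asIdeal := by
  have hp := v.isPrime
  have hunit : ∀ x : 𝓞 K, IsUnit x → x ∉ v.asIdeal := fun x hx hxv =>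
    hp.ne_top (Ideal.eq_top_of_isUnit_mem _ hxv hx)
  rw [curve_Δ] at hv
  have hb : bb P c ∈ v.asIdeal := by
    rcases hp.mem_or_mem hv with h1 | h1
    · exact hp.mem_of_pow_mem 4 h1
    · exact absurd h1 (hunit _ h.u_unit)
  have haP : algebraMap (𝓞 F) (𝓞 K) (a * P) ∈ v.asIdeal := by
    rw [map_mul]
    rcases hp.mem_or_mem hb with h1 | h1
    · exact Ideal.mul_mem_left _ _ h1
    · apply Ideal.mul_mem_right
      have h2 : c ^ finrank F K ∈ v.asIdeal :=
        Ideal.pow_mem_of_mem _ h1 _ (by have := h.deg; omega)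
      rw [h.eq] at h2
      rcases hp.mem_or_mem h2 with h3 | h3
      · exact h3
      · exact absurd h3 (hunit _ h.u_unit)
  obtain ⟨r, hr⟩ := hm
  have h4 : algebraMap (𝓞 F) (𝓞 K) m ^ j ∈ v.asIdeal := by
    rw [← map_pow, hr, map_mul]
    exact Ideal.mul_mem_right _ _ haP
  exact hp.mem_of_pow_mem j h4

lemma badNorm_bound (h : Data a P c) {m : 𝓞 F} (hm0 : m ≠ 0) {j : ℕ} (hm : a * P ∣ m ^ j) :
    badNorm K (curve (bb P c)) ≤ (Algebra.norm ℤ m).natAbs ^ finrank F K := by
  rw [← norm_algebraMap_natAbs (K := K) m]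
  apply badNorm_le
  · intro h0
    apply hm0
    have h1 : algebraMap F K (m : F) = 0 := by
      have := congrArg (algebraMap (𝓞 K) K) h0
      rw [map_zero] at this
      exact this
    exact RingOfIntegers.coe_eq_zero_iff.1 ((map_eq_zero _).1 h1)
  · exact fun v hv => h.bad_mem hm v hv

lemma norm_c_natAbs (h : Data a P c) :
    (Algebra.norm ℤ c).natAbs = (Algebra.norm ℤ a).natAbs := by
  have h1 : Algebra.norm ℚ (c : K) = Algebra.norm ℚ (Algebra.norm F (c : K)) :=
    Algebra.norm_norm.symm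
  have h2 : |Algebra.norm ℚ (Algebra.norm F (c : K))| = |Algebra.norm ℚ (a : F)| := by
    rcases h.norm with h3 | h3 <;> rw [h3]
    have h4 : -(a : F) = algebraMap ℚ F (-1) * (a : F) := by
      rw [map_neg, map_one]; ring
    rw [h4, map_mul, Algebra.norm_algebraMap, abs_mul, abs_pow, abs_neg, abs_one, one_pow,
      one_mul]
  rw [← h1, ← Algebra.coe_norm_int, ← Algebra.coe_norm_int, ← Int.cast_abs, ← Int.cast_abs] at h2
  have h5 : |Algebra.norm ℤ c| = |Algebra.norm ℤ a| := by exact_mod_cast h2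
  rw [Int.abs_eq_natAbs, Int.abs_eq_natAbs] at h5
  exact_mod_cast h5

/-- exactly one bad prime, of prime norm -/
lemma badNorm_eq (h : Data a P c) {q : ℕ} (hq : q.Prime) (ha : (Algebra.norm ℤ a).natAbs = q)
    {j : ℕ} (hj : a * P ∣ a ^ j) : badNorm K (curve (bb P c)) = q := by
  have hnorm : Ideal.absNorm (Ideal.span {c}) = q := by
    rw [Ideal.absNorm_span_singleton, h.norm_c_natAbs, ha]
  have hprime : (Ideal.span {c}).IsPrime := by
    apply Ideal.isPrime_of_irreducible_absNorm
    rw [hnorm]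
    exact hq
  have hbot : Ideal.span {c} ≠ ⊥ := by
    rw [Ne, Ideal.span_singleton_eq_bot]; exact h.c_ne'
  let v₀ : HeightOneSpectrum (𝓞 K) := ⟨Ideal.span {c}, hprime, hbot⟩
  have hset : {v : HeightOneSpectrum (𝓞 K) | (curve (bb P c)).Δ ∈ v.asIdeal} = {v₀} := by
    ext v
    rw [Set.mem_ofPred_eq, Set.mem_singleton_iff]
    constructor
    · intro hv
      have h1 := h.bad_mem hj v hv
      have h2 : c ^ finrank F K ∈ v.asIdeal := by
        rw [h.eq]; exact Ideal.mul_mem_right _ _ h1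
      have h3 : c ∈ v.asIdeal := v.isPrime.mem_of_pow_mem _ h2
      have hmax : (Ideal.span {c}).IsMaximal := hprime.isMaximal hbot
      apply HeightOneSpectrum.ext
      exact (hmax.eq_of_le v.isPrime.ne_top ((Ideal.span_singleton_le_iff_mem _).2 h3)).symm
    · rintro rfl
      rw [curve_Δ]
      apply Ideal.mul_mem_right
      apply Ideal.pow_mem_of_mem _ _ _ (by norm_num)
      exact Ideal.mul_mem_left _ _ (Ideal.mem_span_singleton_self c)
  unfold badNorm
  rw [hset, finprod_mem_singleton]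
  exact hnorm

/-- everywhere good reduction if `a P` is a unit -/
lemma Δ_unit (h : Data a P c) (ha : IsUnit a) (hP : IsUnit P) : IsUnit (curve (bb P c)).Δ := by
  rw [curve_Δ]
  have hc : IsUnit c := by
    have h1 : IsUnit (c ^ finrank F K) := by
      rw [h.eq]
      exact (ha.map _).mul h.u_unit
    exact (isUnit_pow_iff (by have := h.deg; omega)).1 h1
  exact (((hP.map _).mul hc).pow 4).mul h.u_unit

end Data

end

lemma lsum_pow {F : Type*} [Field F] [NumberField F] (p : F) (k : ℕ) :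
    lsum (p ^ k) = k * lsum p := by
  unfold lsum
  rw [Finset.mul_sum]
  refine Finset.sum_congr rfl fun σ _ => ?_
  rw [map_pow, norm_pow]
  rcases le_total ‖σ p‖ 1 with h | h
  · rw [max_eq_left h, max_eq_left (pow_le_one₀ (norm_nonneg _) h), Real.log_one, mul_zero]
  · rw [max_eq_right h, max_eq_right (one_le_pow₀ h), Real.log_pow]

lemma lsum_pos {F : Type*} [Field F] [NumberField F] {p : F} {σ : F →+* ℂ} (h : 1 < ‖σ p‖) :
    0 < lsum p := by
  unfold lsum
  refine Finset.sum_pos' (fun σ _ => Real.log_nonneg (le_max_left _ _)) ⟨σ, Finset.mem_univ _, ?_⟩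
  rw [max_eq_right h.le]
  exact Real.log_pos h

/-- The final comparison. -/
lemma final_real {n d S D h C₂ C₄ E B : ℝ} (hn : 2 ≤ n) (hd : 1 ≤ d) (hS : 0 ≤ S) (hC₂ : 0 ≤ C₂)
    (hD1 : 1 ≤ D) (hD : D ≤ d * S + C₂)
    (hh : 1 / (2 * n) * (d * S - C₄) - (E + Real.log (1 + S)) / 2 ≤ h) (hx : n ≤ d * S)
    (hx2 : 4 * n * (B + 1 / 2 * Real.log (2 * n) + C₄ / (2 * n) + E / 2) < d * S) :
    B < h ∧ 1 / (2 * n) * D - 1 / 2 * Real.log D -
      (C₂ / (2 * n) + C₄ / (2 * n) + E / 2 + 1 / 2 * Real.log (2 + n)) ≤ h := by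
  set x := d * S with hxdef
  have hn0 : 0 < n := by linarith
  have hSx : S ≤ x := by rw [hxdef]; nlinarith
  have hlog : Real.log (1 + S) ≤ Real.log (1 + x) := Real.log_le_log (by linarith) (by linarith)
  have hh2 : x / (2 * n) - 1 / 2 * Real.log (1 + x) - C₄ / (2 * n) - E / 2 ≤ h := by
    have e : 1 / (2 * n) * (x - C₄) = x / (2 * n) - C₄ / (2 * n) := by ring
    rw [e] at hh
    linarith
  constructor
  · have h1 : Real.log ((1 + x) / (2 * n)) ≤ (1 + x) / (2 * n) - 1 :=
      Real.log_le_sub_one_of_pos (by positivity)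
    rw [Real.log_div (by positivity) (by positivity)] at h1
    have h2 : (1 + x) / (2 * n) = 1 / (2 * n) + x / (2 * n) := by ring
    have h3 : 1 / (2 * n) ≤ 1 := by
      rw [div_le_one (by positivity)]; linarith
    have h4 : B + 1 / 2 * Real.log (2 * n) + C₄ / (2 * n) + E / 2 < x / (4 * n) := by
      rw [lt_div_iff₀ (by positivity)]
      linarith
    have h5 : x / (2 * n) = 2 * (x / (4 * n)) := by field_simp; ring
    rw [h2] at h1
    linarith
  · set y := max (D - C₂) n with hy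
    have hyx : y ≤ x := max_le (by linarith) hx
    have hny : n ≤ y := le_max_right _ _
    have hDy : D - C₂ ≤ y := le_max_left _ _
    have h1 : Real.log (1 + x) - Real.log (1 + y) ≤ (x - y) / n := by
      rw [← Real.log_div (by positivity) (by positivity)]
      have h2 : Real.log ((1 + x) / (1 + y)) ≤ (1 + x) / (1 + y) - 1 :=
        Real.log_le_sub_one_of_pos (by positivity)
      have h3 : (1 + x) / (1 + y) - 1 = (x - y) / (1 + y) := by
        have hy1 : 1 + y ≠ 0 := by positivity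
        rw [div_sub_one hy1]
        congr 1
        ring
      have h4 : (x - y) / (1 + y) ≤ (x - y) / n :=
        div_le_div_of_nonneg_left (by linarith) hn0 (by linarith)
      linarith
    have h5 : 1 + y ≤ (2 + n) * D := by
      rw [hy]
      rcases max_choice (D - C₂) n with h6 | h6 <;> rw [h6] <;> nlinarith
    have h7 : Real.log (1 + y) ≤ Real.log (2 + n) + Real.log D := by
      rw [← Real.log_mul (by positivity) (by positivity)]
      exact Real.log_le_log (by positivity) h5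
    have h8 : x / (2 * n) = y / (2 * n) + 1 / 2 * ((x - y) / n) := by
      field_simp
      ring
    have h9 : 1 / (2 * n) * D - C₂ / (2 * n) ≤ y / (2 * n) := by
      have e : 1 / (2 * n) * D - C₂ / (2 * n) = (D - C₂) / (2 * n) := by ring
      rw [e]
      gcongr
    linarith

end FreyAll
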