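import Pool.Agent.Lib.MP_6babc4_nt.AvgDefs

/-!
# A lower bound for the determinant of the Gram matrix
-/

open Polynomial MeasureTheory Set
open scoped ComplexConjugate

namespace FreyAvg

/-- An integrable radial kernel with a simple pole at `0`. -/
noncomputable def ker (y : ℂ) : ℝ := (‖y‖ * (1 + ‖y‖) ^ 2)⁻¹

lemma ker_nonneg (y : ℂ) : 0 ≤ ker y := by unfold ker; positivity

lemma ker_integrable : Integrable ker := by
  have h := (integrable_fun_norm_addHaar (volume : Measure ℂ)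
    (f := fun r : ℝ => (r * (1 + r) ^ 2)⁻¹)).2 ?_
  · exact h
  rw [Complex.finrank_real_complex]
  have h1 : IntegrableOn (fun y : ℝ => (1 + y ^ 2)⁻¹) (Ioi 0) :=
    integrable_inv_one_add_sq.integrableOn
  refine Integrable.mono' h1 (by fun_prop) ?_
  refine (ae_restrict_iff' measurableSet_Ioi).2 (Filter.Eventually.of_forall ?_)
  intro y hy
  have hy0 : 0 < y := hy
  rw [Real.norm_of_nonneg (by simp only [smul_eq_mul]; positivity)]
  simp only [smul_eq_mul]
  have e1 : y ^ (2 - 1) * (y * (1 + y) ^ 2)⁻¹ = ((1 + y) ^ 2)⁻¹ := by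
    norm_num
    field_simp
  rw [e1]
  apply inv_anti₀ (by positivity)
  nlinarith

/-- Lagrange interpolation: `‖z‖^l / ‖F z‖` is bounded by the simple poles at the roots. -/
lemma lagrange_bound {F : ℂ[X]} (hF : F.Separable) {l : ℕ} (hl : l < F.natDegree) :
    ∃ C : ℝ, 0 ≤ C ∧ ∀ z : ℂ, ‖z‖ ^ l / ‖F.eval z‖ ≤ C * ∑ α ∈ F.roots.toFinset, ‖z - α‖⁻¹ := by
  classical
  have hF0 : F ≠ 0 := hF.ne_zero
  have hsplit : F.Splits := IsAlgClosed.splits F
  have hnodup : F.roots.Nodup := nodup_roots hF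
  set s := F.roots.toFinset with hs
  have hcard : s.card = F.natDegree := by
    rw [hs, Multiset.toFinset_card_of_nodup hnodup, hsplit.natDegree_eq_card_roots]
  have hFeq : F = C F.leadingCoeff * Lagrange.nodal s id := by
    conv_lhs => rw [hsplit.eq_prod_roots]
    congr 1
    rw [Lagrange.nodal, hs, Finset.prod_eq_multiset_prod, Multiset.toFinset_val,
      hnodup.dedup]
    rfl
  have hlc : 0 < ‖F.leadingCoeff‖ := norm_pos_iff.mpr (leadingCoeff_ne_zero.mpr hF0)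
  -- the interpolation formula
  have hinterp : ∀ z : ℂ, (∀ α ∈ s, z ≠ id α) → z ^ l = (Lagrange.nodal s id).eval z *
      ∑ α ∈ s, Lagrange.nodalWeight s id α * (z - id α)⁻¹ * (α ^ l) := by
    intro z hz
    have h1 : (X ^ l : ℂ[X]) = Lagrange.interpolate s id (fun i => (X ^ l : ℂ[X]).eval (id i)) := by
      apply Lagrange.eq_interpolate (fun a _ b _ h => h)
      rw [degree_X_pow, hcard]
      exact_mod_cast hl
    have h2 := congrArg (fun p : ℂ[X] => p.eval z) h1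
    simp only [eval_pow, eval_X] at h2
    rw [h2, Lagrange.eval_interpolate_not_at_node _ hz]
    simp
  refine ⟨(∑ α ∈ s, ‖Lagrange.nodalWeight s id α‖ * ‖α‖ ^ l) / ‖F.leadingCoeff‖,
    by positivity, ?_⟩
  intro z
  have hRHS : 0 ≤ (∑ α ∈ s, ‖Lagrange.nodalWeight s id α‖ * ‖α‖ ^ l) / ‖F.leadingCoeff‖ *
      ∑ α ∈ s, ‖z - α‖⁻¹ := by positivity
  by_cases hz : ∀ α ∈ s, z ≠ id α
  · have hnod : (Lagrange.nodal s id).eval z ≠ 0 := Lagrange.eval_nodal_not_at_node hz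
    have hFz : F.eval z = F.leadingCoeff * (Lagrange.nodal s id).eval z := by
      conv_lhs => rw [hFeq]
      rw [eval_mul, eval_C]
    have h1 : ‖z‖ ^ l / ‖F.eval z‖ = ‖∑ α ∈ s, Lagrange.nodalWeight s id α * (z - id α)⁻¹ *
        (α ^ l)‖ / ‖F.leadingCoeff‖ := by
      rw [← norm_pow, hinterp z hz, hFz, norm_mul, norm_mul]
      have : 0 < ‖(Lagrange.nodal s id).eval z‖ := norm_pos_iff.mpr hnod
      field_simp
    rw [h1, div_mul_eq_mul_div]
    gcongr
    refine (norm_sum_le _ _).trans ?_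
    rw [Finset.sum_mul]
    refine Finset.sum_le_sum fun α hα => ?_
    rw [norm_mul, norm_mul, norm_pow, norm_inv]
    calc ‖Lagrange.nodalWeight s id α‖ * ‖z - id α‖⁻¹ * ‖α‖ ^ l
        = (‖Lagrange.nodalWeight s id α‖ * ‖α‖ ^ l) * ‖z - α‖⁻¹ := by simp only [id]; ring
      _ ≤ (‖Lagrange.nodalWeight s id α‖ * ‖α‖ ^ l) * ∑ α ∈ s, ‖z - α‖⁻¹ := by
          gcongr
          exact Finset.single_le_sum (f := fun α => ‖z - α‖⁻¹) (fun _ _ => by positivity) hα
  · push Not at hz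
    obtain ⟨α, hα, hzα⟩ := hz
    have : F.eval z = 0 := by
      rw [hzα]
      exact (mem_roots hF0).mp (Multiset.mem_toFinset.mp hα)
    rw [this, norm_zero, div_zero]
    exact hRHS

/-- The entries of the Gram matrix are integrals of integrable functions. -/
lemma pow_div_le {F : ℂ[X]} (hF : F.Separable) {m : ℕ} (hm : m + 2 < F.natDegree) :
    ∃ G : ℂ → ℝ, Integrable G ∧ ∀ z : ℂ, ‖z‖ ^ m / ‖F.eval z‖ ≤ G z := by
  classical
  obtain ⟨C₀, hC₀, h₀⟩ := lagrange_bound hF (l := m) (by omega)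
  obtain ⟨C₁, hC₁, h₁⟩ := lagrange_bound hF (l := m + 1) (by omega)
  obtain ⟨C₂, hC₂, h₂⟩ := lagrange_bound hF (l := m + 2) (by omega)
  set s := F.roots.toFinset
  set C := C₀ + 2 * C₁ + C₂ with hC
  refine ⟨fun z => ∑ α ∈ s, C * (1 + ‖α‖) ^ 2 * ker (z - α), ?_, ?_⟩
  · refine integrable_finsetSum _ fun α _ => ?_
    exact (ker_integrable.comp_sub_right α).const_mul _
  · intro z
    have hz1 : 0 < (1 + ‖z‖) ^ 2 := by positivity
    have h3 : (1 + ‖z‖) ^ 2 * (‖z‖ ^ m / ‖F.eval z‖) ≤ C * ∑ α ∈ s, ‖z - α‖⁻¹ := by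
      calc (1 + ‖z‖) ^ 2 * (‖z‖ ^ m / ‖F.eval z‖) = ‖z‖ ^ m / ‖F.eval z‖ +
            2 * (‖z‖ ^ (m + 1) / ‖F.eval z‖) + ‖z‖ ^ (m + 2) / ‖F.eval z‖ := by ring
        _ ≤ C₀ * ∑ α ∈ s, ‖z - α‖⁻¹ + 2 * (C₁ * ∑ α ∈ s, ‖z - α‖⁻¹) +
            C₂ * ∑ α ∈ s, ‖z - α‖⁻¹ := by
            linarith [h₀ z, h₁ z, h₂ z]
        _ = C * ∑ α ∈ s, ‖z - α‖⁻¹ := by rw [hC]; ring
    have h4 : ‖z‖ ^ m / ‖F.eval z‖ ≤ (C * ∑ α ∈ s, ‖z - α‖⁻¹) / (1 + ‖z‖) ^ 2 := by
      rw [le_div_iff₀ hz1, mul_comm]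
      exact h3
    refine h4.trans ?_
    rw [mul_div_assoc, Finset.sum_div, Finset.mul_sum]
    refine Finset.sum_le_sum fun α _ => ?_
    rw [mul_assoc]
    have hC0 : 0 ≤ C := by positivity
    refine mul_le_mul_of_nonneg_left ?_ hC0
    have h5 : 1 + ‖z - α‖ ≤ (1 + ‖z‖) * (1 + ‖α‖) := by
      have := norm_sub_le z α
      nlinarith [norm_nonneg z, norm_nonneg α]
    have h6 : (1 + ‖z - α‖) ^ 2 ≤ ((1 + ‖z‖) * (1 + ‖α‖)) ^ 2 :=
      pow_le_pow_left₀ (by positivity) h5 2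
    have h7 : ((1 + ‖z‖) ^ 2)⁻¹ ≤ (1 + ‖α‖) ^ 2 * ((1 + ‖z - α‖) ^ 2)⁻¹ := by
      rw [← div_eq_mul_inv, le_div_iff₀ (by positivity), inv_mul_le_iff₀ hz1, ← mul_pow]
      exact h6
    unfold ker
    rw [div_eq_mul_inv, mul_inv]
    calc ‖z - α‖⁻¹ * ((1 + ‖z‖) ^ 2)⁻¹ ≤ ‖z - α‖⁻¹ * ((1 + ‖α‖) ^ 2 * ((1 + ‖z - α‖) ^ 2)⁻¹) := by
          gcongr
      _ = (1 + ‖α‖) ^ 2 * (‖z - α‖⁻¹ * ((1 + ‖z - α‖) ^ 2)⁻¹) := by ring

lemma entry_integrable {F : ℂ[X]} (hF : F.Separable) {i j : ℕ} (hij : i + j + 2 < F.natDegree) :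
    Integrable (fun z : ℂ => z ^ i * (conj z) ^ j * ((‖F.eval z‖⁻¹ : ℝ) : ℂ)) := by
  obtain ⟨G, hG, hle⟩ := pow_div_le hF hij
  have hmeas : Measurable (fun z : ℂ => F.eval z) := F.continuous.measurable
  refine Integrable.mono' hG ?_ (Filter.Eventually.of_forall fun z => ?_)
  · apply Measurable.aestronglyMeasurable
    fun_prop
  · refine le_trans (le_of_eq ?_) (hle z)
    rw [norm_mul, norm_mul, norm_pow, norm_pow, RCLike.norm_conj, Complex.norm_real, norm_inv,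
      norm_norm, ← pow_add, div_eq_mul_inv]

/-- The Gram matrix of the monomials for a weight. -/
noncomputable def gw (g : ℕ) (w : ℂ → ℝ) : Matrix (Fin g) (Fin g) ℂ :=
  Matrix.of fun i j => ∫ z : ℂ, z ^ (i : ℕ) * (conj z) ^ (j : ℕ) * ((w z : ℝ) : ℂ)

/-- The polynomial with coefficients `conj (c i)`. -/
noncomputable def pc {g : ℕ} (c : Fin g → ℂ) (z : ℂ) : ℂ := ∑ i, conj (c i) * z ^ (i : ℕ)

lemma gram_eq (g : ℕ) (F : ℂ[X]) :
    gram g F = (1 / 2 : ℂ) • gw g (fun z => ‖F.eval z‖⁻¹) := by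
  ext i j
  simp only [gram, gw, Matrix.of_apply, Matrix.smul_apply, smul_eq_mul]
  congr 1
  refine integral_congr_ae (Filter.Eventually.of_forall fun z => ?_)
  simp only [Complex.ofReal_inv, div_eq_mul_inv]

lemma gw_isHermitian (g : ℕ) (w : ℂ → ℝ) : (gw g w).IsHermitian := by
  ext i j
  simp only [gw, Matrix.conjTranspose_apply, Matrix.of_apply]
  rw [← starRingEnd_apply, ← integral_conj]
  refine integral_congr_ae (Filter.Eventually.of_forall fun z => ?_)
  simp only [map_mul, map_pow, Complex.conj_conj, Complex.conj_ofReal]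
  ring

lemma quad_integrand {g : ℕ} (w : ℂ → ℝ) (c : Fin g → ℂ) (z : ℂ) :
    (((‖pc c z‖ ^ 2 * w z : ℝ)) : ℂ) =
      ∑ i, ∑ j, conj (c i) * c j * (z ^ (i : ℕ) * (conj z) ^ (j : ℕ) * ((w z : ℝ) : ℂ)) := by
  have h1 : (((‖pc c z‖ ^ 2 : ℝ)) : ℂ) = pc c z * conj (pc c z) := by
    rw [Complex.mul_conj, Complex.normSq_eq_norm_sq]
  have h2 : conj (pc c z) = ∑ j, c j * (conj z) ^ (j : ℕ) := by
    simp only [pc, map_sum, map_mul, map_pow, Complex.conj_conj]
  rw [Complex.ofReal_mul, h1, h2, pc, Finset.sum_mul_sum, Finset.sum_mul]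
  refine Finset.sum_congr rfl fun i _ => ?_
  rw [Finset.sum_mul]
  refine Finset.sum_congr rfl fun j _ => ?_
  ring

lemma quad_integrable {g : ℕ} {w : ℂ → ℝ} (hint : ∀ i j : Fin g,
    Integrable (fun z : ℂ => z ^ (i : ℕ) * (conj z) ^ (j : ℕ) * ((w z : ℝ) : ℂ)))
    (c : Fin g → ℂ) : Integrable (fun z => ‖pc c z‖ ^ 2 * w z) := by
  have h : Integrable (fun z => (((‖pc c z‖ ^ 2 * w z : ℝ)) : ℂ)) := by
    simp only [quad_integrand]
    refine integrable_finsetSum _ fun i _ => integrable_finsetSum _ fun j _ => ?_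
    exact (hint i j).const_mul _
  have h2 := h.re
  simpa only [RCLike.re_to_complex, Complex.ofReal_re] using h2

lemma quad_eq {g : ℕ} {w : ℂ → ℝ} (hint : ∀ i j : Fin g,
    Integrable (fun z : ℂ => z ^ (i : ℕ) * (conj z) ^ (j : ℕ) * ((w z : ℝ) : ℂ)))
    (c : Fin g → ℂ) :
    dotProduct (star c) (Matrix.mulVec (gw g w) c) = ((∫ z, ‖pc c z‖ ^ 2 * w z : ℝ) : ℂ) := by
  rw [← integral_complex_ofReal]
  simp only [quad_integrand]
  rw [integral_finsetSum _ (fun i _ => integrable_finsetSum _ fun j _ => (hint i j).const_mul _)]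
  simp only [dotProduct, Matrix.mulVec, Finset.mul_sum, Pi.star_apply]
  refine Finset.sum_congr rfl fun i _ => ?_
  rw [integral_finsetSum _ (fun j _ => (hint i j).const_mul _)]
  refine Finset.sum_congr rfl fun j _ => ?_
  rw [integral_const_mul]
  simp only [gw, Matrix.of_apply, ← starRingEnd_apply]
  ring

/-- A Hermitian matrix whose quadratic form is at least `lam` has determinant at least
`lam ^ g`. -/
lemma det_lower {g : ℕ} {A : Matrix (Fin g) (Fin g) ℂ} (hA : A.IsHermitian) {lam : ℝ}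
    (hlam : 0 ≤ lam)
    (h : ∀ c : Fin g → ℂ, lam * ∑ i, ‖c i‖ ^ 2 ≤ (dotProduct (star c) (Matrix.mulVec A c)).re) :
    lam ^ g ≤ ‖A.det‖ := by
  rw [hA.det_eq_prod_eigenvalues]
  have h1 : ∀ i, lam ≤ hA.eigenvalues i := by
    intro i
    rw [hA.eigenvalues_eq i]
    have h2 := h (hA.eigenvectorBasis i)
    have h3 : ∑ j, ‖(hA.eigenvectorBasis i) j‖ ^ 2 = 1 := by
      rw [← EuclideanSpace.norm_sq_eq, hA.eigenvectorBasis.orthonormal.1 i, one_pow]
    rw [h3, mul_one] at h2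
    exact h2
  rw [norm_prod]
  calc lam ^ g = ∏ _i : Fin g, lam := by simp
    _ ≤ ∏ i : Fin g, ‖((hA.eigenvalues i : ℝ) : ℂ)‖ := by
        refine Finset.prod_le_prod (fun _ _ => hlam) fun i _ => ?_
        rw [Complex.norm_real]
        exact (h1 i).trans (le_abs_self _)

/-- The weight of the unit disc. -/
noncomputable def wd : ℂ → ℝ := (Metric.closedBall (0 : ℂ) 1).indicator 1

lemma wd_integrable (i j : ℕ) :
    Integrable (fun z : ℂ => z ^ i * (conj z) ^ j * ((wd z : ℝ) : ℂ)) := by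
  have h : (fun z : ℂ => z ^ i * (conj z) ^ j * ((wd z : ℝ) : ℂ)) =
      (Metric.closedBall (0 : ℂ) 1).indicator (fun z => z ^ i * (conj z) ^ j) := by
    ext z
    unfold wd
    by_cases hz : z ∈ Metric.closedBall (0 : ℂ) 1
    · simp [indicator_of_mem hz]
    · simp [indicator_of_notMem hz]
  rw [h, integrable_indicator_iff measurableSet_closedBall]
  apply ContinuousOn.integrableOn_compact (isCompact_closedBall _ _)
  apply Continuous.continuousOn
  fun_prop

lemma wd_orth {i j : ℕ} (hij : i ≠ j) :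
    ∫ z : ℂ, z ^ i * (conj z) ^ j * ((wd z : ℝ) : ℂ) = 0 := by
  -- a rotation `ζ` with `ζ^i conj ζ^j = -1`
  obtain ⟨ζ, hζ⟩ : ∃ ζ : Circle, (ζ : ℂ) ^ i * (conj (ζ : ℂ)) ^ j = -1 := by
    have hk' : (i : ℤ) - j ≠ 0 := by omega
    have hk : (((i : ℤ) - j : ℤ) : ℂ) ≠ 0 := Int.cast_ne_zero.mpr hk'
    refine ⟨Circle.exp (Real.pi / ((i : ℤ) - j : ℤ)), ?_⟩
    rw [Circle.coe_exp, ← Complex.exp_conj, ← Complex.exp_nat_mul, ← Complex.exp_nat_mul,
      ← Complex.exp_add, ← Complex.exp_pi_mul_I]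
    congr 1
    simp only [map_mul, Complex.conj_ofReal, Complex.conj_I]
    push_cast
    push_cast at hk
    field_simp
    ring
  have hmp := (rotation ζ).measurePreserving
  have hemb := (rotation ζ).toHomeomorph.measurableEmbedding
  have h1 := hmp.integral_comp hemb
    (fun z : ℂ => z ^ i * (conj z) ^ j * ((wd z : ℝ) : ℂ))
  have h2 : ∀ z : ℂ, (rotation ζ z) ^ i * (conj (rotation ζ z)) ^ j *
      ((wd (rotation ζ z) : ℝ) : ℂ) = -(z ^ i * (conj z) ^ j * ((wd z : ℝ) : ℂ)) := by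
    intro z
    have h3 : wd (rotation ζ z) = wd z := by
      unfold wd
      by_cases hz : z ∈ Metric.closedBall (0 : ℂ) 1
      · have : rotation ζ z ∈ Metric.closedBall (0 : ℂ) 1 := by
          rw [mem_closedBall_zero_iff] at hz ⊢
          rwa [LinearIsometryEquiv.norm_map]
        rw [indicator_of_mem hz, indicator_of_mem this]
        rfl
      · have : rotation ζ z ∉ Metric.closedBall (0 : ℂ) 1 := by
          rw [mem_closedBall_zero_iff] at hz ⊢
          rwa [LinearIsometryEquiv.norm_map]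
        rw [indicator_of_notMem hz, indicator_of_notMem this]
    rw [h3, rotation_apply, map_mul, mul_pow, mul_pow]
    calc (ζ : ℂ) ^ i * z ^ i * ((conj (ζ : ℂ)) ^ j * (conj z) ^ j) * ((wd z : ℝ) : ℂ)
        = ((ζ : ℂ) ^ i * (conj (ζ : ℂ)) ^ j) * (z ^ i * (conj z) ^ j * ((wd z : ℝ) : ℂ)) := by
          ring
      _ = _ := by rw [hζ]; ring
  simp only [h2] at h1
  rw [integral_neg] at h1
  have h4 : (2 : ℂ) * ∫ z : ℂ, z ^ i * (conj z) ^ j * ((wd z : ℝ) : ℂ) = 0 := by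
    linear_combination -h1
  simpa using h4

/-- The moment of order `g` of the unit disc. -/
noncomputable def lam0 (g : ℕ) : ℝ := ∫ z : ℂ, ‖z‖ ^ (2 * g) * wd z

lemma moment_integrable (k : ℕ) : Integrable (fun z : ℂ => ‖z‖ ^ (2 * k) * wd z) := by
  have h : (fun z : ℂ => ‖z‖ ^ (2 * k) * wd z) =
      (Metric.closedBall (0 : ℂ) 1).indicator (fun z => ‖z‖ ^ (2 * k)) := by
    ext z
    unfold wd
    by_cases hz : z ∈ Metric.closedBall (0 : ℂ) 1
    · simp [indicator_of_mem hz]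
    · simp [indicator_of_notMem hz]
  rw [h, integrable_indicator_iff measurableSet_closedBall]
  apply ContinuousOn.integrableOn_compact (isCompact_closedBall _ _)
  apply Continuous.continuousOn
  fun_prop

lemma wd_nonneg (z : ℂ) : 0 ≤ wd z := by
  unfold wd
  exact indicator_nonneg (fun _ _ => zero_le_one) z

lemma lam0_pos (g : ℕ) : 0 < lam0 g := by
  rw [lam0, integral_pos_iff_support_of_nonneg
    (fun z => mul_nonneg (by positivity) (wd_nonneg z)) (moment_integrable g)]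
  have hsub : Metric.closedBall (0 : ℂ) 1 \ {0} ⊆
      Function.support (fun z : ℂ => ‖z‖ ^ (2 * g) * wd z) := by
    intro z hz
    rw [Function.mem_support]
    have hz0 : z ≠ 0 := hz.2
    have : wd z = 1 := by
      unfold wd
      rw [indicator_of_mem hz.1]
      rfl
    rw [this, mul_one]
    exact pow_ne_zero _ (norm_ne_zero_iff.mpr hz0)
  refine lt_of_lt_of_le ?_ (measure_mono hsub)
  rw [measure_sdiff_null (by simp)]
  exact Metric.measure_closedBall_pos _ _ one_pos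

lemma disc_form {g : ℕ} (c : Fin g → ℂ) :
    lam0 g * ∑ i, ‖c i‖ ^ 2 ≤ ∫ z, ‖pc c z‖ ^ 2 * wd z := by
  have h1 := quad_eq (g := g) (w := wd) (fun i j => wd_integrable i j) c
  have h2 : dotProduct (star c) (Matrix.mulVec (gw g wd) c) =
      ((∑ i : Fin g, ‖c i‖ ^ 2 * ∫ z : ℂ, ‖z‖ ^ (2 * (i : ℕ)) * wd z : ℝ) : ℂ) := by
    simp only [dotProduct, Matrix.mulVec, Pi.star_apply, Finset.mul_sum]
    rw [Complex.ofReal_sum]
    refine Finset.sum_congr rfl fun i _ => ?_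
    rw [Finset.sum_eq_single i]
    · have h3 : gw g wd i i = ((∫ z : ℂ, ‖z‖ ^ (2 * (i : ℕ)) * wd z : ℝ) : ℂ) := by
        rw [← integral_complex_ofReal]
        simp only [gw, Matrix.of_apply]
        refine integral_congr_ae (Filter.Eventually.of_forall fun z => ?_)
        simp only
        rw [← mul_pow, Complex.mul_conj, Complex.normSq_eq_norm_sq]
        push_cast
        ring
      rw [h3, Complex.ofReal_mul]
      have h4 : ((‖c i‖ ^ 2 : ℝ) : ℂ) = star (c i) * c i := by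
        rw [← starRingEnd_apply, mul_comm, Complex.mul_conj, Complex.normSq_eq_norm_sq]
      rw [h4]
      ring
    · intro j _ hji
      have : gw g wd i j = 0 := by
        simp only [gw, Matrix.of_apply]
        exact wd_orth (fun h => hji (Fin.ext h.symm))
      rw [this]
      ring
    · intro h
      exact absurd (Finset.mem_univ i) h
  rw [h2] at h1
  have h5 := Complex.ofReal_injective h1
  rw [← h5, Finset.mul_sum]
  refine Finset.sum_le_sum fun i _ => ?_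
  rw [mul_comm]
  refine mul_le_mul_of_nonneg_left ?_ (by positivity)
  rw [lam0]
  refine integral_mono (moment_integrable g) (moment_integrable i) fun z => ?_
  by_cases hz : z ∈ Metric.closedBall (0 : ℂ) 1
  · refine mul_le_mul_of_nonneg_right ?_ (wd_nonneg z)
    rw [mem_closedBall_zero_iff] at hz
    exact pow_le_pow_of_le_one (norm_nonneg _) hz (by omega)
  · have : wd z = 0 := by
      unfold wd
      rw [indicator_of_notMem hz]
    simp [this]

/-- A lower bound for the determinant of the Gram matrix. -/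
theorem gram_det_lower {g : ℕ} {F : ℂ[X]} (hF : F.Separable) (hdeg : 2 * g < F.natDegree)
    {M : ℝ} (hM0 : 0 < M) (hM : ∀ z : ℂ, ‖z‖ ≤ 1 → ‖F.eval z‖ ≤ M) :
    (lam0 g / (2 * M)) ^ g ≤ ‖(gram g F).det‖ := by
  have hint : ∀ i j : Fin g, Integrable (fun z : ℂ => z ^ (i : ℕ) * (conj z) ^ (j : ℕ) *
      ((‖F.eval z‖⁻¹ : ℝ) : ℂ)) := by
    intro i j
    exact entry_integrable hF (by omega)
  have hherm : (gram g F).IsHermitian := by
    rw [gram_eq]
    have h := gw_isHermitian g (fun z => ‖F.eval z‖⁻¹)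
    unfold Matrix.IsHermitian at h ⊢
    rw [Matrix.conjTranspose_smul, h]
    congr 1
    simp
  refine det_lower hherm (by have := lam0_pos g; positivity) ?_
  intro c
  have h1 : dotProduct (star c) (Matrix.mulVec (gram g F) c) =
      (((1 / 2) * ∫ z, ‖pc c z‖ ^ 2 * ‖F.eval z‖⁻¹ : ℝ) : ℂ) := by
    rw [gram_eq, Matrix.smul_mulVec, dotProduct_smul, quad_eq hint c]
    push_cast
    simp
  rw [h1, Complex.ofReal_re]
  have h2 : ∫ z, M⁻¹ * (‖pc c z‖ ^ 2 * wd z) ≤ ∫ z, ‖pc c z‖ ^ 2 * ‖F.eval z‖⁻¹ := by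
    refine integral_mono_ae ?_ (quad_integrable hint c) ?_
    · exact (quad_integrable (fun i j => wd_integrable i j) c).const_mul _
    · have hfin : ((F.roots.toFinset : Finset ℂ) : Set ℂ).Finite := Finset.finite_toSet _
      have hae : ∀ᵐ z : ℂ, z ∉ ((F.roots.toFinset : Finset ℂ) : Set ℂ) :=
        measure_eq_zero_iff_ae_notMem.mp (hfin.measure_zero _)
      filter_upwards [hae] with z hz
      have hFz : F.eval z ≠ 0 := by
        intro h
        apply hz
        rw [Finset.mem_coe, Multiset.mem_toFinset, mem_roots hF.ne_zero]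
        exact h
      have hFz0 : 0 < ‖F.eval z‖ := norm_pos_iff.mpr hFz
      by_cases hz1 : z ∈ Metric.closedBall (0 : ℂ) 1
      · have hw : wd z = 1 := by
          unfold wd
          rw [indicator_of_mem hz1]
          rfl
        rw [hw, mul_one, mul_comm]
        refine mul_le_mul_of_nonneg_left ?_ (by positivity)
        apply inv_anti₀ hFz0
        exact hM z (mem_closedBall_zero_iff.mp hz1)
      · have hw : wd z = 0 := by
          unfold wd
          rw [indicator_of_notMem hz1]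
        rw [hw]
        simp only [mul_zero]
        positivity
  rw [integral_const_mul] at h2
  have h3 := disc_form c
  calc lam0 g / (2 * M) * ∑ i, ‖c i‖ ^ 2 = (1 / 2) * (M⁻¹ * (lam0 g * ∑ i, ‖c i‖ ^ 2)) := by
        field_simp
    _ ≤ (1 / 2) * (M⁻¹ * ∫ z, ‖pc c z‖ ^ 2 * wd z) := by gcongr
    _ ≤ (1 / 2) * ∫ z, ‖pc c z‖ ^ 2 * ‖F.eval z‖⁻¹ := by gcongr

/-- The polynomial `F(ρ x)`. -/
noncomputable def scale (ρ : ℝ) (F : ℂ[X]) : ℂ[X] := F.comp (C (ρ : ℂ) * X)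

lemma scale_eval (ρ : ℝ) (F : ℂ[X]) (z : ℂ) : (scale ρ F).eval z = F.eval (ρ * z) := by
  rw [scale, eval_comp, eval_mul, eval_C, eval_X]

lemma scale_coeff (ρ : ℝ) (F : ℂ[X]) (j : ℕ) :
    (scale ρ F).coeff j = F.coeff j * (ρ : ℂ) ^ j := by
  rw [scale, comp_C_mul_X_coeff]

lemma scale_natDegree {ρ : ℝ} (hρ : ρ ≠ 0) (F : ℂ[X]) :
    (scale ρ F).natDegree = F.natDegree := by
  rw [scale, natDegree_comp, natDegree_C_mul_X _ (by exact_mod_cast hρ), mul_one]

lemma scale_separable {ρ : ℝ} (hρ : ρ ≠ 0) {F : ℂ[X]} (hF : F.Separable) :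
    (scale ρ F).Separable := by
  rw [separable_def] at hF ⊢
  have h1 := hF.map (compRingHom (C (ρ : ℂ) * X))
  simp only [coe_compRingHom_apply] at h1
  rw [scale, derivative_comp, derivative_C_mul, derivative_X, mul_one]
  have hu : IsUnit (C (ρ : ℂ)) := isUnit_C.mpr (isUnit_iff_ne_zero.mpr (by exact_mod_cast hρ))
  exact (isCoprime_mul_unit_left_right hu _ _).mpr h1

lemma gram_scale {g : ℕ} {ρ : ℝ} (hρ : 0 < ρ) (F : ℂ[X]) :
    gram g F = Matrix.diagonal (fun i : Fin g => (ρ : ℂ) ^ ((i : ℕ) + 1)) * gram g (scale ρ F) *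
      Matrix.diagonal (fun i : Fin g => (ρ : ℂ) ^ ((i : ℕ) + 1)) := by
  ext i j
  rw [Matrix.mul_diagonal, Matrix.diagonal_mul]
  simp only [gram, Matrix.of_apply]
  set f : ℂ → ℂ := fun z => z ^ (i : ℕ) * (conj z) ^ (j : ℕ) / ((‖F.eval z‖ : ℝ) : ℂ) with hf
  have h1 := Measure.integral_comp_smul (volume : Measure ℂ) f ρ
  rw [Complex.finrank_real_complex, abs_of_pos (by positivity)] at h1
  have h2 : ∀ z : ℂ, f (ρ • z) = (ρ : ℂ) ^ ((i : ℕ) + (j : ℕ)) *
      (z ^ (i : ℕ) * (conj z) ^ (j : ℕ) / ((‖(scale ρ F).eval z‖ : ℝ) : ℂ)) := by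
    intro z
    simp only [hf, Complex.real_smul, scale_eval, map_mul, Complex.conj_ofReal]
    rw [mul_pow, mul_pow, pow_add]
    ring
  simp only [h2] at h1
  rw [integral_const_mul] at h1
  have h3 : ∫ z, f z = (ρ : ℂ) ^ 2 * ((ρ : ℂ) ^ ((i : ℕ) + (j : ℕ)) *
      ∫ z : ℂ, z ^ (i : ℕ) * (conj z) ^ (j : ℕ) / ((‖(scale ρ F).eval z‖ : ℝ) : ℂ)) := by
    rw [h1, Complex.real_smul]
    have : (ρ : ℂ) ≠ 0 := by exact_mod_cast hρ.ne'
    push_cast
    field_simp
  rw [h3]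
  ring

lemma prod_pow_succ (g : ℕ) (x : ℝ) :
    (∏ i : Fin g, x ^ ((i : ℕ) + 1)) * (∏ i : Fin g, x ^ ((i : ℕ) + 1)) = x ^ (g * (g + 1)) := by
  rw [Finset.prod_pow_eq_pow_sum, ← pow_add]
  congr 1
  rw [Fin.sum_univ_eq_sum_range (fun i => i + 1) g]
  induction g with
  | zero => simp
  | succ g ih =>
    rw [Finset.sum_range_succ]
    have : ∑ x ∈ Finset.range g, (x + 1) + ∑ x ∈ Finset.range g, (x + 1) = g * (g + 1) := ih
    nlinarith

/-- The lower bound for the determinant, with a disc of radius `ρ`. -/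
theorem gram_det_lower' {g : ℕ} {F : ℂ[X]} (hF : F.Separable) (hdeg : 2 * g < F.natDegree)
    {M ρ : ℝ} (hρ : 0 < ρ) (hM0 : 0 < M) (hM : ∀ z : ℂ, ‖z‖ ≤ 1 → ‖(scale ρ F).eval z‖ ≤ M) :
    (lam0 g / (2 * M)) ^ g * ρ ^ (g * (g + 1)) ≤ ‖(gram g F).det‖ := by
  have h1 := gram_det_lower (g := g) (scale_separable hρ.ne' hF)
    (by rw [scale_natDegree hρ.ne']; exact hdeg) hM0 hM
  rw [gram_scale hρ F, Matrix.det_mul, Matrix.det_mul, Matrix.det_diagonal, norm_mul, norm_mul]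
  have h2 : ‖∏ i : Fin g, (ρ : ℂ) ^ ((i : ℕ) + 1)‖ = ∏ i : Fin g, ρ ^ ((i : ℕ) + 1) := by
    rw [norm_prod]
    refine Finset.prod_congr rfl fun i _ => ?_
    rw [norm_pow, Complex.norm_real, Real.norm_of_nonneg hρ.le]
  rw [h2]
  calc (lam0 g / (2 * M)) ^ g * ρ ^ (g * (g + 1))
      ≤ ‖(gram g (scale ρ F)).det‖ * ρ ^ (g * (g + 1)) := by gcongr
    _ = ‖(gram g (scale ρ F)).det‖ * ((∏ i : Fin g, ρ ^ ((i : ℕ) + 1)) *
          (∏ i : Fin g, ρ ^ ((i : ℕ) + 1))) := by rw [prod_pow_succ]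
    _ = _ := by ring

end FreyAvg
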