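import Pool.Agent.Lib.MP_6babc4_nt.AvgDefs

/-!
# Counting algebraic integers of bounded house
-/

open Polynomial NumberField Module

namespace FreyAvg

variable {K : Type*} [Field K] [NumberField K]

lemma box_mono {H H' : ℝ} (h : H ≤ H') : Box K H ⊆ Box K H' :=
  fun _ ha σ => (ha σ).trans h

lemma box_finite (H : ℝ) : (Box K H).Finite := by
  have h := Embeddings.finite_of_norm_le K ℂ H
  refine Set.Finite.of_finite_image (f := algebraMap (𝓞 K) K) (h.subset ?_)
    (FaithfulSMul.algebraMap_injective (𝓞 K) K).injOn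
  rintro _ ⟨a, ha, rfl⟩
  exact ⟨RingOfIntegers.isIntegral_coe a, fun σ => ha σ⟩

lemma card_embeddings : Fintype.card (K →+* ℂ) = finrank ℚ K := Embeddings.card K ℂ

lemma finrank_pos' : 0 < finrank ℚ K := finrank_pos

lemma house_le_of_box {H : ℝ} {a : 𝓞 K} (ha : a ∈ Box K H) :
    house (algebraMap (𝓞 K) K a) ≤ H := by
  rw [house_eq_sup']
  have : ∀ σ : K →+* ℂ, ‖σ (algebraMap (𝓞 K) K a)‖ ≤ H := ha
  have hne : Finset.univ.Nonempty (α := K →+* ℂ) := Finset.univ_nonempty
  obtain ⟨σ, -, hσ⟩ := Finset.exists_mem_eq_sup' hne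
    (fun φ : K →+* ℂ ↦ ‖φ (algebraMap (𝓞 K) K a)‖₊)
  rw [hσ]
  exact this σ

/-- The number of algebraic integers of house at most `H` is `O(H^d)`. -/
lemma box_card_le : ∃ C : ℝ, 0 < C ∧ ∀ H : ℝ, 1 ≤ H →
    ((Box K H).ncard : ℝ) ≤ C * H ^ finrank ℚ K := by
  classical
  obtain ⟨c, hc⟩ : ∃ c : ℝ, ∀ (α : 𝓞 K) (i : K →+* ℂ),
      ‖(((integralBasis K).reindex (equivReindex K).symm).repr α i : ℂ)‖ ≤
        c * house (algebraMap (𝓞 K) K α) := by
    classical
    exact ⟨_, fun α i => house.basis_repr_norm_le_const_mul_house K α i⟩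
  set c' : ℝ := max c 1 with hc'
  have hc'1 : 1 ≤ c' := le_max_right _ _
  refine ⟨(3 * c') ^ finrank ℚ K, by positivity, ?_⟩
  intro H hH
  -- the integer coordinates
  let b := (RingOfIntegers.basis K).reindex (equivReindex K).symm
  have hb : ∀ (α : 𝓞 K) (i : K →+* ℂ),
      ((b.repr α i : ℤ) : ℂ) = (((integralBasis K).reindex (equivReindex K).symm).repr α i : ℂ) := by
    intro α i
    simp only [b, Basis.repr_reindex_apply, integralBasis_repr_apply]
    norm_cast
  set N : ℤ := ⌊c' * H⌋ with hN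
  have hN0 : 0 ≤ N := Int.floor_nonneg.mpr (by positivity)
  let T : Finset ((K →+* ℂ) → ℤ) := Fintype.piFinset fun _ => Finset.Icc (-N) N
  have hmaps : ∀ a ∈ Box K H, (fun i => b.repr a i) ∈ (T : Set ((K →+* ℂ) → ℤ)) := by
    intro a ha
    simp only [T, Finset.mem_coe, Fintype.mem_piFinset, Finset.mem_Icc]
    intro i
    have h1 : ‖((b.repr a i : ℤ) : ℂ)‖ ≤ c' * H := by
      rw [hb]
      refine (hc a i).trans ?_
      have h2 := house_le_of_box ha
      have h3 : 0 ≤ house (algebraMap (𝓞 K) K a) := house_nonneg _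
      calc c * house (algebraMap (𝓞 K) K a) ≤ c' * house (algebraMap (𝓞 K) K a) := by
            gcongr
            exact le_max_left _ _
        _ ≤ c' * H := by gcongr
    rw [Complex.norm_intCast] at h1
    have h2 : |b.repr a i| ≤ N := by
      rw [hN]
      apply Int.le_floor.mpr
      rw [Int.cast_abs]
      exact h1
    exact abs_le.mp h2
  have hinj : Set.InjOn (fun (a : 𝓞 K) => (fun i => b.repr a i)) (Box K H) := by
    intro a _ a' _ haa
    apply b.repr.injective
    ext i
    exact congrFun haa i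
  have h1 := Set.ncard_le_ncard_of_injOn _ hmaps hinj (Finset.finite_toSet T)
  rw [Set.ncard_coe_finset] at h1
  have h2 : T.card = (2 * N + 1).toNat ^ finrank ℚ K := by
    simp only [T, Fintype.card_piFinset, Int.card_Icc, Finset.prod_const, Finset.card_univ]
    rw [card_embeddings]
    congr 2
    ring
  calc ((Box K H).ncard : ℝ) ≤ (T.card : ℝ) := by exact_mod_cast h1
    _ = (((2 * N + 1).toNat : ℕ) : ℝ) ^ finrank ℚ K := by rw [h2]; push_cast; ring
    _ ≤ (3 * c' * H) ^ finrank ℚ K := by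
        gcongr
        have h3 : (((2 * N + 1).toNat : ℕ) : ℝ) = 2 * (N : ℝ) + 1 := by
          have : (((2 * N + 1).toNat : ℕ) : ℤ) = 2 * N + 1 := Int.toNat_of_nonneg (by omega)
          exact_mod_cast this
        rw [h3]
        have h4 : (N : ℝ) ≤ c' * H := Int.floor_le _
        have h5 : 1 ≤ c' * H := by nlinarith
        linarith
    _ = (3 * c') ^ finrank ℚ K * H ^ finrank ℚ K := by rw [mul_pow]

/-- The number of algebraic integers of house at most `H` is `≫ H^d`. -/
lemma box_card_ge : ∃ c : ℝ, 0 < c ∧ ∀ H : ℝ, 1 ≤ H →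
    c * H ^ finrank ℚ K ≤ ((Box K H).ncard : ℝ) := by
  classical
  let b := (RingOfIntegers.basis K).reindex (equivReindex K).symm
  obtain ⟨M, hM⟩ : ∃ M : ℝ, ∀ (i : K →+* ℂ) (σ : K →+* ℂ),
      ‖σ (algebraMap (𝓞 K) K (b i))‖ ≤ M := by
    refine ⟨∑ i : K →+* ℂ, ∑ σ : K →+* ℂ, ‖σ (algebraMap (𝓞 K) K (b i))‖, fun i σ => ?_⟩
    refine le_trans ?_ (Finset.single_le_sum (f := fun i : K →+* ℂ =>
      ∑ σ : K →+* ℂ, ‖σ (algebraMap (𝓞 K) K (b i))‖) (fun i _ => by positivity)
      (Finset.mem_univ i))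
    exact Finset.single_le_sum (f := fun σ : K →+* ℂ => ‖σ (algebraMap (𝓞 K) K (b i))‖)
      (fun i _ => by positivity) (Finset.mem_univ σ)
  set M' : ℝ := max M 1 with hM'
  have hM'1 : 1 ≤ M' := le_max_right _ _
  have hd : (0 : ℝ) < finrank ℚ K := by exact_mod_cast (finrank_pos' (K := K))
  set D : ℝ := finrank ℚ K * M' with hD
  have hDpos : 0 < D := by positivity
  refine ⟨(1 / D) ^ finrank ℚ K, by positivity, ?_⟩
  intro H hH
  set N : ℤ := ⌊H / D⌋ with hN
  have hN0 : 0 ≤ N := Int.floor_nonneg.mpr (by positivity)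
  let T : Finset ((K →+* ℂ) → ℤ) := Fintype.piFinset fun _ => Finset.Icc 0 N
  have hmaps : ∀ m ∈ (T : Set ((K →+* ℂ) → ℤ)), (∑ i, m i • b i) ∈ Box K H := by
    intro m hm σ
    simp only [T, Finset.mem_coe, Fintype.mem_piFinset, Finset.mem_Icc] at hm
    rw [map_sum, map_sum]
    refine (norm_sum_le _ _).trans ?_
    calc ∑ i, ‖σ (algebraMap (𝓞 K) K (m i • b i))‖ ≤ ∑ _i : K →+* ℂ, (H / D) * M' := by
          refine Finset.sum_le_sum fun i _ => ?_
          rw [zsmul_eq_mul, map_mul, map_mul, map_intCast, map_intCast, norm_mul]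
          refine mul_le_mul ?_ ((hM i σ).trans (le_max_left _ _)) (norm_nonneg _)
            (by positivity)
          rw [Complex.norm_intCast]
          have h1 : (0 : ℝ) ≤ m i := by exact_mod_cast (hm i).1
          rw [abs_of_nonneg h1]
          exact (by exact_mod_cast (hm i).2 : (m i : ℝ) ≤ N).trans (Int.floor_le _)
      _ = H := by
          rw [Finset.sum_const, Finset.card_univ, card_embeddings, nsmul_eq_mul, hD]
          field_simp
  have hinj : Set.InjOn (fun m : (K →+* ℂ) → ℤ => ∑ i, m i • b i) (T : Set _) := by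
    intro m _ m' _ hmm
    have h2 : (b.repr (∑ i, m i • b i) : (K →+* ℂ) → ℤ) = b.repr (∑ i, m' i • b i) :=
      congrArg (fun x => (b.repr x : (K →+* ℂ) → ℤ)) hmm
    rwa [Basis.repr_sum_self, Basis.repr_sum_self] at h2
  have h1 := Set.ncard_le_ncard_of_injOn _ hmaps hinj (box_finite H)
  rw [Set.ncard_coe_finset] at h1
  have h2 : T.card = (N + 1).toNat ^ finrank ℚ K := by
    simp only [T, Fintype.card_piFinset, Int.card_Icc, Finset.prod_const, Finset.card_univ]
    rw [card_embeddings]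
    congr 2
    ring
  calc (1 / D) ^ finrank ℚ K * H ^ finrank ℚ K = (H / D) ^ finrank ℚ K := by
        rw [← mul_pow]; congr 1; ring
    _ ≤ (((N + 1).toNat : ℕ) : ℝ) ^ finrank ℚ K := by
        gcongr
        have h3 : (((N + 1).toNat : ℕ) : ℝ) = (N : ℝ) + 1 := by
          have : (((N + 1).toNat : ℕ) : ℤ) = N + 1 := Int.toNat_of_nonneg (by omega)
          exact_mod_cast this
        rw [h3]
        exact (Int.lt_floor_add_one _).le
    _ = (T.card : ℝ) := by rw [h2]; push_cast; ring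
    _ ≤ ((Box K H).ncard : ℝ) := by exact_mod_cast h1

end FreyAvg
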