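import Pool.Agent.Lib.MP_6babc4_nt.AvgBox

/-!
# Counting generators of bounded house of an ideal
-/

open Polynomial NumberField Module

namespace FreyAvg

variable {K : Type*} [Field K] [NumberField K]

lemma one_le_prod_norm {α : 𝓞 K} (hα : α ≠ 0) :
    1 ≤ ∏ σ : K →+* ℂ, ‖σ (algebraMap (𝓞 K) K α)‖ := by
  have h1 : ((Algebra.norm ℤ α : ℤ) : ℂ) = ∏ σ : K →+* ℂ, σ (algebraMap (𝓞 K) K α) := by
    have h2 := Algebra.norm_eq_prod_embeddings ℚ ℂ (algebraMap (𝓞 K) K α)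
    have h3 : ∏ σ : K →ₐ[ℚ] ℂ, σ (algebraMap (𝓞 K) K α) =
        ∏ σ : K →+* ℂ, σ (algebraMap (𝓞 K) K α) := by
      refine (Fintype.prod_equiv (RingHom.equivRatAlgHom K ℂ) _ _ ?_).symm
      intro σ
      rfl
    rw [← h3, ← h2]
    have h4 : (Algebra.norm ℚ (algebraMap (𝓞 K) K α) : ℚ) = (Algebra.norm ℤ α : ℤ) :=
      (Algebra.coe_norm_int α).symm
    rw [h4]
    simp
  rw [← norm_prod, ← h1, Complex.norm_intCast]
  have h5 : Algebra.norm ℤ α ≠ 0 := Algebra.norm_ne_zero_iff.mpr hα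
  exact_mod_cast Int.one_le_abs h5

omit [NumberField K] in
lemma norm_emb_pos {α : 𝓞 K} (hα : α ≠ 0) (σ : K →+* ℂ) :
    0 < ‖σ (algebraMap (𝓞 K) K α)‖ := by
  rw [norm_pos_iff]
  intro h
  rw [map_eq_zero] at h
  exact hα ((map_eq_zero_iff _ (FaithfulSMul.algebraMap_injective (𝓞 K) K)).mp h)

lemma log_lower {α : 𝓞 K} (hα : α ≠ 0) {Y : ℝ} (hY : 1 ≤ Y) (hb : α ∈ Box K Y)
    (σ : K →+* ℂ) :
    -((finrank ℚ K : ℝ) * Real.log Y) ≤ Real.log ‖σ (algebraMap (𝓞 K) K α)‖ := by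
  classical
  have h0 := one_le_prod_norm hα
  have h1 : 0 ≤ ∑ τ : K →+* ℂ, Real.log ‖τ (algebraMap (𝓞 K) K α)‖ := by
    rw [← Real.log_prod (fun τ _ => (norm_emb_pos hα τ).ne')]
    exact Real.log_nonneg h0
  have h2 : ∑ τ ∈ Finset.univ.erase σ, Real.log ‖τ (algebraMap (𝓞 K) K α)‖ ≤
      ∑ _τ ∈ (Finset.univ.erase σ : Finset (K →+* ℂ)), Real.log Y := by
    refine Finset.sum_le_sum fun τ _ => ?_
    exact Real.log_le_log (norm_emb_pos hα τ) (hb τ)
  have h3 : ∑ _τ ∈ (Finset.univ.erase σ : Finset (K →+* ℂ)), Real.log Y ≤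
      (finrank ℚ K : ℝ) * Real.log Y := by
    rw [Finset.sum_const, nsmul_eq_mul]
    have h4 : (Finset.univ.erase σ : Finset (K →+* ℂ)).card ≤ finrank ℚ K := by
      rw [← card_embeddings]
      exact (Finset.card_le_card (Finset.erase_subset _ _))
    have h5 : 0 ≤ Real.log Y := Real.log_nonneg hY
    gcongr
  have h6 := Finset.add_sum_erase Finset.univ
    (fun τ : K →+* ℂ => Real.log ‖τ (algebraMap (𝓞 K) K α)‖) (Finset.mem_univ σ)
  linarith

/-- A polynomial in `log Y` is at most a constant times `Y ^ ε`. -/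
lemma log_poly_le (A B : ℝ) (hA : 0 ≤ A) (hB : 0 ≤ B) (d : ℕ) (hd : 0 < d) {ε : ℝ}
    (hε : 0 < ε) : ∃ C : ℝ, 0 < C ∧ ∀ Y : ℝ, 1 ≤ Y →
      (A * Real.log Y + B) ^ d ≤ C * Y ^ ε := by
  have hd' : (0 : ℝ) < d := by exact_mod_cast hd
  refine ⟨(A * d / ε + B + 1) ^ d, by positivity, ?_⟩
  intro Y hY
  have hY0 : 0 < Y := by linarith
  have hL : 0 ≤ Real.log Y := Real.log_nonneg hY
  have h1 : (ε / d) * Real.log Y ≤ Real.exp ((ε / d) * Real.log Y) :=
    (by linarith [Real.add_one_le_exp ((ε / d) * Real.log Y)])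
  have h2 : 1 ≤ Real.exp ((ε / d) * Real.log Y) := Real.one_le_exp (by positivity)
  set E := Real.exp ((ε / d) * Real.log Y) with hE
  have h3 : A * Real.log Y + B ≤ (A * d / ε + B + 1) * E := by
    have h4 : A * Real.log Y = (A * d / ε) * ((ε / d) * Real.log Y) := by
      field_simp
    have h5 : A * Real.log Y ≤ (A * d / ε) * E := by
      rw [h4]
      have : 0 ≤ A * d / ε := by positivity
      exact mul_le_mul_of_nonneg_left h1 this
    nlinarith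
  have h6 : E ^ d = Y ^ ε := by
    rw [hE, ← Real.exp_nat_mul, Real.rpow_def_of_pos hY0]
    congr 1
    field_simp
  calc (A * Real.log Y + B) ^ d ≤ ((A * d / ε + B + 1) * E) ^ d :=
        pow_le_pow_left₀ (by positivity) h3 d
    _ = (A * d / ε + B + 1) ^ d * Y ^ ε := by rw [mul_pow, h6]

/-- The number of generators of an ideal, of house at most `Y`, is `O(Y ^ ε)`, uniformly in the
ideal. -/
theorem gen_count {ε : ℝ} (hε : 0 < ε) : ∃ C : ℝ, 0 < C ∧ ∀ Y : ℝ, 1 ≤ Y →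
    ∀ I : Ideal (𝓞 K),
      (({α : 𝓞 K | α ≠ 0 ∧ Ideal.span {α} = I ∧ α ∈ Box K Y}).ncard : ℝ) ≤ C * Y ^ ε := by
  classical
  set d := finrank ℚ K with hd
  have hd0 : 0 < d := finrank_pos' (K := K)
  obtain ⟨C, hC0, hC⟩ := log_poly_le ((d : ℝ) + 1) 2 (by positivity) (by norm_num) d hd0 hε
  set M := (Box K (Real.exp 1)).ncard with hM
  refine ⟨(M + 1) * C, by positivity, ?_⟩
  intro Y hY I
  set S := {α : 𝓞 K | α ≠ 0 ∧ Ideal.span {α} = I ∧ α ∈ Box K Y} with hS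
  have hSfin : S.Finite := (box_finite Y).subset fun α h => h.2.2
  set L := Real.log Y with hL
  have hL0 : 0 ≤ L := Real.log_nonneg hY
  let cell : 𝓞 K → ((K →+* ℂ) → ℤ) := fun α σ => ⌊Real.log ‖σ (algebraMap (𝓞 K) K α)‖⌋
  let T : Finset ((K →+* ℂ) → ℤ) :=
    Fintype.piFinset fun _ => Finset.Icc ⌊-((d : ℝ) * L)⌋ ⌊L⌋
  have himg : hSfin.toFinset.image cell ⊆ T := by
    intro c hc
    obtain ⟨α, hα, rfl⟩ := Finset.mem_image.mp hc
    rw [Set.Finite.mem_toFinset] at hα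
    simp only [T, Fintype.mem_piFinset, Finset.mem_Icc]
    intro σ
    refine ⟨Int.floor_le_floor (log_lower hα.1 hY hα.2.2 σ), Int.floor_le_floor ?_⟩
    exact Real.log_le_log (norm_emb_pos hα.1 σ) (hα.2.2 σ)
  have hfib : ∀ c ∈ hSfin.toFinset.image cell,
      (hSfin.toFinset.filter (fun α => cell α = c)).card ≤ M + 1 := by
    intro c hc
    obtain ⟨α₀, hα₀, rfl⟩ := Finset.mem_image.mp hc
    rw [Set.Finite.mem_toFinset] at hα₀
    -- every element of the fibre is `u * α₀` with `u` in a fixed box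
    have hex : ∀ α ∈ hSfin.toFinset.filter (fun α => cell α = cell α₀),
        ∃ u ∈ Box K (Real.exp 1), α = u * α₀ := by
      intro α hα
      rw [Finset.mem_filter, Set.Finite.mem_toFinset] at hα
      obtain ⟨hα1, hα2⟩ := hα
      have hspan : Ideal.span {α} ≤ Ideal.span {α₀} := by
        rw [hα1.2.1, hα₀.2.1]
      rw [Ideal.span_singleton_le_span_singleton] at hspan
      obtain ⟨u, hu⟩ := hspan
      refine ⟨u, ?_, by rw [hu, mul_comm]⟩
      intro σ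
      have h1 : σ (algebraMap (𝓞 K) K α) =
          σ (algebraMap (𝓞 K) K α₀) * σ (algebraMap (𝓞 K) K u) := by
        rw [hu, map_mul, map_mul]
      have hp0 := norm_emb_pos hα₀.1 σ
      have hp := norm_emb_pos hα1.1 σ
      have h2 : ‖σ (algebraMap (𝓞 K) K u)‖ =
          ‖σ (algebraMap (𝓞 K) K α)‖ / ‖σ (algebraMap (𝓞 K) K α₀)‖ := by
        rw [h1, norm_mul]
        field_simp
      rw [h2, div_le_iff₀ hp0]
      have h3 : ⌊Real.log ‖σ (algebraMap (𝓞 K) K α)‖⌋ =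
          ⌊Real.log ‖σ (algebraMap (𝓞 K) K α₀)‖⌋ := congrFun hα2 σ
      have h4 := Int.abs_sub_lt_one_of_floor_eq_floor h3
      have h5 : Real.log ‖σ (algebraMap (𝓞 K) K α)‖ ≤
          1 + Real.log ‖σ (algebraMap (𝓞 K) K α₀)‖ := by
        have := (abs_lt.mp h4).2
        linarith
      calc ‖σ (algebraMap (𝓞 K) K α)‖ = Real.exp (Real.log ‖σ (algebraMap (𝓞 K) K α)‖) :=
            (Real.exp_log hp).symm
        _ ≤ Real.exp (1 + Real.log ‖σ (algebraMap (𝓞 K) K α₀)‖) := Real.exp_le_exp.mpr h5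
        _ = Real.exp 1 * ‖σ (algebraMap (𝓞 K) K α₀)‖ := by
            rw [Real.exp_add, Real.exp_log hp0]
    have hbf := box_finite (K := K) (Real.exp 1)
    have hsub : hSfin.toFinset.filter (fun α => cell α = cell α₀) ⊆
        hbf.toFinset.image (fun u => u * α₀) := by
      intro α hα
      obtain ⟨u, hu, rfl⟩ := hex α hα
      exact Finset.mem_image.mpr ⟨u, hbf.mem_toFinset.mpr hu, rfl⟩
    refine (Finset.card_le_card hsub).trans (Finset.card_image_le.trans ?_)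
    rw [← Set.ncard_eq_toFinset_card _ hbf]
    omega
  have h1 := Finset.card_le_mul_card_image hSfin.toFinset (M + 1) hfib
  rw [← Set.ncard_eq_toFinset_card _ hSfin] at h1
  have h2 := Finset.card_le_card himg
  have h3 : T.card = (⌊L⌋ + 1 - ⌊-((d : ℝ) * L)⌋).toNat ^ d := by
    simp only [T, Fintype.card_piFinset, Int.card_Icc, Finset.prod_const, Finset.card_univ]
    rw [card_embeddings]
  have h4 : ((⌊L⌋ + 1 - ⌊-((d : ℝ) * L)⌋).toNat : ℝ) ≤ ((d : ℝ) + 1) * L + 2 := by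
    have hnn : 0 ≤ ⌊L⌋ + 1 - ⌊-((d : ℝ) * L)⌋ := by
      have : ⌊-((d : ℝ) * L)⌋ ≤ ⌊L⌋ := Int.floor_le_floor (by nlinarith [Nat.cast_nonneg (α := ℝ) d])
      omega
    have h5 : ((⌊L⌋ + 1 - ⌊-((d : ℝ) * L)⌋).toNat : ℝ) = (⌊L⌋ : ℝ) + 1 - ⌊-((d : ℝ) * L)⌋ := by
      have : (((⌊L⌋ + 1 - ⌊-((d : ℝ) * L)⌋).toNat : ℕ) : ℤ) = ⌊L⌋ + 1 - ⌊-((d : ℝ) * L)⌋ :=
        Int.toNat_of_nonneg hnn
      exact_mod_cast this
    rw [h5]
    have h6 := Int.floor_le L
    have h7 := Int.lt_floor_add_one (-((d : ℝ) * L))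
    nlinarith
  calc (S.ncard : ℝ) ≤ ((M + 1 : ℕ) : ℝ) * ((hSfin.toFinset.image cell).card : ℝ) := by
        exact_mod_cast h1
    _ ≤ ((M + 1 : ℕ) : ℝ) * (T.card : ℝ) := by gcongr
    _ = ((M : ℝ) + 1) * ((⌊L⌋ + 1 - ⌊-((d : ℝ) * L)⌋).toNat : ℝ) ^ d := by
        rw [h3]; push_cast; ring
    _ ≤ ((M : ℝ) + 1) * (((d : ℝ) + 1) * L + 2) ^ d := by gcongr
    _ ≤ ((M : ℝ) + 1) * (C * Y ^ ε) := by gcongr; exact hC Y hY
    _ = (M + 1) * C * Y ^ ε := by ring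

end FreyAvg
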