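import Pool.Agent.Lib.MP_6babc4_nt.AvgNodal
import Pool.Agent.Lib.MP_6babc4_nt.AvgGen

/-!
# Counting the constant terms with small nodal conductor
-/

open Polynomial NumberField Module UniqueFactorizationMonoid IsDedekindDomain
open scoped Classical

namespace FreyAvg

variable {K : Type*} [Field K] [NumberField K]

/-- The polynomial obtained through a complex embedding. -/
noncomputable def emb (σ : K →+* ℂ) : 𝓞 K →+* ℂ := σ.comp (algebraMap (𝓞 K) K)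

omit [NumberField K] in
lemma emb_injective (σ : K →+* ℂ) : Function.Injective (emb σ) :=
  σ.injective.comp (FaithfulSMul.algebraMap_injective (𝓞 K) K)

lemma absNorm_le_of_box {α : 𝓞 K} {Y : ℝ} (hα : α ∈ Box K Y) :
    ((Ideal.absNorm (Ideal.span {α}) : ℕ) : ℝ) ≤ Y ^ finrank ℚ K := by
  rw [Ideal.absNorm_span_singleton]
  have h1 : ((Algebra.norm ℤ α : ℤ) : ℂ) = ∏ σ : K →+* ℂ, σ (algebraMap (𝓞 K) K α) := by
    have h2 := Algebra.norm_eq_prod_embeddings ℚ ℂ (algebraMap (𝓞 K) K α)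
    have h3 : ∏ σ : K →ₐ[ℚ] ℂ, σ (algebraMap (𝓞 K) K α) =
        ∏ σ : K →+* ℂ, σ (algebraMap (𝓞 K) K α) := by
      refine (Fintype.prod_equiv (RingHom.equivRatAlgHom K ℂ) _ _ ?_).symm
      intro σ
      rfl
    rw [← h3, ← h2]
    have h4 : (Algebra.norm ℚ (algebraMap (𝓞 K) K α) : ℚ) = (Algebra.norm ℤ α : ℤ) :=
      (Algebra.coe_norm_int α).symm
    rw [h4]
    simp
  have h5 : (((Algebra.norm ℤ α).natAbs : ℕ) : ℝ) = ‖((Algebra.norm ℤ α : ℤ) : ℂ)‖ := by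
    rw [Complex.norm_intCast, Nat.cast_natAbs, Int.cast_abs]
  rw [h5, h1, norm_prod, ← card_embeddings (K := K), ← Finset.card_univ, ← Finset.prod_const]
  exact Finset.prod_le_prod (fun _ _ => norm_nonneg _) fun σ _ => hα σ

/-- The conjugates of the resultant are bounded. -/
lemma dres_mem_box {f : (𝓞 K)[X]} {m : ℕ} {M : ℝ} (hM0 : 0 ≤ M)
    (hM : ∀ i, f.coeff i ∈ Box K M) :
    dres m f ∈ Box K ((Nat.factorial (m - 1 + m) : ℝ) * (m * M) ^ (m - 1 + m)) := by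
  intro σ
  change ‖emb σ (dres m f)‖ ≤ _
  rw [← dres_map]
  refine norm_dres_le hM0 fun i => ?_
  rw [coeff_map]
  exact hM i σ

lemma box_zero_mem {H : ℝ} (hH : 0 ≤ H) : (0 : 𝓞 K) ∈ Box K H := by
  intro σ
  simpa using hH

lemma box_add_mem {H H' : ℝ} {a b : 𝓞 K} (ha : a ∈ Box K H) (hb : b ∈ Box K H') :
    a + b ∈ Box K (H + H') := by
  intro σ
  rw [map_add, map_add]
  exact (norm_add_le _ _).trans (add_le_add (ha σ) (hb σ))

lemma box_mul_mem {H H' : ℝ} {a b : 𝓞 K} (ha : a ∈ Box K H) (hb : b ∈ Box K H') :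
    a * b ∈ Box K (H * H') := by
  intro σ
  rw [map_mul, map_mul, norm_mul]
  exact mul_le_mul (ha σ) (hb σ) (norm_nonneg _) ((norm_nonneg _).trans (ha σ))

lemma box_natCast_mem (n : ℕ) : (n : 𝓞 K) ∈ Box K n := by
  intro σ
  rw [map_natCast, map_natCast, Complex.norm_natCast]

lemma coeff_add_mem {P : (𝓞 K)[X]} {H : ℝ} (hH : 0 ≤ H) (hP : ∀ i, P.coeff i ∈ Box K H)
    {t : 𝓞 K} (ht : t ∈ Box K H) (i : ℕ) : (C t + P).coeff i ∈ Box K (2 * H) := by
  rw [coeff_add, coeff_C]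
  split_ifs with h
  · rw [two_mul]; exact box_add_mem ht (hP i)
  · rw [two_mul]; exact box_add_mem (box_zero_mem hH) (hP i)

lemma coeff_derivative_mem {P : (𝓞 K)[X]} {n : ℕ} {H : ℝ} (hH : 0 ≤ H)
    (hdeg : P.natDegree ≤ n) (hP : ∀ i, P.coeff i ∈ Box K H) (i : ℕ) :
    (derivative P).coeff i ∈ Box K (n * H) := by
  rw [coeff_derivative]
  by_cases hi : i + 1 ≤ n
  · have h1 : (i : 𝓞 K) + 1 = ((i + 1 : ℕ) : 𝓞 K) := by push_cast; ring
    rw [h1, mul_comm (P.coeff (i + 1))]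
    refine box_mono ?_ (box_mul_mem (box_natCast_mem (i + 1)) (hP (i + 1)))
    have : ((i + 1 : ℕ) : ℝ) ≤ n := by exact_mod_cast hi
    gcongr
  · rw [coeff_eq_zero_of_natDegree_lt (by omega), zero_mul]
    exact box_zero_mem (by positivity)

/-- The main counting statement: for all but few constant terms the nodal conductor is large. -/
theorem nodal_count {n : ℕ} (hn : 3 ≤ n) {ε : ℝ} (hε : 0 < ε) :
    ∃ A : ℝ, 0 < A ∧ ∀ H : ℝ, 1 ≤ H → ∀ P : (𝓞 K)[X], P.natDegree = n →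
      (∀ i, P.coeff i ∈ Box K H) → dres (n - 1) (derivative P) ≠ 0 →
      ∀ R : ℝ, 1 ≤ R → ∀ S : Finset (𝓞 K),
      (∀ t ∈ S, t ∈ Box K H ∧ dres n (C t + P) ≠ 0 ∧
        ((nodalConductor (C t + P) : ℕ) : ℝ) ≤ R) →
      (S.card : ℝ) ≤ A * R * H ^ ε := by
  set d := finrank ℚ K with hd
  have hd0 : 0 < d := finrank_pos' (K := K)
  have hd1 : (1 : ℝ) ≤ d := by exact_mod_cast hd0
  have hn1 : (3 : ℝ) ≤ n := by exact_mod_cast hn
  -- the constants
  set A₁ : ℝ := (Nat.factorial (n - 1 + n) : ℝ) * (n * 2) ^ (n - 1 + n) with hA₁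
  set A₂ : ℝ := 2 * n * ((Nat.factorial (n - 1 - 1 + (n - 1)) : ℝ) *
    (((n - 1 : ℕ) : ℝ) * n) ^ (n - 1 - 1 + (n - 1))) with hA₂
  have hA₁pos : 1 ≤ A₁ := by
    have h1 : (1 : ℝ) ≤ (Nat.factorial (n - 1 + n) : ℝ) := by
      exact_mod_cast Nat.factorial_pos _
    have h2 : (1 : ℝ) ≤ ((n : ℝ) * 2) ^ (n - 1 + n) := one_le_pow₀ (by linarith)
    calc (1 : ℝ) = 1 * 1 := by ring
      _ ≤ A₁ := by rw [hA₁]; gcongr
  have hn2 : (1 : ℝ) ≤ ((n - 1 : ℕ) : ℝ) := by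
    have : 1 ≤ n - 1 := by omega
    exact_mod_cast this
  have hA₂pos : 1 ≤ A₂ := by
    have h1 : (1 : ℝ) ≤ (Nat.factorial (n - 1 - 1 + (n - 1)) : ℝ) := by
      exact_mod_cast Nat.factorial_pos _
    have h2 : (1 : ℝ) ≤ (((n - 1 : ℕ) : ℝ) * n) ^ (n - 1 - 1 + (n - 1)) :=
      one_le_pow₀ (by nlinarith)
    calc (1 : ℝ) = 1 * (1 * 1) := by ring
      _ ≤ A₂ := by rw [hA₂]; gcongr; linarith
  set δ : ℝ := ε / (2 * n * (2 * d + 1)) with hδ
  have hδ0 : 0 < δ := by positivity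
  obtain ⟨C₂, hC₂, hgen⟩ := gen_count (K := K) hδ0
  obtain ⟨C₃, hC₃, hid⟩ := ideal_count (K := K) hδ0
  refine ⟨(n - 1 : ℕ) * (C₂ * A₁ ^ δ) * (C₃ * (A₂ ^ d) ^ δ * (A₁ ^ d) ^ δ), by positivity, ?_⟩
  intro H hH P hPdeg hP hQ R hR S hS
  have hH0 : 0 < H := by linarith
  set Y : ℝ := A₁ * H ^ (2 * n - 1) with hY
  have hY1 : 1 ≤ Y := by
    have : (1 : ℝ) ≤ H ^ (2 * n - 1) := one_le_pow₀ hH
    nlinarith
  -- the resultant is in the box `Y`
  have hEbox : ∀ t ∈ S, dres n (C t + P) ∈ Box K Y := by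
    intro t ht
    have h1 := dres_mem_box (m := n) (f := C t + P) (M := 2 * H) (by positivity)
      (fun i => coeff_add_mem hH0.le hP (hS t ht).1 i)
    have h2 : (Nat.factorial (n - 1 + n) : ℝ) * (n * (2 * H)) ^ (n - 1 + n) = Y := by
      rw [hY, hA₁, show 2 * n - 1 = n - 1 + n by omega, ← mul_assoc, mul_pow, mul_assoc]
    rwa [h2] at h1
  -- the ideal `J`
  set Jel : 𝓞 K := 2 * (n : 𝓞 K) * P.leadingCoeff * dres (n - 1) (derivative P) with hJel
  have hlc : P.leadingCoeff ≠ 0 := by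
    rw [Ne, leadingCoeff_eq_zero]
    rintro rfl
    simp at hPdeg
    omega
  have hJ0 : Jel ≠ 0 := by
    rw [hJel]
    refine mul_ne_zero (mul_ne_zero (mul_ne_zero two_ne_zero ?_) hlc) hQ
    exact_mod_cast (by omega : n ≠ 0)
  have hJbox : Jel ∈ Box K (A₂ * H ^ (2 * n - 2)) := by
    have h1 : P.leadingCoeff ∈ Box K H := hP _
    have h2 := dres_mem_box (m := n - 1) (f := derivative P) (M := n * H) (by positivity)
      (fun i => coeff_derivative_mem hH0.le hPdeg.le hP i)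
    have h3 : (2 : 𝓞 K) ∈ Box K ((2 : ℕ) : ℝ) := by
      have := box_natCast_mem (K := K) 2
      simpa using this
    have h4 := box_mul_mem (box_mul_mem (box_mul_mem h3 (box_natCast_mem (K := K) n)) h1) h2
    have h5 : ((2 : ℕ) : ℝ) * n * H * ((Nat.factorial (n - 1 - 1 + (n - 1)) : ℝ) *
        (((n - 1 : ℕ) : ℝ) * (n * H)) ^ (n - 1 - 1 + (n - 1))) = A₂ * H ^ (2 * n - 2) := by
      rw [hA₂, show 2 * n - 2 = (n - 1 - 1 + (n - 1)) + 1 by omega, pow_succ, ← mul_assoc _ _ H,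
        mul_pow (((n - 1 : ℕ) : ℝ) * n)]
      push_cast
      ring
    rwa [h5] at h4
  have hJnorm := absNorm_le_of_box hJbox
  -- the leading coefficient and the derivative do not depend on `t`
  have hdeg : ∀ t, (C t + P).natDegree = n := by
    intro t
    rw [natDegree_C_add, hPdeg]
  have hlcC : ∀ t, (C t + P).leadingCoeff = P.leadingCoeff := by
    intro t
    rw [leadingCoeff, hdeg t, coeff_add, coeff_C, if_neg (by omega), zero_add, leadingCoeff, hPdeg]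
  have hder : ∀ t, derivative (C t + P) = derivative P := by
    intro t
    rw [derivative_add, derivative_C, zero_add]
  -- the maps
  let E : 𝓞 K → 𝓞 K := fun t => dres n (C t + P)
  have σ₀ : K →+* ℂ := Classical.arbitrary _
  have hfib1 : ∀ e ∈ S.image E, (S.filter (fun t => E t = e)).card ≤ n - 1 := by
    intro e _
    have h := dres_values (emb σ₀) (emb_injective σ₀) (G := P) (m := n) (by omega) hPdeg e
    have h1 : ((S.filter (fun t => E t = e) : Finset (𝓞 K)) : Set (𝓞 K)) ⊆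
        {t | dres n (C t + P) = e} := by
      intro t ht
      exact (Finset.mem_filter.mp ht).2
    have h2 := Set.ncard_le_ncard h1 h.1
    rw [Set.ncard_coe_finset] at h2
    exact h2.trans h.2
  have hcard1 := Finset.card_le_mul_card_image S (n - 1) hfib1
  set SE := S.image E with hSE
  let F : 𝓞 K → Ideal (𝓞 K) := fun e => Ideal.span {e}
  have hSEmem : ∀ e ∈ SE, e ≠ 0 ∧ e ∈ Box K Y := by
    intro e he
    obtain ⟨t, ht, rfl⟩ := Finset.mem_image.mp he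
    exact ⟨(hS t ht).2.1, hEbox t ht⟩
  have hfib2 : ∀ I ∈ SE.image F, ((SE.filter (fun e => F e = I)).card : ℝ) ≤ C₂ * Y ^ δ := by
    intro I _
    have h := hgen Y hY1 I
    refine le_trans ?_ h
    have h1 : ((SE.filter (fun e => F e = I) : Finset (𝓞 K)) : Set (𝓞 K)) ⊆
        {α : 𝓞 K | α ≠ 0 ∧ Ideal.span {α} = I ∧ α ∈ Box K Y} := by
      intro e he
      obtain ⟨he1, he2⟩ := Finset.mem_filter.mp he
      exact ⟨(hSEmem e he1).1, he2, (hSEmem e he1).2⟩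
    have h2 := Set.ncard_le_ncard h1 ((box_finite Y).subset fun α h => h.2.2)
    rw [Set.ncard_coe_finset] at h2
    exact_mod_cast h2
  have hcard2 : (SE.card : ℝ) ≤ ((SE.image F).card : ℝ) * (C₂ * Y ^ δ) := by
    have h := Finset.card_eq_sum_card_image F SE
    calc (SE.card : ℝ) = ∑ I ∈ SE.image F, ((SE.filter (fun e => F e = I)).card : ℝ) := by
          exact_mod_cast h
      _ ≤ ∑ _I ∈ SE.image F, C₂ * Y ^ δ := Finset.sum_le_sum hfib2
      _ = ((SE.image F).card : ℝ) * (C₂ * Y ^ δ) := by rw [Finset.sum_const, nsmul_eq_mul]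
  have hYd1 : 1 ≤ Y ^ d := one_le_pow₀ hY1
  have hcard3 := hid (Y ^ d) hYd1 R hR (Ideal.span {Jel})
    (by rwa [Ne, Ideal.zero_eq_bot, Ideal.span_singleton_eq_bot]) (SE.image F) (by
      intro I hI
      obtain ⟨e, he, rfl⟩ := Finset.mem_image.mp hI
      refine ⟨?_, absNorm_le_of_box (hSEmem e he).2, ?_⟩
      · rw [Ne, Ideal.zero_eq_bot, Ideal.span_singleton_eq_bot]
        exact (hSEmem e he).1
      · obtain ⟨t, ht, rfl⟩ := Finset.mem_image.mp he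
        have h := prod_le_nodalConductor hn (hdeg t) (hS t ht).2.1 (by
          rw [hlcC, hder]; exact hJ0)
        rw [hlcC, hder] at h
        refine le_trans ?_ (hS t ht).2.2
        rw [← Nat.cast_prod]
        exact Nat.cast_le.mpr h)
  -- the exponents
  have hY' : Y ^ δ = A₁ ^ δ * H ^ ((2 * n - 1 : ℕ) * δ) := by
    rw [hY, Real.mul_rpow (by positivity) (by positivity), ← Real.rpow_natCast H,
      ← Real.rpow_mul hH0.le]
  have hYd : (Y ^ d) ^ δ = (A₁ ^ d) ^ δ * H ^ (((2 * n - 1 : ℕ) * d : ℕ) * δ) := by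
    rw [hY, mul_pow, ← pow_mul, Real.mul_rpow (by positivity) (by positivity),
      ← Real.rpow_natCast H, ← Real.rpow_mul hH0.le]
  have hJn : ((Ideal.absNorm (Ideal.span {Jel}) : ℕ) : ℝ) ^ δ ≤
      (A₂ ^ d) ^ δ * H ^ (((2 * n - 2 : ℕ) * d : ℕ) * δ) := by
    refine (Real.rpow_le_rpow (by positivity) hJnorm hδ0.le).trans (le_of_eq ?_)
    rw [mul_pow, ← pow_mul, Real.mul_rpow (by positivity) (by positivity),
      ← Real.rpow_natCast H, ← Real.rpow_mul hH0.le]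
  have hexp : H ^ ((2 * n - 1 : ℕ) * δ) * (H ^ (((2 * n - 2 : ℕ) * d : ℕ) * δ) *
      H ^ (((2 * n - 1 : ℕ) * d : ℕ) * δ)) ≤ H ^ ε := by
    rw [← Real.rpow_add hH0, ← Real.rpow_add hH0]
    apply Real.rpow_le_rpow_of_exponent_le hH
    have h1 : ((2 * n - 1 : ℕ) : ℝ) ≤ 2 * n := by
      have : 2 * n - 1 ≤ 2 * n := by omega
      exact_mod_cast this
    have h2 : ((2 * n - 2 : ℕ) : ℝ) ≤ 2 * n := by
      have : 2 * n - 2 ≤ 2 * n := by omega
      exact_mod_cast this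
    have h3 : ε = (2 * n * (2 * d + 1)) * δ := by
      rw [hδ]
      field_simp
    rw [h3, ← add_mul, ← add_mul]
    apply mul_le_mul_of_nonneg_right _ hδ0.le
    push_cast
    have hdd : (0 : ℝ) ≤ d := by positivity
    nlinarith [mul_le_mul_of_nonneg_right h1 hdd, mul_le_mul_of_nonneg_right h2 hdd]
  calc (S.card : ℝ) ≤ ((n - 1 : ℕ) : ℝ) * (SE.card : ℝ) := by exact_mod_cast hcard1
    _ ≤ ((n - 1 : ℕ) : ℝ) * (((SE.image F).card : ℝ) * (C₂ * Y ^ δ)) := by gcongr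
    _ ≤ ((n - 1 : ℕ) : ℝ) * ((C₃ * ((Ideal.absNorm (Ideal.span {Jel}) : ℕ) : ℝ) ^ δ * R *
          (Y ^ d) ^ δ) * (C₂ * Y ^ δ)) := by gcongr
    _ ≤ ((n - 1 : ℕ) : ℝ) * ((C₃ * ((A₂ ^ d) ^ δ * H ^ (((2 * n - 2 : ℕ) * d : ℕ) * δ)) * R *
          ((A₁ ^ d) ^ δ * H ^ (((2 * n - 1 : ℕ) * d : ℕ) * δ))) *
          (C₂ * (A₁ ^ δ * H ^ ((2 * n - 1 : ℕ) * δ)))) := by
        rw [hYd, hY']
        gcongr
    _ = (n - 1 : ℕ) * (C₂ * A₁ ^ δ) * (C₃ * (A₂ ^ d) ^ δ * (A₁ ^ d) ^ δ) * R *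
          (H ^ ((2 * n - 1 : ℕ) * δ) * (H ^ (((2 * n - 2 : ℕ) * d : ℕ) * δ) *
            H ^ (((2 * n - 1 : ℕ) * d : ℕ) * δ))) := by ring
    _ ≤ (n - 1 : ℕ) * (C₂ * A₁ ^ δ) * (C₃ * (A₂ ^ d) ^ δ * (A₁ ^ d) ^ δ) * R * H ^ ε := by
        refine mul_le_mul_of_nonneg_left hexp ?_
        positivity

end FreyAvg
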