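import Mathlib

/-!
# Frey's inequality for almost all hyperelliptic Jacobians: definitions

For a number field `K` and a polynomial `f` of degree `n ≥ 3` over the ring of integers, the
hyperelliptic curve `y² = f(x)` has genus `g = (n - 1) / 2` (integer division).
-/

open Polynomial NumberField MeasureTheory IsDedekindDomain
open scoped ComplexConjugate

namespace FreyAvg

/-- The `g × g` Gram matrix of the differential forms `ω_i = x^i dx / (2y)` (`0 ≤ i < g`) on the
curve `y² = F(x)` over `ℂ`: the entry `(i/2) ∫ ω_i ∧ conj ω_j` is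
`(1/2) ∫_ℂ z^i conj(z)^j / |F(z)| d²z`, because the curve is a double cover of the `x`-line. -/
noncomputable def gram (g : ℕ) (F : ℂ[X]) : Matrix (Fin g) (Fin g) ℂ :=
  Matrix.of fun i j =>
    (1 / 2 : ℂ) * ∫ z : ℂ, z ^ (i : ℕ) * (conj z) ^ (j : ℕ) / ((‖F.eval z‖ : ℝ) : ℂ)

variable {K : Type*} [Field K] [NumberField K]

/-- The height of `f` (with `g` forms): minus `1 / (2 [K : ℚ])` times the sum over all the
complex embeddings `σ` of `log |det G(σ f)|`, with `G` the Gram matrix of the forms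
`x^i dx / (2y)`. -/
noncomputable def height (g : ℕ) (f : (𝓞 K)[X]) : ℝ :=
  -(1 / (2 * (Module.finrank ℚ K : ℝ))) *
    ∑ σ : K →+* ℂ, Real.log ‖(gram g (f.map (σ.comp (algebraMap (𝓞 K) K)))).det‖

/-- A finite place `v` is *nodal* for `f` if it does not divide `2`, nor the leading coefficient
of `f`, and `f` modulo `v` has a root of multiplicity exactly two (in an algebraic closure):
some irreducible polynomial `q` over the residue field divides `f` modulo `v` exactly twice. -/
def Nodal (f : (𝓞 K)[X]) (v : HeightOneSpectrum (𝓞 K)) : Prop :=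
  (2 : 𝓞 K) ∉ v.asIdeal ∧ f.leadingCoeff ∉ v.asIdeal ∧
    ∃ q : (𝓞 K ⧸ v.asIdeal)[X], Irreducible q ∧
      q ^ 2 ∣ f.map (Ideal.Quotient.mk v.asIdeal) ∧
      ¬ q ^ 3 ∣ f.map (Ideal.Quotient.mk v.asIdeal)

/-- The product of the norms of the nodal places of `f`. -/
noncomputable def nodalConductor (f : (𝓞 K)[X]) : ℕ :=
  ∏ᶠ (v : HeightOneSpectrum (𝓞 K)) (_ : Nodal f v), Ideal.absNorm v.asIdeal

/-- The elements of the ring of integers all of whose conjugates have absolute value at most
`H`. -/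
def Box (K : Type*) [Field K] [NumberField K] (H : ℝ) : Set (𝓞 K) :=
  {a | ∀ σ : K →+* ℂ, ‖σ (algebraMap (𝓞 K) K a)‖ ≤ H}

/-- The polynomial `a_0 + a_1 x + ... + a_n x^n`. -/
noncomputable def poly {n : ℕ} (a : Fin (n + 1) → 𝓞 K) : (𝓞 K)[X] :=
  ∑ i : Fin (n + 1), C (a i) * X ^ (i : ℕ)

end FreyAvg
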