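import Pool.Agent.Lib.MP_6babc4_nt.AvgHeight

/-!
# Summation over the boxes
-/

open Polynomial NumberField Module Filter
open scoped Classical

namespace FreyAvg

variable {K : Type*} [Field K] [NumberField K]

/-- The polynomial `∑ u_i x^(i+m)`. -/
noncomputable def shiftPoly (m : ℕ) {n : ℕ} (u : Fin n → 𝓞 K) : (𝓞 K)[X] :=
  ∑ i : Fin n, C (u i) * X ^ ((i : ℕ) + m)

omit [NumberField K] in
lemma coeff_shiftPoly (m : ℕ) {n : ℕ} (u : Fin n → 𝓞 K) (j : ℕ) :
    (shiftPoly m u).coeff j = ∑ i : Fin n, if j = (i : ℕ) + m then u i else 0 := by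
  simp only [shiftPoly, finsetSum_coeff, coeff_C_mul, coeff_X_pow, mul_ite, mul_one, mul_zero]

lemma coeff_shiftPoly_mem {H : ℝ} (hH : 0 ≤ H) (m : ℕ) {n : ℕ} {u : Fin n → 𝓞 K}
    (hu : ∀ i, u i ∈ Box K H) (j : ℕ) : (shiftPoly m u).coeff j ∈ Box K H := by
  rw [coeff_shiftPoly]
  by_cases h : ∃ i : Fin n, j = (i : ℕ) + m
  · obtain ⟨i, hi⟩ := h
    rw [Finset.sum_eq_single i]
    · rw [if_pos hi]; exact hu i
    · intro i' _ hi'
      rw [if_neg]
      intro h'
      apply hi'
      ext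
      omega
    · intro h'
      exact absurd (Finset.mem_univ i) h'
  · push Not at h
    rw [Finset.sum_eq_zero]
    · exact box_zero_mem hH
    · intro i _
      rw [if_neg (h i)]

omit [NumberField K] in
lemma natDegree_shiftPoly (m : ℕ) {k : ℕ} {u : Fin (k + 1) → 𝓞 K} (hu : u (Fin.last k) ≠ 0) :
    (shiftPoly m u).natDegree = k + m := by
  refine natDegree_eq_of_le_of_coeff_ne_zero ?_ ?_
  · rw [natDegree_le_iff_coeff_eq_zero]
    intro j hj
    rw [coeff_shiftPoly, Finset.sum_eq_zero]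
    intro i _
    rw [if_neg]
    have := i.2
    omega
  · rw [coeff_shiftPoly, Finset.sum_eq_single (Fin.last k)]
    · rw [if_pos (by simp)]
      exact hu
    · intro i _ hi
      rw [if_neg]
      intro h
      apply hi
      ext
      simp only [Fin.val_last]
      omega
    · intro h
      exact absurd (Finset.mem_univ _) h

omit [NumberField K] in
lemma poly_eq {n : ℕ} (a : Fin (n + 1) → 𝓞 K) :
    poly a = C (a 0) + shiftPoly 1 (Fin.tail a) := by
  rw [poly, Fin.sum_univ_succ, shiftPoly]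
  simp [Fin.tail]

omit [NumberField K] in
lemma derivative_shiftPoly {k : ℕ} (u : Fin (k + 1) → 𝓞 K) :
    derivative (shiftPoly 1 u) = C (u 0) + derivative (shiftPoly 2 (Fin.tail u)) := by
  have h : shiftPoly 1 u = C (u 0) * X + shiftPoly 2 (Fin.tail u) := by
    rw [shiftPoly, Fin.sum_univ_succ, shiftPoly]
    simp [Fin.tail]
  rw [h, derivative_add, derivative_C_mul, derivative_X, mul_one]

lemma natDegree_derivative_shiftPoly {k : ℕ} {u : Fin (k + 1) → 𝓞 K}
    (hu : u (Fin.last k) ≠ 0) : (derivative (shiftPoly 2 u)).natDegree = k + 1 := by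
  rw [natDegree_derivative, natDegree_shiftPoly 2 hu]
  rfl

/-- The polynomials with nonzero top coefficient and vanishing `Res (P', P'')` are few. -/
lemma count_special {k : ℕ} (B : Fin (k + 2) → Finset (𝓞 K)) (hk : 1 ≤ k)
    (S : Finset (Fin (k + 2) → 𝓞 K))
    (hS : ∀ u ∈ S, (∀ i, u i ∈ B i) ∧ u (Fin.last (k + 1)) ≠ 0 ∧
      dres (k + 1) (derivative (shiftPoly 1 u)) = 0) :
    S.card ≤ k * ∏ i : Fin (k + 1), (B i.succ).card := by
  have hσ₀ : ∃ σ₀ : K →+* ℂ, True := ⟨Classical.arbitrary _, trivial⟩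
  obtain ⟨σ₀, -⟩ := hσ₀
  have hfib : ∀ v ∈ S.image (Fin.tail : (Fin (k + 2) → 𝓞 K) → (Fin (k + 1) → 𝓞 K)),
      (S.filter (fun u => Fin.tail u = v)).card ≤ k := by
    intro v hv
    obtain ⟨u₀, hu₀, rfl⟩ := Finset.mem_image.mp hv
    have hlast : (Fin.tail u₀) (Fin.last k) ≠ 0 := (hS u₀ hu₀).2.1
    have hd := natDegree_derivative_shiftPoly hlast
    have hval := dres_values (emb σ₀) (emb_injective σ₀)
      (G := derivative (shiftPoly 2 (Fin.tail u₀))) (m := k + 1) (by omega) hd 0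
    have hmaps : ∀ u ∈ S.filter (fun u => Fin.tail u = Fin.tail u₀),
        u 0 ∈ hval.1.toFinset := by
      intro u hu
      obtain ⟨hu1, hu2⟩ := Finset.mem_filter.mp hu
      rw [Set.Finite.mem_toFinset]
      have h := (hS u hu1).2.2
      rw [derivative_shiftPoly, hu2] at h
      exact h
    have hinj : Set.InjOn (fun u : Fin (k + 2) → 𝓞 K => u 0)
        (S.filter (fun u => Fin.tail u = Fin.tail u₀) : Set (Fin (k + 2) → 𝓞 K)) := by
      intro u hu u' hu' h
      have h1 := (Finset.mem_filter.mp hu).2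
      have h2 := (Finset.mem_filter.mp hu').2
      rw [← Fin.cons_self_tail u, ← Fin.cons_self_tail u', h1, h2]
      congr 1
    have h1 := Finset.card_le_card_of_injOn _ hmaps hinj
    have h2 := hval.2
    rw [Set.ncard_eq_toFinset_card _ hval.1] at h2
    exact h1.trans (h2.trans (by omega))
  have h1 := Finset.card_le_mul_card_image S k hfib
  have h2 : S.image (Fin.tail : (Fin (k + 2) → 𝓞 K) → (Fin (k + 1) → 𝓞 K)) ⊆
      Fintype.piFinset (fun i : Fin (k + 1) => B i.succ) := by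
    intro v hv
    obtain ⟨u, hu, rfl⟩ := Finset.mem_image.mp hv
    rw [Fintype.mem_piFinset]
    intro i
    exact (hS u hu).1 _
  have h3 := Finset.card_le_card h2
  rw [Fintype.card_piFinset] at h3
  exact h1.trans (Nat.mul_le_mul_left _ h3)

omit [NumberField K] in
/-- The polynomials with vanishing top coefficient are few. -/
lemma count_top_zero {k : ℕ} (B : Fin (k + 1) → Finset (𝓞 K)) (S : Finset (Fin (k + 1) → 𝓞 K))
    (hS : ∀ u ∈ S, (∀ i, u i ∈ B i) ∧ u (Fin.last k) = 0) :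
    S.card ≤ ∏ i : Fin k, (B i.castSucc).card := by
  have hmaps : ∀ u ∈ S, (Fin.init u : Fin k → 𝓞 K) ∈
      Fintype.piFinset (fun i : Fin k => B i.castSucc) := by
    intro u hu
    rw [Fintype.mem_piFinset]
    intro i
    exact (hS u hu).1 _
  have hinj : Set.InjOn (fun u : Fin (k + 1) → 𝓞 K => (Fin.init u : Fin k → 𝓞 K))
      (S : Set (Fin (k + 1) → 𝓞 K)) := by
    intro u hu u' hu' h
    have h' : (Fin.init u : Fin k → 𝓞 K) = Fin.init u' := h
    rw [← Fin.snoc_init_self u, ← Fin.snoc_init_self u', h', (hS u hu).2, (hS u' hu').2]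
  have h1 := Finset.card_le_card_of_injOn _ hmaps hinj
  rwa [Fintype.card_piFinset] at h1

omit [NumberField K] in
lemma fibre_card_le {m : ℕ} (S : Finset (Fin (m + 1) → 𝓞 K)) (u : Fin m → 𝓞 K)
    (W : Finset (𝓞 K)) (hW : ∀ a ∈ S, Fin.tail a = u → a 0 ∈ W) :
    (S.filter (fun a => Fin.tail a = u)).card ≤ W.card := by
  refine Finset.card_le_card_of_injOn (fun a => a 0) ?_ ?_
  · intro a ha
    obtain ⟨ha1, ha2⟩ := Finset.mem_filter.mp ha
    exact hW a ha1 ha2
  · intro a ha a' ha' h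
    have h1 := (Finset.mem_filter.mp ha).2
    have h2 := (Finset.mem_filter.mp ha').2
    have h3 : a 0 = a' 0 := h
    rw [← Fin.cons_self_tail a, ← Fin.cons_self_tail a', h1, h2, h3]

/-- The statement for general boxes `B_0 × ... × B_n`, where the elements of `B_i` have all their
conjugates at most `T / ρ ^ i`. -/
theorem boxes {k : ℕ} (hk : 1 ≤ k) {κ A ε : ℝ} (hA : 0 < A)
    (hfibre : ∀ ρ : ℝ, 1 ≤ ρ → ∀ T : ℝ, 1 ≤ T → ∀ P : (𝓞 K)[X], P.natDegree = k + 2 →
      (∀ i, P.coeff i ∈ Box K (T / ρ ^ i)) → dres (k + 2 - 1) (derivative P) ≠ 0 →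
      ({t : 𝓞 K | t ∈ Box K T ∧ ¬ Frey (k + 2) κ A (C t + P)}.ncard : ℝ) ≤
        A * expo (k + 2) κ ρ T * T ^ ε)
    {ρ T : ℝ} (hρ : 1 ≤ ρ) (hT : 1 ≤ T) (B : Fin (k + 3) → Finset (𝓞 K))
    (hB : ∀ i, ∀ b ∈ B i, b ∈ Box K (T / ρ ^ (i : ℕ))) (hBne : ∀ i, (B i).Nonempty)
    {z : ℝ} (hz0 : 0 ≤ z) (hz : 0 ∈ B (Fin.last (k + 2)) → z = 1)
    (S : Finset (Fin (k + 3) → 𝓞 K))
    (hS : ∀ a ∈ S, (∀ i, a i ∈ B i) ∧ ¬ Frey (k + 2) κ A (poly a)) :
    (S.card : ℝ) ≤ (∏ i, ((B i).card : ℝ)) * (A * expo (k + 2) κ ρ T * T ^ ε / (B 0).card +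
      k / (B 1).card + z / (B (Fin.last (k + 2))).card) := by
  have hρ0 : 0 < ρ := by linarith
  have hT0 : 0 < T := by linarith
  have hbpos : ∀ i, (0 : ℝ) < (B i).card := fun i => by
    exact_mod_cast Finset.card_pos.mpr (hBne i)
  -- generic tails
  let gen : (Fin (k + 2) → 𝓞 K) → Prop := fun u =>
    u (Fin.last (k + 1)) ≠ 0 ∧ dres (k + 1) (derivative (shiftPoly 1 u)) ≠ 0
  set Tl := Fintype.piFinset (fun i : Fin (k + 2) => B i.succ) with hTl
  have hTcard : (Tl.card : ℝ) = ∏ i : Fin (k + 2), ((B i.succ).card : ℝ) := by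
    rw [hTl, Fintype.card_piFinset]
    push_cast
    rfl
  have hp0 : ∏ i, ((B i).card : ℝ) = (B 0).card * ∏ i : Fin (k + 2), ((B i.succ).card : ℝ) :=
    Fin.prod_univ_succ _
  have hp1 : ∏ i : Fin (k + 2), ((B i.succ).card : ℝ) =
      (B 1).card * ∏ i : Fin (k + 1), ((B i.succ.succ).card : ℝ) := Fin.prod_univ_succ _
  have hp2 : ∏ i : Fin (k + 2), ((B i.succ).card : ℝ) =
      (∏ i : Fin (k + 1), ((B i.castSucc.succ).card : ℝ)) * (B (Fin.last (k + 2))).card :=
    Fin.prod_univ_castSucc _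
  have hnongen : (((Tl.filter (fun u => ¬ gen u)).card : ℕ) : ℝ) ≤
      z * (∏ i : Fin (k + 1), ((B i.castSucc.succ).card : ℝ)) +
        k * ∏ i : Fin (k + 1), ((B i.succ.succ).card : ℝ) := by
    have hsub : Tl.filter (fun u => ¬ gen u) ⊆
        Tl.filter (fun u => u (Fin.last (k + 1)) = 0) ∪
        Tl.filter (fun u => u (Fin.last (k + 1)) ≠ 0 ∧
          dres (k + 1) (derivative (shiftPoly 1 u)) = 0) := by
      intro u hu
      obtain ⟨hu1, hu2⟩ := Finset.mem_filter.mp hu
      rw [Finset.mem_union, Finset.mem_filter, Finset.mem_filter]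
      by_cases h0 : u (Fin.last (k + 1)) = 0
      · exact Or.inl ⟨hu1, h0⟩
      · refine Or.inr ⟨hu1, h0, ?_⟩
        by_contra h1
        exact hu2 ⟨h0, h1⟩
    have h1 : (((Tl.filter (fun u => u (Fin.last (k + 1)) = 0)).card : ℕ) : ℝ) ≤
        z * (∏ i : Fin (k + 1), ((B i.castSucc.succ).card : ℝ)) := by
      by_cases hmem : 0 ∈ B (Fin.last (k + 2))
      · rw [hz hmem, one_mul]
        have := count_top_zero (fun i : Fin (k + 2) => B i.succ)
          (Tl.filter (fun u => u (Fin.last (k + 1)) = 0)) (by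
          intro u hu
          obtain ⟨hu1, hu2⟩ := Finset.mem_filter.mp hu
          exact ⟨Fintype.mem_piFinset.mp hu1, hu2⟩)
        have h2 : (((Tl.filter (fun u => u (Fin.last (k + 1)) = 0)).card : ℕ) : ℝ) ≤
            ((∏ i : Fin (k + 1), (B i.castSucc.succ).card : ℕ) : ℝ) := Nat.cast_le.mpr this
        rwa [Nat.cast_prod] at h2
      · have h0 : Tl.filter (fun u => u (Fin.last (k + 1)) = 0) = ∅ := by
          rw [Finset.filter_eq_empty_iff]
          intro u hu h0
          apply hmem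
          have h3 := Fintype.mem_piFinset.mp hu (Fin.last (k + 1))
          rw [h0] at h3
          exact h3
        rw [h0, Finset.card_empty, Nat.cast_zero]
        positivity
    have h2 : (((Tl.filter (fun u => u (Fin.last (k + 1)) ≠ 0 ∧
          dres (k + 1) (derivative (shiftPoly 1 u)) = 0)).card : ℕ) : ℝ) ≤
        k * ∏ i : Fin (k + 1), ((B i.succ.succ).card : ℝ) := by
      have := count_special (fun i : Fin (k + 2) => B i.succ) hk
        (Tl.filter (fun u => u (Fin.last (k + 1)) ≠ 0 ∧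
          dres (k + 1) (derivative (shiftPoly 1 u)) = 0)) (by
        intro u hu
        obtain ⟨hu1, hu2⟩ := Finset.mem_filter.mp hu
        exact ⟨Fintype.mem_piFinset.mp hu1, hu2⟩)
      have h3 : (((Tl.filter (fun u => u (Fin.last (k + 1)) ≠ 0 ∧
          dres (k + 1) (derivative (shiftPoly 1 u)) = 0)).card : ℕ) : ℝ) ≤
          ((k * ∏ i : Fin (k + 1), (B i.succ.succ).card : ℕ) : ℝ) := Nat.cast_le.mpr this
      rwa [Nat.cast_mul, Nat.cast_prod] at h3
    have h4 : (((Tl.filter (fun u => ¬ gen u)).card : ℕ) : ℝ) ≤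
        ((Tl.filter (fun u => u (Fin.last (k + 1)) = 0)).card : ℝ) +
        ((Tl.filter (fun u => u (Fin.last (k + 1)) ≠ 0 ∧
          dres (k + 1) (derivative (shiftPoly 1 u)) = 0)).card : ℝ) := by
      have := (Finset.card_le_card hsub).trans (Finset.card_union_le _ _)
      exact_mod_cast this
    linarith
  have htail : ∀ a ∈ S, Fin.tail a ∈ Tl := by
    intro a ha
    rw [hTl, Fintype.mem_piFinset]
    intro i
    exact (hS a ha).1 _
  have hfall : ∀ u ∈ Tl, ((S.filter (fun a => Fin.tail a = u)).card : ℝ) ≤ (B 0).card := by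
    intro u _
    have h1 := fibre_card_le S u (B 0) (fun a ha _ => (hS a ha).1 0)
    exact Nat.cast_le.mpr h1
  set E : ℝ := A * expo (k + 2) κ ρ T * T ^ ε with hE
  have hE0 : 0 ≤ E := by
    have : 0 ≤ expo (k + 2) κ ρ T := by
      unfold expo
      positivity
    positivity
  have hfgen : ∀ u ∈ Tl, gen u → ((S.filter (fun a => Fin.tail a = u)).card : ℝ) ≤ E := by
    intro u hu hgen
    have hub : ∀ i : Fin (k + 2), u i ∈ Box K (T / ρ ^ ((i : ℕ) + 1)) := fun i =>
      hB _ _ (Fintype.mem_piFinset.mp hu i)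
    have hcoef : ∀ j, (shiftPoly 1 u).coeff j ∈ Box K (T / ρ ^ j) := by
      intro j
      rw [coeff_shiftPoly]
      by_cases h : ∃ i : Fin (k + 2), j = (i : ℕ) + 1
      · obtain ⟨i, hi⟩ := h
        rw [Finset.sum_eq_single i]
        · rw [if_pos hi, hi]; exact hub i
        · intro i' _ hi'
          rw [if_neg]
          intro h'
          apply hi'
          ext
          omega
        · intro h'
          exact absurd (Finset.mem_univ i) h'
      · push Not at h
        rw [Finset.sum_eq_zero]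
        · exact box_zero_mem (by positivity)
        · intro i _
          rw [if_neg (h i)]
    have h1 := hfibre ρ hρ T hT (shiftPoly 1 u) (natDegree_shiftPoly 1 hgen.1) hcoef hgen.2
    refine le_trans ?_ h1
    have hfin : {t : 𝓞 K | t ∈ Box K T ∧ ¬ Frey (k + 2) κ A (C t + shiftPoly 1 u)}.Finite :=
      (box_finite T).subset fun t ht => ht.1
    have h2 := fibre_card_le S u hfin.toFinset (by
      intro a ha1 ha2
      rw [Set.Finite.mem_toFinset]
      refine ⟨?_, fun h => (hS a ha1).2 ?_⟩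
      · have := hB 0 _ ((hS a ha1).1 0)
        simpa using this
      · rw [poly_eq, ha2]
        exact h)
    rw [Set.ncard_eq_toFinset_card _ hfin]
    exact Nat.cast_le.mpr h2
  have hsum : (S.card : ℝ) = ∑ u ∈ Tl, ((S.filter (fun a => Fin.tail a = u)).card : ℝ) := by
    exact_mod_cast Finset.card_eq_sum_card_fiberwise htail
  have hsplit := Finset.sum_filter_add_sum_filter_not Tl gen
    (fun u => ((S.filter (fun a => Fin.tail a = u)).card : ℝ))
  have hs1 : ∑ u ∈ Tl.filter gen, ((S.filter (fun a => Fin.tail a = u)).card : ℝ) ≤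
      (∏ i : Fin (k + 2), ((B i.succ).card : ℝ)) * E := by
    calc _ ≤ ∑ _u ∈ Tl.filter gen, E := by
          refine Finset.sum_le_sum fun u hu => ?_
          obtain ⟨hu1, hu2⟩ := Finset.mem_filter.mp hu
          exact hfgen u hu1 hu2
      _ = ((Tl.filter gen).card : ℝ) * E := by
          rw [Finset.sum_const, nsmul_eq_mul]
      _ ≤ (Tl.card : ℝ) * E := by
          have := Finset.card_filter_le Tl gen
          gcongr
      _ = _ := by rw [hTcard]
  have hs2 : ∑ u ∈ Tl.filter (fun u => ¬ gen u), ((S.filter (fun a => Fin.tail a = u)).card : ℝ) ≤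
      (z * (∏ i : Fin (k + 1), ((B i.castSucc.succ).card : ℝ)) +
        k * ∏ i : Fin (k + 1), ((B i.succ.succ).card : ℝ)) * (B 0).card := by
    calc _ ≤ ∑ _u ∈ Tl.filter (fun u => ¬ gen u), ((B 0).card : ℝ) := by
          refine Finset.sum_le_sum fun u hu => ?_
          exact hfall u (Finset.mem_filter.mp hu).1
      _ = ((Tl.filter (fun u => ¬ gen u)).card : ℝ) * (B 0).card := by
          rw [Finset.sum_const, nsmul_eq_mul]
      _ ≤ _ := by gcongr
  rw [hsum, ← hsplit]
  refine (add_le_add hs1 hs2).trans (le_of_eq ?_)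
  have hb0 := (hbpos 0).ne'
  have hb1 := (hbpos 1).ne'
  have hbl := (hbpos (Fin.last (k + 2))).ne'
  have e1 : (∏ i, ((B i).card : ℝ)) * (E / (B 0).card) =
      (∏ i : Fin (k + 2), ((B i.succ).card : ℝ)) * E := by
    rw [hp0]; field_simp
  have e2 : (∏ i, ((B i).card : ℝ)) * (k / (B 1).card) =
      k * (∏ i : Fin (k + 1), ((B i.succ.succ).card : ℝ)) * (B 0).card := by
    rw [hp0, hp1]; field_simp
  have e3 : (∏ i, ((B i).card : ℝ)) * (z / (B (Fin.last (k + 2))).card) =
      z * (∏ i : Fin (k + 1), ((B i.castSucc.succ).card : ℝ)) * (B 0).card := by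
    rw [hp0, hp2]; field_simp
  rw [mul_add, mul_add, e1, e2, e3]
  ring

end FreyAvg
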