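import Pool.Agent.Lib.MP_6babc4_nt.AvgArch
import Pool.Agent.Lib.MP_6babc4_nt.AvgCount

/-!
# The upper bound for the height, and the fibrewise statement
-/

open Polynomial NumberField Module
open scoped Classical

namespace FreyAvg

variable {K : Type*} [Field K] [NumberField K]

lemma eval_le {F : ℂ[X]} {n : ℕ} (hdeg : F.natDegree = n) {H : ℝ}
    (hF : ∀ i, ‖F.coeff i‖ ≤ H) (z : ℂ) (hz : ‖z‖ ≤ 1) : ‖F.eval z‖ ≤ (n + 1) * H := by
  rw [eval_eq_sum_range]
  refine (norm_sum_le _ _).trans ?_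
  calc ∑ i ∈ Finset.range (F.natDegree + 1), ‖F.coeff i * z ^ i‖ ≤
        ∑ _i ∈ Finset.range (F.natDegree + 1), H := by
        refine Finset.sum_le_sum fun i _ => ?_
        rw [norm_mul, norm_pow]
        calc ‖F.coeff i‖ * ‖z‖ ^ i ≤ H * 1 := by
              refine mul_le_mul (hF i) (pow_le_one₀ (norm_nonneg _) hz) (by positivity) ?_
              exact (norm_nonneg _).trans (hF i)
          _ = H := mul_one _
    _ = (n + 1) * H := by
        rw [Finset.sum_const, Finset.card_range, nsmul_eq_mul, hdeg]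
        push_cast
        ring

/-- The upper bound for the height. -/
theorem height_le {n g : ℕ} (hg : 2 * g < n) : ∃ C : ℝ, ∀ ρ : ℝ, 0 < ρ → ∀ T : ℝ, 0 < T →
    ∀ f : (𝓞 K)[X], f.natDegree = n → (∀ i, f.coeff i ∈ Box K (T / ρ ^ i)) →
    (f.map (algebraMap (𝓞 K) K)).Separable →
    height g f ≤ g / 2 * Real.log T - g * (g + 1) / 2 * Real.log ρ + C := by
  have hl := lam0_pos g
  refine ⟨g / 2 * Real.log (2 * (n + 1) / lam0 g), ?_⟩
  intro ρ hρ H hH0 f hdeg hf hsep
  have hd : (0 : ℝ) < finrank ℚ K := by exact_mod_cast (finrank_pos' (K := K))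
  have hM0 : 0 < (n + 1) * H := by positivity
  have hterm : ∀ σ : K →+* ℂ, -(g * Real.log (2 * ((n + 1) * H) / lam0 g)) +
      (g * (g + 1)) * Real.log ρ ≤
      Real.log ‖(gram g (f.map (σ.comp (algebraMap (𝓞 K) K)))).det‖ := by
    intro σ
    set F := f.map (σ.comp (algebraMap (𝓞 K) K)) with hF
    have hFdeg : F.natDegree = n := by
      rw [← hdeg]
      exact natDegree_map_eq_of_injective (emb_injective σ) f
    have hFsep : F.Separable := by
      rw [hF, ← map_map]
      exact hsep.map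
    have hFcoef : ∀ i, ‖(scale ρ F).coeff i‖ ≤ H := by
      intro i
      rw [scale_coeff, norm_mul, norm_pow, Complex.norm_real, Real.norm_of_nonneg hρ.le, hF,
        coeff_map]
      have := hf i σ
      rwa [le_div_iff₀ (by positivity)] at this
    have h1 := gram_det_lower' (g := g) hFsep (by rw [hFdeg]; exact hg) hρ hM0
      (eval_le (by rw [scale_natDegree hρ.ne', hFdeg]) hFcoef)
    have h2 : Real.log ((lam0 g / (2 * ((n + 1) * H))) ^ g * ρ ^ (g * (g + 1))) ≤
        Real.log ‖(gram g F).det‖ := Real.log_le_log (by positivity) h1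
    rw [Real.log_mul (by positivity) (by positivity), Real.log_pow, Real.log_pow] at h2
    have h3 : Real.log (2 * ((n + 1) * H) / lam0 g) = -Real.log (lam0 g / (2 * ((n + 1) * H))) := by
      rw [← Real.log_inv, inv_div]
    rw [h3]
    push_cast at h2
    linarith
  have hsum : finrank ℚ K * (-(g * Real.log (2 * ((n + 1) * H) / lam0 g)) +
      (g * (g + 1)) * Real.log ρ) ≤
      ∑ σ : K →+* ℂ, Real.log ‖(gram g (f.map (σ.comp (algebraMap (𝓞 K) K)))).det‖ := by
    calc finrank ℚ K * (-(g * Real.log (2 * ((n + 1) * H) / lam0 g)) +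
          (g * (g + 1)) * Real.log ρ) =
        ∑ _σ : K →+* ℂ, (-(g * Real.log (2 * ((n + 1) * H) / lam0 g)) +
          (g * (g + 1)) * Real.log ρ) := by
          rw [Finset.sum_const, Finset.card_univ, card_embeddings, nsmul_eq_mul]
      _ ≤ _ := Finset.sum_le_sum fun σ _ => hterm σ
  rw [height]
  have h4 : Real.log (2 * ((n + 1) * H) / lam0 g) = Real.log H + Real.log (2 * (n + 1) / lam0 g) := by
    rw [← Real.log_mul (by positivity) (by positivity)]
    congr 1
    ring
  rw [h4] at hsum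
  have h5 : -(1 / (2 * (finrank ℚ K : ℝ))) *
      ∑ σ : K →+* ℂ, Real.log ‖(gram g (f.map (σ.comp (algebraMap (𝓞 K) K)))).det‖ ≤
      -(1 / (2 * (finrank ℚ K : ℝ))) *
        (finrank ℚ K * (-(g * (Real.log H + Real.log (2 * (n + 1) / lam0 g))) +
          (g * (g + 1)) * Real.log ρ)) := by
    apply mul_le_mul_of_nonpos_left hsum
    rw [neg_nonpos]
    positivity
  refine h5.trans (le_of_eq ?_)
  field_simp
  ring

omit [NumberField K] in
lemma separable_of_dres {f : (𝓞 K)[X]} {n : ℕ} (hn : 1 ≤ n) (hdeg : f.natDegree = n)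
    (h : dres n f ≠ 0) : (f.map (algebraMap (𝓞 K) K)).Separable := by
  have hinj := FaithfulSMul.algebraMap_injective (𝓞 K) K
  have hdeg' : (f.map (algebraMap (𝓞 K) K)).natDegree = n := by
    rw [natDegree_map_eq_of_injective hinj, hdeg]
  rw [separable_def]
  refine isCoprime_of_irreducible_dvd ?_ ?_
  · rintro ⟨h0, -⟩
    rw [h0] at hdeg'
    simp at hdeg'
    omega
  · intro q hq h1 h2
    apply h
    apply hinj
    rw [map_zero, ← dres_map]
    exact dres_eq_zero_of_common hn hdeg'.le hq.not_isUnit h1 h2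

lemma dres_ne_zero_of_separable {f : (𝓞 K)[X]} {n : ℕ} (hn : 1 ≤ n) (hdeg : f.natDegree = n)
    (h : (f.map (algebraMap (𝓞 K) K)).Separable) : dres n f ≠ 0 := by
  have hinj := FaithfulSMul.algebraMap_injective (𝓞 K) K
  have hdeg' : (f.map (algebraMap (𝓞 K) K)).natDegree = n := by
    rw [natDegree_map_eq_of_injective hinj, hdeg]
  intro h0
  have h1 : dres n (f.map (algebraMap (𝓞 K) K)) = 0 := by
    rw [dres_map, h0, map_zero]
  obtain ⟨q, hq, hq1, hq2⟩ := exists_common_of_dres_eq_zero hn hdeg'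
    (by exact_mod_cast (by omega : n ≠ 0)) h1
  exact hq.not_isUnit (IsCoprime.isUnit_of_dvd' h hq1 hq2)

/-- Frey's inequality for the curve `y² = f(x)`, `f` of degree `n` without multiple roots. -/
def Frey (n : ℕ) (κ c : ℝ) (f : (𝓞 K)[X]) : Prop :=
  f.natDegree = n ∧ (f.map (algebraMap (𝓞 K) K)).Separable ∧
    height ((n - 1) / 2) f ≤ κ * Real.log (nodalConductor f) + c

lemma Frey.mono {n : ℕ} {κ c c' : ℝ} (h : c ≤ c') {f : (𝓞 K)[X]} (hf : Frey n κ c f) :
    Frey n κ c' f := ⟨hf.1, hf.2.1, hf.2.2.trans (by linarith)⟩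

/-- The bound for the number of exceptions in a pencil. -/
noncomputable def expo (n : ℕ) (κ : ℝ) (ρ T : ℝ) : ℝ :=
  (T ^ ((n - 1) / 2) / ρ ^ ((n - 1) / 2 * ((n - 1) / 2 + 1))) ^ (1 / (2 * κ))

lemma exists_one_le {a : 𝓞 K} (ha : a ≠ 0) : ∃ σ : K →+* ℂ, 1 ≤ ‖σ (algebraMap (𝓞 K) K a)‖ :=
  exists_conjugate_one_le_norm ha

/-- The fibrewise statement. -/
theorem fibre {n : ℕ} (hn : 3 ≤ n) {κ ε : ℝ} (hκ : 0 < κ) (hε : 0 < ε) :
    ∃ A : ℝ, 0 < A ∧ ∀ ρ : ℝ, 1 ≤ ρ → ∀ T : ℝ, 1 ≤ T → ∀ P : (𝓞 K)[X], P.natDegree = n →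
      (∀ i, P.coeff i ∈ Box K (T / ρ ^ i)) → dres (n - 1) (derivative P) ≠ 0 →
      ({t : 𝓞 K | t ∈ Box K T ∧ ¬ Frey n κ A (C t + P)}.ncard : ℝ) ≤
        A * expo n κ ρ T * T ^ ε := by
  set g := (n - 1) / 2 with hg
  have h2g : 2 * g < n := by omega
  obtain ⟨A₁, hA₁, hcount⟩ := nodal_count (K := K) hn hε
  obtain ⟨C₂, hC₂⟩ := height_le (K := K) h2g
  set C₃ : ℝ := g / 2 * Real.log 2 + C₂ with hC₃
  set A : ℝ := max (A₁ + n) C₃ with hA
  have hAA : A₁ + n ≤ A := le_max_left _ _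
  refine ⟨A, lt_of_lt_of_le (by positivity) hAA, ?_⟩
  intro ρ hρ H hH P hdeg hP hQ
  have hρ0 : 0 < ρ := by linarith
  have hH0 : 0 < H := by linarith
  have hdeg' : ∀ t, (C t + P).natDegree = n := fun t => by rw [natDegree_C_add, hdeg]
  have hPbox : ∀ i, P.coeff i ∈ Box K H := by
    intro i
    refine box_mono ?_ (hP i)
    exact div_le_self hH0.le (one_le_pow₀ hρ)
  -- `ρ ^ n ≤ H`
  have hρH : ρ ^ n ≤ H := by
    have hlc : P.coeff n ≠ 0 := by
      rw [← hdeg, coeff_natDegree, Ne, leadingCoeff_eq_zero]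
      rintro rfl
      simp at hdeg
      omega
    obtain ⟨σ, hσ⟩ := exists_one_le hlc
    have h1 := hσ.trans (hP n σ)
    rwa [le_div_iff₀ (by positivity), one_mul] at h1
  set Q : ℝ := H ^ g / ρ ^ (g * (g + 1)) with hQdef
  have hQ1 : 1 ≤ Q := by
    rw [hQdef, le_div_iff₀ (by positivity), one_mul, mul_comm, pow_mul]
    apply pow_le_pow_left₀ (by positivity)
    exact (pow_le_pow_right₀ hρ (by omega)).trans hρH
  set R : ℝ := Q ^ (1 / (2 * κ)) with hR
  have hRexpo : expo n κ ρ H = R := rfl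
  have hR1 : 1 ≤ R := Real.one_le_rpow hQ1 (by positivity)
  -- the two kinds of exceptions
  have hσ₀ : ∃ σ₀ : K →+* ℂ, True := ⟨Classical.arbitrary _, trivial⟩
  obtain ⟨σ₀, -⟩ := hσ₀
  have hv := dres_values (emb σ₀) (emb_injective σ₀) (G := P) (m := n) (by omega) hdeg 0
  set S₁ := hv.1.toFinset with hS₁
  have hfin : {t : 𝓞 K | t ∈ Box K H ∧ dres n (C t + P) ≠ 0 ∧
      ((nodalConductor (C t + P) : ℕ) : ℝ) ≤ R}.Finite :=
    (box_finite H).subset fun t ht => ht.1
  set S₂ := hfin.toFinset with hS₂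
  have hS₁card : (S₁.card : ℝ) ≤ n := by
    have h1 := hv.2
    rw [Set.ncard_eq_toFinset_card _ hv.1] at h1
    have : S₁.card ≤ n := h1.trans (by omega)
    exact_mod_cast this
  have hS₂card : (S₂.card : ℝ) ≤ A₁ * R * H ^ ε :=
    hcount H hH P hdeg hPbox hQ R hR1 S₂ fun t ht => (Set.Finite.mem_toFinset hfin).mp ht
  have hsub : {t : 𝓞 K | t ∈ Box K H ∧ ¬ Frey n κ A (C t + P)} ⊆
      ((S₁ ∪ S₂ : Finset (𝓞 K)) : Set (𝓞 K)) := by
    rintro t ⟨htB, ht⟩
    rw [Finset.coe_union]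
    by_cases h0 : dres n (C t + P) = 0
    · left
      rw [Finset.mem_coe, hS₁, Set.Finite.mem_toFinset]
      exact h0
    · right
      rw [Finset.mem_coe, hS₂, Set.Finite.mem_toFinset]
      refine ⟨htB, h0, ?_⟩
      by_contra hcon
      push Not at hcon
      apply ht
      have hsep := separable_of_dres (by omega) (hdeg' t) h0
      refine ⟨hdeg' t, hsep, ?_⟩
      have hcoef : ∀ i, (C t + P).coeff i ∈ Box K (2 * H / ρ ^ i) := by
        intro i
        rw [coeff_add, coeff_C, two_mul, add_div]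
        split_ifs with h
        · subst h
          refine box_add_mem ?_ (hP 0)
          simpa using htB
        · exact box_add_mem (box_zero_mem (by positivity)) (hP i)
      have h1 := hC₂ ρ hρ0 (2 * H) (by linarith) (C t + P) (hdeg' t) hcoef hsep
      have h2 : Real.log (2 * H) = Real.log 2 + Real.log H := Real.log_mul (by norm_num) hH0.ne'
      have h3 : Real.log R ≤ Real.log (nodalConductor (C t + P)) :=
        Real.log_le_log (by positivity) hcon.le
      have h4 : Real.log R = (1 / (2 * κ)) * (g * Real.log H - (g * (g + 1)) * Real.log ρ) := by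
        rw [hR, Real.log_rpow (by linarith), hQdef, Real.log_div (by positivity) (by positivity),
          Real.log_pow, Real.log_pow]
        push_cast
        ring
      have h5 : κ * Real.log R = g / 2 * Real.log H - g * (g + 1) / 2 * Real.log ρ := by
        rw [h4]
        field_simp
      have h6 : C₃ ≤ A := le_max_right _ _
      have h7 : κ * Real.log R ≤ κ * Real.log (nodalConductor (C t + P)) := by
        gcongr
      rw [h5] at h7
      rw [h2] at h1
      rw [hC₃] at h6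
      rw [← hg]
      linarith
  have hcard : ({t : 𝓞 K | t ∈ Box K H ∧ ¬ Frey n κ A (C t + P)}.ncard : ℝ) ≤
      ((S₁ ∪ S₂ : Finset (𝓞 K)).card : ℝ) := by
    have := Set.ncard_le_ncard hsub (Finset.finite_toSet _)
    rw [Set.ncard_coe_finset] at this
    exact_mod_cast this
  have hE1 : 1 ≤ H ^ ε := Real.one_le_rpow hH hε.le
  have hunion : ((S₁ ∪ S₂ : Finset (𝓞 K)).card : ℝ) ≤ S₁.card + S₂.card := by
    exact_mod_cast Finset.card_union_le _ _
  rw [hRexpo]
  calc ({t : 𝓞 K | t ∈ Box K H ∧ ¬ Frey n κ A (C t + P)}.ncard : ℝ)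
      ≤ S₁.card + S₂.card := hcard.trans hunion
    _ ≤ n + A₁ * R * H ^ ε := add_le_add hS₁card hS₂card
    _ ≤ n * (R * H ^ ε) + A₁ * R * H ^ ε := by
        have h1 : 1 ≤ R * H ^ ε := by nlinarith
        have h2 : (0 : ℝ) ≤ n := by positivity
        nlinarith
    _ = (A₁ + n) * (R * H ^ ε) := by ring
    _ ≤ A * (R * H ^ ε) := by gcongr
    _ = A * R * H ^ ε := by ring

end FreyAvg
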