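import Pool.Agent.Lib.MP_6babc4_nt.AvgBox

/-!
# Counting ideals with small radical (Rankin's trick)
-/

open Polynomial NumberField Module UniqueFactorizationMonoid Filter
open scoped Classical

namespace FreyAvg

variable {K : Type*} [Field K] [NumberField K]

/-- The set of the prime divisors of an ideal. -/
noncomputable def pr (I : Ideal (𝓞 K)) : Finset (Ideal (𝓞 K)) := (normalizedFactors I).toFinset

lemma mem_pr {I p : Ideal (𝓞 K)} : p ∈ pr I ↔ p ∈ normalizedFactors I := Multiset.mem_toFinset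

lemma mem_pr_iff {I p : Ideal (𝓞 K)} (hI : I ≠ 0) : p ∈ pr I ↔ p.IsPrime ∧ I ≤ p := by
  rw [mem_pr]
  exact Ideal.mem_normalizedFactors_iff hI

lemma pr_prime {I p : Ideal (𝓞 K)} (hp : p ∈ pr I) : Prime p :=
  prime_of_normalized_factor p (mem_pr.mp hp)

lemma two_le_absNorm {I p : Ideal (𝓞 K)} (hp : p ∈ pr I) : 2 ≤ Ideal.absNorm p := by
  have h1 : Ideal.absNorm p ≠ 0 := by
    rw [Ne, Ideal.absNorm_eq_zero_iff]
    exact (pr_prime hp).ne_zero
  have h2 : Ideal.absNorm p ≠ 1 := by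
    rw [Ne, Ideal.absNorm_eq_one_iff, ← Ideal.isUnit_iff]
    exact (pr_prime hp).not_isUnit
  omega

lemma absNorm_eq_prod {I : Ideal (𝓞 K)} (hI : I ≠ 0) :
    Ideal.absNorm I = ∏ p ∈ pr I, Ideal.absNorm p ^ ((normalizedFactors I).count p) := by
  conv_lhs => rw [← Ideal.prod_normalizedFactors_eq_self hI]
  rw [map_multiset_prod, Finset.prod_multiset_map_count]
  rfl

lemma count_pos {I p : Ideal (𝓞 K)} (hp : p ∈ pr I) : 1 ≤ (normalizedFactors I).count p :=
  Multiset.one_le_count_iff_mem.mpr (mem_pr.mp hp)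

lemma prod_absNorm_le {I : Ideal (𝓞 K)} (hI : I ≠ 0) :
    ∏ p ∈ pr I, Ideal.absNorm p ≤ Ideal.absNorm I := by
  rw [absNorm_eq_prod hI]
  refine Finset.prod_le_prod' fun p hp => ?_
  exact Nat.le_self_pow (by have := count_pos hp; omega) _

/-- The number of ideals `I` of small norm: `N(I)^η < 2`. -/
noncomputable def Msmall (K : Type*) [Field K] [NumberField K] (η : ℝ) : ℕ :=
  {I : Ideal (𝓞 K) | ((Ideal.absNorm I : ℕ) : ℝ) ^ η < 2}.ncard

lemma small_finite {η : ℝ} (hη : 0 < η) :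
    {I : Ideal (𝓞 K) | ((Ideal.absNorm I : ℕ) : ℝ) ^ η < 2}.Finite := by
  refine (Ideal.finite_setOfPred_absNorm_le (S := 𝓞 K) ⌈(2 : ℝ) ^ (1 / η)⌉₊).subset ?_
  intro I hI
  simp only [Set.mem_ofPred_eq] at hI ⊢
  by_contra hcon
  push Not at hcon
  have h1 : (2 : ℝ) ^ (1 / η) < Ideal.absNorm I :=
    lt_of_le_of_lt (Nat.le_ceil _) (by exact_mod_cast hcon)
  have h2 : ((2 : ℝ) ^ (1 / η)) ^ η < ((Ideal.absNorm I : ℕ) : ℝ) ^ η :=
    Real.rpow_lt_rpow (by positivity) h1 hη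
  rw [← Real.rpow_mul (by norm_num), one_div_mul_cancel hη.ne', Real.rpow_one] at h2
  linarith

lemma prod_small_le {η B : ℝ} (hη : 0 < η) (hB : 1 ≤ B) (T : Finset (Ideal (𝓞 K))) :
    ∏ p ∈ T, (if ((Ideal.absNorm p : ℕ) : ℝ) ^ η < 2 then B else 1) ≤ B ^ Msmall K η := by
  rw [Finset.prod_ite, Finset.prod_const, Finset.prod_const_one, mul_one]
  apply pow_le_pow_right₀ hB
  rw [Msmall, Set.ncard_eq_toFinset_card _ (small_finite hη)]
  apply Finset.card_le_card
  intro p hp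
  rw [Set.Finite.mem_toFinset]
  exact (Finset.mem_filter.mp hp).2

/-- The number of squarefree divisors of an ideal is `O(N(J)^ε)`. -/
lemma two_pow_card_pr_le {ε : ℝ} (hε : 0 < ε) : ∀ J : Ideal (𝓞 K), J ≠ 0 →
    (2 : ℝ) ^ (pr J).card ≤ 2 ^ Msmall K ε * ((Ideal.absNorm J : ℕ) : ℝ) ^ ε := by
  intro J hJ
  have h1 : ∀ p ∈ pr J, (2 : ℝ) ≤ (if ((Ideal.absNorm p : ℕ) : ℝ) ^ ε < 2 then 2 else 1) *
      ((Ideal.absNorm p : ℕ) : ℝ) ^ ε := by
    intro p hp
    have h2 : (1 : ℝ) ≤ ((Ideal.absNorm p : ℕ) : ℝ) :=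
      by exact_mod_cast (by norm_num : 1 ≤ 2).trans (two_le_absNorm hp)
    have h3 : (1 : ℝ) ≤ ((Ideal.absNorm p : ℕ) : ℝ) ^ ε := Real.one_le_rpow h2 hε.le
    split_ifs with h
    · linarith
    · push Not at h
      linarith
  calc (2 : ℝ) ^ (pr J).card = ∏ _p ∈ pr J, (2 : ℝ) := by rw [Finset.prod_const]
    _ ≤ ∏ p ∈ pr J, ((if ((Ideal.absNorm p : ℕ) : ℝ) ^ ε < 2 then 2 else 1) *
          ((Ideal.absNorm p : ℕ) : ℝ) ^ ε) := Finset.prod_le_prod (fun _ _ => by norm_num) h1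
    _ = (∏ p ∈ pr J, (if ((Ideal.absNorm p : ℕ) : ℝ) ^ ε < 2 then (2 : ℝ) else 1)) *
          (∏ p ∈ pr J, ((Ideal.absNorm p : ℕ) : ℝ)) ^ ε := by
        rw [Finset.prod_mul_distrib, Real.finsetProd_rpow _ _ (fun _ _ => by positivity)]
    _ ≤ 2 ^ Msmall K ε * ((Ideal.absNorm J : ℕ) : ℝ) ^ ε := by
        refine mul_le_mul (prod_small_le hε (by norm_num) _) ?_ (by positivity) (by positivity)
        refine Real.rpow_le_rpow (by positivity) ?_ hε.le
        exact_mod_cast prod_absNorm_le hJ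

/-- Rankin's bound: the number of ideals of norm at most `X` with a given set of prime divisors
is `O(X^η)`. -/
lemma rankin {η : ℝ} (hη : 0 < η) {X : ℝ} (hX : 1 ≤ X) (T : Finset (Ideal (𝓞 K)))
    (S : Finset (Ideal (𝓞 K)))
    (hS : ∀ I ∈ S, I ≠ 0 ∧ pr I = T ∧ ((Ideal.absNorm I : ℕ) : ℝ) ≤ X) :
    (S.card : ℝ) ≤ (max 1 (1 / (2 ^ η - 1))) ^ Msmall K η * X ^ η := by
  rcases S.eq_empty_or_nonempty with hSe | ⟨I₀, hI₀⟩
  · rw [hSe]
    simp only [Finset.card_empty, Nat.cast_zero]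
    positivity
  have hT2 : ∀ p ∈ T, 2 ≤ Ideal.absNorm p := by
    intro p hp
    rw [← (hS I₀ hI₀).2.1] at hp
    exact two_le_absNorm hp
  set B : ℝ := max 1 (1 / (2 ^ η - 1)) with hB
  have hB1 : 1 ≤ B := le_max_left _ _
  have h2η : (1 : ℝ) < 2 ^ η := Real.one_lt_rpow (by norm_num) hη
  -- an upper bound for the exponents
  obtain ⟨L, hL⟩ : ∃ L : ℕ, ∀ I ∈ S, ∀ p, (normalizedFactors I).count p ≤ L :=
    ⟨∑ I ∈ S, Multiset.card (normalizedFactors I), fun I hI p =>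
      (Multiset.count_le_card _ _).trans
        (Finset.single_le_sum (f := fun I => Multiset.card (normalizedFactors I))
          (fun _ _ => Nat.zero_le _) hI)⟩
  let x : Ideal (𝓞 K) → ℝ := fun p => (((Ideal.absNorm p : ℕ) : ℝ) ^ η)⁻¹
  have hx0 : ∀ p, 0 ≤ x p := fun p => by positivity
  let expo : Ideal (𝓞 K) → (T → ℕ) := fun I p => (normalizedFactors I).count (p : Ideal (𝓞 K))
  have hinj : Set.InjOn expo (S : Set (Ideal (𝓞 K))) := by
    intro I hI I' hI' hII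
    have h1 := (hS I hI)
    have h2 := (hS I' hI')
    have h3 : normalizedFactors I = normalizedFactors I' := by
      ext p
      by_cases hp : p ∈ T
      · exact congrFun hII ⟨p, hp⟩
      · rw [Multiset.count_eq_zero_of_notMem, Multiset.count_eq_zero_of_notMem]
        · rw [← mem_pr, h2.2.1]; exact hp
        · rw [← mem_pr, h1.2.1]; exact hp
    rw [← Ideal.prod_normalizedFactors_eq_self h1.1, ← Ideal.prod_normalizedFactors_eq_self h2.1,
      h3]
  have hterm : ∀ I ∈ S, (1 : ℝ) ≤ X ^ η * ∏ p : T, x p ^ (expo I p) := by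
    intro I hI
    obtain ⟨h1, h2, h3⟩ := hS I hI
    have h4 : (0 : ℝ) < ((Ideal.absNorm I : ℕ) : ℝ) := by
      have : Ideal.absNorm I ≠ 0 := by
        rw [Ne, Ideal.absNorm_eq_zero_iff]
        exact h1
      positivity
    have h5 : ∏ p : T, x p ^ (expo I p) = (((Ideal.absNorm I : ℕ) : ℝ) ^ η)⁻¹ := by
      have h6 : ((Ideal.absNorm I : ℕ) : ℝ) =
          ∏ p ∈ T, ((Ideal.absNorm p : ℕ) : ℝ) ^ ((normalizedFactors I).count p) := by
        rw [absNorm_eq_prod h1, h2]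
        push_cast
        rfl
      rw [h6, ← Real.finsetProd_rpow _ _ (fun _ _ => by positivity), ← Finset.prod_inv_distrib,
        ← Finset.prod_coe_sort T]
      refine Finset.prod_congr rfl fun p _ => ?_
      simp only [x, expo]
      rw [inv_pow, ← Real.rpow_natCast, ← Real.rpow_mul (by positivity), ← Real.rpow_natCast,
        ← Real.rpow_mul (by positivity), mul_comm η]
    rw [h5, ← div_eq_mul_inv, one_le_div (by positivity)]
    exact Real.rpow_le_rpow h4.le h3 hη.le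
  have hsum : ∑ I ∈ S, ∏ p : T, x p ^ (expo I p) ≤
      ∑ e ∈ Fintype.piFinset (fun _ : T => Finset.Icc 1 L), ∏ p : T, x p ^ (e p) := by
    rw [← Finset.sum_image (f := fun e : T → ℕ => ∏ p : T, x p ^ (e p)) (g := expo) hinj]
    refine Finset.sum_le_sum_of_subset_of_nonneg ?_ ?_
    · intro e he
      obtain ⟨I, hI, rfl⟩ := Finset.mem_image.mp he
      rw [Fintype.mem_piFinset]
      intro p
      rw [Finset.mem_Icc]
      refine ⟨?_, hL I hI _⟩
      apply count_pos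
      rw [(hS I hI).2.1]
      exact p.2
    · intro e _ _
      exact Finset.prod_nonneg fun p _ => pow_nonneg (hx0 _) _
  have hprod : ∑ e ∈ Fintype.piFinset (fun _ : T => Finset.Icc 1 L), ∏ p : T, x p ^ (e p) =
      ∏ p : T, ∑ k ∈ Finset.Icc 1 L, x p ^ k :=
    (Finset.prod_univ_sum (fun _ : T => Finset.Icc 1 L) (fun p k => x p ^ k)).symm
  have hgeom : ∀ p : T, ∑ k ∈ Finset.Icc 1 L, x p ^ k ≤
      (if ((Ideal.absNorm (p : Ideal (𝓞 K)) : ℕ) : ℝ) ^ η < 2 then B else 1) := by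
    intro p
    have hN2 : (2 : ℝ) ≤ ((Ideal.absNorm (p : Ideal (𝓞 K)) : ℕ) : ℝ) := by
      exact_mod_cast hT2 p p.2
    set q : ℝ := ((Ideal.absNorm (p : Ideal (𝓞 K)) : ℕ) : ℝ) ^ η with hq
    have hq2 : 2 ^ η ≤ q := Real.rpow_le_rpow (by norm_num) hN2 hη.le
    have hq1 : 1 < q := lt_of_lt_of_le h2η hq2
    have hxq : x p = q⁻¹ := rfl
    have hx1 : x p < 1 := by rw [hxq]; exact inv_lt_one_of_one_lt₀ hq1
    have hle : ∑ k ∈ Finset.Icc 1 L, x p ^ k ≤ 1 / (q - 1) := by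
      have h1 : ∑ k ∈ Finset.Icc 1 L, x p ^ k = x p * ∑ k ∈ Finset.range L, x p ^ k := by
        rw [Finset.mul_sum, Finset.range_eq_Ico, Finset.sum_Ico_eq_sum_range]
        rw [← Finset.Ico_succ_right_eq_Icc, Finset.sum_Ico_eq_sum_range]
        simp only [Order.succ_eq_add_one, Nat.add_sub_cancel, Nat.sub_zero, zero_add]
        refine Finset.sum_congr rfl fun k _ => ?_
        rw [add_comm, pow_succ, mul_comm]
      have h2 : ∑ k ∈ Finset.range L, x p ^ k ≤ 1 / (1 - x p) := by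
        rw [geom_sum_eq hx1.ne, ← neg_div_neg_eq, neg_sub, neg_sub]
        have : 0 < 1 - x p := by linarith
        gcongr
        have := pow_nonneg (hx0 p) L
        linarith
      rw [h1]
      calc x p * ∑ k ∈ Finset.range L, x p ^ k ≤ x p * (1 / (1 - x p)) := by
            exact mul_le_mul_of_nonneg_left h2 (hx0 _)
        _ = 1 / (q - 1) := by
            rw [hxq]
            have : q ≠ 0 := by positivity
            have : q - 1 ≠ 0 := by linarith
            field_simp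
    refine hle.trans ?_
    split_ifs with h
    · refine le_trans ?_ (le_max_right _ _)
      apply one_div_le_one_div_of_le (by linarith)
      linarith
    · push Not at h
      rw [div_le_one (by linarith)]
      linarith
  calc (S.card : ℝ) = ∑ _I ∈ S, (1 : ℝ) := by simp
    _ ≤ ∑ I ∈ S, X ^ η * ∏ p : T, x p ^ (expo I p) := Finset.sum_le_sum hterm
    _ = X ^ η * ∑ I ∈ S, ∏ p : T, x p ^ (expo I p) := by rw [Finset.mul_sum]
    _ ≤ X ^ η * ∏ p : T, (if ((Ideal.absNorm (p : Ideal (𝓞 K)) : ℕ) : ℝ) ^ η < 2 then B else 1) := by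
        refine mul_le_mul_of_nonneg_left ?_ (by positivity)
        rw [hprod] at hsum
        refine hsum.trans (Finset.prod_le_prod (fun p _ => ?_) fun p _ => hgeom p)
        exact Finset.sum_nonneg fun k _ => pow_nonneg (hx0 _) _
    _ = X ^ η * ∏ p ∈ T, (if ((Ideal.absNorm (p : Ideal (𝓞 K)) : ℕ) : ℝ) ^ η < 2 then B else 1) := by
        rw [← Finset.prod_coe_sort T]
    _ ≤ X ^ η * B ^ Msmall K η := by
        refine mul_le_mul_of_nonneg_left (prod_small_le hη hB1 T) (by positivity)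
    _ = B ^ Msmall K η * X ^ η := mul_comm _ _

lemma absNorm_le_finite (R : ℝ) :
    {I : Ideal (𝓞 K) | ((Ideal.absNorm I : ℕ) : ℝ) ≤ R}.Finite := by
  refine (Ideal.finite_setOfPred_absNorm_le (S := 𝓞 K) ⌈R⌉₊).subset ?_
  intro I hI
  have : ((Ideal.absNorm I : ℕ) : ℝ) ≤ (⌈R⌉₊ : ℝ) := le_trans hI (Nat.le_ceil R)
  exact_mod_cast this

/-- The number of ideals of norm at most `R` is `O(R)`. -/
lemma ideals_le : ∃ C : ℝ, 0 < C ∧ ∀ R : ℝ, 1 ≤ R →
    (({I : Ideal (𝓞 K) | ((Ideal.absNorm I : ℕ) : ℝ) ≤ R}).ncard : ℝ) ≤ C * R := by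
  have h := NumberField.Ideal.tendsto_norm_le_div_atTop K
  set ρ := (2 ^ InfinitePlace.nrRealPlaces K * (2 * Real.pi) ^ InfinitePlace.nrComplexPlaces K *
    Units.regulator K * classNumber K) / (Units.torsionOrder K * Real.sqrt |discr K|) with hρ
  have h1 : ∀ᶠ s : ℝ in atTop,
      (Nat.card {I : Ideal (𝓞 K) // Ideal.absNorm I ≤ s} : ℝ) / s < ρ + 1 :=
    h.eventually (gt_mem_nhds (by linarith))
  obtain ⟨s₀, hs₀⟩ := eventually_atTop.mp h1
  set s₁ := max s₀ 1 with hs₁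
  set N₁ := ({I : Ideal (𝓞 K) | ((Ideal.absNorm I : ℕ) : ℝ) ≤ s₁}).ncard with hN₁
  have hcard : ∀ s : ℝ, ({I : Ideal (𝓞 K) | ((Ideal.absNorm I : ℕ) : ℝ) ≤ s}).ncard =
      Nat.card {I : Ideal (𝓞 K) // Ideal.absNorm I ≤ s} := fun s => rfl
  refine ⟨|ρ + 1| + N₁ + 1, by positivity, ?_⟩
  intro R hR
  by_cases hRs : R ≤ s₁
  · have h2 : ({I : Ideal (𝓞 K) | ((Ideal.absNorm I : ℕ) : ℝ) ≤ R}).ncard ≤ N₁ :=
      Set.ncard_le_ncard (fun I hI => le_trans hI hRs) (absNorm_le_finite s₁)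
    have h3 : (({I : Ideal (𝓞 K) | ((Ideal.absNorm I : ℕ) : ℝ) ≤ R}).ncard : ℝ) ≤ N₁ := by
      exact_mod_cast h2
    have h4 : 0 ≤ |ρ + 1| := abs_nonneg _
    have h5 : (0 : ℝ) ≤ N₁ := Nat.cast_nonneg _
    nlinarith
  · push Not at hRs
    have h2 := hs₀ R ((le_max_left _ _).trans hRs.le)
    rw [div_lt_iff₀ (by linarith), ← hcard] at h2
    have h4 : ρ + 1 ≤ |ρ + 1| := le_abs_self _
    have h5 : (0 : ℝ) ≤ N₁ := Nat.cast_nonneg _
    nlinarith

lemma absNorm_prod (T : Finset (Ideal (𝓞 K))) :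
    Ideal.absNorm (∏ p ∈ T, p) = ∏ p ∈ T, Ideal.absNorm p := map_prod _ _ _

/-- A set of prime ideals is determined by its product. -/
lemma normalizedFactors_prod_primes (T : Finset (Ideal (𝓞 K))) (hT : ∀ p ∈ T, Prime p) :
    normalizedFactors (∏ p ∈ T, p) = T.val := by
  have h := normalizedFactors_prod_of_prime (m := T.val) (fun p hp => hT p hp)
  rwa [Finset.prod_val] at h

/-- Counting ideals of norm at most `X` whose prime divisors outside `J` have product of norms at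
most `R`. -/
theorem ideal_count {ε : ℝ} (hε : 0 < ε) : ∃ C : ℝ, 0 < C ∧ ∀ X : ℝ, 1 ≤ X → ∀ R : ℝ, 1 ≤ R →
    ∀ J : Ideal (𝓞 K), J ≠ 0 → ∀ S : Finset (Ideal (𝓞 K)),
    (∀ I ∈ S, I ≠ 0 ∧ ((Ideal.absNorm I : ℕ) : ℝ) ≤ X ∧
      (∏ p ∈ pr I \ pr J, ((Ideal.absNorm p : ℕ) : ℝ)) ≤ R) →
    (S.card : ℝ) ≤ C * ((Ideal.absNorm J : ℕ) : ℝ) ^ ε * R * X ^ ε := by
  obtain ⟨C₁, hC₁, hcount⟩ := ideals_le (K := K)
  set B : ℝ := (max 1 (1 / (2 ^ ε - 1))) ^ Msmall K ε with hB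
  have hB0 : 0 < B := by positivity
  refine ⟨B * 2 ^ Msmall K ε * C₁, by positivity, ?_⟩
  intro X hX R hR J hJ S hS
  let key : Ideal (𝓞 K) → Finset (Ideal (𝓞 K)) × Finset (Ideal (𝓞 K)) :=
    fun I => (pr I ∩ pr J, pr I \ pr J)
  let 𝒯 : Finset (Finset (Ideal (𝓞 K))) := S.image (fun I => pr I \ pr J)
  have h𝒯 : (𝒯.card : ℝ) ≤ C₁ * R := by
    have hfin := absNorm_le_finite (K := K) R
    have hmaps : ∀ T ∈ 𝒯, (∏ p ∈ T, p) ∈ hfin.toFinset := by
      intro T hT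
      obtain ⟨I, hI, rfl⟩ := Finset.mem_image.mp hT
      rw [Set.Finite.mem_toFinset, Set.mem_ofPred_eq, absNorm_prod]
      push_cast
      exact (hS I hI).2.2
    have hinj : Set.InjOn (fun T : Finset (Ideal (𝓞 K)) => ∏ p ∈ T, p)
        (𝒯 : Set (Finset (Ideal (𝓞 K)))) := by
      intro T hT T' hT' hTT
      have hpr : ∀ T ∈ 𝒯, ∀ p ∈ T, Prime p := by
        intro T hT p hp
        obtain ⟨I, hI, rfl⟩ := Finset.mem_image.mp hT
        exact pr_prime (Finset.mem_sdiff.mp hp).1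
      have h1 := normalizedFactors_prod_primes T (hpr T hT)
      have h2 := normalizedFactors_prod_primes T' (hpr T' hT')
      apply Finset.val_injective
      rw [← h1, ← h2]
      exact congrArg normalizedFactors hTT
    have h1 := Finset.card_le_card_of_injOn _ hmaps hinj
    have h2 := hcount R hR
    rw [Set.ncard_eq_toFinset_card _ hfin] at h2
    exact le_trans (by exact_mod_cast h1) h2
  have himg : (S.image key) ⊆ (pr J).powerset ×ˢ 𝒯 := by
    intro b hb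
    obtain ⟨I, hI, rfl⟩ := Finset.mem_image.mp hb
    rw [Finset.mem_product]
    exact ⟨Finset.mem_powerset.mpr Finset.inter_subset_right, Finset.mem_image_of_mem _ hI⟩
  have hfib : ∀ b ∈ S.image key, ((S.filter (fun I => key I = b)).card : ℝ) ≤ B * X ^ ε := by
    intro b hb
    refine rankin hε hX (b.1 ∪ b.2) _ ?_
    intro I hI
    rw [Finset.mem_filter] at hI
    obtain ⟨hI1, rfl⟩ := hI
    refine ⟨(hS I hI1).1, ?_, (hS I hI1).2.1⟩
    simp only [key]
    rw [Finset.union_comm, Finset.sdiff_union_inter]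
  have hcard := Finset.card_eq_sum_card_image key S
  calc (S.card : ℝ) = ∑ b ∈ S.image key, ((S.filter (fun I => key I = b)).card : ℝ) := by
        exact_mod_cast hcard
    _ ≤ ∑ _b ∈ S.image key, B * X ^ ε := Finset.sum_le_sum hfib
    _ = ((S.image key).card : ℝ) * (B * X ^ ε) := by rw [Finset.sum_const, nsmul_eq_mul]
    _ ≤ (((pr J).powerset ×ˢ 𝒯).card : ℝ) * (B * X ^ ε) := by
        have := Finset.card_le_card himg
        gcongr
    _ = ((2 : ℝ) ^ (pr J).card * 𝒯.card) * (B * X ^ ε) := by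
        rw [Finset.card_product, Finset.card_powerset]
        push_cast
        ring
    _ ≤ ((2 ^ Msmall K ε * ((Ideal.absNorm J : ℕ) : ℝ) ^ ε) * (C₁ * R)) * (B * X ^ ε) := by
        have := two_pow_card_pr_le hε J hJ
        gcongr
    _ = B * 2 ^ Msmall K ε * C₁ * ((Ideal.absNorm J : ℕ) : ℝ) ^ ε * R * X ^ ε := by ring

end FreyAvg
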