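import Pool.Agent.Lib.MP_6babc4_nt.AvgFinal

/-!
# The main theorem, with boxes `|a_i| ≤ H^(1 - lam i)`
-/

open Polynomial NumberField Module Filter
open scoped Classical

namespace FreyAvg

variable {K : Type*} [Field K] [NumberField K]

/-- The coefficient vectors of the polynomials of degree `n` with
`|σ (a_i)| ≤ H ^ (1 - lam i)` for all the complex embeddings `σ`. -/
def Family (K : Type*) [Field K] [NumberField K] (n : ℕ) (lam H : ℝ) :
    Set (Fin (n + 1) → 𝓞 K) :=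
  {a | a (Fin.last n) ≠ 0 ∧ ∀ i : Fin (n + 1), a i ∈ Box K (H ^ (1 - lam * ((i : ℕ) : ℝ)))}

lemma div_pow_eq {lam H : ℝ} (hH : 0 < H) (i : ℕ) :
    H / (H ^ lam) ^ i = H ^ (1 - lam * i) := by
  rw [Real.rpow_sub hH, Real.rpow_one, ← Real.rpow_natCast, ← Real.rpow_mul hH.le]

lemma expo_eq (n : ℕ) (κ : ℝ) {lam H : ℝ} (hH : 0 < H) :
    expo n κ (H ^ lam) H =
      H ^ ((((n - 1) / 2 : ℕ) : ℝ) * (1 - lam * ((((n - 1) / 2 : ℕ) : ℝ) + 1)) / (2 * κ)) := by
  unfold expo
  rw [← Real.rpow_natCast H, ← Real.rpow_natCast (H ^ lam), ← Real.rpow_mul hH.le,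
    ← Real.rpow_sub hH, ← Real.rpow_mul hH.le]
  congr 1
  push_cast
  ring

lemma one_mem_box {H : ℝ} (hH : 1 ≤ H) : (1 : 𝓞 K) ∈ Box K H := by
  intro σ
  rw [map_one, map_one, norm_one]
  exact hH

/-- The main theorem. -/
theorem main {n : ℕ} (hn : 3 ≤ n) {lam : ℝ} (hl0 : 0 ≤ lam) (hl1 : lam * n ≤ 1) {κ ε : ℝ}
    (hκ : 0 < κ) (hε : 0 < ε) :
    ∃ c : ℝ, ∀ H : ℝ, 1 ≤ H →
      (Box K H).Finite ∧
      ({a ∈ Family K n lam H | ¬ Frey n κ c (poly a)}.ncard : ℝ) ≤
        c * (H ^ ((((n - 1) / 2 : ℕ) : ℝ) * (1 - lam * ((((n - 1) / 2 : ℕ) : ℝ) + 1)) / (2 * κ)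
          - finrank ℚ K + ε) + H ^ (-((finrank ℚ K : ℝ) * (1 - lam)))) *
        ((Family K n lam H).ncard : ℝ) ∧
      ∀ P : (𝓞 K)[X], P.natDegree = n → (∀ i : ℕ, P.coeff i ∈ Box K (H ^ (1 - lam * i))) →
        ((derivative P).map (algebraMap (𝓞 K) K)).Separable →
        ({t ∈ Box K H | ¬ Frey n κ c (C t + P)}.ncard : ℝ) ≤
          c * H ^ ((((n - 1) / 2 : ℕ) : ℝ) * (1 - lam * ((((n - 1) / 2 : ℕ) : ℝ) + 1)) / (2 * κ)
            - finrank ℚ K + ε) * ((Box K H).ncard : ℝ) := by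
  obtain ⟨k, rfl⟩ : ∃ k, n = k + 2 := ⟨n - 2, by omega⟩
  have hk : 1 ≤ k := by omega
  obtain ⟨A, hA, hfibre⟩ := fibre (K := K) hn hκ hε
  obtain ⟨cb, hcb, hbox⟩ := box_card_ge (K := K)
  set d := finrank ℚ K with hd
  set g : ℕ := (k + 2 - 1) / 2 with hg
  set θ : ℝ := (g : ℝ) * (1 - lam * ((g : ℝ) + 1)) / (2 * κ) with hθ
  set A' : ℝ := A + (A + k) / cb with hA'
  have hAA' : A ≤ A' := by
    have : 0 ≤ (A + k) / cb := by positivity
    linarith
  have hkA' : (A + k) / cb ≤ A' := by linarith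
  refine ⟨A', ?_⟩
  intro H hH
  have hH0 : 0 < H := by linarith
  have hρ : 1 ≤ H ^ lam := Real.one_le_rpow hH hl0
  have hE : A * expo (k + 2) κ (H ^ lam) H * H ^ ε = A * H ^ (θ + ε) := by
    rw [expo_eq _ _ hH0, Real.rpow_add hH0, mul_assoc]
  have hAc : A / cb ≤ A' := by
    refine le_trans ?_ hkA'
    gcongr
    linarith [Nat.cast_nonneg (α := ℝ) k]
  have hpencil : ∀ P : (𝓞 K)[X], P.natDegree = k + 2 →
      (∀ i : ℕ, P.coeff i ∈ Box K (H ^ (1 - lam * i))) →
      ((derivative P).map (algebraMap (𝓞 K) K)).Separable →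
      ({t ∈ Box K H | ¬ Frey (k + 2) κ A' (C t + P)}.ncard : ℝ) ≤
        A' * H ^ (θ - d + ε) * ((Box K H).ncard : ℝ) := by
    intro P hdeg hP hsep
    have hQ : dres (k + 2 - 1) (derivative P) ≠ 0 := by
      refine dres_ne_zero_of_separable (by omega) ?_ hsep
      rw [natDegree_derivative, hdeg]
    have h1 := hfibre (H ^ lam) hρ H hH P hdeg
      (fun i => by rw [div_pow_eq hH0]; exact hP i) hQ
    rw [hE] at h1
    have h2 : {t ∈ Box K H | ¬ Frey (k + 2) κ A' (C t + P)} ⊆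
        {t : 𝓞 K | t ∈ Box K H ∧ ¬ Frey (k + 2) κ A (C t + P)} :=
      fun t ht => ⟨ht.1, fun h => ht.2 (h.mono hAA')⟩
    have h3 := Set.ncard_le_ncard h2 ((box_finite H).subset fun t ht => ht.1)
    calc ({t ∈ Box K H | ¬ Frey (k + 2) κ A' (C t + P)}.ncard : ℝ) ≤
        ({t : 𝓞 K | t ∈ Box K H ∧ ¬ Frey (k + 2) κ A (C t + P)}.ncard : ℝ) := by
          exact_mod_cast h3
      _ ≤ A * H ^ (θ + ε) := h1
      _ = A / cb * H ^ (θ - d + ε) * (cb * H ^ d) := by
          have : H ^ (θ + ε) = H ^ (θ - d + ε) * H ^ d := by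
            rw [← Real.rpow_natCast H d, ← Real.rpow_add hH0]
            congr 1
            ring
          rw [this]
          field_simp
      _ ≤ A' * H ^ (θ - d + ε) * ((Box K H).ncard : ℝ) := by
          have h4 : 0 ≤ H ^ (θ - d + ε) := Real.rpow_nonneg (by linarith) _
          have h5 := hbox H hH
          gcongr
  refine ⟨box_finite H, ?_, hpencil⟩
  -- the boxes
  have hge1 : ∀ i : Fin (k + 3), 1 ≤ H ^ (1 - lam * ((i : ℕ) : ℝ)) := by
    intro i
    apply Real.one_le_rpow hH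
    have h1 : ((i : ℕ) : ℝ) ≤ ((k + 2 : ℕ) : ℝ) := by exact_mod_cast Nat.lt_succ_iff.mp i.2
    have h2 : lam * ((i : ℕ) : ℝ) ≤ lam * ((k + 2 : ℕ) : ℝ) := by gcongr
    linarith
  let B : Fin (k + 3) → Finset (𝓞 K) := fun i =>
    if i = Fin.last (k + 2) then
      (box_finite (K := K) (H ^ (1 - lam * ((i : ℕ) : ℝ)))).toFinset.erase 0
    else (box_finite (K := K) (H ^ (1 - lam * ((i : ℕ) : ℝ)))).toFinset
  have hBlast : B (Fin.last (k + 2)) = (box_finite (K := K)
      (H ^ (1 - lam * (((Fin.last (k + 2) : Fin (k + 3)) : ℕ) : ℝ)))).toFinset.erase 0 :=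
    if_pos rfl
  have hBother : ∀ i, i ≠ Fin.last (k + 2) →
      B i = (box_finite (K := K) (H ^ (1 - lam * ((i : ℕ) : ℝ)))).toFinset :=
    fun i hi => if_neg hi
  have hBmem : ∀ i, ∀ b ∈ B i, b ∈ Box K (H ^ (1 - lam * ((i : ℕ) : ℝ))) := by
    intro i b hb
    by_cases hi : i = Fin.last (k + 2)
    · subst hi
      rw [hBlast] at hb
      exact (Set.Finite.mem_toFinset _).mp (Finset.mem_of_mem_erase hb)
    · rw [hBother i hi] at hb
      exact (Set.Finite.mem_toFinset _).mp hb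
  have hBone : ∀ i, (1 : 𝓞 K) ∈ B i := by
    intro i
    by_cases hi : i = Fin.last (k + 2)
    · subst hi
      rw [hBlast, Finset.mem_erase]
      exact ⟨one_ne_zero, (Set.Finite.mem_toFinset _).mpr (one_mem_box (hge1 _))⟩
    · rw [hBother i hi]
      exact (Set.Finite.mem_toFinset _).mpr (one_mem_box (hge1 i))
  have hfam : Family K (k + 2) lam H =
      ((Fintype.piFinset B : Finset _) : Set (Fin (k + 3) → 𝓞 K)) := by
    ext a
    rw [Finset.mem_coe, Fintype.mem_piFinset]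
    constructor
    · rintro ⟨h0, h1⟩ i
      by_cases hi : i = Fin.last (k + 2)
      · subst hi
        rw [hBlast, Finset.mem_erase]
        exact ⟨h0, (Set.Finite.mem_toFinset _).mpr (h1 _)⟩
      · rw [hBother i hi]
        exact (Set.Finite.mem_toFinset _).mpr (h1 i)
    · intro h
      refine ⟨?_, fun (i : Fin (k + 3)) => hBmem i _ (h i)⟩
      have := h (Fin.last (k + 2))
      rw [hBlast, Finset.mem_erase] at this
      exact this.1
  set S : Finset (Fin (k + 3) → 𝓞 K) :=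
    (Fintype.piFinset B).filter (fun a => ¬ Frey (k + 2) κ A' (poly a)) with hS
  have hSset : {a ∈ Family K (k + 2) lam H | ¬ Frey (k + 2) κ A' (poly a)} =
      (S : Set (Fin (k + 3) → 𝓞 K)) := by
    rw [hfam, hS, Finset.coe_filter]
    rfl
  have hb := boxes (K := K) hk hA hfibre hρ hH B
    (fun i b hb => by rw [div_pow_eq hH0]; exact hBmem i b hb) (fun i => ⟨1, hBone i⟩)
    (z := 0) le_rfl
    (by
      intro h
      rw [hBlast, Finset.mem_erase] at h
      exact absurd rfl h.1) S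
    (by
      intro a ha
      obtain ⟨h1, h2⟩ := Finset.mem_filter.mp ha
      exact ⟨Fintype.mem_piFinset.mp h1, fun h => h2 (h.mono hAA')⟩)
  rw [hSset, Set.ncard_coe_finset, hfam, Set.ncard_coe_finset, Fintype.card_piFinset]
  push_cast
  rw [hE, zero_div, add_zero] at hb
  -- the sizes of the first two boxes
  have h0ne : (0 : Fin (k + 3)) ≠ Fin.last (k + 2) := by
    intro h
    have := congrArg Fin.val h
    simp at this
  have h1ne : (1 : Fin (k + 3)) ≠ Fin.last (k + 2) := by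
    intro h
    have := congrArg Fin.val h
    rw [Fin.val_one, Fin.val_last] at this
    omega
  have hb0 : cb * H ^ (d : ℝ) ≤ ((B 0).card : ℝ) := by
    rw [hBother 0 h0ne, ← Set.ncard_eq_toFinset_card _ (box_finite _)]
    have := hbox (H ^ (1 - lam * (((0 : Fin (k + 3)) : ℕ) : ℝ))) (hge1 0)
    refine le_trans (le_of_eq ?_) this
    congr 1
    rw [← Real.rpow_natCast, ← Real.rpow_mul hH0.le]
    congr 1
    simp
  have hb1 : cb * H ^ ((d : ℝ) * (1 - lam)) ≤ ((B 1).card : ℝ) := by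
    rw [hBother 1 h1ne, ← Set.ncard_eq_toFinset_card _ (box_finite _)]
    have := hbox (H ^ (1 - lam * (((1 : Fin (k + 3)) : ℕ) : ℝ))) (hge1 1)
    refine le_trans (le_of_eq ?_) this
    congr 1
    rw [← Real.rpow_natCast, ← Real.rpow_mul hH0.le]
    congr 1
    rw [Fin.val_one]
    push_cast
    ring
  have hc0 : 0 < cb * H ^ (d : ℝ) := by positivity
  have hc1 : 0 < cb * H ^ ((d : ℝ) * (1 - lam)) := by positivity
  have hq0 : A * H ^ (θ + ε) / ((B 0).card : ℝ) ≤ A / cb * H ^ (θ - d + ε) := by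
    calc A * H ^ (θ + ε) / ((B 0).card : ℝ) ≤ A * H ^ (θ + ε) / (cb * H ^ (d : ℝ)) := by
          gcongr
      _ = A / cb * H ^ (θ - d + ε) := by
          have : H ^ (θ + ε) = H ^ (θ - d + ε) * H ^ (d : ℝ) := by
            rw [← Real.rpow_add hH0]
            congr 1
            ring
          rw [this]
          field_simp
  have hq1 : (k : ℝ) / ((B 1).card : ℝ) ≤ k / cb * H ^ (-((d : ℝ) * (1 - lam))) := by
    calc (k : ℝ) / ((B 1).card : ℝ) ≤ k / (cb * H ^ ((d : ℝ) * (1 - lam))) := by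
          gcongr
      _ = k / cb * H ^ (-((d : ℝ) * (1 - lam))) := by
          rw [Real.rpow_neg hH0.le]
          field_simp
  set X₁ := H ^ (θ - d + ε) with hX₁
  set X₂ := H ^ (-((d : ℝ) * (1 - lam))) with hX₂
  have hX₁0 : 0 ≤ X₁ := by positivity
  have hX₂0 : 0 ≤ X₂ := by positivity
  have hkc : (k : ℝ) / cb ≤ A' := by
    refine le_trans ?_ hkA'
    gcongr
    linarith
  calc (S.card : ℝ) ≤ (∏ i, ((B i).card : ℝ)) * (A * H ^ (θ + ε) / (B 0).card + k / (B 1).card) := hb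
    _ ≤ (∏ i, ((B i).card : ℝ)) * (A' * (X₁ + X₂)) := by
        refine mul_le_mul_of_nonneg_left ?_ (Finset.prod_nonneg fun _ _ => Nat.cast_nonneg _)
        calc A * H ^ (θ + ε) / (B 0).card + k / (B 1).card ≤ A / cb * X₁ + k / cb * X₂ :=
              add_le_add hq0 hq1
          _ ≤ A' * X₁ + A' * X₂ := by gcongr
          _ = A' * (X₁ + X₂) := by ring
    _ = A' * (X₁ + X₂) * ∏ i, ((B i).card : ℝ) := by ring

end FreyAvg
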