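import Mathlib

/-!
# Resultants of a polynomial and its derivative
-/

open Polynomial

namespace FreyAvg

/-- The resultant of `F'` and `F`, with formal degrees `m - 1` and `m`. -/
noncomputable def dres {R : Type*} [CommRing R] (m : ℕ) (F : R[X]) : R :=
  resultant (derivative F) F (m - 1) m

lemma dres_map {R S : Type*} [CommRing R] [CommRing S] (m : ℕ) (F : R[X]) (φ : R →+* S) :
    dres m (F.map φ) = φ (dres m F) := by
  rw [dres, derivative_map, resultant_map_map, dres]

lemma natDegree_derivative_of {k : Type*} [Field k] {F : k[X]} {m : ℕ} (hm : 1 ≤ m)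
    (hdeg : F.natDegree = m) (hlc : (m : k) ≠ 0) : (derivative F).natDegree = m - 1 := by
  have hF : F ≠ 0 := by
    rintro rfl
    simp at hdeg
    omega
  refine natDegree_eq_of_le_of_coeff_ne_zero ?_ ?_
  · have := natDegree_derivative_le F
    rwa [hdeg] at this
  · rw [coeff_derivative]
    have h1 : m - 1 + 1 = m := by omega
    have h2 : ((m - 1 : ℕ) : k) + 1 = (m : k) := by
      rw [← Nat.cast_succ, Nat.succ_eq_add_one, h1]
    rw [h1, h2]
    refine mul_ne_zero ?_ hlc
    rw [← hdeg]
    exact leadingCoeff_ne_zero.mpr hF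

/-- If the resultant vanishes then `F` and `F'` have a common irreducible factor. -/
lemma exists_common_of_dres_eq_zero {k : Type*} [Field k] {F : k[X]} {m : ℕ} (hm : 1 ≤ m)
    (hdeg : F.natDegree = m) (hlc : (m : k) ≠ 0) (h0 : dres m F = 0) :
    ∃ q : k[X], Irreducible q ∧ q ∣ F ∧ q ∣ derivative F := by
  have hF : F ≠ 0 := by
    rintro rfl
    simp at hdeg
    omega
  have hd := natDegree_derivative_of hm hdeg hlc
  have h1 : resultant (derivative F) F = 0 := by
    rw [dres] at h0
    rw [hd, hdeg]
    exact h0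
  have h2 := (resultant_eq_zero_iff.mp h1).2
  by_contra hcon
  push Not at hcon
  apply h2
  refine isCoprime_of_irreducible_dvd ?_ ?_
  · rintro ⟨-, h⟩
    exact hF h
  · intro q hq h3 h4
    exact hcon q hq h4 h3

lemma dres_eq_zero_of_common {k : Type*} [Field k] {F : k[X]} {m : ℕ} (hm : 1 ≤ m)
    (hdeg : F.natDegree ≤ m) {q : k[X]} (hq : ¬ IsUnit q) (h1 : q ∣ F)
    (h2 : q ∣ derivative F) : dres m F = 0 := by
  by_contra h0
  obtain ⟨p, r, -, -, h⟩ := exists_mul_add_mul_eq_C_resultant (m := m - 1) (n := m)
    (derivative F) F ((natDegree_derivative_le F).trans (by omega)) hdeg (by right; omega)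
  have h3 : q ∣ C (dres m F) := by
    rw [dres, ← h]
    exact dvd_add (h2.mul_right _) (h1.mul_right _)
  apply hq
  exact isUnit_of_dvd_unit h3 (isUnit_C.mpr (isUnit_iff_ne_zero.mpr h0))

/-- Over a perfect field, a common irreducible factor of `F` and `F'` divides `F` twice. -/
lemma sq_dvd_of_common {k : Type*} [Field k] [PerfectField k] {F q : k[X]}
    (hq : Irreducible q) (h1 : q ∣ F) (h2 : q ∣ derivative F) : q ^ 2 ∣ F := by
  obtain ⟨s, rfl⟩ := h1
  have hsep : q.Separable := PerfectField.separable_of_irreducible hq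
  rw [derivative_mul] at h2
  have h3 : q ∣ derivative q * s := by
    have := dvd_sub h2 (dvd_mul_right q (derivative s))
    simpa using this
  have h4 : q ∣ s := by
    have hc : IsCoprime q (derivative q) := hsep
    exact hc.dvd_of_dvd_mul_left h3
  rw [pow_two]
  exact mul_dvd_mul_left q h4

lemma dvd_deriv_of_sq_dvd {k : Type*} [CommRing k] {F q : k[X]} (h : q ^ 2 ∣ F) :
    q ∣ derivative F := by
  obtain ⟨s, rfl⟩ := h
  rw [derivative_mul, derivative_pow]
  refine dvd_add ?_ ?_
  · simp only [Nat.cast_ofNat, Nat.add_one_sub_one, pow_one]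
    exact ((dvd_mul_left q (C 2)).mul_right _).mul_right _
  · exact (dvd_pow_self q two_ne_zero).mul_right _

lemma sq_dvd_deriv_of_cube_dvd {k : Type*} [CommRing k] {F q : k[X]} (h : q ^ 3 ∣ F) :
    q ^ 2 ∣ derivative F := by
  obtain ⟨s, rfl⟩ := h
  rw [derivative_mul, derivative_pow]
  refine dvd_add ?_ ?_
  · simp only [Nat.cast_ofNat, Nat.add_one_sub_one]
    exact ((dvd_mul_left (q ^ 2) (C 3)).mul_right _).mul_right _
  · exact (pow_dvd_pow q (by norm_num)).mul_right _

/-- As the constant term varies, the resultant takes each value at most `m - 1` times. -/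
lemma dres_values {R : Type*} [CommRing R] (φ : R →+* ℂ) (hφ : Function.Injective φ)
    {G : R[X]} {m : ℕ} (hm : 2 ≤ m) (hdeg : G.natDegree = m) (e : R) :
    {t : R | dres m (C t + G) = e}.Finite ∧ {t : R | dres m (C t + G) = e}.ncard ≤ m - 1 := by
  classical
  have hGdeg : (G.map φ).natDegree = m := by
    rw [natDegree_map_eq_of_injective hφ, hdeg]
  have hd : (derivative (G.map φ)).natDegree = m - 1 :=
    natDegree_derivative_of (by omega) hGdeg (by exact_mod_cast (by omega : m ≠ 0))
  set D : ℂ[X] := derivative (G.map φ) with hD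
  have hD0 : D ≠ 0 := by
    intro h
    rw [h] at hd
    simp at hd
    omega
  set A : ℂ[X] := C (D.leadingCoeff ^ m) *
    (D.roots.map fun β => (X + C ((G.map φ).eval β) : ℂ[X])).prod with hA
  have hsplit : D.Splits := IsAlgClosed.splits D
  have hval : ∀ t : R, φ (dres m (C t + G)) = A.eval (φ t) := by
    intro t
    rw [← dres_map, dres, Polynomial.map_add, map_C]
    have hder : derivative (C (φ t) + G.map φ) = D := by
      rw [derivative_add, derivative_C, zero_add]
    rw [hder]
    have hle : (C (φ t) + G.map φ).natDegree ≤ m := by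
      refine (natDegree_add_le _ _).trans ?_
      rw [natDegree_C, hGdeg]
      simp
    have := resultant_eq_prod_eval D (C (φ t) + G.map φ) m hle hsplit
    rw [hd] at this
    rw [this, hA, eval_mul, eval_C, eval_multiset_prod, Multiset.map_map]
    congr 2
    refine Multiset.map_congr rfl ?_
    intro β _
    simp
  have hprod0 : (D.roots.map fun β => (X + C ((G.map φ).eval β) : ℂ[X])).prod.Monic :=
    monic_multiset_prod_of_monic _ _ (fun β _ => monic_X_add_C _)
  have hAdeg : A.natDegree = m - 1 := by
    rw [hA, natDegree_C_mul (pow_ne_zero _ (leadingCoeff_ne_zero.mpr hD0)),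
      natDegree_multiset_prod_of_monic]
    · rw [Multiset.map_map]
      simp only [Function.comp_apply, natDegree_X_add_C]
      rw [Multiset.map_const', Multiset.sum_replicate, smul_eq_mul, mul_one,
        ← hsplit.natDegree_eq_card_roots, hd]
    · intro f hf
      obtain ⟨β, -, rfl⟩ := Multiset.mem_map.mp hf
      exact monic_X_add_C _
  have hB : (A - C (φ e)).natDegree = m - 1 := by
    rw [natDegree_sub_C, hAdeg]
  have hB0 : A - C (φ e) ≠ 0 := by
    intro h
    rw [h] at hB
    simp at hB
    omega
  have hsub : {t : R | dres m (C t + G) = e} ⊆ φ ⁻¹' ((A - C (φ e)).roots.toFinset : Set ℂ) := by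
    intro t ht
    simp only [Set.mem_preimage, Finset.mem_coe, Multiset.mem_toFinset, mem_roots hB0,
      IsRoot.def, eval_sub, eval_C]
    rw [← hval t, show dres m (C t + G) = e from ht, sub_self]
  have hfin : (φ ⁻¹' ((A - C (φ e)).roots.toFinset : Set ℂ)).Finite :=
    Set.Finite.preimage hφ.injOn (Finset.finite_toSet _)
  refine ⟨hfin.subset hsub, (Set.ncard_le_ncard hsub hfin).trans ?_⟩
  have h1 : (φ ⁻¹' ((A - C (φ e)).roots.toFinset : Set ℂ)).ncard ≤
      ((A - C (φ e)).roots.toFinset : Set ℂ).ncard := by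
    rw [← Set.ncard_image_of_injective _ hφ]
    exact Set.ncard_le_ncard (Set.image_preimage_subset _ _) (Finset.finite_toSet _)
  refine h1.trans ?_
  rw [Set.ncard_coe_finset]
  refine (Multiset.toFinset_card_le _).trans ?_
  rw [← hB]
  exact card_roots' _

/-- A bound for the resultant. -/
lemma norm_dres_le {F : ℂ[X]} {m : ℕ} {M : ℝ} (hM0 : 0 ≤ M)
    (hM : ∀ i, ‖F.coeff i‖ ≤ M) :
    ‖dres m F‖ ≤ (Nat.factorial (m - 1 + m) : ℝ) * (m * M) ^ (m - 1 + m) := by
  have hent : ∀ i j : Fin (m - 1 + m),
      (IsAbsoluteValue.toAbsoluteValue (norm : ℂ → ℝ))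
        (sylvester (derivative F) F (m - 1) m i j) ≤ m * M := by
    intro i j
    change ‖sylvester (derivative F) F (m - 1) m i j‖ ≤ m * M
    have hm1 : 1 ≤ m := by
      rcases Nat.eq_zero_or_pos m with h | h
      · subst h
        exact i.elim0
      · exact h
    have hm1' : (1 : ℝ) ≤ m := by exact_mod_cast hm1
    have hMM : M ≤ m * M := by nlinarith
    have hMM0 : 0 ≤ m * M := by positivity
    rw [sylvester, Matrix.of_apply]
    refine Fin.addCases ?_ ?_ j
    · intro j₁
      rw [Fin.addCases_left]
      split_ifs with h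
      · exact (hM _).trans hMM
      · simpa using hMM0
    · intro j₁
      rw [Fin.addCases_right]
      split_ifs with h
      · rw [coeff_derivative, norm_mul]
        have h2 : (i : ℕ) - j₁ + 1 ≤ m := by
          have := h.2
          omega
        have h3 : ‖(((i : ℕ) - (j₁ : ℕ) : ℕ) : ℂ) + 1‖ ≤ m := by
          have : (((i : ℕ) - (j₁ : ℕ) : ℕ) : ℂ) + 1 = (((i : ℕ) - (j₁ : ℕ) + 1 : ℕ) : ℂ) := by
            push_cast
            ring
          rw [this, Complex.norm_natCast]
          exact_mod_cast h2
        rw [mul_comm]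
        exact mul_le_mul h3 (hM _) (norm_nonneg _) (by positivity)
      · simpa using hMM0
  have := Matrix.det_le hent
  rw [Fintype.card_fin, nsmul_eq_mul] at this
  exact this

end FreyAvg
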