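import Pool.Agent.Lib.MP_6babc4_nt.AvgIdeals
import Pool.Agent.Lib.MP_6babc4_nt.AvgRes

/-!
# The primes dividing the resultant are nodal, up to divisors of a fixed ideal
-/

open Polynomial NumberField Module UniqueFactorizationMonoid IsDedekindDomain
open scoped Classical

namespace FreyAvg

variable {K : Type*} [Field K] [NumberField K]

lemma perfect_quotient (p : Ideal (𝓞 K)) [hp : p.IsMaximal] (h0 : p ≠ ⊥) :
    letI := Ideal.Quotient.field p
    PerfectField (𝓞 K ⧸ p) := by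
  let _ := Ideal.Quotient.field p
  have : Finite (𝓞 K ⧸ p) := Ideal.finiteQuotientOfFreeOfNeBot p h0
  exact PerfectField.ofFinite

/-- A prime dividing the resultant of `f` and `f'`, but not `2 n lc(f) Res(f', f'')`, is nodal. -/
lemma nodal_of_dvd {f : (𝓞 K)[X]} {n : ℕ} (hn : 3 ≤ n) (hf : f.natDegree = n)
    (v : HeightOneSpectrum (𝓞 K)) (hE : dres n f ∈ v.asIdeal)
    (hJ : 2 * (n : 𝓞 K) * f.leadingCoeff * dres (n - 1) (derivative f) ∉ v.asIdeal) :
    Nodal f v := by
  set p := v.asIdeal with hp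
  have hmax : p.IsMaximal := v.isMaximal
  let _ := Ideal.Quotient.field p
  have := perfect_quotient p v.ne_bot
  set φ := Ideal.Quotient.mk p with hφ
  have h2 : (2 : 𝓞 K) ∉ p := fun h => hJ (by
    rw [mul_assoc, mul_assoc]
    exact p.mul_mem_right _ h)
  have hnn : (n : 𝓞 K) ∉ p := fun h => hJ (by
    rw [mul_assoc, mul_comm 2, mul_assoc]
    exact p.mul_mem_right _ h)
  have hlc : f.leadingCoeff ∉ p := fun h => hJ (by
    rw [mul_comm (2 * (n : 𝓞 K)), mul_assoc]
    exact p.mul_mem_right _ h)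
  have hQ : dres (n - 1) (derivative f) ∉ p := fun h => hJ (p.mul_mem_left _ h)
  refine ⟨h2, hlc, ?_⟩
  have hlc' : φ f.leadingCoeff ≠ 0 := fun h => hlc (Ideal.Quotient.eq_zero_iff_mem.mp h)
  have hdeg : (f.map φ).natDegree = n := by
    rw [natDegree_map_of_leadingCoeff_ne_zero φ hlc', hf]
  have hn' : (n : 𝓞 K ⧸ p) ≠ 0 := by
    intro h
    apply hnn
    rw [← Ideal.Quotient.eq_zero_iff_mem, map_natCast]
    exact h
  have hE' : dres n (f.map φ) = 0 := by
    rw [dres_map, Ideal.Quotient.eq_zero_iff_mem]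
    exact hE
  obtain ⟨q, hq, hq1, hq2⟩ := exists_common_of_dres_eq_zero (by omega) hdeg hn' hE'
  refine ⟨q, hq, sq_dvd_of_common hq hq1 hq2, ?_⟩
  intro hq3
  have h4 := sq_dvd_deriv_of_cube_dvd hq3
  have h5 := dvd_deriv_of_sq_dvd h4
  apply hQ
  rw [← Ideal.Quotient.eq_zero_iff_mem]
  have h6 : dres (n - 1) ((derivative f).map φ) = 0 := by
    rw [← derivative_map]
    refine dres_eq_zero_of_common (by omega) ?_ hq.not_isUnit hq2 h5
    exact (natDegree_derivative_le _).trans (by rw [hdeg])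
  rwa [dres_map] at h6

lemma map_dres_eq_zero {R k : Type*} [CommRing R] [Field k] (φ : R →+* k) {f : R[X]} {n : ℕ}
    (hn : 1 ≤ n) (hf : f.natDegree = n) {q : k[X]} (hq : Irreducible q) (h2 : q ^ 2 ∣ f.map φ) :
    φ (dres n f) = 0 := by
  rw [← dres_map]
  exact dres_eq_zero_of_common hn (natDegree_map_le.trans hf.le) hq.not_isUnit
    ((dvd_pow_self q two_ne_zero).trans h2) (dvd_deriv_of_sq_dvd h2)

lemma dvd_of_nodal {f : (𝓞 K)[X]} {n : ℕ} (hn : 1 ≤ n) (hf : f.natDegree = n)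
    (v : HeightOneSpectrum (𝓞 K)) (hv : Nodal f v) : dres n f ∈ v.asIdeal := by
  have hmax : v.asIdeal.IsMaximal := v.isMaximal
  let _ := Ideal.Quotient.field v.asIdeal
  obtain ⟨-, -, q, hq, hq2, -⟩ := hv
  have h := map_dres_eq_zero (Ideal.Quotient.mk v.asIdeal) hn hf (q := q) hq hq2
  exact Ideal.Quotient.eq_zero_iff_mem.mp h

lemma mem_pr_of_nodal {f : (𝓞 K)[X]} {n : ℕ} (hn : 1 ≤ n) (hf : f.natDegree = n)
    (hE : dres n f ≠ 0) (v : HeightOneSpectrum (𝓞 K)) (hv : Nodal f v) :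
    v.asIdeal ∈ pr (Ideal.span {dres n f}) := by
  rw [mem_pr_iff (by rwa [Ne, Ideal.zero_eq_bot, Ideal.span_singleton_eq_bot])]
  exact ⟨v.isPrime, (Ideal.span_singleton_le_iff_mem _).mpr (dvd_of_nodal hn hf v hv)⟩

lemma nodal_finite {f : (𝓞 K)[X]} {n : ℕ} (hn : 1 ≤ n) (hf : f.natDegree = n)
    (hE : dres n f ≠ 0) : {v : HeightOneSpectrum (𝓞 K) | Nodal f v}.Finite := by
  refine Set.Finite.of_finite_image (f := HeightOneSpectrum.asIdeal)
    ((Finset.finite_toSet (pr (Ideal.span {dres n f}))).subset ?_)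
    (fun v _ w _ h => HeightOneSpectrum.ext h)
  rintro _ ⟨v, hv, rfl⟩
  exact mem_pr_of_nodal hn hf hE v hv

lemma one_le_absNorm (v : HeightOneSpectrum (𝓞 K)) : 1 ≤ Ideal.absNorm v.asIdeal := by
  have : Ideal.absNorm v.asIdeal ≠ 0 := by
    rw [Ne, Ideal.absNorm_eq_zero_iff]
    exact v.ne_bot
  omega

/-- The product of the norms of the prime divisors of the resultant outside `J` is at most the
nodal conductor. -/
lemma prod_le_nodalConductor {f : (𝓞 K)[X]} {n : ℕ} (hn : 3 ≤ n) (hf : f.natDegree = n)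
    (hE : dres n f ≠ 0) (hJ0 : 2 * (n : 𝓞 K) * f.leadingCoeff * dres (n - 1) (derivative f) ≠ 0) :
    ∏ p ∈ pr (Ideal.span {dres n f}) \
        pr (Ideal.span {2 * (n : 𝓞 K) * f.leadingCoeff * dres (n - 1) (derivative f)}),
      Ideal.absNorm p ≤ nodalConductor f := by
  have hfin := nodal_finite (by omega) hf hE
  have h1 : nodalConductor f = ∏ v ∈ hfin.toFinset, Ideal.absNorm v.asIdeal := by
    rw [nodalConductor]
    exact finprod_mem_eq_finite_toFinset_prod (fun v : HeightOneSpectrum (𝓞 K) =>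
      Ideal.absNorm v.asIdeal) hfin
  have h2 : ∏ v ∈ hfin.toFinset, Ideal.absNorm v.asIdeal =
      ∏ p ∈ hfin.toFinset.image HeightOneSpectrum.asIdeal, Ideal.absNorm p := by
    rw [Finset.prod_image]
    intro v _ w _ h
    exact HeightOneSpectrum.ext h
  rw [h1, h2]
  refine Finset.prod_le_prod_of_subset_of_one_le' ?_ ?_
  · intro p hp
    rw [Finset.mem_sdiff, mem_pr_iff (by rwa [Ne, Ideal.zero_eq_bot, Ideal.span_singleton_eq_bot]),
      mem_pr_iff (by rwa [Ne, Ideal.zero_eq_bot, Ideal.span_singleton_eq_bot])] at hp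
    obtain ⟨⟨hprime, hle⟩, hnot⟩ := hp
    rw [Ideal.span_singleton_le_iff_mem] at hle
    have hbot : p ≠ ⊥ := by
      rintro rfl
      exact hE (by simpa using hle)
    have hnot' : 2 * (n : 𝓞 K) * f.leadingCoeff * dres (n - 1) (derivative f) ∉ p := by
      intro h
      exact hnot ⟨hprime, (Ideal.span_singleton_le_iff_mem _).mpr h⟩
    let v : HeightOneSpectrum (𝓞 K) := ⟨p, hprime, hbot⟩
    rw [Finset.mem_image]
    refine ⟨v, ?_, rfl⟩
    rw [Set.Finite.mem_toFinset]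
    exact nodal_of_dvd hn hf v hle hnot'
  · intro p hp _
    obtain ⟨v, -, rfl⟩ := Finset.mem_image.mp hp
    exact one_le_absNorm v

end FreyAvg
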