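import Mathlib
import Pool.Agent.Lib.MP_6babc4_nt.Field

/-!
# The family of degree `n + 3`
-/

open NumberField Module Polynomial

namespace FreyHt

lemma famPoly_map_irreducible {n q : ℕ} (hq : n + 35 < 14 * q) :
    Irreducible ((famPoly n q).map (algebraMap ℤ ℚ)) :=
  ((famPoly_monic n q).irreducible_iff_irreducible_map_fraction_map (K := ℚ)).1
    (famPoly_irreducible hq)

/-- The height bound for a number field generated by a root of `famPoly n q`. -/
lemma familyOne_aux {K : Type*} [Field K] [NumberField K] {n q : ℕ} (hq : n + 35 < 14 * q)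
    (pb : PowerBasis ℚ K) (hdim : pb.dim = n + 3)
    (hroot : eval₂ (algebraMap ℤ K) pb.gen (famPoly n q) = 0)
    (hσ₀ : ∃ σ : K →+* ℂ, 15 * (q : ℝ) - 17 ≤ ‖σ pb.gen‖) :
    ∃ W : WeierstrassCurve (𝓞 K), IsUnit W.Δ ∧
      (1 / (8 * ((n : ℝ) + 3))) * Real.log (15 * q - 16) -
        (Real.log (48 * Jk) + (1 / 4) * Real.log 120) / 2 ≤ faltingsHeight K W ∧
      ((|discr K| : ℤ) : ℝ) ≤ (4 * (17 * q + 17) ^ 2) ^ ((n + 3) * (n + 3)) := by
  obtain ⟨σ₀, hσ₀⟩ := hσ₀
  set β : K := pb.gen with hβ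
  have hfin : finrank ℚ K = n + 3 := by rw [pb.finrank, hdim]
  have hint : IsIntegral ℤ β := ⟨famPoly n q, famPoly_monic n q, hroot⟩
  have heq : β ^ (n + 3) + (16 * β + 1) * (q * β ^ (n + 1) + 1) = 0 := by
    have h := hroot
    unfold famPoly at h
    simpa using h
  let b : 𝓞 K := ⟨β, hint⟩
  have hbβ : ((b : 𝓞 K) : K) = β := rfl
  have hbeq : b ^ (n + 3) + (16 * b + 1) * (q * b ^ (n + 1) + 1) = 0 := by
    apply RingOfIntegers.ext
    simpa [hbβ, map_ofNat] using heq
  have hbu : IsUnit b := by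
    refine IsUnit.of_mul_eq_one (-(b ^ (n + 2) + 16 * q * b ^ (n + 1) + q * b ^ n + 16)) ?_
    linear_combination -hbeq
  have hcu : IsUnit (1 + 16 * b) := by
    have h1 : (1 + 16 * b) * (-(q * b ^ (n + 1) + 1)) = b ^ (n + 3) := by
      linear_combination -hbeq
    have h2 : IsUnit ((1 + 16 * b) * (-(q * b ^ (n + 1) + 1))) := by
      rw [h1]; exact hbu.pow _
    exact isUnit_of_mul_isUnit_left h2
  let W : WeierstrassCurve (𝓞 K) := ⟨1, -b, -b, 0, 0⟩
  have hΔ : W.Δ = b ^ 4 * (1 + 16 * b) := by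
    simp only [W, WeierstrassCurve.Δ, WeierstrassCurve.b₂, WeierstrassCurve.b₄,
      WeierstrassCurve.b₆, WeierstrassCurve.b₈]
    ring
  have hΔu : IsUnit W.Δ := by rw [hΔ]; exact (hbu.pow 4).mul hcu
  have hb2 : W.b₂ = 1 - 4 * b := by simp only [W, WeierstrassCurve.b₂]; ring
  have hb4 : W.b₄ = -b := by simp only [W, WeierstrassCurve.b₄]; ring
  have hb6 : W.b₆ = b ^ 2 := by simp only [W, WeierstrassCurve.b₆]; ring
  have hβ0 : β ≠ 0 := by
    intro h0
    rw [h0] at heq
    simp at heq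
  have hβ1 : 1 + 16 * β ≠ 0 := by
    intro h0
    have h1 : β ^ (n + 3) = 0 := by linear_combination heq - (q * β ^ (n + 1) + 1) * h0
    exact hβ0 (pow_eq_zero_iff (by omega) |>.1 h1)
  -- embeddings
  have hσroot : ∀ σ : K →+* ℂ,
      (σ β) ^ (n + 3) + (16 * (σ β) + 1) * (q * (σ β) ^ (n + 1) + 1) = 0 := by
    intro σ
    have h := congrArg σ heq
    simpa [map_ofNat] using h
  have hσle : ∀ σ : K →+* ℂ, ‖σ β‖ ≤ 17 * q + 17 := by
    intro σ
    by_cases h : 1 ≤ ‖σ β‖
    · exact (famPoly_root_norm (hσroot σ) h).2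
    · push Not at h
      have : (0 : ℝ) ≤ q := Nat.cast_nonneg q
      linarith
  refine ⟨W, hΔu, ?_, ?_⟩
  · -- height
    set A : ℝ := Real.log (48 * Jk) + (1 / 4) * Real.log 120 with hA
    set g : (K →+* ℂ) → ℝ := fun σ => (1 / 4) * (2 * Real.log ‖σ β‖ +
      (1 / 2) * Real.log ‖1 + 16 * σ β‖ + Real.log (1 + ‖σ β‖)) with hg
    have hloc : ∀ σ : K →+* ℂ,
        Real.log (2 * areaIntegral (W.map (σ.comp (algebraMap (𝓞 K) K)))) ≤ A - g σ := by
      intro σ
      have c0 : σ β ≠ 0 := (map_ne_zero σ).2 hβ0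
      have c1 : 1 + 16 * σ β ≠ 0 := by
        have := (map_ne_zero σ).2 hβ1
        simpa [map_ofNat] using this
      refine (family_one_area c0 c1 ?_ ?_ ?_).2
      · rw [WeierstrassCurve.map_b₂, hb2]
        simp [hbβ, map_ofNat]
      · rw [WeierstrassCurve.map_b₄, hb4]
        simp [hbβ, map_ofNat]
      · rw [WeierstrassCurve.map_b₆, hb6]
        simp [hbβ, map_ofNat]
    have hge := height_ge hloc
    have hsum : ∑ σ, g σ = (1 / 4) * ∑ σ : K →+* ℂ, Real.log (1 + ‖σ β‖) := by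
      have u1 := sum_log_unit hbu
      have u2 := sum_log_unit hcu
      have u3 : ∑ σ : K →+* ℂ, Real.log ‖1 + 16 * σ β‖ = 0 := by
        rw [← u2]
        refine Finset.sum_congr rfl fun σ _ => ?_
        congr 2
        simp [hbβ, map_ofNat]
      rw [hbβ] at u1
      simp only [hg]
      rw [← Finset.mul_sum, Finset.sum_add_distrib, Finset.sum_add_distrib, ← Finset.mul_sum,
        ← Finset.mul_sum, u1, u3]
      ring
    have hone : Real.log (15 * q - 16) ≤ ∑ σ : K →+* ℂ, Real.log (1 + ‖σ β‖) := by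
      have hq2 : (35 : ℝ) < 14 * q := by
        have : 35 < 14 * q := by omega
        exact_mod_cast this
      calc Real.log (15 * q - 16) ≤ Real.log (1 + ‖σ₀ β‖) := by
            apply Real.log_le_log (by linarith)
            linarith
        _ ≤ _ := Finset.single_le_sum (f := fun σ : K →+* ℂ => Real.log (1 + ‖σ β‖))
            (fun σ _ => Real.log_nonneg (by linarith [norm_nonneg (σ β)])) (Finset.mem_univ σ₀)
    rw [hsum, hfin] at hge
    have hpos : (0 : ℝ) < (n : ℝ) + 3 := by positivity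
    have hfin' : (1 / (8 * ((n : ℝ) + 3))) * Real.log (15 * q - 16) ≤
        (1 / (2 * ((n + 3 : ℕ) : ℝ))) *
          ((1 / 4) * ∑ σ : K →+* ℂ, Real.log (1 + ‖σ β‖)) := by
      have e1 : (1 / (2 * ((n + 3 : ℕ) : ℝ))) *
          ((1 / 4) * ∑ σ : K →+* ℂ, Real.log (1 + ‖σ β‖)) =
          (1 / (8 * ((n : ℝ) + 3))) * ∑ σ : K →+* ℂ, Real.log (1 + ‖σ β‖) := by
        push_cast
        field_simp
        ring
      rw [e1]
      gcongr
    linarith
  · have hB : (1 : ℝ) ≤ 17 * q + 17 := by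
      have : (0 : ℝ) ≤ q := Nat.cast_nonneg q
      linarith
    have h := discr_le pb hint hB hσle
    rw [hdim] at h
    exact h

/-- The number field generated by a root of `famPoly n q`. -/
abbrev FamK (n q : ℕ) : Type := AdjoinRoot ((famPoly n q).map (algebraMap ℤ ℚ))

theorem familyOne {n q : ℕ} (hq : n + 35 < 14 * q) :
    ∃ (K : Type) (_ : Field K) (_ : NumberField K) (W : WeierstrassCurve (𝓞 K)),
      finrank ℚ K = n + 3 ∧ IsUnit W.Δ ∧
      (1 / (8 * ((n : ℝ) + 3))) * Real.log (15 * q - 16) -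
        (Real.log (48 * Jk) + (1 / 4) * Real.log 120) / 2 ≤ faltingsHeight K W ∧
      ((|discr K| : ℤ) : ℝ) ≤ (4 * (17 * q + 17) ^ 2) ^ ((n + 3) * (n + 3)) := by
  have hirr := famPoly_map_irreducible hq
  have : Fact (Irreducible ((famPoly n q).map (algebraMap ℤ ℚ))) := ⟨hirr⟩
  have hne : (famPoly n q).map (algebraMap ℤ ℚ) ≠ 0 := hirr.ne_zero
  let pb : PowerBasis ℚ (FamK n q) := AdjoinRoot.powerBasis hne
  have : FiniteDimensional ℚ (FamK n q) := pb.finite
  have : CharZero (FamK n q) := algebraRat.charZero _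
  have hnf : NumberField (FamK n q) := { }
  have hdim : pb.dim = n + 3 := by
    simp only [pb, AdjoinRoot.powerBasis_dim]
    rw [(famPoly_monic n q).natDegree_map, famPoly_natDegree]
  have hgen : pb.gen = AdjoinRoot.root ((famPoly n q).map (algebraMap ℤ ℚ)) :=
    AdjoinRoot.powerBasis_gen hne
  -- the equation of β
  have hroot : eval₂ (algebraMap ℤ (FamK n q)) pb.gen (famPoly n q) = 0 := by
    have h := AdjoinRoot.eval₂_root ((famPoly n q).map (algebraMap ℤ ℚ))
    rw [eval₂_map] at h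
    have e : (AdjoinRoot.of ((famPoly n q).map (algebraMap ℤ ℚ))).comp (algebraMap ℤ ℚ)
        = algebraMap ℤ (FamK n q) := RingHom.ext_int _ _
    rw [e] at h
    rw [hgen]
    exact h
  have hσ₀ : ∃ σ : FamK n q →+* ℂ, 15 * (q : ℝ) - 17 ≤ ‖σ pb.gen‖ := by
    obtain ⟨z, hz, hz1⟩ := exists_root_ge_one (famPoly_monic n q)
      (by rw [famPoly_natDegree]; omega) (by rw [famPoly_coeff_zero]; simp)
    have hzr := famPoly_mem_roots hz
    have hev : eval₂ (algebraMap ℚ ℂ) z ((famPoly n q).map (algebraMap ℤ ℚ)) = 0 := by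
      rw [eval₂_map]
      have e : (algebraMap ℚ ℂ).comp (algebraMap ℤ ℚ) = Int.castRingHom ℂ :=
        RingHom.ext_int _ _
      rw [e, famPoly]
      simpa using hzr
    refine ⟨AdjoinRoot.lift (algebraMap ℚ ℂ) z hev, ?_⟩
    rw [hgen, AdjoinRoot.lift_root]
    exact (famPoly_root_norm hzr hz1).1
  obtain ⟨W, h1, h2, h3⟩ := familyOne_aux hq pb hdim hroot hσ₀
  exact ⟨FamK n q, inferInstance, hnf, W, by rw [pb.finrank, hdim], h1, h2, h3⟩

end FreyHt
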