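import Mathlib
import Pool.Agent.Lib.MP_6babc4_nt.Field

/-!
# The quadratic family
-/

open NumberField Module Polynomial

namespace FreyHt

/-- `A = 48 k + 13`. -/
def qA (k : ℕ) : ℤ := 48 * k + 13
/-- `r = A ^ 3 - 1728`. -/
def qr (k : ℕ) : ℤ := 110592 * k ^ 3 + 89856 * k ^ 2 + 24336 * k + 469
/-- `S = (1 + r) / 2`. -/
def qS (k : ℕ) : ℤ := 55296 * k ^ 3 + 44928 * k ^ 2 + 12168 * k + 235
/-- `N = (1 + 3 r) / 16`. -/
def qN (k : ℕ) : ℤ := 20736 * k ^ 3 + 16848 * k ^ 2 + 4563 * k + 88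
/-- `u = (r - A) / 24`. -/
def qu (k : ℕ) : ℤ := 4608 * k ^ 3 + 3744 * k ^ 2 + 1012 * k + 19
/-- `v`. -/
def qv (k : ℕ) : ℤ := 256 * k ^ 3 + 208 * k ^ 2 + 56 * k + 1

lemma qr_eq (k : ℕ) : qr k = qA k ^ 3 - 1728 := by unfold qr qA; ring
lemma qS_eq (k : ℕ) : 2 * qS k = 1 + qr k := by unfold qS qr; ring
lemma qN_eq (k : ℕ) : 16 * qN k = 1 + 3 * qr k := by unfold qN qr; ring
lemma qu_eq (k : ℕ) : 24 * qu k = qr k - qA k := by unfold qu qr qA; ring
lemma qv_eq (k : ℕ) : 1 + 36 * qu k - 216 * qv k = qr k := by unfold qu qv qr; ring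

/-- The polynomial `X ^ 2 - S X + N`. -/
noncomputable def quadPoly (k : ℕ) : ℤ[X] := X ^ 2 + (C (-qS k) * X + C (qN k))

lemma quadPoly_low (k : ℕ) : (C (-qS k) * X + C (qN k) : ℤ[X]).degree < ((2 : ℕ) : WithBot ℕ) :=
  lt_of_le_of_lt degree_linear_le (by norm_num)

lemma quadPoly_monic (k : ℕ) : (quadPoly k).Monic := monic_X_pow_add (quadPoly_low k)

lemma quadPoly_natDegree (k : ℕ) : (quadPoly k).natDegree = 2 := by
  have h : (quadPoly k).degree = ((2 : ℕ) : WithBot ℕ) := by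
    unfold quadPoly
    rw [degree_add_eq_left_of_degree_lt]
    · exact degree_X_pow _
    · rw [degree_X_pow]; exact quadPoly_low k
  exact natDegree_eq_of_degree_eq_some h

lemma quadPoly_irreducible (k : ℕ) : Irreducible (quadPoly k) := by
  have hm := quadPoly_monic k
  rw [hm.irreducible_iff_roots_eq_zero_of_degree_le_three (by rw [quadPoly_natDegree])
    (by rw [quadPoly_natDegree]; norm_num)]
  rw [Multiset.eq_zero_iff_forall_notMem]
  intro t ht
  have h1 := (mem_roots'.1 ht).2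
  rw [IsRoot.def] at h1
  have h2 : t ^ 2 + (-qS k * t + qN k) = 0 := by
    unfold quadPoly at h1
    simpa using h1
  have hS := qS_eq k
  have hN := qN_eq k
  -- (2 (2t - S))^2 = r^2 - r
  have h3 : (2 * (2 * t - qS k)) ^ 2 = qr k ^ 2 - qr k := by
    have e1 : 4 * (2 * (2 * t - qS k)) ^ 2 = 4 * (qr k ^ 2 - qr k) := by
      linear_combination (64 : ℤ) * h2 + (2 * qS k + 1 + qr k) * 2 * hS * 2 - 4 * hN
    linarith
  have hr : 2 ≤ qr k := by
    unfold qr; nlinarith [sq_nonneg (k:ℤ), pow_nonneg (Int.natCast_nonneg k) 3, pow_nonneg (Int.natCast_nonneg k) 2]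
  set w : ℤ := 2 * (2 * t - qS k) with hw
  have h4 : |w| < qr k := by
    apply abs_lt_of_sq_lt_sq _ (by linarith)
    rw [h3]; linarith
  have h5 : qr k - 1 < |w| := by
    apply lt_of_pow_lt_pow_left₀ 2 (abs_nonneg w)
    rw [sq_abs, h3]
    nlinarith
  omega

/-- The height bound for the quadratic fields. -/
lemma familyTwo_aux {K : Type*} [Field K] [NumberField K] (k : ℕ)
    (pb : PowerBasis ℚ K) (hdim : pb.dim = 2)
    (hroot : eval₂ (algebraMap ℤ K) pb.gen (quadPoly k) = 0) :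
    ∃ W : WeierstrassCurve (𝓞 K), IsUnit W.Δ ∧
      (1 / 16) * Real.log (48 * k + 13) -
        (Real.log (48 * Jk) + (1 / 8) * Real.log 384) / 2 ≤ faltingsHeight K W ∧
      ((|discr K| : ℤ) : ℝ) ≤ (4 * ((48 * k + 13) ^ 3) ^ 2) ^ (2 * 2) := by
  set θ : K := pb.gen with hθ
  have hfin : finrank ℚ K = 2 := by rw [pb.finrank, hdim]
  have hint : IsIntegral ℤ θ := ⟨quadPoly k, quadPoly_monic k, hroot⟩
  have heq : θ ^ 2 - (qS k : K) * θ + (qN k : K) = 0 := by
    have h := hroot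
    unfold quadPoly at h
    have h' : θ ^ 2 + (-(qS k : K) * θ + (qN k : K)) = 0 := by
      rw [eval₂_add, eval₂_add, eval₂_mul, eval₂_pow, eval₂_X, eval₂_C, eval₂_C] at h
      simpa using h
    linear_combination h'
  let t : 𝓞 K := ⟨θ, hint⟩
  have htθ : ((t : 𝓞 K) : K) = θ := rfl
  have hteq : t ^ 2 - (qS k : 𝓞 K) * t + (qN k : 𝓞 K) = 0 := by
    apply RingOfIntegers.ext
    simpa [htθ] using heq
  -- cast identities
  have cr : (qr k : 𝓞 K) = (qA k : 𝓞 K) ^ 3 - 1728 := by exact_mod_cast congrArg (Int.cast : ℤ → 𝓞 K) (qr_eq k)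
  have cS : 2 * (qS k : 𝓞 K) = 1 + (qr k : 𝓞 K) := by exact_mod_cast congrArg (Int.cast : ℤ → 𝓞 K) (qS_eq k)
  have cN : 16 * (qN k : 𝓞 K) = 1 + 3 * (qr k : 𝓞 K) := by exact_mod_cast congrArg (Int.cast : ℤ → 𝓞 K) (qN_eq k)
  have cu : 24 * (qu k : 𝓞 K) = (qr k : 𝓞 K) - (qA k : 𝓞 K) := by exact_mod_cast congrArg (Int.cast : ℤ → 𝓞 K) (qu_eq k)
  have cv : 1 + 36 * (qu k : 𝓞 K) - 216 * (qv k : 𝓞 K) = (qr k : 𝓞 K) := by exact_mod_cast congrArg (Int.cast : ℤ → 𝓞 K) (qv_eq k)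
  let W : WeierstrassCurve (𝓞 K) := ⟨1, -t, 1,
    4 * qu k * t - ((6912 * k ^ 3 + 5616 * k ^ 2 + 1518 * k + 29 : ℤ) : 𝓞 K),
    -(8 * qS k - 5) * qv k * t + 8 * qN k * qv k -
      ((192 * k ^ 3 + 156 * k ^ 2 + 42 * k + 1 : ℤ) : 𝓞 K)⟩
  have hb2 : W.b₂ = -(4 * t - 1) := by
    simp only [W, WeierstrassCurve.b₂]; ring
  have hb4 : W.b₄ = (8 * t - 3) * qu k := by
    simp only [W, WeierstrassCurve.b₄, qu]
    push_cast
    ring
  have hb6 : W.b₆ = -(4 * t - 1) * (8 * t - 3) * qv k := by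
    have h1 : (W.b₆ : 𝓞 K) = -(32 * (qS k : 𝓞 K) - 20) * qv k * t +
        (32 * (qN k : 𝓞 K) - 3) * qv k := by
      simp only [W, WeierstrassCurve.b₆, qv]
      push_cast
      ring
    rw [h1]
    linear_combination (32 * (qv k : 𝓞 K)) * hteq
  have hw2 : (4 * t - 1) ^ 2 = (qr k : 𝓞 K) * (8 * t - 3) := by
    linear_combination 16 * hteq + 8 * t * cS - cN
  have hc4 : W.c₄ = qA k * (8 * t - 3) := by
    rw [WeierstrassCurve.c₄, hb2, hb4]
    linear_combination hw2 - (8 * t - 3) * cu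
  have hc6 : W.c₆ = (4 * t - 1) * (8 * t - 3) := by
    rw [WeierstrassCurve.c₆, hb2, hb4, hb6]
    linear_combination (4 * t - 1) * hw2 - (4 * t - 1) * (8 * t - 3) * cv
  have hΔ : W.Δ = (8 * t - 3) ^ 3 := by
    have h1 := W.c_relation
    rw [hc4, hc6] at h1
    have h2 : (1728 : 𝓞 K) * W.Δ = 1728 * (8 * t - 3) ^ 3 := by
      rw [h1]
      linear_combination (-(8 * t - 3) ^ 2) * hw2 - (8 * t - 3) ^ 3 * cr
    exact mul_left_cancel₀ (by norm_num) h2
  have hηu : IsUnit (8 * t - 3) := by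
    refine IsUnit.of_mul_eq_one (8 * (qS k - t) - 3) ?_
    linear_combination (-64 : 𝓞 K) * hteq - 12 * cS + 4 * cN
  have hΔu : IsUnit W.Δ := by rw [hΔ]; exact hηu.pow 3
  have hA0 : (0 : ℝ) < 48 * k + 13 := by positivity
  have hη0 : 8 * θ - 3 ≠ 0 := by
    have h1 : (8 * t - 3 : 𝓞 K) ≠ 0 := hηu.ne_zero
    intro h0
    apply h1
    apply RingOfIntegers.ext
    simpa [htθ, map_ofNat] using h0
  refine ⟨W, hΔu, ?_, ?_⟩
  · set A : ℝ := Real.log (48 * Jk) + (1 / 8) * Real.log 384 with hA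
    set g : (K →+* ℂ) → ℝ := fun σ => (1 / 8) * (3 * Real.log ‖8 * σ θ - 3‖ +
      (Real.log (48 * k + 13) + Real.log ‖8 * σ θ - 3‖)) with hg
    have hloc : ∀ σ : K →+* ℂ,
        Real.log (2 * areaIntegral (W.map (σ.comp (algebraMap (𝓞 K) K)))) ≤ A - g σ := by
      intro σ
      have c1 : 8 * σ θ - 3 ≠ 0 := by
        have := (map_ne_zero σ).2 hη0
        simpa [map_ofNat] using this
      have d1 : (W.map (σ.comp (algebraMap (𝓞 K) K))).Δ = (8 * σ θ - 3) ^ 3 := by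
        rw [WeierstrassCurve.map_Δ, hΔ]
        simp [htθ, map_ofNat]
      have d2 : (W.map (σ.comp (algebraMap (𝓞 K) K))).c₄ = ((48 * k + 13 : ℕ) : ℂ) * (8 * σ θ - 3) := by
        rw [WeierstrassCurve.map_c₄, hc4]
        simp [htθ, map_ofNat, qA]
      have n1 : ‖(((48 * k + 13 : ℕ) : ℂ))‖ = 48 * k + 13 := by
        rw [Complex.norm_natCast]; push_cast; ring
      have hk0 : (((48 * k + 13 : ℕ) : ℂ)) ≠ 0 := by
        rw [← norm_ne_zero_iff, n1]; exact hA0.ne'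
      have h := (area_c4 (W := W.map (σ.comp (algebraMap (𝓞 K) K)))
        (by rw [d1]; exact pow_ne_zero 3 c1) (by rw [d2]; exact mul_ne_zero hk0 c1)).2
      rw [d1, d2, norm_pow, norm_mul, n1, Real.log_pow,
        Real.log_mul hA0.ne' (norm_ne_zero_iff.2 c1)] at h
      simp only [hg, hA]
      push_cast at h
      linarith
    have hge := height_ge hloc
    have hsum : ∑ σ, g σ = (1 / 4) * Real.log (48 * k + 13) := by
      have u1 := sum_log_unit hηu
      have u2 : ∑ σ : K →+* ℂ, Real.log ‖8 * σ θ - 3‖ = 0 := by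
        rw [← u1]
        refine Finset.sum_congr rfl fun σ _ => ?_
        congr 2
        simp [htθ, map_ofNat]
      simp only [hg]
      rw [← Finset.mul_sum, Finset.sum_add_distrib, Finset.sum_add_distrib, ← Finset.mul_sum,
        u2, Finset.sum_const, Finset.card_univ, nsmul_eq_mul, card_embeddings, hfin]
      push_cast
      ring
    rw [hsum, hfin] at hge
    push_cast at hge
    linarith
  · have hS0 : (0 : ℝ) ≤ (qS k : ℝ) := by
      unfold qS; push_cast; positivity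
    have hN0 : (0 : ℝ) ≤ (qN k : ℝ) := by
      unfold qN; push_cast; positivity
    have hSN : (qS k : ℝ) + (qN k : ℝ) + 1 ≤ (48 * k + 13) ^ 3 := by
      unfold qS qN
      push_cast
      have : (0 : ℝ) ≤ k := Nat.cast_nonneg k
      nlinarith [pow_nonneg this 3, pow_nonneg this 2]
    have hB : (1 : ℝ) ≤ (48 * k + 13) ^ 3 := by linarith
    have hσle : ∀ σ : K →+* ℂ, ‖σ θ‖ ≤ (48 * k + 13) ^ 3 := by
      intro σ
      by_cases h : 1 ≤ ‖σ θ‖
      · have h1 : (σ θ) ^ 2 = (qS k : ℂ) * σ θ - (qN k : ℂ) := by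
          have h0 := congrArg σ heq
          have h0' : (σ θ) ^ 2 - (qS k : ℂ) * σ θ + (qN k : ℂ) = 0 := by simpa using h0
          linear_combination h0'
        have h2 : ‖σ θ‖ ^ 2 ≤ (qS k : ℝ) * ‖σ θ‖ + (qN k : ℝ) := by
          rw [← norm_pow, h1]
          refine (norm_sub_le _ _).trans ?_
          rw [norm_mul, Complex.norm_intCast, Complex.norm_intCast, abs_of_nonneg hS0,
            abs_of_nonneg hN0]
        have h3 : ‖σ θ‖ * ‖σ θ‖ ≤ ((qS k : ℝ) + (qN k : ℝ)) * ‖σ θ‖ := by nlinarith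
        have h4 : ‖σ θ‖ ≤ (qS k : ℝ) + (qN k : ℝ) := le_of_mul_le_mul_right h3 (by linarith)
        linarith
      · push Not at h
        linarith
    have h := discr_le pb hint hB hσle
    rw [hdim] at h
    exact h

/-- The quadratic fields. -/
abbrev QuadK (k : ℕ) : Type := AdjoinRoot ((quadPoly k).map (algebraMap ℤ ℚ))

theorem familyTwo (k : ℕ) :
    ∃ (K : Type) (_ : Field K) (_ : NumberField K) (W : WeierstrassCurve (𝓞 K)),
      finrank ℚ K = 2 ∧ IsUnit W.Δ ∧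
      (1 / 16) * Real.log (48 * k + 13) -
        (Real.log (48 * Jk) + (1 / 8) * Real.log 384) / 2 ≤ faltingsHeight K W ∧
      ((|discr K| : ℤ) : ℝ) ≤ (4 * ((48 * k + 13) ^ 3) ^ 2) ^ (2 * 2) := by
  have hirr : Irreducible ((quadPoly k).map (algebraMap ℤ ℚ)) :=
    ((quadPoly_monic k).irreducible_iff_irreducible_map_fraction_map (K := ℚ)).1
      (quadPoly_irreducible k)
  have : Fact (Irreducible ((quadPoly k).map (algebraMap ℤ ℚ))) := ⟨hirr⟩
  have hne : (quadPoly k).map (algebraMap ℤ ℚ) ≠ 0 := hirr.ne_zero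
  let pb : PowerBasis ℚ (QuadK k) := AdjoinRoot.powerBasis hne
  have : FiniteDimensional ℚ (QuadK k) := pb.finite
  have : CharZero (QuadK k) := algebraRat.charZero _
  have hnf : NumberField (QuadK k) := { }
  have hdim : pb.dim = 2 := by
    simp only [pb, AdjoinRoot.powerBasis_dim]
    rw [(quadPoly_monic k).natDegree_map, quadPoly_natDegree]
  have hgen : pb.gen = AdjoinRoot.root ((quadPoly k).map (algebraMap ℤ ℚ)) :=
    AdjoinRoot.powerBasis_gen hne
  have hroot : eval₂ (algebraMap ℤ (QuadK k)) pb.gen (quadPoly k) = 0 := by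
    have h := AdjoinRoot.eval₂_root ((quadPoly k).map (algebraMap ℤ ℚ))
    rw [eval₂_map] at h
    have e : (AdjoinRoot.of ((quadPoly k).map (algebraMap ℤ ℚ))).comp (algebraMap ℤ ℚ)
        = algebraMap ℤ (QuadK k) := RingHom.ext_int _ _
    rw [e] at h
    rw [hgen]
    exact h
  obtain ⟨W, h1, h2, h3⟩ := familyTwo_aux k pb hdim hroot
  exact ⟨QuadK k, inferInstance, hnf, W, by rw [pb.finrank, hdim], h1, h2, h3⟩

end FreyHt
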