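import Mathlib

/-!
# The quadratic extension `F(√m)` and its discriminant
-/

set_option autoImplicit false

universe u

open NumberField Module Polynomial

namespace FreySharp

/-- If a prime `q` exactly divides `m` and does not divide the discriminant of `F`, then `m` is
not a square in `F`. -/
lemma not_square {F : Type*} [Field F] [NumberField F] {q : ℕ} (hq : q.Prime)
    (hqF : ¬ (q : ℤ) ∣ discr F) {m : ℤ} (h1 : (q : ℤ) ∣ m) (h2 : ¬ (q : ℤ) ^ 2 ∣ m) (z : F) :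
    z ^ 2 ≠ (m : F) := by
  intro hz
  have hqZ : Prime (q : ℤ) := Nat.prime_iff_prime_int.1 hq
  have hint : IsIntegral ℤ z := by
    refine IsIntegral.of_pow (n := 2) (by norm_num) ?_
    rw [hz]
    exact isIntegral_algebraMap (R := ℤ) (x := m)
  let y : 𝓞 F := ⟨z, hint⟩
  have hy : y ^ 2 = (m : 𝓞 F) := by
    apply RingOfIntegers.ext
    have e1 : (((m : 𝓞 F)) : F) = (m : F) := by simp
    rw [e1]
    exact hz
  -- a maximal ideal above `q`
  have hqu : ¬ IsUnit ((q : ℕ) : 𝓞 F) := by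
    intro hu
    have h3 := (NumberField.isUnit_iff_norm.1 hu)
    rw [RingOfIntegers.coe_norm] at h3
    have h4 : Algebra.norm ℚ ((((q : ℕ) : 𝓞 F)) : F) = (q : ℚ) ^ (finrank ℚ F) := by
      have : (((q : ℕ) : 𝓞 F) : F) = algebraMap ℚ F (q : ℚ) := by simp
      rw [this, Algebra.norm_algebraMap]
    rw [h4] at h3
    have h5 : (1 : ℚ) < (q : ℚ) ^ (finrank ℚ F) :=
      one_lt_pow₀ (by exact_mod_cast hq.one_lt) (finrank_pos).ne'
    rw [abs_of_pos (by linarith)] at h3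
    linarith
  have hne : Ideal.span {((q : ℕ) : 𝓞 F)} ≠ ⊤ := by
    rwa [Ne, Ideal.span_singleton_eq_top]
  obtain ⟨P, hP, hPq⟩ := Ideal.exists_le_maximal _ hne
  have hqP : ((q : ℕ) : 𝓞 F) ∈ P := hPq (Ideal.mem_span_singleton_self _)
  obtain ⟨m₁, rfl⟩ := h1
  have hcop : ¬ (q : ℤ) ∣ m₁ := by
    intro h
    apply h2
    rw [sq]
    exact mul_dvd_mul_left _ h
  have hmP : (((q : ℤ) * m₁ : ℤ) : 𝓞 F) ∈ P := by
    push_cast
    exact P.mul_mem_right _ hqP
  have hyP : y ∈ P := hP.isPrime.mem_of_pow_mem 2 (by rw [hy]; exact hmP)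
  have hm2 : (((q : ℤ) * m₁ : ℤ) : 𝓞 F) ∈ P ^ 2 := by
    rw [← hy]; exact Ideal.pow_mem_pow hyP 2
  have hq2 : ((q : ℕ) : 𝓞 F) ∈ P ^ 2 := by
    obtain ⟨u, v, huv⟩ := (Prime.coprime_iff_not_dvd hqZ).2 hcop
    have e : ((q : ℕ) : 𝓞 F) = (v : 𝓞 F) * (((q : ℤ) * m₁ : ℤ) : 𝓞 F) +
        (u : 𝓞 F) * ((q : ℕ) : 𝓞 F) ^ 2 := by
      have h6 : ((u * (q : ℤ) + v * m₁ : ℤ) : 𝓞 F) = 1 := by rw [huv]; simp
      push_cast at h6 ⊢
      linear_combination (-((q : ℕ) : 𝓞 F)) * h6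
    rw [e]
    exact add_mem (Ideal.mul_mem_left _ _ hm2) (Ideal.mul_mem_left _ _ (Ideal.pow_mem_pow hqP 2))
  have hspan : (Ideal.span {(q : ℤ)}).IsMaximal :=
    PrincipalIdealRing.isMaximal_of_irreducible hqZ.irreducible
  have hdvd : P ^ 2 ∣ (Ideal.span {(q : ℤ)}).map (algebraMap ℤ (𝓞 F)) := by
    rw [Ideal.dvd_iff_le, Ideal.map_span, Set.image_singleton, Ideal.span_singleton_le_iff_mem]
    simpa using hq2
  have h7 : P ^ (2 - 1) ∣ differentIdeal ℤ (𝓞 F) :=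
    pow_sub_one_dvd_differentIdeal ℤ P 2
      (by rw [Ne, Ideal.span_singleton_eq_bot]; exact hqZ.ne_zero) hdvd
  rw [show 2 - 1 = 1 from rfl, pow_one] at h7
  have h8 : Ideal.absNorm P ∣ (discr F).natAbs := by
    rw [← absNorm_differentIdeal F (𝓞 F)]
    exact map_dvd Ideal.absNorm h7
  have h9 : q ∣ Ideal.absNorm P := by
    have h10 : (Ideal.absNorm P : ℤ) ∣ Algebra.norm ℤ ((q : ℕ) : 𝓞 F) :=
      Ideal.absNorm_dvd_norm_of_mem hqP
    have h11 : Algebra.norm ℤ ((q : ℕ) : 𝓞 F) = (q : ℤ) ^ (finrank ℤ (𝓞 F)) := by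
      have : ((q : ℕ) : 𝓞 F) = algebraMap ℤ (𝓞 F) (q : ℤ) := by simp
      rw [this, Algebra.norm_algebraMap_of_basis (Free.chooseBasis ℤ (𝓞 F)),
        finrank_eq_card_chooseBasisIndex]
    rw [h11] at h10
    have h12 : Ideal.absNorm P ∣ q ^ (finrank ℤ (𝓞 F)) := by exact_mod_cast h10
    obtain ⟨k, -, hk⟩ := (Nat.dvd_prime_pow hq).1 h12
    have hk0 : k ≠ 0 := by
      rintro rfl
      rw [pow_zero, Ideal.absNorm_eq_one_iff] at hk
      exact hP.ne_top hk
    rw [hk]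
    exact dvd_pow_self _ hk0
  exact hqF (Int.natCast_dvd.2 (h9.trans h8))

/-- The quadratic extension `F(√m)` with a bound for its discriminant. -/
theorem exists_quadratic (F : Type u) [Field F] [NumberField F] {q : ℕ} (hq : q.Prime)
    (hqF : ¬ (q : ℤ) ∣ discr F) {m : ℤ} (h1 : (q : ℤ) ∣ m) (h2 : ¬ (q : ℤ) ^ 2 ∣ m) :
    ∃ (K : Type u) (_ : Field K) (_ : NumberField K) (_ : Algebra F K) (s : 𝓞 K),
      finrank F K = 2 ∧ s ^ 2 = (m : 𝓞 K) ∧
      (discr K).natAbs ≤ (4 * m.natAbs) ^ (finrank ℚ F) * (discr F).natAbs ^ 2 := by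
  have hirr : Irreducible (X ^ 2 - C (m : F)) :=
    X_pow_sub_C_irreducible_of_prime Nat.prime_two (fun b => not_square hq hqF h1 h2 b)
  have hm0 : m ≠ 0 := by
    rintro rfl
    exact h2 (dvd_zero _)
  have : Fact (Irreducible (X ^ 2 - C (m : F))) := ⟨hirr⟩
  have hf0 : (X ^ 2 - C (m : F)) ≠ 0 := hirr.ne_zero
  have hmonic : (X ^ 2 - C (m : F)).Monic := monic_X_pow_sub_C _ (by norm_num)
  let K := AdjoinRoot (X ^ 2 - C (m : F))
  have i1 : FiniteDimensional F K := (AdjoinRoot.powerBasis hf0).finite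
  have i2 : NumberField K := NumberField.of_module_finite F K
  have hfin : finrank F K = 2 := by
    rw [(AdjoinRoot.powerBasis hf0).finrank, AdjoinRoot.powerBasis_dim]
    exact natDegree_X_pow_sub_C
  have hroot : (AdjoinRoot.root (X ^ 2 - C (m : F)) : K) ^ 2 = (m : K) := by
    have h3 := AdjoinRoot.eval₂_root (X ^ 2 - C (m : F))
    rw [eval₂_sub, eval₂_X_pow, eval₂_C, sub_eq_zero] at h3
    rw [h3]
    exact map_intCast (AdjoinRoot.of (X ^ 2 - C (m : F))) m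
  have hint : IsIntegral ℤ (AdjoinRoot.root (X ^ 2 - C (m : F)) : K) := by
    refine IsIntegral.of_pow (n := 2) (by norm_num) ?_
    rw [hroot]
    exact isIntegral_algebraMap (R := ℤ) (x := m)
  let s : 𝓞 K := ⟨AdjoinRoot.root (X ^ 2 - C (m : F)), hint⟩
  have hs2 : s ^ 2 = (m : 𝓞 K) := by
    apply RingOfIntegers.ext
    have e1 : (((m : 𝓞 K)) : K) = (m : K) := by simp
    rw [e1]
    exact hroot
  refine ⟨K, inferInstance, i2, inferInstance, s, hfin, hs2, ?_⟩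
  have hmin : minpoly (𝓞 F) s = X ^ 2 - C (m : 𝓞 F) := by
    have h4 : minpoly F (algebraMap (𝓞 K) K s) = (minpoly (𝓞 F) s).map (algebraMap (𝓞 F) F) :=
      minpoly.isIntegrallyClosed_eq_field_fractions F K (Algebra.IsIntegral.isIntegral s)
    have h5 : minpoly F (algebraMap (𝓞 K) K s) = X ^ 2 - C (m : F) := by
      symm
      refine minpoly.eq_of_irreducible_of_monic hirr ?_ hmonic
      have : algebraMap (𝓞 K) K s = AdjoinRoot.root (X ^ 2 - C (m : F)) := rfl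
      rw [this, map_sub, map_pow, aeval_X, aeval_C, hroot, sub_eq_zero]
      exact (map_intCast (algebraMap F K) m).symm
    apply Polynomial.map_injective (algebraMap (𝓞 F) F) RingOfIntegers.coe_injective
    rw [← h4, h5, Polynomial.map_sub, Polynomial.map_pow, map_X, map_C]
    congr 2
  have hadj : Algebra.adjoin F {algebraMap (𝓞 K) K s} = ⊤ := AdjoinRoot.adjoinRoot_eq_top
  have hmem := aeval_derivative_mem_differentIdeal (𝓞 F) F K s hadj
  rw [hmin] at hmem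
  have hmem' : 2 * s ∈ differentIdeal (𝓞 F) (𝓞 K) := by
    have e2 : aeval s (derivative (X ^ 2 - C (m : 𝓞 F))) = 2 * s := by
      rw [derivative_sub, derivative_X_pow, derivative_C, sub_zero]
      simp only [map_mul, aeval_C, map_pow, aeval_X]
      norm_num
      exact Or.inl (map_ofNat (algebraMap (𝓞 F) (𝓞 K)) 2)
    rw [e2] at hmem
    exact hmem
  have hdvd : (Ideal.absNorm (differentIdeal (𝓞 F) (𝓞 K)) : ℤ) ∣ Algebra.norm ℤ (2 * s) :=
    Ideal.absNorm_dvd_norm_of_mem hmem'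
  have hnorm : (Algebra.norm ℤ (2 * s)) ^ 2 = (4 * m) ^ (2 * finrank ℚ F) := by
    rw [← map_pow]
    have e1 : (2 * s) ^ 2 = algebraMap ℤ (𝓞 K) (4 * m) := by
      rw [mul_pow, hs2]
      simp
      norm_num
    rw [e1, Algebra.norm_algebraMap_of_basis (Free.chooseBasis ℤ (𝓞 K)),
      ← finrank_eq_card_chooseBasisIndex, RingOfIntegers.rank, ← finrank_mul_finrank ℚ F K, hfin,
      mul_comm (finrank ℚ F)]
  have hle : Ideal.absNorm (differentIdeal (𝓞 F) (𝓞 K)) ≤ (4 * m.natAbs) ^ (finrank ℚ F) := by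
    have h6 : (Algebra.norm ℤ (2 * s)).natAbs = (4 * m.natAbs) ^ (finrank ℚ F) := by
      have h7 := congrArg Int.natAbs hnorm
      rw [Int.natAbs_pow, Int.natAbs_pow, Int.natAbs_mul, pow_mul',
        show (4 : ℤ).natAbs = 4 from rfl] at h7
      exact Nat.pow_left_injective (by norm_num : (2 : ℕ) ≠ 0) h7
    rw [← h6]
    apply Nat.le_of_dvd
    · rw [h6]
      have : 0 < m.natAbs := Int.natAbs_pos.2 hm0
      positivity
    · exact Int.natCast_dvd.1 hdvd
  rw [natAbs_discr_eq_absNorm_differentIdeal_mul_natAbs_discr_pow F (𝓞 F) K (𝓞 K), hfin]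
  gcongr

end FreySharp
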