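import Mathlib

/-!
# A family of elliptic curves with good reduction everywhere
-/

set_option autoImplicit false

open NumberField IsDedekindDomain WeierstrassCurve

namespace FreySharp

/-- The elliptic curve over the number field `K` given by the Weierstrass equation `W` has good
reduction at every finite place `v` of `K`: some change of variables over `K` makes all the
coefficients `v`-integral and the discriminant a `v`-adic unit. -/
def GoodReductionEverywhere (K : Type*) [Field K] [NumberField K] (W : WeierstrassCurve K) :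
    Prop :=
  ∀ v : HeightOneSpectrum (𝓞 K), ∃ C : VariableChange K,
    v.valuation K (C • W).a₁ ≤ 1 ∧ v.valuation K (C • W).a₂ ≤ 1 ∧ v.valuation K (C • W).a₃ ≤ 1 ∧
    v.valuation K (C • W).a₄ ≤ 1 ∧ v.valuation K (C • W).a₆ ≤ 1 ∧ v.valuation K (C • W).Δ = 1

/-- The curve `y² = x³ - t/(2A) x² - 144/A² x + 8t/A³`. -/
def curve {K : Type*} [Field K] (A t : K) : WeierstrassCurve K :=
  ⟨0, -(t / (2 * A)), 0, -(144 / A ^ 2), 8 * t / A ^ 3⟩

section
variable {K : Type*} [Field K] [CharZero K] {A t : K}

lemma curve_c₄ (hA : A ≠ 0) (h : t ^ 2 = A ^ 3 - 1728) : (curve A t).c₄ = 4 * A := by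
  simp only [curve, WeierstrassCurve.c₄, WeierstrassCurve.b₂, WeierstrassCurve.b₄]
  have h2 : (2 : K) ≠ 0 := two_ne_zero
  field_simp
  linear_combination (16 : K) * h

lemma curve_Δ (hA : A ≠ 0) (h : t ^ 2 = A ^ 3 - 1728) : (curve A t).Δ = 64 := by
  simp only [curve, WeierstrassCurve.Δ, WeierstrassCurve.b₂, WeierstrassCurve.b₄,
    WeierstrassCurve.b₆, WeierstrassCurve.b₈]
  have h2 : (2 : K) ≠ 0 := two_ne_zero
  field_simp
  linear_combination 512 * (t ^ 2 + 1728 + A ^ 3) * h

end

section
variable {K : Type*} [Field K] [NumberField K] (v : HeightOneSpectrum (𝓞 K))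

lemma val_int_le (n : ℤ) : v.valuation K (n : K) ≤ 1 := by
  have h := v.valuation_le_one (K := K) (n : 𝓞 K)
  simpa using h

lemma val_one_of_coprime {a b : ℤ} (h : IsCoprime a b) (ha : v.valuation K (a : K) < 1) :
    v.valuation K (b : K) = 1 := by
  apply le_antisymm (val_int_le v b)
  by_contra hb
  rw [not_le] at hb
  obtain ⟨x, y, hxy⟩ := h
  have h1 : v.valuation K ((x : K) * a) < 1 := by
    rw [map_mul]
    calc v.valuation K (x : K) * v.valuation K (a : K) ≤ 1 * v.valuation K (a : K) := by
          gcongr; exact val_int_le v x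
      _ < 1 := by rwa [one_mul]
  have h2 : v.valuation K ((y : K) * b) < 1 := by
    rw [map_mul]
    calc v.valuation K (y : K) * v.valuation K (b : K) ≤ 1 * v.valuation K (b : K) := by
          gcongr; exact val_int_le v y
      _ < 1 := by rwa [one_mul]
  have h3 : v.valuation K ((x : K) * a + (y : K) * b) < 1 := Valuation.map_add_lt _ h1 h2
  have h4 : ((x : K) * a + (y : K) * b) = 1 := by exact_mod_cast congrArg (Int.cast : ℤ → K) hxy
  rw [h4, map_one] at h3
  exact lt_irrefl _ h3

end

/-- The curve `curve A (Y s)` has good reduction everywhere. -/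
theorem curve_good {K : Type*} [Field K] [NumberField K] {s : 𝓞 K} {m A Y : ℤ}
    (hs : s ^ 2 = (m : 𝓞 K)) (hA8 : A % 8 = 7) (hA3 : ¬ (3 : ℤ) ∣ A) (hm : m % 8 = 7)
    (hY : Y % 4 = 3) (h : A ^ 3 - 1728 = m * Y ^ 2) :
    GoodReductionEverywhere K (curve (A : K) ((Y : K) * (s : K))) := by
  intro v
  set V := v.valuation K with hV
  set t : K := (Y : K) * (s : K) with ht
  have hA0 : (A : K) ≠ 0 := by
    have : A ≠ 0 := by omega
    exact_mod_cast this
  have hs2 : (s : K) ^ 2 = (m : K) := by
    have := congrArg (algebraMap (𝓞 K) K) hs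
    simpa using this
  have ht2 : t ^ 2 = (A : K) ^ 3 - 1728 := by
    have h' : (A : K) ^ 3 - 1728 = m * (Y : K) ^ 2 := by exact_mod_cast congrArg (Int.cast : ℤ → K) h
    rw [h', ht, mul_pow, hs2]
    ring
  have hVs : V (s : K) ≤ 1 := v.valuation_le_one s
  have hVt : V t ≤ 1 := by
    rw [ht, map_mul]
    exact mul_le_one' (val_int_le v Y) hVs
  have hΔ := curve_Δ hA0 ht2
  have h20 : (2 : K) ≠ 0 := two_ne_zero
  have h60 : (6 : K) ≠ 0 := by norm_num
  have hV1 : ∀ n : ℤ, V (n : K) ≤ 1 := val_int_le v
  clear_value t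
  rcases lt_or_eq_of_le (val_int_le v 2) with h2 | h2
  · -- `v` divides `2`
    have hodd : ∀ n : ℤ, n % 2 = 1 → V (n : K) = 1 := by
      intro n hn
      refine val_one_of_coprime v ?_ h2
      refine ⟨-(n / 2), 1, ?_⟩
      omega
    have hVA : V (A : K) = 1 := hodd A (by omega)
    have hVm : V (m : K) = 1 := hodd m (by omega)
    have hVs1 : V (s : K) = 1 := by
      have h5 : V (s : K) * V (s : K) = 1 := by rw [← map_mul, ← sq, hs2, hVm]
      refine le_antisymm hVs ?_
      calc (1 : WithZero (Multiplicative ℤ)) = V (s : K) * V (s : K) := h5.symm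
        _ ≤ V (s : K) * 1 := by gcongr
        _ = V (s : K) := mul_one _
    obtain ⟨k, hk⟩ : ∃ k : ℤ, 1 + m = 8 * k := ⟨(1 + m) / 8, by omega⟩
    obtain ⟨j, hj⟩ : ∃ j : ℤ, Y * m + A = 4 * j := by
      refine ⟨(Y * m + A) / 4, ?_⟩
      have h6 : (Y * m + A) % 4 = 0 := by
        have h7 : m % 4 = 3 := by omega
        have h8 : A % 4 = 3 := by omega
        rw [Int.add_emod, Int.mul_emod, hY, h7, h8]
        norm_num
      omega
    have hkK : (1 : K) + m = 8 * k := by exact_mod_cast congrArg (Int.cast : ℤ → K) hk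
    have hjK : (Y : K) * m + A = 4 * j := by exact_mod_cast congrArg (Int.cast : ℤ → K) hj
    set η : K := 4 * k + s with hη
    have hη2 : (1 + (s : K)) ^ 2 = 2 * η := by
      rw [hη]; linear_combination hs2 + hkK
    have hVη : V η = 1 := by
      have h5 : V (((4 * k : ℤ) : K)) < 1 := by
        rw [show ((4 * k : ℤ) : K) = ((2 : ℤ) : K) * ((2 * k : ℤ) : K) by push_cast; ring, map_mul]
        calc V ((2 : ℤ) : K) * V ((2 * k : ℤ) : K) ≤ V ((2 : ℤ) : K) * 1 := by
              gcongr; exact hV1 _
          _ < 1 := by rw [mul_one]; exact h2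
      have h6 : η = ((4 * k : ℤ) : K) + s := by rw [hη]; push_cast; ring
      rw [h6, Valuation.map_add_eq_of_lt_right V (by rw [hVs1]; exact h5), hVs1]
    clear_value η
    have h1s : (1 : K) + s ≠ 0 := by
      intro h0
      rw [h0] at hη2
      have : η = 0 := by
        have := hη2.symm
        rw [zero_pow two_ne_zero] at this
        exact (mul_eq_zero.1 this).resolve_left h20
      rw [this, map_zero] at hVη
      exact zero_ne_one hVη
    have hu0 : (2 : K) / (1 + s) ≠ 0 := div_ne_zero h20 h1s
    have hts : t = Y * s := ht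
    have e1 : (⟨Units.mk0 (2 / (1 + (s : K))) hu0, 0, 1 / (1 + (s : K)), 0⟩ :
        VariableChange K) • curve (A : K) t =
        ⟨1, -(((k * Y : ℤ) : K) * s + (j : K)) / A, 0, -(36 * η ^ 2) / A ^ 2,
          η ^ 3 * t / A ^ 3⟩ := by
      ext
      · rw [variableChange_a₁]
        simp only [curve, Units.val_inv_eq_inv_val, Units.val_mk0]
        field_simp
        ring
      · rw [variableChange_a₂]
        simp only [curve, Units.val_inv_eq_inv_val, Units.val_mk0]
        field_simp
        push_cast
        linear_combination (-t) * hη2 + (-2 * t) * hη + (-2 * (4 * k + s)) * hts +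
          (-2 * (Y : K)) * hs2 + (-2) * hjK
      · rw [variableChange_a₃]
        simp only [curve, Units.val_inv_eq_inv_val, Units.val_mk0]
        ring
      · rw [variableChange_a₄]
        simp only [curve, Units.val_inv_eq_inv_val, Units.val_mk0]
        field_simp
        linear_combination (-144 : K) * ((1 + s) ^ 2 + 2 * η) * hη2
      · rw [variableChange_a₆]
        simp only [curve, Units.val_inv_eq_inv_val, Units.val_mk0]
        field_simp
        linear_combination 16 * t * ((1 + s) ^ 4 + 2 * η * (1 + s) ^ 2 + 4 * η ^ 2) * hη2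
    have e2 : ((⟨Units.mk0 (2 / (1 + (s : K))) hu0, 0, 1 / (1 + (s : K)), 0⟩ :
        VariableChange K) • curve (A : K) t).Δ = η ^ 6 := by
      rw [variableChange_Δ, hΔ]
      simp only [Units.val_inv_eq_inv_val, Units.val_mk0]
      field_simp
      linear_combination 64 * ((1 + (s : K)) ^ 10 + (1 + (s : K)) ^ 8 * (2 * η) +
        (1 + (s : K)) ^ 6 * (2 * η) ^ 2 + (1 + (s : K)) ^ 4 * (2 * η) ^ 3 +
        (1 + (s : K)) ^ 2 * (2 * η) ^ 4 + (2 * η) ^ 5) * hη2
    refine ⟨⟨Units.mk0 (2 / (1 + (s : K))) hu0, 0, 1 / (1 + (s : K)), 0⟩, ?_, ?_, ?_, ?_, ?_, ?_⟩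
    · rw [e1]; simp
    · rw [e1, map_div₀, hVA, div_one, Valuation.map_neg]
      refine Valuation.map_add_le V ?_ (hV1 j)
      rw [map_mul]
      exact mul_le_one' (hV1 _) hVs
    · rw [e1]; simp
    · rw [e1, map_div₀, map_pow, hVA, one_pow, div_one, Valuation.map_neg, map_mul, map_pow, hVη,
        one_pow, mul_one]
      exact_mod_cast hV1 36
    · rw [e1, map_div₀, map_pow, hVA, one_pow, div_one, map_mul, map_pow, hVη, one_pow, one_mul]
      exact hVt
    · rw [e2, map_pow, hVη, one_pow]
  · rcases lt_or_eq_of_le (val_int_le v 3) with h3 | h3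
    · -- `v` divides `3`
      have hVA : V (A : K) = 1 := by
        refine val_one_of_coprime v ?_ h3
        exact (Prime.coprime_iff_not_dvd Int.prime_three).2 hA3
      have h2' : V (2 : K) = 1 := by exact_mod_cast h2
      refine ⟨1, ?_, ?_, ?_, ?_, ?_, ?_⟩
      · rw [one_smul]; simp [curve]
      · rw [one_smul]
        simp only [curve]
        rw [Valuation.map_neg, map_div₀, map_mul, hVA, h2', mul_one, div_one]
        exact hVt
      · rw [one_smul]; simp [curve]
      · rw [one_smul]
        simp only [curve]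
        rw [Valuation.map_neg, map_div₀, map_pow, hVA, one_pow, div_one]
        exact_mod_cast hV1 144
      · rw [one_smul]
        simp only [curve]
        rw [map_div₀, map_pow, hVA, one_pow, div_one, map_mul]
        refine mul_le_one' ?_ hVt
        exact_mod_cast hV1 8
      · rw [one_smul, hΔ, show (64 : K) = 2 ^ 6 by norm_num, map_pow, h2', one_pow]
    · -- `v` does not divide `6`
      have h2' : V (2 : K) = 1 := by exact_mod_cast h2
      have h3' : V (3 : K) = 1 := by exact_mod_cast h3
      have hu0 : (1 : K) / 6 ≠ 0 := by norm_num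
      have e1 : (⟨Units.mk0 (1 / 6 : K) hu0, t / (6 * A), 0, 0⟩ :
          VariableChange K) • curve (A : K) t = ⟨0, 0, 0, -(108 * A), -(432 * t)⟩ := by
        ext
        · rw [variableChange_a₁]
          simp only [curve, Units.val_inv_eq_inv_val, Units.val_mk0]
          ring
        · rw [variableChange_a₂]
          simp only [curve, Units.val_inv_eq_inv_val, Units.val_mk0]
          field_simp
          ring
        · rw [variableChange_a₃]
          simp only [curve, Units.val_inv_eq_inv_val, Units.val_mk0]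
          ring
        · rw [variableChange_a₄]
          simp only [curve, Units.val_inv_eq_inv_val, Units.val_mk0]
          field_simp
          linear_combination (-108 : K) * ht2
        · rw [variableChange_a₆]
          simp only [curve, Units.val_inv_eq_inv_val, Units.val_mk0]
          field_simp
          linear_combination (-864 : K) * t * ht2
      have e2 : ((⟨Units.mk0 (1 / 6 : K) hu0, t / (6 * A), 0, 0⟩ :
          VariableChange K) • curve (A : K) t).Δ = 2 ^ 18 * 3 ^ 12 := by
        rw [variableChange_Δ, hΔ]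
        simp only [Units.val_inv_eq_inv_val, Units.val_mk0]
        norm_num
      refine ⟨⟨Units.mk0 (1 / 6 : K) hu0, t / (6 * A), 0, 0⟩, ?_, ?_, ?_, ?_, ?_, ?_⟩
      · rw [e1]; simp
      · rw [e1]; simp
      · rw [e1]; simp
      · rw [e1, Valuation.map_neg]
        exact_mod_cast hV1 (108 * A)
      · rw [e1, Valuation.map_neg, map_mul]
        refine mul_le_one' ?_ hVt
        exact_mod_cast hV1 432
      · rw [e2, map_mul, map_pow, map_pow, h2', h3', one_pow, one_pow, one_mul]

end FreySharp
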