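import Mathlib

/-!
# The Pell-type equation `X² + 108 = D Z²`
-/

set_option autoImplicit false

namespace FreySharp

/-- Units of norm one congruent to one. -/
lemma pell_unit (D M : ℤ) (hD : 0 < D) (hsq : ¬ IsSquare D) (hM : 0 < M) :
    ∃ U V : ℤ, U ^ 2 - D * V ^ 2 = 1 ∧ 0 < V ∧ 0 < U ∧ M ∣ U - 1 ∧ M ∣ V := by
  have hsq' : ¬ IsSquare (D * M ^ 2) := by
    rintro ⟨r, hr⟩
    apply hsq
    have h1 : M ^ 2 ∣ r ^ 2 := ⟨D, by linarith [hr, sq r]⟩
    have h2 : M ∣ r := (Int.pow_dvd_pow_iff (by norm_num)).1 h1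
    obtain ⟨k, rfl⟩ := h2
    refine ⟨k, ?_⟩
    have h3 : M ^ 2 ≠ 0 := by positivity
    apply mul_right_cancel₀ h3
    linarith
  obtain ⟨x, y, hxy, hy⟩ := Pell.exists_of_not_isSquare (by positivity : 0 < D * M ^ 2) hsq'
  have hx0 : x ≠ 0 := by
    rintro rfl
    have : 0 ≤ D * M ^ 2 * y ^ 2 := by positivity
    linarith
  have hy2 : 0 < y ^ 2 := by positivity
  refine ⟨1 + 2 * (D * M ^ 2) * y ^ 2, |2 * x * y * M|, ?_, ?_, ?_, ?_, ?_⟩
  · rw [sq_abs]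
    linear_combination (4 * D * M ^ 2 * y ^ 2) * (-hxy)
  · positivity
  · positivity
  · exact ⟨2 * (D * M) * y ^ 2, by ring⟩
  · rw [dvd_abs]
    exact ⟨2 * x * y, by ring⟩

/-- Arbitrarily large solutions. -/
lemma solutions (D M X₀ : ℤ) (hD : 0 < D) (hsq : ¬ IsSquare D) (hM : 0 < M) (hX₀ : 0 ≤ X₀)
    (h0 : X₀ ^ 2 + 108 = D) (n : ℕ) :
    ∃ X Z : ℤ, (n : ℤ) ≤ X ∧ 0 < Z ∧ X ^ 2 + 108 = D * Z ^ 2 ∧ M ∣ X - X₀ ∧ M ∣ Z - 1 := by
  obtain ⟨U, V, hUV, hV, hU, hU1, hV1⟩ := pell_unit D M hD hsq hM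
  induction n with
  | zero => exact ⟨X₀, 1, by simpa using hX₀, one_pos, by rw [h0]; ring, by simp, by simp⟩
  | succ n ih =>
    obtain ⟨X, Z, h1, h2, h3, h4, h5⟩ := ih
    have hX : 0 ≤ X := le_trans (Int.natCast_nonneg n) h1
    refine ⟨U * X + D * V * Z, V * X + U * Z, ?_, ?_, ?_, ?_, ?_⟩
    · have e1 : X ≤ U * X := by nlinarith
      have e2 : 1 ≤ D * V * Z := by
        have : 0 < D * V * Z := by positivity
        linarith
      push_cast
      linarith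
    · have : 0 ≤ V * X := by positivity
      have : 0 < U * Z := by positivity
      linarith
    · linear_combination (U ^ 2 - D * V ^ 2) * h3 - 108 * hUV
    · have : U * X + D * V * Z - X₀ = (U - 1) * X + V * (D * Z) + (X - X₀) := by ring
      rw [this]
      exact dvd_add (dvd_add (hU1.mul_right _) (hV1.mul_right _)) h4
    · have : V * X + U * Z - 1 = V * X + (U - 1) * Z + (Z - 1) := by ring
      rw [this]
      exact dvd_add (dvd_add (hV1.mul_right _) (hU1.mul_right _)) h5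

/-- `-3` is a square modulo a prime `q ≡ 1 mod 3`. -/
lemma exists_sq_neg_three (q : ℕ) [Fact q.Prime] (hq : q % 3 = 1) :
    ∃ w : ZMod q, w ^ 2 = -3 := by
  have hdvd : 3 ∣ Nat.card (ZMod q)ˣ := by
    rw [Nat.card_eq_fintype_card, ZMod.card_units]
    omega
  have : Fact (Nat.Prime 3) := ⟨Nat.prime_three⟩
  obtain ⟨z, hz⟩ := exists_prime_orderOf_dvd_card' 3 hdvd
  have h1 : (z : ZMod q) ^ 3 = 1 := by
    have : z ^ 3 = 1 := by rw [← hz]; exact pow_orderOf_eq_one z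
    simpa using congrArg Units.val this
  have h2 : (z : ZMod q) ≠ 1 := by
    intro h
    have : z = 1 := Units.ext h
    rw [this, orderOf_one] at hz
    norm_num at hz
  have h3 : (z : ZMod q) ^ 2 + z + 1 = 0 := by
    have : ((z : ZMod q) - 1) * ((z : ZMod q) ^ 2 + z + 1) = 0 := by
      linear_combination h1
    rcases mul_eq_zero.1 this with h | h
    · exact absurd (sub_eq_zero.1 h) h2
    · exact h
  exact ⟨2 * z + 1, by linear_combination 4 * h3⟩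

/-- The initial solution. -/
lemma choose_X (q : ℕ) (hq : q.Prime) (hq3 : q % 3 = 1) (hq7 : 7 ≤ q) :
    ∃ X₀ : ℤ, 0 ≤ X₀ ∧ (24 : ℤ) ∣ X₀ - 5 ∧ (q : ℤ) ∣ X₀ ^ 2 + 108 ∧
      ¬ (q : ℤ) ^ 2 ∣ X₀ ^ 2 + 108 := by
  have : Fact q.Prime := ⟨hq⟩
  obtain ⟨w, hw⟩ := exists_sq_neg_three q hq3
  have hqZ : Prime (q : ℤ) := Nat.prime_iff_prime_int.1 hq
  have hcop : Nat.Coprime 24 q := by
    rw [Nat.coprime_comm, Nat.Prime.coprime_iff_not_dvd hq]
    intro h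
    have : q ∣ 2 ^ 3 * 3 := by simpa using h
    rcases (Nat.Prime.dvd_mul hq).1 this with h | h
    · have := (Nat.prime_dvd_prime_iff_eq hq Nat.prime_two).1 (hq.dvd_of_dvd_pow h)
      omega
    · have := (Nat.prime_dvd_prime_iff_eq hq Nat.prime_three).1 h
      omega
  -- a representative
  obtain ⟨k, hk1, hk2⟩ := Nat.chineseRemainder hcop 5 (6 * w).val
  have hkq : ((k : ℕ) : ZMod q) = 6 * w := by
    have := (ZMod.natCast_eq_natCast_iff _ _ _).2 hk2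
    rw [this, ZMod.natCast_val, ZMod.cast_id', id]
  have hk24 : (24 : ℤ) ∣ (k : ℤ) - 5 := by
    have := (Nat.modEq_iff_dvd.1 hk1.symm)
    simpa using this
  have hdiv : ∀ j : ℤ, (q : ℤ) ∣ ((k : ℤ) + 24 * q * j) ^ 2 + 108 := by
    intro j
    rw [← ZMod.intCast_zmod_eq_zero_iff_dvd]
    push_cast
    rw [hkq, ZMod.natCast_self]
    linear_combination 36 * hw
  have hkn : ¬ (q : ℤ) ∣ (k : ℤ) := by
    intro h
    have h1 := hdiv 0
    have h2 : (q : ℤ) ∣ 108 := by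
      have h3 : (q : ℤ) ∣ (k : ℤ) ^ 2 := dvd_pow h (by norm_num)
      have h4 : (108 : ℤ) = (((k : ℤ) + 24 * q * 0) ^ 2 + 108) - (k : ℤ) ^ 2 := by ring
      rw [h4]; exact dvd_sub h1 h3
    have h5 : q ∣ 2 ^ 2 * 3 ^ 3 := by exact_mod_cast h2
    rcases (Nat.Prime.dvd_mul hq).1 h5 with h | h
    · have := (Nat.prime_dvd_prime_iff_eq hq Nat.prime_two).1 (hq.dvd_of_dvd_pow h)
      omega
    · have := (Nat.prime_dvd_prime_iff_eq hq Nat.prime_three).1 (hq.dvd_of_dvd_pow h)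
      omega
  by_cases hA : (q : ℤ) ^ 2 ∣ (k : ℤ) ^ 2 + 108
  · refine ⟨(k : ℤ) + 24 * q * 1, by positivity, ?_, hdiv 1, ?_⟩
    · have : (k : ℤ) + 24 * q * 1 - 5 = ((k : ℤ) - 5) + 24 * q := by ring
      rw [this]
      exact dvd_add hk24 ⟨q, rfl⟩
    · intro hB
      have h1 : (q : ℤ) ^ 2 ∣ q * (48 * k) := by
        have e : (q : ℤ) * (48 * k) =
            (((k : ℤ) + 24 * q * 1) ^ 2 + 108) - ((k : ℤ) ^ 2 + 108) - q ^ 2 * 576 := by ring
        rw [e]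
        exact dvd_sub (dvd_sub hB hA) ⟨576, rfl⟩
      have h2 : (q : ℤ) ∣ 48 * k := by
        rw [sq] at h1
        exact (mul_dvd_mul_iff_left hqZ.ne_zero).1 h1
      rcases hqZ.dvd_or_dvd h2 with h | h
      · have h5 : q ∣ 2 ^ 4 * 3 := by exact_mod_cast h
        rcases (Nat.Prime.dvd_mul hq).1 h5 with h | h
        · have := (Nat.prime_dvd_prime_iff_eq hq Nat.prime_two).1 (hq.dvd_of_dvd_pow h)
          omega
        · have := (Nat.prime_dvd_prime_iff_eq hq Nat.prime_three).1 h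
          omega
      · exact hkn h
  · exact ⟨(k : ℤ), by positivity, hk24, by simpa using hdiv 0, hA⟩

/-- The data of the construction: `N` is the discriminant of the base field. -/
theorem exists_data (N : ℤ) (hN : N ≠ 0) :
    ∃ (q : ℕ) (D : ℤ), q.Prime ∧ ¬ (q : ℤ) ∣ N ∧ 0 < D ∧ ∀ T : ℕ, ∃ A Z : ℤ, (T : ℤ) ≤ A ∧
      A ^ 3 - 1728 = D * (A - 12) * Z ^ 2 ∧ A % 8 = 7 ∧ ¬ (3 : ℤ) ∣ A ∧ D % 8 = 5 ∧ Z % 4 = 1 ∧
      (q : ℤ) ∣ D * (A - 12) ∧ ¬ (q : ℤ) ^ 2 ∣ D * (A - 12) := by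
  obtain ⟨q, hq, hqN, hq1⟩ := Nat.exists_prime_gt_modEq_one (k := 3) (N.natAbs + 7) (by norm_num)
  have hq3 : q % 3 = 1 := hq1
  have hq7 : 7 ≤ q := by omega
  have hqZ : Prime (q : ℤ) := Nat.prime_iff_prime_int.1 hq
  obtain ⟨X₀, hX0, hX24, hXq, hXq2⟩ := choose_X q hq hq3 hq7
  refine ⟨q, X₀ ^ 2 + 108, hq, ?_, by positivity, fun T => ?_⟩
  · intro h
    have h1 : q ∣ N.natAbs := Int.natCast_dvd.1 h
    have := Nat.le_of_dvd (Int.natAbs_pos.2 hN) h1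
    omega
  have hD : 0 < X₀ ^ 2 + 108 := by positivity
  have hsq : ¬ IsSquare (X₀ ^ 2 + 108) := by
    rintro ⟨r, hr⟩
    apply hXq2
    rw [hr] at hXq ⊢
    have : (q : ℤ) ∣ r := by
      rcases hqZ.dvd_or_dvd hXq with h | h <;> exact h
    rw [sq]; exact mul_dvd_mul this this
  obtain ⟨X, Z, h1, h2, h3, h4, h5⟩ := solutions (X₀ ^ 2 + 108) (24 * q) X₀ hD hsq
    (by have : (0 : ℤ) < q := by exact_mod_cast hq.pos
        positivity) hX0 rfl (T + 6)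
  have hM24 : (24 : ℤ) ∣ 24 * q := ⟨q, rfl⟩
  have hMq : (q : ℤ) ∣ 24 * q := ⟨24, by ring⟩
  have c1 : (24 : ℤ) ∣ X - X₀ := hM24.trans h4
  have c2 : (q : ℤ) ∣ X - X₀ := hMq.trans h4
  have c3 : (24 : ℤ) ∣ Z - 1 := hM24.trans h5
  have c4 : (24 : ℤ) ∣ X - 5 := by
    have : X - 5 = (X - X₀) + (X₀ - 5) := by ring
    rw [this]; exact dvd_add c1 hX24
  -- `q` does not divide `X - 18`
  have hq18 : ¬ (q : ℤ) ∣ X - 18 := by
    intro h
    have h6 : (q : ℤ) ∣ X₀ - 18 := by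
      have : X₀ - 18 = (X - 18) - (X - X₀) := by ring
      rw [this]; exact dvd_sub h c2
    have h7 : (q : ℤ) ∣ 432 := by
      have : (432 : ℤ) = (X₀ ^ 2 + 108) - (X₀ - 18) * (X₀ + 18) := by ring
      rw [this]; exact dvd_sub hXq (h6.mul_right _)
    have h8 : q ∣ 2 ^ 4 * 3 ^ 3 := by exact_mod_cast h7
    rcases (Nat.Prime.dvd_mul hq).1 h8 with h | h
    · have := (Nat.prime_dvd_prime_iff_eq hq Nat.prime_two).1 (hq.dvd_of_dvd_pow h)
      omega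
    · have := (Nat.prime_dvd_prime_iff_eq hq Nat.prime_three).1 (hq.dvd_of_dvd_pow h)
      omega
  have e18 : X - 6 - 12 = X - 18 := by ring
  refine ⟨X - 6, Z, by push_cast at h1; linarith, ?_, by omega, by omega, ?_, by omega, ?_, ?_⟩
  · linear_combination (X - 18) * h3
  · obtain ⟨t, ht⟩ := hX24
    have hX : X₀ = 24 * t + 5 := by linarith
    rw [hX]
    have : (24 * t + 5) ^ 2 + 108 = 8 * (72 * t ^ 2 + 30 * t + 16) + 5 := by ring
    rw [this]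
    omega
  · exact hXq.mul_right _
  · rw [e18]
    intro h
    apply hXq2
    exact (IsCoprime.pow_left ((Prime.coprime_iff_not_dvd hqZ).2 hq18)).dvd_of_dvd_mul_right h

end FreySharp
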